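import Pool.Agent.Lib.CD.SpecD
import Pool.Agent.Lib.MP_ff3ed7_lc.OldTotalSigma2

set_option autoImplicit false

namespace Pool.Agent.CD

open Finset Pool.Agent.Lib.MP_ff3ed7_lc Pool.Agent.Lib.MP_ff3ed7_lc.B

theorem tBaS : sBaS := by
  intro ℓ
  obtain ⟨N, f, h1, h2, h3, h4⟩ := Pool.Agent.Lib.MP_ff3ed7_lc.OldTotalSigma2.result ℓ
  refine ⟨N, f, h1, h2, ?_, h4⟩
  obtain ⟨T, hT, hyn⟩ := h3
  exact ⟨T, fun ρ m => (hT ρ m).mono (by norm_num), hyn⟩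

end Pool.Agent.CD
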