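import Pool.Agent.Lib.CD.SpecB
import Pool.Agent.Lib.MP_ff3ed7_lc.PLT.OldTotalChain

/-!
PROJECT CD, module Bas (helper56): the query functions, from `OldTotalChain.result`.
-/

set_option autoImplicit false

namespace Pool.Agent.CD

open Finset

theorem tBas : sBas := by
  intro ℓ
  obtain ⟨⟨N, f, h1, h2, h3, h4, _⟩, ⟨N', f', k1, k2, k3, k4, k5, k6, _⟩⟩ :=
    Pool.Agent.Lib.MP_ff3ed7_lc.OldTotalChain.result ℓ
  exact ⟨⟨N, f, h1, h2, h3, h4⟩, ⟨N', f', k1, k2, k3, k4, k5, k6⟩⟩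

end Pool.Agent.CD
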