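import Pool.Agent.Lib.CD.SpecA

/-!
CD, section 2, module Blk: the sum over the codes of one block.
-/

set_option autoImplicit false

namespace Pool.Agent.CD

open Finset

namespace Blk_aux

/-- number of positions in use -/
def nn {w : ℕ} (c : Cd w) : ℕ := (univ.filter fun i => (c i).isSome).card

lemma sum_all {w : ℕ} (y : ℝ) : ∑ c : Cd w, y ^ nn c = (1 + 4 * y) ^ w := by
  have h1 : ∀ c : Cd w, y ^ nn c = ∏ i, (if (c i).isSome then y else 1) := by
    intro c
    rw [Finset.prod_ite, Finset.prod_const_one, mul_one, Finset.prod_const]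
    rfl
  have h2 : ∏ _i : Fin w, ∑ o ∈ (univ : Finset (Option (Bool × Bool))),
      (if o.isSome then y else 1) = ∑ c : Cd w, ∏ i, (if (c i).isSome then y else 1) := by
    rw [Finset.prod_univ_sum, Fintype.piFinset_univ]
  have h3 : ∑ o ∈ (univ : Finset (Option (Bool × Bool))), (if o.isSome then y else 1)
      = 1 + 4 * y := by
    rw [Fintype.sum_option]
    simp [Fintype.card_prod]
  rw [Finset.sum_congr rfl fun c _ => h1 c, ← h2, Finset.prod_const, h3, Finset.card_univ,
    Fintype.card_fin]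

lemma pow_le {w : ℕ} (hw : 1 ≤ w) : (1 + 4 * (1 / (32 * (w : ℝ)))) ^ w ≤ 8 / 7 := by
  have hw0 : (0 : ℝ) < w := by exact_mod_cast hw
  have h1 : 1 + 4 * (1 / (32 * (w : ℝ))) ≤ Real.exp (1 / (8 * w)) := by
    have h := Real.add_one_le_exp (1 / (8 * (w : ℝ)))
    have e : 1 + 4 * (1 / (32 * (w : ℝ))) = 1 / (8 * (w : ℝ)) + 1 := by
      field_simp
      ring
    rw [e]
    exact h
  have h2 : (1 + 4 * (1 / (32 * (w : ℝ)))) ^ w ≤ Real.exp (1 / (8 * w)) ^ w :=
    pow_le_pow_left₀ (by positivity) h1 w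
  have h3 : Real.exp (1 / (8 * (w : ℝ))) ^ w = Real.exp (1 / 8) := by
    rw [← Real.exp_nat_mul]
    congr 1
    field_simp
  have h4 : Real.exp (1 / 8) ≤ 8 / 7 := by
    have h5 := Real.add_one_le_exp (-(1 / 8) : ℝ)
    have h6 : Real.exp (1 / 8) * Real.exp (-(1 / 8)) = 1 := by
      rw [← Real.exp_add]
      norm_num
    have h7 : 0 < Real.exp (1 / 8) := Real.exp_pos _
    nlinarith
  rw [h3] at h2
  exact h2.trans h4

end Blk_aux

open Blk_aux in
theorem tBlk : sBlk := by
  intro S w hw
  have hw0 : (0 : ℝ) < w := by exact_mod_cast hw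
  set y : ℝ := 1 / (32 * (w : ℝ)) with hy
  have hy0 : 0 ≤ y := by positivity
  have e1 : ∑ e ∈ (univ : Finset (El S w)).filter (fun e => 1 ≤ cnt e),
      (if e.1.isSome then (1 / (S : ℝ)) else 1) * y ^ cnt e
      = (∑ o : Option (Fin S), (if o.isSome then (1 / (S : ℝ)) else 1)) *
        ∑ c : Cd w, (if 1 ≤ nn c then y ^ nn c else 0) := by
    rw [Finset.sum_filter, Fintype.sum_prod_type, Finset.sum_mul_sum]
    refine Finset.sum_congr rfl fun o _ => Finset.sum_congr rfl fun c _ => ?_
    have hc : cnt ((o, c) : El S w) = nn c := rfl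
    rw [hc]
    by_cases h : 1 ≤ nn c
    · rw [if_pos h, if_pos h]
    · rw [if_neg h, if_neg h, mul_zero]
  have e2 : ∑ o : Option (Fin S), (if o.isSome then (1 / (S : ℝ)) else 1) ≤ 2 := by
    rw [Fintype.sum_option]
    simp only [Option.isSome_none, Option.isSome_some, if_true, Finset.sum_const,
      Finset.card_univ, Fintype.card_fin, nsmul_eq_mul]
    have h : (S : ℝ) * (1 / S) ≤ 1 := by
      rcases Nat.eq_zero_or_pos S with h0 | h0
      · subst h0
        simp
      · have : (0 : ℝ) < S := by exact_mod_cast h0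
        rw [mul_one_div_cancel this.ne']
    have h' : (if (false = true) then (1 / (S : ℝ)) else 1) = 1 := by simp
    rw [h']
    linarith
  have e3 : ∑ c : Cd w, (if 1 ≤ nn c then y ^ nn c else 0) ≤ 1 / 7 := by
    have h1 : ∑ c : Cd w, (if 1 ≤ nn c then y ^ nn c else 0) + 1 ≤ ∑ c : Cd w, y ^ nn c := by
      have h2 : ∑ c : Cd w, y ^ nn c = ∑ c : Cd w, (if 1 ≤ nn c then y ^ nn c else 0)
          + ∑ c : Cd w, (if 1 ≤ nn c then 0 else y ^ nn c) := by
        rw [← Finset.sum_add_distrib]
        refine Finset.sum_congr rfl fun c _ => ?_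
        by_cases h : 1 ≤ nn c
        · rw [if_pos h, if_pos h, add_zero]
        · rw [if_neg h, if_neg h, zero_add]
      have h3 : (1 : ℝ) ≤ ∑ c : Cd w, (if 1 ≤ nn c then 0 else y ^ nn c) := by
        have h4 := Finset.single_le_sum (f := fun c : Cd w => if 1 ≤ nn c then 0 else y ^ nn c)
          (fun c _ => by
            by_cases h : 1 ≤ nn c
            · rw [if_pos h]
            · rw [if_neg h]; positivity) (Finset.mem_univ (fun _ => none : Cd w))
        have h5 : nn (fun _ => none : Cd w) = 0 := by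
          simp [nn]
        rw [h5] at h4
        simpa using h4
      rw [h2]
      linarith
    have h6 := sum_all (w := w) y
    have h7 := pow_le hw
    rw [h6] at h1
    linarith
  have e4 : 0 ≤ ∑ c : Cd w, (if 1 ≤ nn c then y ^ nn c else 0) :=
    Finset.sum_nonneg fun c _ => by
      by_cases h : 1 ≤ nn c
      · rw [if_pos h]; positivity
      · rw [if_neg h]
  rw [e1]
  nlinarith

end Pool.Agent.CD
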