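import Pool.Agent.Lib.CD.SpecA

/-!
# CD, module Cod: the sum over all codes
-/

set_option autoImplicit false

namespace Pool.Agent.CD

open Finset

namespace Cod_aux

/-- the weight of an element of a code list -/
noncomputable def v {S w : ℕ} (e : El S w) : ℝ :=
  (if e.1.isSome then (1 / (S : ℝ)) else 1) * (1 / (32 * (w : ℝ))) ^ cnt e

theorem v_nonneg {S w : ℕ} (e : El S w) : 0 ≤ v e := by
  unfold v
  split_ifs <;> positivity

theorem tot_cons {S w : ℕ} (e : El S w) (l : List (El S w)) : tot (e :: l) = cnt e + tot l := by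
  unfold tot
  rw [List.map_cons, List.sum_cons]

theorem ops_cons {S w : ℕ} (e : El S w) (l : List (El S w)) :
    ops (e :: l) = (if e.1.isSome then 1 else 0) + ops l := by
  unfold ops
  rw [List.filter_cons]
  by_cases h : e.1.isSome = true
  · rw [if_pos h, if_pos h, List.length_cons]
    ring
  · rw [if_neg h, if_neg h]
    ring

theorem prod_v {S w : ℕ} (l : List (El S w)) :
    (l.map v).prod = (1 / (S : ℝ)) ^ ops l * (1 / (32 * (w : ℝ))) ^ tot l := by
  induction l with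
  | nil => simp [ops, tot]
  | cons e l ih =>
    rw [List.map_cons, List.prod_cons, ih, tot_cons, ops_cons]
    unfold v
    by_cases h : e.1.isSome = true
    · rw [if_pos h, if_pos h, pow_add, pow_add, pow_one]
      ring
    · rw [if_neg h, if_neg h, zero_add, pow_add]
      ring

theorem exists_some {S w : ℕ} (l : List (El S w)) (h : 0 < ops l) : 1 ≤ S := by
  unfold ops at h
  obtain ⟨e, he⟩ := List.exists_mem_of_length_pos h
  have h2 := (List.mem_filter.1 he).2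
  obtain ⟨j, hj⟩ := Option.isSome_iff_exists.1 h2
  have := j.isLt
  omega

theorem one {S w t : ℕ} (hS : S ≤ 2 ^ w) (l : List (El S w)) (h1 : t < tot l)
    (h2 : ops l * w ≤ tot l) :
    (1 / (256 * (w : ℝ))) ^ tot l ≤ (1 / 4) ^ t * (l.map v).prod := by
  have e1 : (1 / (256 * (w : ℝ))) ^ tot l =
      (1 / 4 : ℝ) ^ tot l * ((1 / 2 : ℝ) ^ tot l * (1 / (32 * (w : ℝ))) ^ tot l) := by
    rw [← mul_pow, ← mul_pow]
    congr 1
    rw [show (256 : ℝ) * (w : ℝ) = 4 * (2 * (32 * (w : ℝ))) by ring]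
    rw [one_div_mul_one_div, one_div_mul_one_div]
  have e2 : (1 / 4 : ℝ) ^ tot l ≤ (1 / 4) ^ t :=
    pow_le_pow_of_le_one (by norm_num) (by norm_num) h1.le
  have e3 : (1 / 2 : ℝ) ^ tot l ≤ (1 / (S : ℝ)) ^ ops l := by
    rcases Nat.eq_zero_or_pos (ops l) with h0 | h0
    · rw [h0, pow_zero]
      exact pow_le_one₀ (by norm_num) (by norm_num)
    · have hS1 := exists_some l h0
      have hS0 : (0 : ℝ) < (S : ℝ) := by exact_mod_cast hS1
      have hS2 : (S : ℝ) ≤ 2 ^ w := by exact_mod_cast hS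
      calc (1 / 2 : ℝ) ^ tot l ≤ (1 / 2 : ℝ) ^ (ops l * w) :=
            pow_le_pow_of_le_one (by norm_num) (by norm_num) h2
        _ = ((1 / 2 : ℝ) ^ w) ^ ops l := by rw [← pow_mul, mul_comm]
        _ ≤ (1 / (S : ℝ)) ^ ops l := by
            apply pow_le_pow_left₀ (by positivity)
            rw [one_div_pow]
            exact one_div_le_one_div_of_le hS0 hS2
  rw [e1, prod_v]
  have p1 : (0 : ℝ) ≤ (1 / (32 * (w : ℝ))) ^ tot l := by positivity
  have p2 : (0 : ℝ) ≤ (1 / 2 : ℝ) ^ tot l := by positivity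
  have p3 : (0 : ℝ) ≤ (1 / 4 : ℝ) ^ t := by positivity
  exact mul_le_mul e2 (mul_le_mul_of_nonneg_right e3 p1) (mul_nonneg p2 p1) p3

end Cod_aux

theorem tCod : sLSm → sBlk → sCod := by
  intro hLS hBlk S w hw hS t F hF
  have h1 : ∑ l ∈ F, (1 / (256 * (w : ℝ))) ^ tot l ≤
      ∑ l ∈ F, (1 / 4 : ℝ) ^ t * (l.map Cod_aux.v).prod :=
    Finset.sum_le_sum fun l hl => Cod_aux.one hS l (hF l hl).1 (hF l hl).2.1
  have h2 := hLS (El S w) ((univ : Finset (El S w)).filter (fun e => 1 ≤ cnt e)) Cod_aux.v (2 / 7)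
    (fun e _ => Cod_aux.v_nonneg e) (hBlk S w hw) (by norm_num) F (fun l hl => by
      refine ⟨?_, fun e he => mem_filter.2 ⟨mem_univ _, (hF l hl).2.2 e he⟩⟩
      intro h0
      have h3 := (hF l hl).1
      rw [h0] at h3
      simp [tot] at h3)
  have h4 : (0 : ℝ) ≤ (1 / 4 : ℝ) ^ t := by positivity
  calc ∑ l ∈ F, (1 / (256 * (w : ℝ))) ^ tot l
      ≤ ∑ l ∈ F, (1 / 4 : ℝ) ^ t * (l.map Cod_aux.v).prod := h1
    _ = (1 / 4 : ℝ) ^ t * ∑ l ∈ F, (l.map Cod_aux.v).prod := by rw [Finset.mul_sum]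
    _ ≤ (1 / 4 : ℝ) ^ t * (2 / 7 / (1 - 2 / 7)) := mul_le_mul_of_nonneg_left h2 h4
    _ ≤ (1 / 4 : ℝ) ^ t * 1 := mul_le_mul_of_nonneg_left (by norm_num) h4
    _ = (1 / 4) ^ t := mul_one _

end Pool.Agent.CD
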