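import Pool.Agent.Lib.CD.SpecA

/-!
Exi: existence of the whole trace (section 2 of note 5285).
-/

set_option autoImplicit false

namespace Pool.Agent.CD

open Finset

namespace Exi_aux

variable {V : Type} [Fintype V] [DecidableEq V] {S w : ℕ}

theorem run_append {TL : ℕ → List (Restr V)} {s s' s'' : St V} {l l' : List (El S w)}
    (h : Run TL s l s') (h' : Run TL s' l' s'') : Run TL s (l ++ l') s'' := by
  induction h with
  | nil s => exact h'
  | cons hs _ ih => exact Run.cons hs (ih h')

theorem tot_append (l l' : List (El S w)) : tot (l ++ l') = tot l + tot l' := by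
  simp [tot]

theorem ops_append (l l' : List (El S w)) : ops (l ++ l') = ops l + ops l' := by
  simp [ops]

/-- opening of the stage by the first element -/
theorem run_open {TL : ℕ → List (Restr V)} {s s' : St V} {l : List (El S w)} (j : Fin S)
    (h : Run TL (opn s (some j)) l s') (h0 : ops l = 0) (h1 : 0 < tot l) :
    ∃ l' : List (El S w), Run TL s l' s' ∧ tot l' = tot l ∧ ops l' = 1 := by
  cases h with
  | nil => simp [tot] at h1
  | @cons _ s1 _ e l2 hs hr =>
    obtain ⟨o, c⟩ := e
    cases o with
    | some i => simp [ops] at h0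
    | none =>
      have hs' : Stp TL s ((some j, c) : El S w) s1 := hs
      refine ⟨(some j, c) :: l2, Run.cons hs' hr, rfl, ?_⟩
      have e0 : ops (((none, c) : El S w) :: l2) = ops l2 := by simp [ops]
      have e1 : ops (((some j, c) : El S w) :: l2) = ops l2 + 1 := by simp [ops]
      omega

end Exi_aux

open Exi_aux in
theorem tExi : sISt → sExi := by
  intro hI V _ _ S w TL tt g hF t
  induction t using Nat.strong_induction_on with
  | _ t ih =>
    intro s hs
    have h1 : ¬ ∀ j < S, Dt (g j) w s.mt := fun h => hs (Tr.leaf _ _ h)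
    push Not at h1
    obtain ⟨j, hj, hD⟩ := h1
    obtain ⟨K, hK, hst, hrun⟩ := hI V S w TL j (tt j) (g j) (hF j hj).1 (hF j hj).2 w s.mt hD
    have key : ∀ τ : V → Bool, ∃ (l : List (El S w)) (s' : St V),
        Run TL s l s' ∧ tot l = K.card ∧ ops l = 1 ∧ s'.mt = ovr s.mt K τ := by
      intro τ
      obtain ⟨l, s', hr, htot, hops, _, hmt⟩ := hrun τ s.mt s.mg
      obtain ⟨l', hr', htot', hops'⟩ := run_open (⟨j, hj⟩ : Fin S) (s := s) hr hops (by omega)
      exact ⟨l', s', hr', by omega, hops', hmt⟩
    by_cases ht : t < K.card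
    · obtain ⟨l, s', hr, htot, hops, _⟩ := key fun _ => true
      refine ⟨l, s', hr, by omega, ?_⟩
      rw [hops, htot, one_mul]
      exact hK.le
    · have hex : ∃ τ : V → Bool,
          ¬ Tr (fun r => ∀ j < S, Dt (g j) w r) (t - K.card) (ovr s.mt K τ) := by
        by_contra hcon
        push Not at hcon
        have := Tr.of_over K s.mt hst hcon
        rw [Nat.sub_add_cancel (not_lt.mp ht)] at this
        exact hs this
      obtain ⟨τ, hτ⟩ := hex
      obtain ⟨l, s', hr, htot, hops, hmt⟩ := key τ
      rw [← hmt] at hτ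
      obtain ⟨l2, s'', hr2, htot2, hops2⟩ := ih (t - K.card) (by omega) s' hτ
      refine ⟨l ++ l2, s'', run_append hr hr2, ?_, ?_⟩
      · rw [tot_append]
        omega
      · rw [tot_append, ops_append, hops, htot, add_mul, one_mul]
        omega

end Pool.Agent.CD
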