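import Pool.Agent.Lib.CD.SpecA

/-!
PROJECT CD (note 5285), module ISt (helper92): the path inside a stage.
-/

set_option autoImplicit false

namespace Pool.Agent.CD

open Finset

namespace ISt_aux

theorem ovr_ovr {V : Type} [DecidableEq V] (r : Restr V) (b K : Finset V) (τ : V → Bool) :
    ovr (ovr r b τ) K τ = ovr r (b ∪ K) τ := by
  funext v
  unfold ovr
  by_cases h1 : v ∈ K
  · rw [if_pos h1, if_pos (Finset.mem_union_right _ h1)]
  · by_cases h2 : v ∈ b
    · rw [if_neg h1, if_pos h2, if_pos (Finset.mem_union_left _ h2)]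
    · have h3 : v ∉ b ∪ K := by
        rw [Finset.mem_union]
        exact fun h => h.elim h2 h1
      rw [if_neg h1, if_neg h2, if_neg h3]

theorem fre_star {V : Type} [Fintype V] [DecidableEq V] (T m : Restr V) :
    ∀ v ∈ fre T m, m v = none := by
  intro v hv
  unfold fre at hv
  exact Option.isNone_iff_eq_none.mp (Finset.mem_filter.mp hv).2.2

theorem tot_cons {S w : ℕ} (e : El S w) (l : List (El S w)) : tot (e :: l) = cnt e + tot l := by
  unfold tot
  rw [List.map_cons, List.sum_cons]

theorem tot_nil {S w : ℕ} : tot ([] : List (El S w)) = 0 := rfl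

theorem ops_cons {S w : ℕ} (c : Cd w) (l : List (El S w)) :
    ops (((none : Option (Fin S)), c) :: l) = ops l := by
  unfold ops
  rw [List.filter_cons_of_neg (by simp)]

theorem ops_nil {S w : ℕ} : ops ([] : List (El S w)) = 0 := rfl

end ISt_aux

open ISt_aux in
theorem tISt : sB1 → sStE → sISt := by
  intro hB1 hStE V _ _ S w TL j t g hsz hg m
  induction m using Nat.strong_induction_on with
  | _ m ih =>
    intro μ hμ
    have hc : ¬ Const g μ := fun h => hμ (Tr.leaf _ _ h)
    obtain ⟨T, hT, hfst, hfre⟩ := hB1 V (TL j) t g μ hg hc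
    have hbst := fre_star T μ
    have hb1 : 1 ≤ (fre T μ).card := Finset.card_pos.mpr hfre
    by_cases hmb : m < (fre T μ).card
    · refine ⟨fre T μ, hmb, hbst, fun τ mt mg => ?_⟩
      obtain ⟨c, hc1, hc2⟩ := hStE V S w TL ⟨j, μ, mt, mg⟩ none T τ τ hfst (hsz T hT) hfre
      refine ⟨[(none, c)], _, Run.cons hc2 (Run.nil _), ?_, ?_, rfl, rfl⟩
      · rw [tot_cons, tot_nil, add_zero]
        exact hc1
      · rw [ops_cons, ops_nil]
    · have hmb' : (fre T μ).card ≤ m := not_lt.mp hmb
      have hex : ∃ π : V → Bool, ¬ Dt g (m - (fre T μ).card) (ovr μ (fre T μ) π) := by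
        by_contra hcon
        have hcon' : ∀ π : V → Bool, Tr (Const g) (m - (fre T μ).card) (ovr μ (fre T μ) π) := by
          intro π
          by_contra h
          exact hcon ⟨π, h⟩
        have h1 := Tr.of_over (fre T μ) μ hbst hcon'
        rw [Nat.sub_add_cancel hmb'] at h1
        exact hμ h1
      obtain ⟨π, hπ⟩ := hex
      obtain ⟨K', hK1, hK2, hK3⟩ := ih (m - (fre T μ).card) (by omega) (ovr μ (fre T μ) π) hπ
      have hnb : ∀ v ∈ K', v ∉ fre T μ := by
        intro v hv hvb
        have h1 := hK2 v hv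
        unfold ovr at h1
        rw [if_pos hvb] at h1
        exact absurd h1 (by simp)
      have hdisj : Disjoint (fre T μ) K' :=
        Finset.disjoint_left.mpr fun v hv hv' => hnb v hv' hv
      have hcard : ((fre T μ) ∪ K').card = (fre T μ).card + K'.card :=
        Finset.card_union_of_disjoint hdisj
      refine ⟨fre T μ ∪ K', by omega, ?_, fun τ mt mg => ?_⟩
      · intro v hv
        rcases Finset.mem_union.mp hv with hv | hv
        · exact hbst v hv
        · have h1 := hK2 v hv
          unfold ovr at h1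
          rwa [if_neg (hnb v hv)] at h1
      · obtain ⟨c, hc1, hc2⟩ := hStE V S w TL ⟨j, μ, mt, mg⟩ none T π τ hfst (hsz T hT) hfre
        obtain ⟨l, s', hrun, htot, hops, hj, hmt⟩ :=
          hK3 τ (ovr mt (fre T μ) τ) (put (fre T μ) T mg)
        refine ⟨(none, c) :: l, s', Run.cons hc2 hrun, ?_, ?_, hj, ?_⟩
        · have hc1' : cnt ((none, c) : El S w) = (fre T μ).card := hc1
          rw [tot_cons, htot, hcard, hc1']
        · rw [ops_cons, hops]
        · rw [hmt, ovr_ovr]

end Pool.Agent.CD
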