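import Pool.Agent.Lib.CD.SpecA

/-!
Module Inj of theorem CD (note 5285): the final restriction and the code determine the initial
restriction.
-/

set_option autoImplicit false

namespace Pool.Agent.CD

open Finset

namespace Inj_aux

variable {V : Type} [Fintype V] [DecidableEq V]

omit [Fintype V] [DecidableEq V] in
theorem fal_mono {m m' T : Restr V} (h : RLe m m') (hf : fal m T) : fal m' T := by
  obtain ⟨v, b, h1, h2⟩ := hf
  exact ⟨v, b, h1, h v _ h2⟩

omit [Fintype V] [DecidableEq V] in
/-- (B) -/
theorem fst_mono {m m' : Restr V} (h : RLe m m') {T : Restr V} (hT : ¬ fal m' T) :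
    ∀ TL : List (Restr V), fst TL m = some T → fst TL m' = some T := by
  intro TL
  induction TL with
  | nil =>
    intro h1
    simp [fst] at h1
  | cons T0 TL ih =>
    intro h1
    by_cases h0 : fal m T0
    · have h0' : fal m' T0 := fal_mono h h0
      have h2 : fst TL m = some T := by
        simpa [fst, List.find?_cons, h0] using h1
      have h3 := ih h2
      simpa [fst, List.find?_cons, h0'] using h3
    · have h2 : T0 = T := by
        simpa [fst, List.find?_cons, h0] using h1
      subst h2
      simp [fst, hT]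

omit [Fintype V] [DecidableEq V] in
theorem not_fal_of_fst {m : Restr V} {TL : List (Restr V)} {T : Restr V}
    (h : fst TL m = some T) : ¬ fal m T := by
  have := List.find?_some h
  simpa using this

omit [Fintype V] [DecidableEq V] in
theorem opn_inv {S : ℕ} {s : St V} (h : Inv s) (o : Option (Fin S)) : Inv (opn s o) := by
  cases o with
  | none => exact h
  | some j => exact fun v => ⟨(h v).2, (h v).2⟩

omit [Fintype V] [DecidableEq V] in
theorem opn_mg {S : ℕ} (s : St V) (o : Option (Fin S)) : (opn s o).mg = s.mg := by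
  cases o <;> rfl

theorem stp_rle {S w : ℕ} {TL : ℕ → List (Restr V)} {s s' : St V} {e : El S w}
    (hI : Inv s) (h : Stp TL s e s') : RLe s.mg s'.mg := by
  obtain ⟨T, -, -, -, -, rfl⟩ := h
  intro v b hv
  have hI' := opn_inv hI e.1
  have hm : (opn s e.1).mg v = some b := by rw [opn_mg]; exact hv
  by_cases hK : v ∈ fre T (opn s e.1).mp
  · exfalso
    have h1 : (opn s e.1).mp v = none := by
      have := (mem_filter.mp hK).2.2
      simpa using this
    have h2 := (hI' v).1.mp h1
    rw [h2] at hm
    exact absurd hm (by simp)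
  · simp only [put, hK, if_false]
    exact hm

theorem run_rle (hSI : sSIn) {S w : ℕ} {TL : ℕ → List (Restr V)} {s s' : St V}
    {l : List (El S w)} (h : Run TL s l s') : Inv s → RLe s.mg s'.mg := by
  induction h with
  | nil s => exact fun _ => RLe.refl _
  | cons hS _ ih =>
    intro hI
    exact (stp_rle hI hS).trans (ih (hSI V S w TL _ _ _ hI hS))

/-- hypotheses of (C) -/
structure Hyp (s₁ s₂ : St V) (U : Finset V) : Prop where
  i1 : Inv s₁
  i2 : Inv s₂
  j : s₁.j = s₂.j
  p : ∀ v ∈ U, s₁.mp v = s₂.mp v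
  t : ∀ v ∈ U, s₁.mt v = s₂.mt v
  g : ∀ v ∈ U, s₁.mg v = s₂.mg v
  n : ∀ v ∈ U, s₁.mg v ≠ none
  p1 : ∀ v, v ∉ U → s₁.mp v = s₁.mg v
  t1 : ∀ v, v ∉ U → s₁.mt v = s₁.mg v
  p2 : ∀ v, v ∉ U → s₂.mp v = s₂.mg v
  t2 : ∀ v, v ∉ U → s₂.mt v = s₂.mg v

omit [Fintype V] [DecidableEq V] in
theorem Hyp.opn {S : ℕ} {s₁ s₂ : St V} {U : Finset V} (h : Hyp s₁ s₂ U) (o : Option (Fin S)) :
    Hyp (CD.opn s₁ o) (CD.opn s₂ o) U := by
  cases o with
  | none => exact h
  | some j =>
    exact ⟨opn_inv h.i1 (some j), opn_inv h.i2 (some j), rfl, h.t, h.t, h.g, h.n, h.t1, h.t1,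
      h.t2, h.t2⟩

theorem main (hSI : sSIn) {S w : ℕ} {TL : ℕ → List (Restr V)} (l : List (El S w)) :
    ∀ (s₁ s₂ s₁' s₂' : St V) (U : Finset V), Hyp s₁ s₂ U → Run TL s₁ l s₁' → Run TL s₂ l s₂' →
      s₁'.mg = s₂'.mg → s₁.mg = s₂.mg := by
  induction l with
  | nil =>
    intro s₁ s₂ s₁' s₂' U _ h1 h2 hF
    cases h1
    cases h2
    exact hF
  | cons e l ih =>
    intro s₁ s₂ s₁' s₂' U H h1 h2 hF
    cases h1 with
    | @cons _ t₁ _ _ _ hS1 hR1 =>
    cases h2 with
    | @cons _ t₂ _ _ _ hS2 hR2 =>
    have hI1 : Inv t₁ := hSI V S w TL _ _ _ H.i1 hS1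
    have hI2 : Inv t₂ := hSI V S w TL _ _ _ H.i2 hS2
    have hA1 : RLe t₁.mg s₁'.mg := run_rle hSI hR1 hI1
    have hA2 : RLe t₂.mg s₁'.mg := by
      rw [hF]
      exact run_rle hSI hR2 hI2
    have hB1 : RLe s₁.mg t₁.mg := stp_rle H.i1 hS1
    have hB2 : RLe s₂.mg t₂.mg := stp_rle H.i2 hS2
    have HO := H.opn e.1
    have hog1 : (opn s₁ e.1).mg = s₁.mg := opn_mg s₁ e.1
    have hog2 : (opn s₂ e.1).mg = s₂.mg := opn_mg s₂ e.1
    obtain ⟨T₁, hf1, hr1, -, -, ht1⟩ := hS1
    obtain ⟨T₂, hf2, hr2, -, -, ht2⟩ := hS2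
    rw [← hog1] at hB1
    rw [← hog2] at hB2
    generalize opn s₁ e.1 = o₁ at *
    generalize opn s₂ e.1 = o₂ at *
    set F := s₁'.mg with hFdef
    -- the common restriction
    have key : ∀ (o t : St V) (T : Restr V), Inv o → fst (TL o.j) o.mp = some T →
        RLe o.mg t.mg → RLe t.mg F → t.mg = put (fre T o.mp) T o.mg →
        (∀ v ∈ U, o.mp v = o₁.mp v) → (∀ v ∈ U, o.mg v ≠ none) →
        (∀ v, v ∉ U → o.mp v = o.mg v) →
        fst (TL o.j) (fun v => if v ∈ U then o₁.mp v else F v) = some T := by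
      intro o t T hI hf hot htF htm hUp hUn hO
      have hle : RLe o.mp (fun v => if v ∈ U then o₁.mp v else F v) := by
        intro v b hv
        by_cases hU : v ∈ U
        · simp only [hU, if_true]
          rw [← hUp v hU]
          exact hv
        · simp only [hU, if_false]
          rw [hO v hU] at hv
          exact htF v b (hot v b hv)
      refine fst_mono hle ?_ _ hf
      rintro ⟨v, b, hTv, hmv⟩
      cases hc : o.mp v with
      | some c =>
        have h3 := hle v c hc
        rw [hmv] at h3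
        have h4 : c = !b := by
          have := Option.some.inj h3
          exact this.symm
        refine not_fal_of_fst hf ⟨v, b, hTv, ?_⟩
        rw [hc, h4]
      | none =>
        have hU : v ∉ U := by
          intro hU
          exact hUn v hU ((hI v).1.mp hc)
        have hK : v ∈ fre T o.mp := by
          simp [fre, hTv, hc]
        have h5 : t.mg v = some b := by
          rw [htm]
          simp only [put, hK, if_true]
          exact hTv
        have h6 := htF v b h5
        simp only [hU, if_false] at hmv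
        rw [h6] at hmv
        have := Option.some.inj hmv
        cases b <;> simp at this
    have htm1 : t₁.mg = put (fre T₁ o₁.mp) T₁ o₁.mg := by rw [ht1]
    have htm2 : t₂.mg = put (fre T₂ o₂.mp) T₂ o₂.mg := by rw [ht2]
    have k1 := key o₁ t₁ T₁ HO.i1 hf1 hB1 hA1 htm1 (fun v _ => rfl) HO.n HO.p1
    have k2 := key o₂ t₂ T₂ HO.i2 hf2 hB2 hA2 htm2 (fun v hv => (HO.p v hv).symm)
      (fun v hv => by rw [← HO.g v hv]; exact HO.n v hv) HO.p2
    rw [← HO.j] at k2
    have hT : T₁ = T₂ := Option.some.inj (k1.symm.trans k2)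
    subst hT
    have hsup : ∀ (m : Restr V) (v : V), v ∈ fre T₁ m → v ∈ sup T₁ := by
      intro m v hv
      exact mem_filter.mpr ⟨mem_univ _, (mem_filter.mp hv).2.1⟩
    have hK : fre T₁ o₁.mp = fre T₁ o₂.mp := by
      ext v
      constructor
      · intro hv
        exact (hr2 v (hsup _ v hv)).mp ((hr1 v (hsup _ v hv)).mpr hv)
      · intro hv
        exact (hr1 v (hsup _ v hv)).mp ((hr2 v (hsup _ v hv)).mpr hv)
    rw [← hK] at ht2 htm2
    set K := fre T₁ o₁.mp with hKdef
    have hKn1 : ∀ v ∈ K, o₁.mp v = none := by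
      intro v hv
      have := (mem_filter.mp hv).2.2
      simpa using this
    have hKn2 : ∀ v ∈ K, o₂.mp v = none := by
      intro v hv
      rw [hK] at hv
      have := (mem_filter.mp hv).2.2
      simpa using this
    have hKs : ∀ v ∈ K, T₁ v ≠ none := by
      intro v hv h
      have := (mem_filter.mp hv).2.1
      rw [h] at this
      simp at this
    have HT : Hyp t₁ t₂ (U ∪ K) := by
      refine ⟨hI1, hI2, ?_, ?_, ?_, ?_, ?_, ?_, ?_, ?_, ?_⟩
      · rw [ht1, ht2]
        exact HO.j
      · intro v hv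
        rw [ht1, ht2]
        by_cases hvK : v ∈ K
        · simp only [put, hvK, if_true]
        · simp only [put, hvK, if_false]
          exact HO.p v ((mem_union.mp hv).resolve_right hvK)
      · intro v hv
        rw [ht1, ht2]
        by_cases hvK : v ∈ K
        · simp only [put, hvK, if_true]
        · simp only [put, hvK, if_false]
          exact HO.t v ((mem_union.mp hv).resolve_right hvK)
      · intro v hv
        rw [ht1, ht2]
        by_cases hvK : v ∈ K
        · simp only [put, hvK, if_true]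
        · simp only [put, hvK, if_false]
          exact HO.g v ((mem_union.mp hv).resolve_right hvK)
      · intro v hv
        rw [ht1]
        by_cases hvK : v ∈ K
        · simp only [put, hvK, if_true]
          exact hKs v hvK
        · simp only [put, hvK, if_false]
          exact HO.n v ((mem_union.mp hv).resolve_right hvK)
      · intro v hv
        rw [mem_union, not_or] at hv
        rw [ht1]
        simp only [put, hv.2, if_false]
        exact HO.p1 v hv.1
      · intro v hv
        rw [mem_union, not_or] at hv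
        rw [ht1]
        simp only [put, hv.2, if_false]
        exact HO.t1 v hv.1
      · intro v hv
        rw [mem_union, not_or] at hv
        rw [ht2]
        simp only [put, hv.2, if_false]
        exact HO.p2 v hv.1
      · intro v hv
        rw [mem_union, not_or] at hv
        rw [ht2]
        simp only [put, hv.2, if_false]
        exact HO.t2 v hv.1
    have hfin := ih t₁ t₂ s₁' s₂' (U ∪ K) HT hR1 hR2 hF
    rw [← hog1, ← hog2]
    funext v
    by_cases hvK : v ∈ K
    · rw [(HO.i1 v).1.mp (hKn1 v hvK), (HO.i2 v).1.mp (hKn2 v hvK)]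
    · have h7 := congrFun hfin v
      rw [htm1, htm2] at h7
      simpa only [put, hvK, if_false] using h7

end Inj_aux

theorem tInj : sSIn → sInj := by
  intro hSI V _ _ S w TL l ρ₁ ρ₂ s₁ s₂ h1 h2 hF
  have H : Inj_aux.Hyp (ini ρ₁) (ini ρ₂) (∅ : Finset V) :=
    ⟨fun v => ⟨Iff.rfl, Iff.rfl⟩, fun v => ⟨Iff.rfl, Iff.rfl⟩, rfl, by simp, by simp, by simp,
      by simp, fun _ _ => rfl, fun _ _ => rfl, fun _ _ => rfl, fun _ _ => rfl⟩
  exact Inj_aux.main hSI l _ _ _ _ ∅ H h1 h2 hF

end Pool.Agent.CD
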