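import Pool.Agent.Lib.CD.SpecA

/-!
Module LSm of theorem CD (note 5285): the sum over nonempty lists.
-/

set_option autoImplicit false

namespace Pool.Agent.CD

open Finset

namespace LSm_aux

theorem prod_nn {α : Type} (E : Finset α) (v : α → ℝ) (hv : ∀ e ∈ E, 0 ≤ v e)
    (l : List α) (hl : ∀ e ∈ l, e ∈ E) : 0 ≤ (l.map v).prod := by
  induction l with
  | nil => simp
  | cons a l ih =>
    simp only [List.map_cons, List.prod_cons]
    exact mul_nonneg (hv a (hl a (by simp))) (ih fun e he => hl e (by simp [he]))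

theorem step {α : Type} [DecidableEq α] (E : Finset α) (v : α → ℝ) (hv : ∀ e ∈ E, 0 ≤ v e)
    (β : ℝ) (hβ : ∑ e ∈ E, v e ≤ β) (F : Finset (List α))
    (hF : ∀ l ∈ F, l ≠ [] ∧ ∀ e ∈ l, e ∈ E) (C : ℝ) (hC : 0 ≤ C)
    (hG : ∑ l ∈ F.image List.tail, (l.map v).prod ≤ C) :
    ∑ l ∈ F, (l.map v).prod ≤ β * C := by
  have hGE : ∀ l ∈ F.image List.tail, ∀ e ∈ l, e ∈ E := by
    intro l hl e he
    obtain ⟨l', hl', rfl⟩ := mem_image.1 hl
    exact (hF l' hl').2 e (List.mem_of_mem_tail he)
  have h1 : F ⊆ (E ×ˢ F.image List.tail).image (fun p => p.1 :: p.2) := by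
    intro l hl
    obtain ⟨hne, hE⟩ := hF l hl
    cases l with
    | nil => exact absurd rfl hne
    | cons a t =>
      exact mem_image.2 ⟨(a, t), mem_product.2 ⟨hE a (by simp), mem_image.2 ⟨a :: t, hl, rfl⟩⟩, rfl⟩
  have h2 : ∑ l ∈ F, (l.map v).prod ≤
      ∑ l ∈ (E ×ˢ F.image List.tail).image (fun p => p.1 :: p.2), (l.map v).prod := by
    refine sum_le_sum_of_subset_of_nonneg h1 ?_
    intro l hl _
    obtain ⟨p, hp, rfl⟩ := mem_image.1 hl
    obtain ⟨hp1, hp2⟩ := mem_product.1 hp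
    refine prod_nn E v hv _ ?_
    intro e he
    rcases List.mem_cons.1 he with rfl | he
    · exact hp1
    · exact hGE _ hp2 e he
  have h3 : ∑ l ∈ (E ×ˢ F.image List.tail).image (fun p => p.1 :: p.2), (l.map v).prod =
      (∑ e ∈ E, v e) * ∑ l ∈ F.image List.tail, (l.map v).prod := by
    rw [sum_image, sum_mul_sum, sum_product]
    · simp
    · rintro ⟨a, l⟩ _ ⟨b, m⟩ _ h
      simp only [List.cons.injEq] at h
      exact Prod.ext h.1 h.2
  have h4 : 0 ≤ ∑ e ∈ E, v e := sum_nonneg hv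
  calc ∑ l ∈ F, (l.map v).prod ≤ (∑ e ∈ E, v e) * ∑ l ∈ F.image List.tail, (l.map v).prod :=
        h2.trans_eq h3
    _ ≤ (∑ e ∈ E, v e) * C := mul_le_mul_of_nonneg_left hG h4
    _ ≤ β * C := mul_le_mul_of_nonneg_right hβ hC

theorem bnd {α : Type} [DecidableEq α] (E : Finset α) (v : α → ℝ) (hv : ∀ e ∈ E, 0 ≤ v e)
    (β : ℝ) (hβ : ∑ e ∈ E, v e ≤ β) (h2 : β ≤ 1 / 2) (R : ℕ) :
    ∀ F : Finset (List α), (∀ l ∈ F, l.length ≤ R ∧ ∀ e ∈ l, e ∈ E) →
      ∑ l ∈ F, (l.map v).prod ≤ 1 / (1 - β) := by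
  have hβ0 : 0 ≤ β := (sum_nonneg hv).trans hβ
  have h1β : 0 < 1 - β := by linarith
  have hC1 : 1 ≤ 1 / (1 - β) := by
    rw [le_div_iff₀ h1β]; linarith
  have hC0 : 0 ≤ 1 / (1 - β) := zero_le_one.trans hC1
  have hid : 1 + β * (1 / (1 - β)) = 1 / (1 - β) := by
    field_simp
    ring
  induction R with
  | zero =>
    intro F hF
    have hsub : F ⊆ {[]} := by
      intro l hl
      have := (hF l hl).1
      exact mem_singleton.2 (List.length_eq_zero_iff.1 (by omega))
    calc ∑ l ∈ F, (l.map v).prod ≤ ∑ l ∈ ({[]} : Finset (List α)), (l.map v).prod := by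
          refine sum_le_sum_of_subset_of_nonneg hsub ?_
          intro l hl _
          rw [mem_singleton.1 hl]
          simp
      _ = 1 := by simp
      _ ≤ _ := hC1
  | succ R ih =>
    intro F hF
    have hsplit := sum_filter_add_sum_filter_not F (fun l : List α => l = []) (fun l => (l.map v).prod)
    rw [← hsplit]
    have ha : ∑ l ∈ F.filter (fun l : List α => l = []), (l.map v).prod ≤ 1 := by
      have hsub : F.filter (fun l : List α => l = []) ⊆ {[]} := by
        intro l hl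
        exact mem_singleton.2 (mem_filter.1 hl).2
      calc ∑ l ∈ F.filter (fun l : List α => l = []), (l.map v).prod
            ≤ ∑ l ∈ ({[]} : Finset (List α)), (l.map v).prod := by
            refine sum_le_sum_of_subset_of_nonneg hsub ?_
            intro l hl _
            rw [mem_singleton.1 hl]
            simp
        _ = 1 := by simp
    have hb : ∑ l ∈ F.filter (fun l : List α => ¬ l = []), (l.map v).prod ≤ β * (1 / (1 - β)) := by
      refine step E v hv β hβ _ ?_ _ hC0 ?_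
      · intro l hl
        exact ⟨(mem_filter.1 hl).2, (hF l (mem_filter.1 hl).1).2⟩
      · refine ih _ ?_
        intro l hl
        obtain ⟨l', hl', rfl⟩ := mem_image.1 hl
        obtain ⟨h3, h4⟩ := hF l' (mem_filter.1 hl').1
        refine ⟨?_, fun e he => h4 e (List.mem_of_mem_tail he)⟩
        rw [List.length_tail]
        omega
    linarith

end LSm_aux

theorem tLSm : sLSm := by
  intro α _ E v β hv hβ h2 F hF
  have hβ0 : 0 ≤ β := (sum_nonneg hv).trans hβ
  have h1β : 0 < 1 - β := by linarith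
  have hC0 : 0 ≤ 1 / (1 - β) := by positivity
  have h := LSm_aux.step E v hv β hβ F hF (1 / (1 - β)) hC0
    (LSm_aux.bnd E v hv β hβ h2 ((F.image List.tail).sup List.length) (F.image List.tail) (by
      intro l hl
      refine ⟨le_sup (f := List.length) hl, ?_⟩
      obtain ⟨l', hl', rfl⟩ := mem_image.1 hl
      exact fun e he => (hF l' hl').2 e (List.mem_of_mem_tail he)))
  calc ∑ l ∈ F, (l.map v).prod ≤ β * (1 / (1 - β)) := h
    _ = β / (1 - β) := by ring

end Pool.Agent.CD
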