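import Pool.Agent.Lib.CD.SpecA

/-!
Section 4 of note 5285 (theorem CD): from the multi switching lemma to circuits, level by level.
-/

namespace Pool.Agent.CD

open Finset

variable {V : Type} [Fintype V] [DecidableEq V]

omit [Fintype V] [DecidableEq V] in
/-- the overwritten input is consistent with the restriction -/
theorem Lev_cons_ovw (l : Restr V) (x : V → Bool) : Cons l (ovw l x) := by
  intro v b h
  simp [ovw, h]

omit [Fintype V] [DecidableEq V] in
theorem Lev_ovw_of_none {l : Restr V} {x : V → Bool} {v : V} (h : l v = none) :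
    ovw l x v = x v := by
  simp [ovw, h]

omit [Fintype V] [DecidableEq V] in
/-- an input consistent with the composition is not changed by overwriting -/
theorem Lev_ovw_ovw {l s : Restr V} {x : V → Bool} (h : Cons (comp l s) x) :
    ovw l (ovw s x) = x := by
  funext v
  cases hl : l v with
  | some b =>
    have h1 := h v b (comp_of_some hl)
    simp [ovw, hl, h1]
  | none =>
    cases hs : s v with
    | some b =>
      have h1 := h v b (by rw [comp_of_none hl]; exact hs)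
      simp [ovw, hl, hs, h1]
    | none => simp [ovw, hl, hs]

omit [Fintype V] in
/-- depth of a function on the composition -/
theorem Lev_dt_comp {g : (V → Bool) → Bool} {w : ℕ} {l s : Restr V}
    (h : Dt (fun x => g (ovw l x)) w s) : Dt g w (comp l s) := by
  refine Tr.comp_left l h fun r hr x y hx hy => ?_
  have h1 := hr (ovw r x) (ovw r y) (Lev_cons_ovw r x) (Lev_cons_ovw r y)
  have h2 : g (ovw l (ovw r x)) = g (ovw l (ovw r y)) := h1
  rwa [Lev_ovw_ovw hx, Lev_ovw_ovw hy] at h2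

/-- a measure is at most `1` -/
theorem Lev_Pm_le_one {a : ℝ} (h0 : 0 ≤ a) (h1 : a ≤ 1) (A : Restr V → Prop) : Pm a A ≤ 1 := by
  have h2 := Pm_compl a A
  have h3 := Pm_nonneg h0 h1 (fun r => ¬ A r)
  linarith

/-- the family of the gates of the next level, below a leaf -/
theorem Lev_fam {S w : ℕ} {G G' : ℕ → (V → Bool) → Bool} {l : Restr V}
    (hG : ∀ j < S, Dt (G j) w l)
    (hA : ∀ j < S, ∃ (A : Finset ℕ) (s : ℕ → Bool) (t : Bool), (∀ a ∈ A, a < S) ∧
      ∀ x, G' j x = t ↔ ∃ a ∈ A, G a x = s a) :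
    ∃ (TL : ℕ → List (Restr V)) (t : ℕ → Bool), Fam S w TL t (fun j x => G' j (ovw l x)) := by
  have key : ∀ j : ℕ, ∃ (L : List (Restr V)) (t : Bool), j < S →
      (∀ T ∈ L, sz T ≤ w) ∧ ∀ x, G' j (ovw l x) = t ↔ ∃ T ∈ L, Cons T x := by
    intro j
    by_cases hj : j < S
    · obtain ⟨A, s, t, hAS, hx⟩ := hA j hj
      have h1 : ∀ a : ℕ, ∃ L : List (Restr V), a ∈ A →
          (∀ T ∈ L, sz T ≤ w ∧ ∀ v, T v ≠ none → l v = none) ∧
          ∀ x, Cons l x → (G a x = s a ↔ ∃ T ∈ L, Cons T x) := by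
        intro a
        by_cases ha : a ∈ A
        · obtain ⟨L, hL⟩ := (hG a (hAS a ha)).terms (s a)
          exact ⟨L, fun _ => hL⟩
        · exact ⟨[], fun h => absurd h ha⟩
      choose L hL using h1
      refine ⟨A.toList.flatMap L, t, fun _ => ⟨?_, ?_⟩⟩
      · intro T hT
        obtain ⟨a, ha, hT⟩ := List.mem_flatMap.mp hT
        exact ((hL a (Finset.mem_toList.mp ha)).1 T hT).1
      · intro x
        have e : ∀ a ∈ A, ∀ T ∈ L a, (Cons T (ovw l x) ↔ Cons T x) := by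
          intro a ha T hT
          have h2 := ((hL a ha).1 T hT).2
          constructor
          · intro h v b hv
            rw [← h v b hv, Lev_ovw_of_none (h2 v (by rw [hv]; simp))]
          · intro h v b hv
            rw [Lev_ovw_of_none (h2 v (by rw [hv]; simp))]
            exact h v b hv
        rw [hx (ovw l x)]
        constructor
        · rintro ⟨a, ha, h3⟩
          obtain ⟨T, hT, hc⟩ := ((hL a ha).2 _ (Lev_cons_ovw l x)).1 h3
          exact ⟨T, List.mem_flatMap.mpr ⟨a, Finset.mem_toList.mpr ha, hT⟩, (e a ha T hT).1 hc⟩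
        · rintro ⟨T, hT, hc⟩
          obtain ⟨a, ha, hT⟩ := List.mem_flatMap.mp hT
          have ha' := Finset.mem_toList.mp ha
          exact ⟨a, ha', ((hL a ha').2 _ (Lev_cons_ovw l x)).2 ⟨T, hT, (e a ha' T hT).2 hc⟩⟩
    · exact ⟨[], true, fun h => absurd h hj⟩
  choose TL t h using key
  exact ⟨TL, t, fun j hj => h j hj⟩

/-- one level, below a leaf -/
theorem Lev_leaf (hMS : sMS) {S w : ℕ} (hw : 1 ≤ w) (hS : S ≤ 2 ^ w)
    {G G' : ℕ → (V → Bool) → Bool} {l : Restr V} (hG : ∀ j < S, Dt (G j) w l)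
    (hA : ∀ j < S, ∃ (A : Finset ℕ) (s : ℕ → Bool) (t : Bool), (∀ a ∈ A, a < S) ∧
      ∀ x, G' j x = t ↔ ∃ a ∈ A, G a x = s a) (t : ℕ) :
    Pm (1 / (512 * (w : ℝ) + 1))
      (fun s : Restr V => ¬ Tr (fun r' => ∀ j < S, Dt (G' j) w r') t (comp l s)) ≤
        (1 / 4) ^ t := by
  obtain ⟨TL, tt, hF⟩ := Lev_fam hG hA
  have h1 := hMS V S w TL tt (fun j x => G' j (ovw l x)) hw hS hF t
  have hq0 : (0 : ℝ) ≤ 1 / (512 * (w : ℝ) + 1) := by positivity
  have hq1 : 1 / (512 * (w : ℝ) + 1) ≤ 1 := by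
    rw [div_le_one (by positivity)]
    have : (0 : ℝ) ≤ w := Nat.cast_nonneg w
    linarith
  refine (Pm_mono hq0 hq1 fun s hs h2 => hs ?_).trans h1
  exact Tr.comp_left l h2 fun r hr j hj => Lev_dt_comp (hr j hj)

/-- one level -/
theorem Lev_step (hMS : sMS) {S w : ℕ} (hw : 1 ≤ w) (hS : S ≤ 2 ^ w)
    {G G' : ℕ → (V → Bool) → Bool}
    (hA : ∀ j < S, ∃ (A : Finset ℕ) (s : ℕ → Bool) (t : Bool), (∀ a ∈ A, a < S) ∧
      ∀ x, G' j x = t ↔ ∃ a ∈ A, G a x = s a) (t u : ℕ) {r : Restr V}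
    (hr : Tr (fun r' => ∀ j < S, Dt (G j) w r') t r) :
    Pm (1 / (512 * (w : ℝ) + 1))
      (fun s : Restr V => ¬ Tr (fun r' => ∀ j < S, Dt (G' j) w r') (t + (t + u)) (comp r s)) ≤
        (1 / 4) ^ u := by
  obtain ⟨Lam, hlen, hLam, hT⟩ := hr.leaves
  have hq0 : (0 : ℝ) ≤ 1 / (512 * (w : ℝ) + 1) := by positivity
  have hq1 : 1 / (512 * (w : ℝ) + 1) ≤ 1 := by
    rw [div_le_one (by positivity)]
    have : (0 : ℝ) ≤ w := Nat.cast_nonneg w
    linarith
  have h1 := Pm_list_le hq0 hq1 Lam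
    (fun l s => ¬ Tr (fun r' => ∀ j < S, Dt (G' j) w r') (t + u) (comp l s)) ((1 / 4) ^ (t + u))
    (fun l hl => Lev_leaf hMS hw hS (hLam l hl).1 hA (t + u))
  have h2 : Pm (1 / (512 * (w : ℝ) + 1))
      (fun s : Restr V => ¬ Tr (fun r' => ∀ j < S, Dt (G' j) w r') (t + (t + u)) (comp r s)) ≤
      Pm (1 / (512 * (w : ℝ) + 1)) (fun s : Restr V => ∃ l ∈ Lam,
        ¬ Tr (fun r' => ∀ j < S, Dt (G' j) w r') (t + u) (comp l s)) := by
    refine Pm_mono hq0 hq1 fun s hs => ?_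
    by_contra hcon
    push Not at hcon
    exact hs (hT s _ _ hcon)
  have h3 : (Lam.length : ℝ) * (1 / 4) ^ (t + u) ≤ (1 / 4) ^ u := by
    have h4 : (Lam.length : ℝ) ≤ 2 ^ t := by exact_mod_cast hlen
    have h5 : (2 : ℝ) ^ t * (1 / 4) ^ (t + u) ≤ (1 / 4) ^ u := by
      rw [pow_add, ← mul_assoc, ← mul_pow]
      have h6 : ((2 : ℝ) * (1 / 4)) ^ t ≤ 1 := pow_le_one₀ (by norm_num) (by norm_num)
      have h7 : (0 : ℝ) ≤ (1 / 4) ^ u := by positivity
      nlinarith
    exact (mul_le_mul_of_nonneg_right h4 (by positivity)).trans h5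
  linarith

/-- all levels -/
theorem Lev_all (hMS : sMS) {d S w : ℕ} (hw : 1 ≤ w) (hS : S ≤ 2 ^ w)
    {G : ℕ → ℕ → (V → Bool) → Bool}
    (h0 : ∀ j < S, ∃ A : Finset V, A.card ≤ 1 ∧ ∀ x y, (∀ i ∈ A, x i = y i) → G 0 j x = G 0 j y)
    (hs : ∀ i < d, ∀ j < S, ∃ (A : Finset ℕ) (s : ℕ → Bool) (t : Bool), (∀ a ∈ A, a < S) ∧
      ∀ x, G (i + 1) j x = t ↔ ∃ a ∈ A, G i a x = s a) (u : ℕ) :
    ∀ i ≤ d, Pm ((1 / (512 * (w : ℝ) + 1)) ^ i)
      (fun m : Restr V => ¬ Tr (fun r' => ∀ j < S, Dt (G i j) w r') ((2 ^ i - 1) * u) m) ≤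
        i * (1 / 4) ^ u := by
  have hq0 : (0 : ℝ) ≤ 1 / (512 * (w : ℝ) + 1) := by positivity
  have hq1 : 1 / (512 * (w : ℝ) + 1) ≤ 1 := by
    rw [div_le_one (by positivity)]
    have : (0 : ℝ) ≤ w := Nat.cast_nonneg w
    linarith
  intro i
  induction i with
  | zero =>
    intro _
    have h1 : ∀ m : Restr V,
        Tr (fun r' => ∀ j < S, Dt (G 0 j) w r') ((2 ^ 0 - 1) * u) m := by
      intro m
      refine Tr.leaf _ _ fun j hj => ?_
      obtain ⟨A, hA, hG⟩ := h0 j hj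
      have h2 : Tr (Const (G 0 j)) (0 + (A.filter fun v => m v = none).card) m := by
        refine Tr.of_over _ m (fun v hv => (mem_filter.mp hv).2) fun τ => Tr.leaf _ _ ?_
        intro x y hx hy
        refine hG x y fun v hv => ?_
        cases hm : m v with
        | none =>
          have e : ovr m (A.filter fun v => m v = none) τ v = some (τ v) := by
            simp [ovr, hv, hm]
          rw [hx v _ e, hy v _ e]
        | some b =>
          have e : ovr m (A.filter fun v => m v = none) τ v = some b := by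
            simp [ovr, hm]
          rw [hx v _ e, hy v _ e]
      refine h2.mono_depth ?_
      have h3 := card_filter_le A fun v => m v = none
      omega
    have h2 : Pm ((1 / (512 * (w : ℝ) + 1)) ^ 0)
        (fun m : Restr V => ¬ Tr (fun r' => ∀ j < S, Dt (G 0 j) w r') ((2 ^ 0 - 1) * u) m) = 0 := by
      unfold Pm
      refine sum_eq_zero fun r _ => ?_
      rw [if_neg (not_not.mpr (h1 r))]
    rw [h2]
    positivity
  | succ i ih =>
    intro hi
    have h1 := ih (by omega)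
    have hQ0 : (0 : ℝ) ≤ (1 / (512 * (w : ℝ) + 1)) ^ i := pow_nonneg hq0 i
    have hQ1 : (1 / (512 * (w : ℝ) + 1)) ^ i ≤ 1 := pow_le_one₀ hq0 hq1
    rw [pow_succ, Pm_comp]
    have hexp : (2 ^ (i + 1) - 1) * u = (2 ^ i - 1) * u + ((2 ^ i - 1) * u + u) := by
      have h3 : 1 ≤ 2 ^ i := Nat.one_le_two_pow
      obtain ⟨k, hk⟩ : ∃ k, 2 ^ i = k + 1 := ⟨2 ^ i - 1, by omega⟩
      rw [pow_succ, hk]
      have h4 : (k + 1) * 2 - 1 = 2 * k + 1 := by omega
      rw [h4, Nat.add_sub_cancel]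
      ring
    rw [hexp]
    classical
    have h2 : ∀ r : Restr V, W ((1 / (512 * (w : ℝ) + 1)) ^ i) r *
        Pm (1 / (512 * (w : ℝ) + 1)) (fun s => ¬ Tr (fun r' => ∀ j < S, Dt (G (i + 1) j) w r')
          ((2 ^ i - 1) * u + ((2 ^ i - 1) * u + u)) (comp r s)) ≤
        (if ¬ Tr (fun r' => ∀ j < S, Dt (G i j) w r') ((2 ^ i - 1) * u) r then
          W ((1 / (512 * (w : ℝ) + 1)) ^ i) r else 0) +
        W ((1 / (512 * (w : ℝ) + 1)) ^ i) r * (1 / 4) ^ u := by
      intro r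
      have hW := W_nonneg hQ0 hQ1 r
      by_cases hr : Tr (fun r' => ∀ j < S, Dt (G i j) w r') ((2 ^ i - 1) * u) r
      · rw [if_neg (not_not.mpr hr), zero_add]
        exact mul_le_mul_of_nonneg_left
          (Lev_step hMS hw hS (hs i (by omega)) ((2 ^ i - 1) * u) u hr) hW
      · rw [if_pos hr]
        have h3 := mul_le_mul_of_nonneg_left (Lev_Pm_le_one hq0 hq1
          (fun s => ¬ Tr (fun r' => ∀ j < S, Dt (G (i + 1) j) w r')
            ((2 ^ i - 1) * u + ((2 ^ i - 1) * u + u)) (comp r s))) hW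
        have h4 : 0 ≤ W ((1 / (512 * (w : ℝ) + 1)) ^ i) r * (1 / 4) ^ u :=
          mul_nonneg hW (by positivity)
        linarith
    refine (sum_le_sum fun r _ => h2 r).trans ?_
    rw [sum_add_distrib, ← sum_mul, sum_W, one_mul]
    have h3 : ∑ r : Restr V, (if ¬ Tr (fun r' => ∀ j < S, Dt (G i j) w r') ((2 ^ i - 1) * u) r then
          W ((1 / (512 * (w : ℝ) + 1)) ^ i) r else 0) =
        Pm ((1 / (512 * (w : ℝ) + 1)) ^ i)
          (fun m : Restr V => ¬ Tr (fun r' => ∀ j < S, Dt (G i j) w r') ((2 ^ i - 1) * u) m) := by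
      unfold Pm
      refine sum_congr rfl fun r _ => ?_
      by_cases hr : Tr (fun r' => ∀ j < S, Dt (G i j) w r') ((2 ^ i - 1) * u) r <;> simp [hr]
    rw [h3]
    push_cast
    linarith

/-- **Circuits of constant depth under random restrictions** -/
theorem tCkt (hMS : sMS) : ∀ (V : Type) [Fintype V] [DecidableEq V] (d S w : ℕ)
    (f : (V → Bool) → Bool), IsCkt d S f → 1 ≤ w → S ≤ 2 ^ w → ∀ u : ℕ,
    Pm ((1 / (512 * (w : ℝ) + 1)) ^ d) (fun m : Restr V => ¬ Dt f (2 ^ d * u + w) m) ≤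
      d * (1 / 4) ^ u := by
  intro V _ _ d S w f hf hw hS u
  obtain ⟨G, h0, hs, j, hj, hfj⟩ := hf
  have hq0 : (0 : ℝ) ≤ 1 / (512 * (w : ℝ) + 1) := by positivity
  have hq1 : 1 / (512 * (w : ℝ) + 1) ≤ 1 := by
    rw [div_le_one (by positivity)]
    have : (0 : ℝ) ≤ w := Nat.cast_nonneg w
    linarith
  refine (Pm_mono (pow_nonneg hq0 d) (pow_le_one₀ hq0 hq1) fun m hm h1 => hm ?_).trans
    (Lev_all hMS hw hS h0 hs u d le_rfl)
  have h2 : Tr (Tr (Const f) w) ((2 ^ d - 1) * u) m := by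
    refine h1.imp fun r hr => ?_
    have h3 : f = G d j := funext hfj
    rw [h3]
    exact hr j hj
  refine h2.bind.mono_depth ?_
  have h4 : (2 ^ d - 1) * u ≤ 2 ^ d * u := Nat.mul_le_mul_right u (Nat.sub_le _ _)
  omega

end Pool.Agent.CD
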