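import Pool.Agent.Lib.CD.SLft

/-!
Section 5 of note 5285 (theorem CD): a good restriction turns circuits into decision trees for the
blocks of the parity.
-/

namespace Pool.Agent.CD

open Finset Pool.Agent.Lib.MP_ff3ed7_lc Pool.Agent.Lib.MP_ff3ed7_lc.B

section measure

variable {V : Type*} [DecidableEq V] [Fintype V]

/-- no star in `K`. -/
private theorem Pm_noStar (a : ℝ) (K : Finset V) :
    Pm a (fun m : Restr V => ∀ v ∈ K, m v ≠ none) = (1 - a) ^ K.card := by
  classical
  have hp := Finset.prod_univ_sum (fun _ : V => (univ : Finset (Option Bool)))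
    (fun v o => if v ∈ K ∧ o = none then 0 else wt a o)
  rw [Fintype.piFinset_univ] at hp
  have h1 : ∀ v : V, (∑ o : Option Bool, if v ∈ K ∧ o = none then 0 else wt a o) =
      if v ∈ K then 1 - a else 1 := by
    intro v
    by_cases hv : v ∈ K
    · rw [Fintype.sum_option]
      simp only [hv, true_and, if_true, wt, Fintype.sum_bool, reduceCtorEq, if_false]
      ring
    · simp only [hv, false_and, if_false]
      exact sum_wt a
  simp only [h1] at hp
  rw [Finset.prod_ite_mem, univ_inter, prod_const] at hp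
  rw [hp]
  unfold Pm
  refine sum_congr rfl fun m _ => ?_
  by_cases hm : ∀ v ∈ K, m v ≠ none
  · rw [if_pos hm]
    unfold W
    refine prod_congr rfl fun v _ => ?_
    rw [if_neg]
    rintro ⟨h1, h2⟩
    exact hm v h1 h2
  · rw [if_neg hm]
    push Not at hm
    obtain ⟨v, hv, hv'⟩ := hm
    exact (prod_eq_zero (mem_univ v) (by rw [if_pos ⟨hv, hv'⟩])).symm

open Classical in
private theorem prob_eq_sum (R : ℕ) (E : (Fin R → Bool) → Prop) :
    prob R E = (∑ ρ, if E ρ then (1 : ℝ) else 0) / 2 ^ R := by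
  unfold prob
  congr 1
  rw [sum_boole, Nat.card_eq_fintype_card, Fintype.card_subtype]

/-- Markov. -/
private theorem Pm_markov {a : ℝ} (h0 : 0 ≤ a) (h1 : a ≤ 1) {R : ℕ}
    (E : Restr V → (Fin R → Bool) → Prop) {θ c : ℝ} (hθ : 0 < θ)
    (hc : ∀ ρ, Pm a (fun m => E m ρ) ≤ c) :
    Pm a (fun m => ¬ prob R (E m) ≤ θ) ≤ c / θ := by
  classical
  rw [le_div_iff₀ hθ]
  have h2 : Pm a (fun m => ¬ prob R (E m) ≤ θ) * θ ≤ ∑ m : Restr V, W a m * prob R (E m) := by
    unfold Pm
    rw [sum_mul]
    refine sum_le_sum fun m _ => ?_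
    have hW := W_nonneg h0 h1 m
    by_cases hm : prob R (E m) ≤ θ
    · rw [if_neg (not_not.mpr hm), zero_mul]
      refine mul_nonneg hW ?_
      unfold prob
      positivity
    · rw [if_pos hm]
      exact mul_le_mul_of_nonneg_left (not_le.mp hm).le hW
  refine h2.trans ?_
  have h3 : ∑ m : Restr V, W a m * prob R (E m) =
      (∑ ρ : Fin R → Bool, Pm a (fun m => E m ρ)) / 2 ^ R := by
    have : ∀ m : Restr V, W a m * prob R (E m) =
        ∑ ρ : Fin R → Bool, (if E m ρ then W a m else 0) / 2 ^ R := by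
      intro m
      rw [prob_eq_sum, mul_div_assoc', mul_sum, sum_div]
      refine sum_congr rfl fun ρ _ => ?_
      split_ifs <;> simp
    simp only [this]
    rw [sum_comm, sum_div]
    refine sum_congr rfl fun ρ _ => ?_
    unfold Pm
    rw [sum_div]
  rw [h3, div_le_iff₀ (by positivity)]
  refine (sum_le_sum fun ρ _ => hc ρ).trans ?_
  rw [sum_const, card_univ, Fintype.card_fun, Fintype.card_bool, Fintype.card_fin, nsmul_eq_mul]
  push_cast
  rw [mul_comm]

end measure

/-! ### The embedding -/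

/-- the value of `par` when one bit is changed -/
private theorem par_update {k : ℕ} (b : Fin k → Bool) (j : Fin k) (x : Bool) :
    par (Function.update b j x) = xor x (par (Function.update b j false)) := by
  unfold par
  rw [← add_sum_erase univ _ (mem_univ j), ← add_sum_erase univ
    (fun i => (Function.update b j false i).toNat) (mem_univ j)]
  have : ∑ i ∈ univ.erase j, (Function.update b j x i).toNat =
      ∑ i ∈ univ.erase j, (Function.update b j false i).toNat := by
    refine sum_congr rfl fun i hi => ?_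
    rw [Function.update_of_ne (ne_of_mem_erase hi), Function.update_of_ne (ne_of_mem_erase hi)]
  rw [this]
  simp only [Function.update_self]
  generalize ∑ i ∈ univ.erase j, (Function.update b j false i).toNat = N
  cases x
  · simp
  · simp only [Bool.toNat_true, Bool.toNat_false, zero_add, Bool.true_xor]
    rw [← decide_not]
    congr 1
    rw [eq_iff_iff, add_comm, Nat.odd_add_one]

variable {n k : ℕ}

/-- bit `v` when the stars other than the selected one are `false` -/
private def rst (m : Restr (Fin n × Fin k)) (v : Fin n × Fin k) : Bool := (m v).getD false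

/-- parity of the block without the selected star -/
private def cor (m : Restr (Fin n × Fin k)) (j : Fin n → Fin k) (i : Fin n) : Bool :=
  par (Function.update (fun l => rst m (i, l)) (j i) false)

/-- the embedding -/
private def emb (m : Restr (Fin n × Fin k)) (j : Fin n → Fin k) (z : Fin n → Bool) :
    Fin n × Fin k → Bool :=
  fun v => if v.2 = j v.1 then xor (z v.1) (cor m j v.1) else rst m v

private theorem xk_emb (m : Restr (Fin n × Fin k)) (j : Fin n → Fin k) (z : Fin n → Bool) :
    xk (emb m j z) = z := by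
  funext i
  have h1 : (fun l => emb m j z (i, l)) =
      Function.update (fun l => rst m (i, l)) (j i) (xor (z i) (cor m j i)) := by
    funext l
    by_cases hl : l = j i
    · subst hl
      simp [emb]
    · rw [Function.update_of_ne hl]
      simp [emb, hl]
  unfold xk
  rw [h1, par_update]
  change xor (xor (z i) (cor m j i)) (cor m j i) = z i
  simp

private theorem cons_emb (m : Restr (Fin n × Fin k)) (j : Fin n → Fin k)
    (hj : ∀ i, m (i, j i) = none) (z : Fin n → Bool) : Cons m (emb m j z) := by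
  intro v b hv
  have : v.2 ≠ j v.1 := by
    intro h
    have h1 := hj v.1
    rw [← h] at h1
    change m v = none at h1
    rw [h1] at hv
    exact absurd hv (by simp)
  unfold emb
  rw [if_neg this]
  simp [rst, hv]

private theorem depth_mono {ι σ : Type} (T : DTree ι σ) :
    ∀ {d d' : ℕ}, d ≤ d' → T.DepthLE d → T.DepthLE d' := by
  induction T with
  | leaf b => exact fun _ _ => trivial
  | node i next ih =>
    intro d d' h hd
    exact ⟨lt_of_lt_of_le hd.1 h, fun s => ih s (by omega) (hd.2 s)⟩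

/-- the tree -/
private theorem tree_of_Tr (m : Restr (Fin n × Fin k)) (j : Fin n → Fin k)
    (f : (Fin n × Fin k → Bool) → Bool) {t : ℕ} {r : Restr (Fin n × Fin k)}
    (h : Tr (Const f) t r) : RLe m r →
    ∃ T : DTree (Fin n) Bool, T.DepthLE t ∧
      ∀ z, Cons r (emb m j z) → T.eval z = f (emb m j z) := by
  induction h with
  | leaf t r hr =>
    intro _
    by_cases hz : ∃ z, Cons r (emb m j z)
    · obtain ⟨z0, hz0⟩ := hz
      exact ⟨DTree.leaf (f (emb m j z0)), trivial, fun z hz => hr _ _ hz0 hz⟩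
    · exact ⟨DTree.leaf false, trivial, fun z hz' => absurd ⟨z, hz'⟩ hz⟩
  | node t r v hv _ ih =>
    intro hmr
    have hmv : m v = none := by
      cases hm : m v with
      | none => rfl
      | some b =>
        have := hmr v b hm
        rw [hv] at this
        exact absurd this (by simp)
    have h1 : ∀ b, ∃ T : DTree (Fin n) Bool, T.DepthLE t ∧
        ∀ z, Cons (upd r v b) (emb m j z) → T.eval z = f (emb m j z) :=
      fun b => ih b (hmr.trans (rle_upd hv b))
    by_cases hj : v.2 = j v.1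
    · choose T hT hT' using h1
      refine ⟨DTree.node v.1 fun s => T (xor s (cor m j v.1)), ⟨Nat.succ_pos _, fun s => hT _⟩,
        fun z hz => ?_⟩
      change (T (xor (z v.1) (cor m j v.1))).eval z = _
      refine hT' _ z (cons_upd hz ?_)
      unfold emb
      rw [if_pos hj]
    · obtain ⟨T, hT, hT'⟩ := h1 false
      refine ⟨T, depth_mono T (Nat.le_succ _) hT, fun z hz => hT' z (cons_upd hz ?_)⟩
      unfold emb
      rw [if_neg hj]
      simp [rst, hmv]

/-- Section 5, a-c: the restriction argument. -/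
theorem lft_core {R d w u : ℕ} {Y : Type} [Fintype Y]
    (V : Y → (Fin R → Bool) → (Fin n × Fin k → Bool) → Bool) {θ : ℝ} (hθ : 0 < θ)
    (hC : ∀ y ρ, Pm ((1 / (512 * (w : ℝ) + 1)) ^ d)
      (fun m : Restr (Fin n × Fin k) => ¬ Dt (V y ρ) (2 ^ d * u + w) m) ≤ d * (1 / 4) ^ u)
    (hk : (n : ℝ) * (1 - (1 / (512 * (w : ℝ) + 1)) ^ d) ^ k ≤ 1 / 4)
    (hY : (Fintype.card Y : ℝ) * (d / θ) * (1 / 4) ^ u < 1 / 2) :
    ∃ (e : (Fin n → Bool) → (Fin n × Fin k → Bool))
      (T : Y → (Fin R → Bool) → DTree (Fin n) Bool),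
      (∀ z, xk (e z) = z) ∧ (∀ y ρ, (T y ρ).DepthLE (2 ^ d * u + w)) ∧
      (∀ y ρ z, (T y ρ).eval z = true → V y ρ (e z) = true) ∧
      ∀ y, prob R (fun ρ => ∃ z, (T y ρ).eval z ≠ V y ρ (e z)) ≤ θ := by
  classical
  set a : ℝ := (1 / (512 * (w : ℝ) + 1)) ^ d with ha
  have hb0 : (0 : ℝ) ≤ 1 / (512 * (w : ℝ) + 1) := by positivity
  have hb1 : 1 / (512 * (w : ℝ) + 1) ≤ 1 := by
    rw [div_le_one (by positivity)]
    have : (0 : ℝ) ≤ w := Nat.cast_nonneg _
    linarith
  have h0 : 0 ≤ a := pow_nonneg hb0 _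
  have h1 : a ≤ 1 := pow_le_one₀ hb0 hb1
  -- blocks without star
  have hA : Pm a (fun m : Restr (Fin n × Fin k) => ∃ i ∈ (univ : Finset (Fin n)),
      ∀ v ∈ (univ : Finset (Fin k)).image (fun l => (i, l)), m v ≠ none) ≤ 1 / 4 := by
    refine (Pm_exists_le h0 h1 univ _).trans ?_
    have : ∀ i : Fin n, Pm a (fun m : Restr (Fin n × Fin k) =>
        ∀ v ∈ (univ : Finset (Fin k)).image (fun l => (i, l)), m v ≠ none) = (1 - a) ^ k := by
      intro i
      rw [Pm_noStar, card_image_of_injective _ (fun x y h => by simpa using h), card_univ,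
        Fintype.card_fin]
    simp only [this, sum_const, card_univ, Fintype.card_fin, nsmul_eq_mul]
    exact hk
  have hB : Pm a (fun m : Restr (Fin n × Fin k) => ∃ y ∈ (univ : Finset Y),
      ¬ prob R (fun ρ => ¬ Dt (V y ρ) (2 ^ d * u + w) m) ≤ θ) < 1 / 2 := by
    refine lt_of_le_of_lt (Pm_exists_le h0 h1 univ _) (lt_of_le_of_lt (sum_le_sum fun y _ =>
      Pm_markov h0 h1 (fun m ρ => ¬ Dt (V y ρ) (2 ^ d * u + w) m) hθ (hC y)) ?_)
    rw [sum_const, card_univ, nsmul_eq_mul]
    refine lt_of_le_of_lt (le_of_eq ?_) hY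
    ring
  have hAB := Pm_or_le h0 h1 (fun m : Restr (Fin n × Fin k) => ∃ i ∈ (univ : Finset (Fin n)),
      ∀ v ∈ (univ : Finset (Fin k)).image (fun l => (i, l)), m v ≠ none)
    (fun m : Restr (Fin n × Fin k) => ∃ y ∈ (univ : Finset Y),
      ¬ prob R (fun ρ => ¬ Dt (V y ρ) (2 ^ d * u + w) m) ≤ θ)
  obtain ⟨m, hm⟩ := exists_not_of_Pm_lt (lt_of_le_of_lt hAB (by linarith))
  rw [not_or] at hm
  obtain ⟨hm1, hm2⟩ := hm
  push Not at hm1 hm2
  have hm1' : ∀ i : Fin n, ∃ l : Fin k, m (i, l) = none := by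
    intro i
    obtain ⟨v, hv, hv'⟩ := hm1 i (mem_univ _)
    obtain ⟨l, _, rfl⟩ := mem_image.mp hv
    exact ⟨l, hv'⟩
  choose j hj using hm1'
  have hT : ∀ y ρ, ∃ T : DTree (Fin n) Bool, T.DepthLE (2 ^ d * u + w) ∧
      (∀ z, T.eval z = true → V y ρ (emb m j z) = true) ∧
      (Dt (V y ρ) (2 ^ d * u + w) m → ∀ z, T.eval z = V y ρ (emb m j z)) := by
    intro y ρ
    by_cases hD : Dt (V y ρ) (2 ^ d * u + w) m
    · obtain ⟨T, hT, hT'⟩ := tree_of_Tr m j (V y ρ) hD (RLe.refl _)
      have hT'' : ∀ z, T.eval z = V y ρ (emb m j z) := fun z => hT' z (cons_emb m j hj z)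
      exact ⟨T, hT, fun z hz => by rw [← hT'' z]; exact hz, fun _ => hT''⟩
    · exact ⟨DTree.leaf false, trivial, fun z hz => absurd hz (by simp [DTree.eval]),
        fun h => absurd h hD⟩
  choose T hT1 hT2 hT3 using hT
  refine ⟨emb m j, T, xk_emb m j, hT1, hT2, fun y => le_trans ?_ (hm2 y (mem_univ _))⟩
  unfold prob
  refine div_le_div_of_nonneg_right ?_ (by positivity)
  exact_mod_cast Nat.card_le_card_of_injective
    (fun x : {ρ // ∃ z, (T y ρ).eval z ≠ V y ρ (emb m j z)} =>
      (⟨x.1, fun hD => by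
        obtain ⟨z, hz⟩ := x.2
        exact hz (hT3 y x.1 hD z)⟩ : {ρ // ¬ Dt (V y ρ) (2 ^ d * u + w) m}))
    (fun x y h => Subtype.ext (congrArg (fun t => t.1) h))

/-- Lft from the statement of section 4 (Ckt). -/
theorem tLft
    (hC : ∀ (V : Type) [Fintype V] [DecidableEq V] (d S w : ℕ) (f : (V → Bool) → Bool),
      IsCkt d S f → 1 ≤ w → S ≤ 2 ^ w → ∀ u : ℕ, Pm ((1 / (512 * (w : ℝ) + 1)) ^ d)
        (fun m : Restr V => ¬ Dt f (2 ^ d * u + w) m) ≤ d * (1 / 4) ^ u) : sLft := by
  intro n k R d S w u Y _ V θ hV hw hS hθ hk hY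
  exact lft_core V hθ (fun y ρ => hC _ d S w (V y ρ) (hV y ρ) hw hS u) hk hY

end Pool.Agent.CD
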