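import Pool.Agent.Lib.CD.SpecC

/-!
LoK: the parameter of a length, general form.
-/

set_option autoImplicit false

namespace Pool.Agent.CD
open Finset

theorem LoK_aux.le_of {B κ : ℕ → ℕ} (hB : ∀ ℓ, 2 ^ ℓ ≤ B ℓ) {N ℓ : ℕ}
    (h : B ℓ * 2 ^ κ ℓ ≤ N) : 2 ^ ℓ ≤ N := by
  have h1 : 1 ≤ 2 ^ κ ℓ := Nat.one_le_two_pow
  have h2 : B ℓ * 1 ≤ B ℓ * 2 ^ κ ℓ := Nat.mul_le_mul_left _ h1
  have h3 := hB ℓ
  omega

theorem tLoK : sLoK := by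
  intro B κ N hB
  have hle : ∀ ℓ, B ℓ * 2 ^ κ ℓ ≤ N → ℓ ≤ N := fun ℓ h =>
    (Nat.lt_two_pow_self (n := ℓ)).le.trans (LoK_aux.le_of hB h)
  refine ⟨?_, ?_⟩
  · by_cases h0 : lofK B κ N = 0
    · rw [h0]; exact Nat.zero_le _
    · have hP : B (lofK B κ N) * 2 ^ κ (lofK B κ N) ≤ N :=
        Nat.findGreatest_of_ne_zero (P := fun ℓ => B ℓ * 2 ^ κ ℓ ≤ N) (n := N) rfl h0
      have h2 := LoK_aux.le_of hB hP
      exact Nat.le_log_of_pow_le (by norm_num) h2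
  · intro h0
    refine ⟨Nat.findGreatest_spec (P := fun ℓ => B ℓ * 2 ^ κ ℓ ≤ N) (Nat.zero_le N) h0, ?_⟩
    by_contra hcon
    have h1 : B (lofK B κ N + 1) * 2 ^ κ (lofK B κ N + 1) ≤ N := not_lt.1 hcon
    have h2 : lofK B κ N + 1 ≤ lofK B κ N :=
      Nat.le_findGreatest (P := fun ℓ => B ℓ * 2 ^ κ ℓ ≤ N) (hle _ h1) h1
    omega

end Pool.Agent.CD
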