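import Pool.Agent.Lib.CD.SpecC

/-! Theorem CD (note 5285), module M1: the block condition. -/

set_option autoImplicit false

namespace Pool.Agent.CD

open Finset

theorem tM1 : sM1 := by
  intro m d w k n hw hn hk
  have hw' : (1 : ℝ) ≤ w := by exact_mod_cast hw
  have hM0 : (0 : ℝ) < 512 * (w : ℝ) + 1 := by linarith
  set M : ℝ := (512 * (w : ℝ) + 1) ^ d with hM
  have hMpos : 0 < M := pow_pos hM0 d
  have hM1 : 1 ≤ M := one_le_pow₀ (by linarith)
  have hx : (1 / (512 * (w : ℝ) + 1)) ^ d = 1 / M := by rw [div_pow, one_pow]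
  rw [hx]
  have hx1 : 1 / M ≤ 1 := by
    rw [div_le_one hMpos]
    exact hM1
  have e2 : (2 : ℝ) ≤ Real.exp 1 := by
    have := Real.add_one_le_exp (1 : ℝ)
    linarith
  have h1 : (1 - 1 / M) ^ k ≤ Real.exp (-((k : ℝ) * (1 / M))) := by
    have h2 : (1 - 1 / M) ^ k ≤ Real.exp (-(1 / M)) ^ k :=
      pow_le_pow_left₀ (by linarith) (Real.one_sub_le_exp_neg _) k
    rw [← Real.exp_nat_mul] at h2
    refine h2.trans (le_of_eq ?_)
    congr 1
    ring
  have h3 : (m : ℝ) + 2 ≤ (k : ℝ) * (1 / M) := by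
    have h4 : ((m + 2 : ℕ) : ℝ) * ((513 * w : ℕ) : ℝ) ^ d ≤ (k : ℝ) := by exact_mod_cast hk
    push_cast at h4
    have h5 : M ≤ (513 * (w : ℝ)) ^ d := pow_le_pow_left₀ hM0.le (by linarith) d
    have h6 : ((m : ℝ) + 2) * M ≤ k :=
      (mul_le_mul_of_nonneg_left h5 (by positivity)).trans h4
    rw [mul_one_div, le_div_iff₀ hMpos]
    exact h6
  have h7 : (n : ℝ) ≤ Real.exp m := by
    have h8 : (n : ℝ) ≤ 2 ^ m := by exact_mod_cast hn
    have h9 : (2 : ℝ) ^ m ≤ Real.exp 1 ^ m := pow_le_pow_left₀ (by norm_num) e2 m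
    rw [← Real.exp_nat_mul, mul_one] at h9
    exact h8.trans h9
  have h10 : (1 - 1 / M) ^ k ≤ Real.exp (-((m : ℝ) + 2)) :=
    h1.trans (Real.exp_le_exp.2 (by linarith))
  have h11 : (n : ℝ) * (1 - 1 / M) ^ k ≤ Real.exp m * Real.exp (-((m : ℝ) + 2)) :=
    mul_le_mul h7 h10 (pow_nonneg (by linarith) k) (Real.exp_pos _).le
  refine h11.trans ?_
  rw [← Real.exp_add]
  have h12 : (m : ℝ) + -((m : ℝ) + 2) = -(1 + 1) := by ring
  rw [h12, Real.exp_neg, Real.exp_add]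
  rw [inv_le_comm₀ (by positivity) (by norm_num)]
  nlinarith

end Pool.Agent.CD
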