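import Pool.Agent.Lib.CD.SpecA

/-!
MS: the multi switching lemma (note 5285, section 2).
-/

set_option autoImplicit false

namespace Pool.Agent.CD

open Finset

namespace MS_aux

theorem run_cnt {V : Type} [Fintype V] [DecidableEq V] {S w : ℕ} {TL : ℕ → List (Restr V)}
    {s s' : St V} {l : List (El S w)} (h : Run TL s l s') : ∀ e ∈ l, 1 ≤ cnt e := by
  induction h with
  | nil s => intro e he; simp at he
  | cons h1 _ ih =>
    intro e he
    rcases List.mem_cons.1 he with rfl | he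
    · obtain ⟨T, -, -, -, h, -⟩ := h1
      exact h
    · exact ih e he

theorem num (w : ℕ) (hw : 1 ≤ w) :
    0 ≤ 1 / (512 * (w : ℝ) + 1) ∧ 1 / (512 * (w : ℝ) + 1) < 1 ∧
      2 * (1 / (512 * (w : ℝ) + 1)) / (1 - 1 / (512 * (w : ℝ) + 1)) = 1 / (256 * (w : ℝ)) := by
  have hw' : (1 : ℝ) ≤ (w : ℝ) := by exact_mod_cast hw
  have h0 : (0 : ℝ) < 512 * (w : ℝ) + 1 := by linarith
  refine ⟨by positivity, ?_, ?_⟩
  · rw [div_lt_one h0]; linarith
  · have h1 : 1 - 1 / (512 * (w : ℝ) + 1) = 512 * (w : ℝ) / (512 * (w : ℝ) + 1) := by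
      field_simp; ring
    rw [h1]
    field_simp
    ring

end MS_aux

theorem tMS : sExi → sSum → sCod → sMS := by
  intro hE hS hC V _ _ S w TL tt g hw hSw hFam t
  classical
  obtain ⟨ha0, ha1, ha2⟩ := MS_aux.num w hw
  set a : ℝ := 1 / (512 * (w : ℝ) + 1) with ha
  have hex : ∀ r : Restr V, ¬ Tr (fun r' => ∀ j < S, Dt (g j) w r') t r →
      ∃ l : List (El S w), (∃ s', Run TL (ini r) l s') ∧ t < tot l ∧ ops l * w ≤ tot l := by
    intro r hr
    obtain ⟨l, s', h1, h2, h3⟩ := hE V S w TL tt g hFam t (ini r) hr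
    exact ⟨l, ⟨s', h1⟩, h2, h3⟩
  choose! c hc using hex
  set F : Finset (List (El S w)) :=
    ((univ : Finset (Restr V)).filter
      (fun r => ¬ Tr (fun r' => ∀ j < S, Dt (g j) w r') t r)).image c with hF
  have h1 : Pm a (fun r : Restr V => ¬ Tr (fun r' => ∀ j < S, Dt (g j) w r') t r) ≤
      Pm a (fun r : Restr V => ∃ l ∈ F, ∃ s', Run TL (ini r) l s') := by
    refine Pm_mono ha0 ha1.le fun r hr => ?_
    exact ⟨c r, mem_image.2 ⟨r, mem_filter.2 ⟨mem_univ _, hr⟩, rfl⟩, (hc r hr).1⟩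
  have h2 := Pm_exists_le (V := V) ha0 ha1.le F (fun l r => ∃ s', Run TL (ini r) l s')
  have h3 : ∑ l ∈ F, Pm a (fun r : Restr V => ∃ s', Run TL (ini r) l s') ≤
      ∑ l ∈ F, (1 / (256 * (w : ℝ))) ^ tot l := by
    refine sum_le_sum fun l _ => ?_
    have := hS V S w TL l a ha0 ha1
    rwa [ha2] at this
  have h4 : ∑ l ∈ F, (1 / (256 * (w : ℝ))) ^ tot l ≤ (1 / 4) ^ t := by
    refine hC S w hw hSw t F fun l hl => ?_
    obtain ⟨r, hr, rfl⟩ := mem_image.1 hl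
    have hr' := (mem_filter.1 hr).2
    obtain ⟨⟨s', hs⟩, h5, h6⟩ := hc r hr'
    exact ⟨h5, h6, MS_aux.run_cnt hs⟩
  exact h1.trans (h2.trans (h3.trans h4))

end Pool.Agent.CD
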