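import Pool.Agent.Lib.CD.SpecB

/-!
Module P1 of theorem CD (note 5285): the language with AM verifiers.
-/

set_option autoImplicit false

namespace Pool.Agent.CD

open Finset Pool.Agent.Lib.MP_ff3ed7_lc Pool.Agent.Lib.MP_ff3ed7_lc.B

namespace P1_aux

/-- the embedding of the blocks into the word -/
def emb {n k N : ℕ} (h : n * k ≤ N) (a : Fin n × Fin k) : Fin N :=
  Fin.castLE h (finProdFinEquiv a)

theorem emb_inj {n k N : ℕ} (h : n * k ≤ N) : Function.Injective (emb h) := by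
  intro a b hab
  exact finProdFinEquiv.injective (Fin.castLE_injective h hab)

theorem ckt_false {κ : Type} (d : ℕ) : IsCkt d 1 (fun _ : κ → Bool => false) := by
  refine ⟨fun _ _ _ => false, ?_, ?_, 0, one_pos, fun x => rfl⟩
  · intro j _
    exact ⟨∅, by simp, fun x y _ => rfl⟩
  · intro i _ j _
    exact ⟨∅, fun _ => true, true, by simp, by simp⟩

theorem am_false (N : ℕ) : HasAMk (fun _ : Fin N → Bool => false) 0 0 3 1 := by
  refine ⟨fun _ => false, ckt_false 3, ?_, ?_⟩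
  · intro x hx
    exact absurd hx (by simp)
  · intro x _
    have : prob 0 (fun ρ => ∃ y : Fin 0 → Bool,
        (fun _ : Fin N ⊕ (Fin 0 ⊕ Fin 0) → Bool => false) (Sum.elim x (Sum.elim y ρ)) = true) = 0 := by
      simp [prob]
    rw [this]
    norm_num

theorem pbound (ℓ m : ℕ) (h : ℓ ≤ m) :
    5 * ℓ + 17 + 10 * 2 ^ Nat.sqrt ℓ ≤ 2 ^ (4001 * (Nat.sqrt m + 1)) := by
  set s := Nat.sqrt ℓ with hs
  have h1 : ℓ < (s + 1) * (s + 1) := Nat.lt_succ_sqrt ℓ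
  have h2 : s + 1 < 2 ^ (s + 1) := Nat.lt_two_pow_self
  have h3 : (s + 1) * (s + 1) ≤ 2 ^ (s + 1) * 2 ^ (s + 1) := Nat.mul_le_mul h2.le h2.le
  have h4 : 2 ^ (s + 1) * 2 ^ (s + 1) = 2 ^ (2 * (s + 1)) := by rw [← pow_add]; congr 1; ring
  have h5 : 2 ^ s ≤ 2 ^ (2 * (s + 1)) := Nat.pow_le_pow_right (by norm_num) (by omega)
  have h6 : 1 ≤ 2 ^ (2 * (s + 1)) := Nat.one_le_two_pow
  have h7 : 2 ^ (2 * (s + 1) + 5) = 32 * 2 ^ (2 * (s + 1)) := by rw [pow_add]; ring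
  have h8 : 5 * ℓ + 17 + 10 * 2 ^ s ≤ 2 ^ (2 * (s + 1) + 5) := by
    rw [h7]
    omega
  refine h8.trans (Nat.pow_le_pow_right (by norm_num) ?_)
  have h9 : s ≤ Nat.sqrt m := Nat.sqrt_le_sqrt h
  omega

theorem sbound (ℓ n k N : ℕ) (hn : 2 ^ (5 * ℓ + 12) ≤ n) (hk : 1 ≤ k) (h : n * k ≤ N) :
    2 ^ (5 * ℓ + 17 + (ℓ + 2) + 20) + 1000 * (n + 1) * (k + 1) ≤ 4001 * (N + 1) ^ 4001 := by
  have hnN : n ≤ N := (Nat.le_mul_of_pos_right n hk).trans h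
  have h1 : 2 ^ (5 * ℓ + 17 + (ℓ + 2) + 20) ≤ (N + 1) ^ 4 := by
    calc 2 ^ (5 * ℓ + 17 + (ℓ + 2) + 20) ≤ 2 ^ ((5 * ℓ + 12) * 4) :=
          Nat.pow_le_pow_right (by norm_num) (by omega)
      _ = (2 ^ (5 * ℓ + 12)) ^ 4 := by rw [pow_mul]
      _ ≤ (N + 1) ^ 4 := Nat.pow_le_pow_left (by omega) 4
  have hn1 : 1 ≤ n := le_trans Nat.one_le_two_pow hn
  have h2 : (n + 1) * (k + 1) ≤ (2 * n) * (2 * k) := Nat.mul_le_mul (by omega) (by omega)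
  have h3 : 1000 * (n + 1) * (k + 1) ≤ 4000 * (N + 1) ^ 4 := by
    calc 1000 * (n + 1) * (k + 1) = 1000 * ((n + 1) * (k + 1)) := by ring
      _ ≤ 1000 * ((2 * n) * (2 * k)) := Nat.mul_le_mul_left _ h2
      _ = 4000 * (n * k) := by ring
      _ ≤ 4000 * (N + 1) ^ 4 := by
        apply Nat.mul_le_mul_left
        calc n * k ≤ N + 1 := by omega
          _ = (N + 1) ^ 1 := (pow_one _).symm
          _ ≤ (N + 1) ^ 4 := Nat.pow_le_pow_right (by omega) (by norm_num)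
  calc 2 ^ (5 * ℓ + 17 + (ℓ + 2) + 20) + 1000 * (n + 1) * (k + 1)
      ≤ (N + 1) ^ 4 + 4000 * (N + 1) ^ 4 := Nat.add_le_add h1 h3
    _ = 4001 * (N + 1) ^ 4 := by ring
    _ ≤ 4001 * (N + 1) ^ 4001 :=
        Nat.mul_le_mul_left _ (Nat.pow_le_pow_right (by omega) (by norm_num))

end P1_aux

open P1_aux in
theorem tP1 : sTrL → sTrU → sLof → sN1 → sN2 → sN3 → sTMA → sTSB → sTPP → sUpA → sBas → sP1 := by
  intro hTrL hTrU hLof hN1 hN2 hN3 hTMA hTSB hTPP hUpA hBas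
  choose n f hn1 hn2 hAM hSB hPP hMA using fun ℓ => (hBas ℓ).2
  set B : ℕ → ℕ := fun ℓ => 2 ^ (5 * ℓ + 17) with hB
  have hB1 : ∀ ℓ, 2 ^ ℓ ≤ B ℓ := fun ℓ => Nat.pow_le_pow_right (by norm_num) (by omega)
  -- the language if the word is long enough
  have hpos : ∀ (N : ℕ) (h : n (lof B N) * 2 ^ Nat.sqrt (lof B N) ≤ N), Lang B n f N =
      fun x => (fun y : Fin (n (lof B N)) × Fin (2 ^ Nat.sqrt (lof B N)) → Bool =>
        f (lof B N) (xk y)) fun a => x (emb h a) := by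
    intro N h
    funext x
    unfold Lang
    rw [dif_pos h]
    rfl
  have hneg : ∀ (N : ℕ) (_ : ¬ n (lof B N) * 2 ^ Nat.sqrt (lof B N) ≤ N), Lang B n f N =
      fun _ => false := by
    intro N h
    funext x
    unfold Lang
    rw [dif_neg h]
  refine ⟨Lang B n f, 4001, ?_, ?_⟩
  · intro N
    obtain ⟨hl1, -, -⟩ := hLof B N hB1
    by_cases h : n (lof B N) * 2 ^ Nat.sqrt (lof B N) ≤ N
    · refine ⟨lof B N + 2, 5 * lof B N + 17 + 10 * 2 ^ Nat.sqrt (lof B N),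
        2 ^ (5 * lof B N + 17 + (lof B N + 2) + 20) +
          1000 * (n (lof B N) + 1) * (2 ^ Nat.sqrt (lof B N) + 1), by omega,
        pbound _ _ hl1, sbound _ _ _ _ (hn1 _) Nat.one_le_two_pow h, ?_⟩
      rw [hpos N h]
      exact (hTrU _ _ (emb h) _ _ _ _ _).1
        (hUpA (n (lof B N)) (2 ^ Nat.sqrt (lof B N)) _ _ (f (lof B N)) Nat.one_le_two_pow
          (hAM (lof B N)))
    · refine ⟨0, 0, 1, by omega, Nat.zero_le _, ?_, ?_⟩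
      · have : 1 ≤ (N + 1) ^ 4001 := Nat.one_le_pow _ _ (by omega)
        omega
      · rw [hneg N h]
        exact am_false N
  · intro d c
    obtain ⟨ℓ₁, h1⟩ := hN1 d c
    obtain ⟨ℓ₂, h2⟩ := hN2 d c
    obtain ⟨ℓ₃, h3⟩ := hN3 d c
    set ℓ₀ := max ℓ₁ (max ℓ₂ ℓ₃) with hℓ₀
    refine ⟨B ℓ₀ * 2 ^ Nat.sqrt ℓ₀ + B 0, ?_⟩
    intro N hN S hS p
    obtain ⟨-, hl2, hl3⟩ := hLof B N hB1
    have hge : ℓ₀ ≤ lof B N := hl3 ℓ₀ (by omega)
    obtain ⟨hlo, hhi⟩ := hl2 (by omega)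
    set ℓ := lof B N with hℓ
    have hg1 : ℓ₁ ≤ ℓ := le_trans (le_max_left _ _) hge
    have hg2 : ℓ₂ ≤ ℓ := le_trans ((le_max_left _ _).trans (le_max_right _ _)) hge
    have hg3 : ℓ₃ ≤ ℓ := le_trans ((le_max_right _ _).trans (le_max_right _ _)) hge
    have h : n ℓ * 2 ^ Nat.sqrt ℓ ≤ N := (Nat.mul_le_mul_right _ (hn2 ℓ)).trans hlo
    have hlog : Nat.log 2 N ≤ 100 * (ℓ + 1) := by
      have hs : Nat.sqrt (ℓ + 1) ≤ ℓ + 1 := Nat.sqrt_le_self _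
      have hN2' : N < 2 ^ (5 * (ℓ + 1) + 17 + (ℓ + 1)) := by
        refine lt_of_lt_of_le hhi ?_
        rw [pow_add 2 (5 * (ℓ + 1) + 17)]
        exact Nat.mul_le_mul_left _ (Nat.pow_le_pow_right (by norm_num) hs)
      have hlt : Nat.log 2 N < 5 * (ℓ + 1) + 17 + (ℓ + 1) := by
        by_cases hN0 : N = 0
        · rw [hN0]
          simp
        · exact Nat.log_lt_of_lt_pow hN0 hN2'
      omega
    set w : ℕ := (Nat.log 2 N) ^ c + 1 with hw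
    have hw1 : 1 ≤ w := by omega
    have hw2 : w ≤ (100 * (ℓ + 1)) ^ c + 1 := Nat.succ_le_succ (Nat.pow_le_pow_left hlog c)
    have hSw : S ≤ 2 ^ w := hS.trans (Nat.pow_le_pow_right (by norm_num) (by omega))
    have hblk := h1 ℓ hg1 (n ℓ) ((hn2 ℓ).trans (Nat.pow_le_pow_right (by norm_num) (by omega)))
      w hw2
    have hTr := hTrL _ _ (emb h) (emb_inj h)
      (fun y : Fin (n ℓ) × Fin (2 ^ Nat.sqrt ℓ) → Bool => f ℓ (xk y)) p d S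
    have hL := hpos N h
    refine ⟨fun hx => ?_, fun hx => ?_, fun hx => ?_⟩
    · rw [hL] at hx
      have e1 := hTMA (n ℓ) (2 ^ Nat.sqrt ℓ) p d S w (f ℓ) hw1 hSw hblk (hTr.1 hx)
      exact lt_of_lt_of_le hhi (h2 ℓ hg2 w hw2 p (hMA ℓ _ _ e1))
    · rw [hL] at hx
      obtain ⟨r, e1⟩ := hTSB (n ℓ) (2 ^ Nat.sqrt ℓ) p d S w (f ℓ) hw1 hSw hblk (hTr.2.1 hx)
      exact lt_of_lt_of_le hhi (h3 ℓ hg3 w hw2 p (hSB ℓ _ _ _ e1))
    · rw [hL] at hx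
      have e1 := hTPP (n ℓ) (2 ^ Nat.sqrt ℓ) p d S w (f ℓ) hw1 hSw hblk (hTr.2.2 hx)
      have e2 := hPP ℓ _ e1
      exact lt_of_lt_of_le hhi (h3 ℓ hg3 w hw2 p (by omega))

end Pool.Agent.CD
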