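import Pool.Agent.Lib.CD.SpecC
import Pool.Agent.Lib.CD.P1

/-!
Module Q1 of theorem CD (note 5285): the language with AM verifiers, general form.
-/

set_option autoImplicit false

namespace Pool.Agent.CD

open Finset Pool.Agent.Lib.MP_ff3ed7_lc Pool.Agent.Lib.MP_ff3ed7_lc.B

namespace Q1_aux

/-- the final numerical step -/
theorem num (ℓ a Y κ1 κL N C : ℕ) (hN : N < 2 ^ (5 * (ℓ + 1) + 17) * 2 ^ κ1) (hκ : κ1 ≤ κL)
    (h : 2 ^ ℓ ≤ a * Y) (hC : 2 ^ 22 * a ^ 5 ≤ C) : N ≤ C * 2 ^ κL * Y ^ 5 := by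
  have h1 : 2 ^ (5 * (ℓ + 1) + 17) = 2 ^ 22 * (2 ^ ℓ) ^ 5 := by
    rw [← pow_mul, ← pow_add]
    congr 1
    ring
  have h2 : (2 ^ ℓ) ^ 5 ≤ (a * Y) ^ 5 := Nat.pow_le_pow_left h 5
  have h3 : 2 ^ κ1 ≤ 2 ^ κL := Nat.pow_le_pow_right (by norm_num) hκ
  calc N ≤ 2 ^ (5 * (ℓ + 1) + 17) * 2 ^ κ1 := hN.le
    _ = 2 ^ 22 * (2 ^ ℓ) ^ 5 * 2 ^ κ1 := by rw [h1]
    _ ≤ 2 ^ 22 * (a * Y) ^ 5 * 2 ^ κL := Nat.mul_le_mul (Nat.mul_le_mul_left _ h2) h3
    _ = (2 ^ 22 * a ^ 5) * (2 ^ κL * Y ^ 5) := by rw [mul_pow]; ring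
    _ ≤ C * (2 ^ κL * Y ^ 5) := Nat.mul_le_mul_right _ hC
    _ = C * 2 ^ κL * Y ^ 5 := by ring

end Q1_aux

open P1_aux Q1_aux in
theorem tQ1 : sTrL → sTrU → sLoK → sM1 → sTMA → sTSB → sTPP → sUpA → sBas → sQ1 := by
  intro hTrL hTrU hLoK hM1 hTMA hTSB hTPP hUpA hBas κ hmono hκ
  choose n f hn1 hn2 hAM hSB hPP hMA using fun ℓ => (hBas ℓ).2
  set B : ℕ → ℕ := fun ℓ => 2 ^ (5 * ℓ + 17) with hB
  have hB1 : ∀ ℓ, 2 ^ ℓ ≤ B ℓ := fun ℓ => Nat.pow_le_pow_right (by norm_num) (by omega)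
  obtain ⟨C, hC⟩ : ∃ C : ℕ, 2 ^ 50 ≤ C := ⟨2 ^ 50, le_rfl⟩
  have hC4 : 4001 ≤ C := le_trans (by norm_num) hC
  -- the language if the word is long enough
  have hpos : ∀ (N : ℕ) (h : n (lofK B κ N) * 2 ^ κ (lofK B κ N) ≤ N), LangK B κ n f N =
      fun x => (fun y : Fin (n (lofK B κ N)) × Fin (2 ^ κ (lofK B κ N)) → Bool =>
        f (lofK B κ N) (xk y)) fun a => x (emb h a) := by
    intro N h
    funext x
    unfold LangK
    rw [dif_pos h]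
    rfl
  have hneg : ∀ (N : ℕ) (_ : ¬ n (lofK B κ N) * 2 ^ κ (lofK B κ N) ≤ N), LangK B κ n f N =
      fun _ => false := by
    intro N h
    funext x
    unfold LangK
    rw [dif_neg h]
  refine ⟨LangK B κ n f, C, ?_, ?_⟩
  · intro N
    obtain ⟨hl1, -⟩ := hLoK B κ N hB1
    have hCN : 1 ≤ (N + 1) ^ C := Nat.one_le_pow _ _ (by omega)
    by_cases h : n (lofK B κ N) * 2 ^ κ (lofK B κ N) ≤ N
    · refine ⟨lofK B κ N + 2, 5 * lofK B κ N + 17 + 10 * 2 ^ κ (lofK B κ N),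
        2 ^ (5 * lofK B κ N + 17 + (lofK B κ N + 2) + 20) +
          1000 * (n (lofK B κ N) + 1) * (2 ^ κ (lofK B κ N) + 1), by omega, ?_, ?_, ?_⟩
      · have h1 : 2 ^ κ (lofK B κ N) ≤ 2 ^ κ (Nat.log 2 N) :=
          Nat.pow_le_pow_right (by norm_num) (hmono hl1)
        have h2 : 17 * (Nat.log 2 N + 1) ≤ C * (Nat.log 2 N + 1) :=
          Nat.mul_le_mul_right _ (by omega)
        omega
      · refine (sbound _ _ _ _ (hn1 _) Nat.one_le_two_pow h).trans ?_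
        exact Nat.mul_le_mul hC4 (Nat.pow_le_pow_right (by omega) hC4)
      · rw [hpos N h]
        exact (hTrU _ _ (emb h) _ _ _ _ _).1
          (hUpA (n (lofK B κ N)) (2 ^ κ (lofK B κ N)) _ _ (f (lofK B κ N)) Nat.one_le_two_pow
            (hAM (lofK B κ N)))
    · refine ⟨0, 0, 1, by omega, Nat.zero_le _, ?_, ?_⟩
      · calc 1 ≤ C * 1 := by omega
          _ ≤ C * (N + 1) ^ C := Nat.mul_le_mul_left _ hCN
      · rw [hneg N h]
        exact am_false N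
  · intro N d w S hw hS hcond p
    obtain ⟨hl1, hl2⟩ := hLoK B κ N hB1
    set X : ℕ := 2 ^ d * (p + d + 4) + w with hX
    have hX1 : 1 ≤ X := by omega
    have hκ0 : κ 0 = 0 := Nat.le_zero.mp (hκ 0)
    have hB0 : B 0 * 2 ^ κ 0 = 2 ^ 17 := by
      simp [hB, hκ0]
    by_cases hN : N < 2 ^ 17
    · have hNC : N ≤ C := by
        have : 2 ^ 17 ≤ 2 ^ 50 := by norm_num
        omega
      have h1 : 1 ≤ 2 ^ κ (Nat.log 2 N) := Nat.one_le_two_pow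
      have aux : ∀ Y : ℕ, 1 ≤ Y → N ≤ C * 2 ^ κ (Nat.log 2 N) * Y ^ 5 := by
        intro Y hY
        have h2 : 1 ≤ Y ^ 5 := Nat.one_le_pow _ _ hY
        calc N ≤ C * 1 * 1 := by omega
          _ ≤ C * 2 ^ κ (Nat.log 2 N) * Y ^ 5 :=
            Nat.mul_le_mul (Nat.mul_le_mul_left _ h1) h2
      refine ⟨fun _ => aux _ ?_, fun _ => aux _ hX1, fun _ => aux _ hX1⟩
      exact Nat.mul_pos (by omega) hX1
    · obtain ⟨hlo, hhi⟩ := hl2 (by rw [hB0]; omega)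
      set ℓ := lofK B κ N with hℓ
      have hBl : B ℓ = 2 ^ (5 * ℓ + 17) := rfl
      have hBl1 : B (ℓ + 1) = 2 ^ (5 * (ℓ + 1) + 17) := rfl
      have hN0 : N ≠ 0 := by
        rintro rfl
        exact hN (by positivity)
      have h17 : 5 * ℓ + 17 ≤ Nat.log 2 N := by
        refine Nat.le_log_of_pow_le (by norm_num) ?_
        rw [← hBl]
        exact (Nat.le_mul_of_pos_right _ (by positivity)).trans hlo
      have hlt : Nat.log 2 N < 6 * ℓ + 23 := by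
        refine Nat.log_lt_of_lt_pow hN0 ?_
        refine lt_of_lt_of_le hhi ?_
        rw [hBl1, ← pow_add]
        refine Nat.pow_le_pow_right (by norm_num) ?_
        have := hκ (ℓ + 1)
        omega
      have hdiv : Nat.log 2 N / 6 - 4 ≤ ℓ := by omega
      have h : n ℓ * 2 ^ κ ℓ ≤ N := (Nat.mul_le_mul_right _ (hn2 ℓ)).trans hlo
      have hblk : (n ℓ : ℝ) * (1 - (1 / (512 * (w : ℝ) + 1)) ^ d) ^ (2 ^ κ ℓ) ≤ 1 / 4 := by
        refine hM1 (5 * ℓ + 17) d w (2 ^ κ ℓ) (n ℓ) hw (hn2 ℓ) ?_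
        calc (5 * ℓ + 17 + 2) * (513 * w) ^ d
            ≤ C * (Nat.log 2 N + 1) * (513 * w) ^ d := by
              refine Nat.mul_le_mul_right _ ?_
              have : 2 * (Nat.log 2 N + 1) ≤ C * (Nat.log 2 N + 1) :=
                Nat.mul_le_mul_right _ (by omega)
              omega
          _ ≤ 2 ^ κ (Nat.log 2 N / 6 - 4) := hcond
          _ ≤ 2 ^ κ ℓ := Nat.pow_le_pow_right (by norm_num) (hmono hdiv)
      have hκL : κ (ℓ + 1) ≤ κ (Nat.log 2 N) := hmono (by omega)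
      have hTr := hTrL _ _ (emb h) (emb_inj h)
        (fun y : Fin (n ℓ) × Fin (2 ^ κ ℓ) → Bool => f ℓ (xk y)) p d S
      have hL := hpos N h
      refine ⟨fun hx => ?_, fun hx => ?_, fun hx => ?_⟩
      · rw [hL] at hx
        have e1 := hTMA (n ℓ) (2 ^ κ ℓ) p d S w (f ℓ) hw hS hblk (hTr.1 hx)
        have e2 := hMA ℓ _ _ e1
        refine num ℓ 4 ((p + 2) * X) (κ (ℓ + 1)) _ N C hhi hκL ?_ ?_
        · refine e2.le.trans ?_
          calc (p + 2) * (3 * X + 1) ≤ (p + 2) * (4 * X) := Nat.mul_le_mul_left _ (by omega)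
            _ = 4 * ((p + 2) * X) := by ring
        · exact le_trans (by norm_num) hC
      · rw [hL] at hx
        obtain ⟨r, e1⟩ := hTSB (n ℓ) (2 ^ κ ℓ) p d S w (f ℓ) hw hS hblk (hTr.2.1 hx)
        have e2 := hSB ℓ _ _ _ e1
        refine num ℓ 18 X (κ (ℓ + 1)) _ N C hhi hκL ?_ ?_
        · omega
        · exact le_trans (by norm_num) hC
      · rw [hL] at hx
        have e1 := hTPP (n ℓ) (2 ^ κ ℓ) p d S w (f ℓ) hw hS hblk (hTr.2.2 hx)
        have e2 := hPP ℓ _ e1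
        refine num ℓ 9 X (κ (ℓ + 1)) _ N C hhi hκL ?_ ?_
        · omega
        · exact le_trans (by norm_num) hC

end Pool.Agent.CD
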