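import Pool.Agent.Lib.CD.SpecC

/-!
CD, general form, module Q2: a language with SBP verifiers and without MA verifiers, blocks of
length `2 ^ κ ℓ`.
-/

set_option autoImplicit false

namespace Pool.Agent.CD

open Finset Pool.Agent.Lib.MP_ff3ed7_lc Pool.Agent.Lib.MP_ff3ed7_lc.B

namespace Q2_aux

lemma ckt_false {κ : Type} (d : ℕ) : IsCkt d 1 (fun _ : κ → Bool => false) := by
  refine ⟨fun _ _ _ => false, ?_, ?_, 0, Nat.one_pos, fun _ => rfl⟩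
  · intro j _
    exact ⟨∅, by simp, fun _ _ _ => rfl⟩
  · intro i _ j _
    exact ⟨∅, fun _ => true, true, by simp, by simp⟩

lemma sbu_false {κ : Type} (d : ℕ) : HasSBu (fun _ : κ → Bool => false) 0 0 d 1 := by
  refine ⟨fun _ => false, ckt_false d, ?_, ?_⟩
  · intro x hx
    exact absurd hx (by simp)
  · intro x _
    simp [prob]

/-- bound of the size -/
lemma size (l n k N C : ℕ) (hC : 2 ^ 100 ≤ C) (hk : 1 ≤ k) (hn : 2 ^ (9 * l + 19) ≤ n)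
    (h : n * k ≤ N) :
    2 ^ (10 * l + 24 + 20) + 1000 * (n + 1) * (k + 1) ≤ C * (N + 1) ^ C := by
  have hn1 : 1 ≤ n := le_trans Nat.one_le_two_pow hn
  have h1 : n ≤ N := le_trans (Nat.le_mul_of_pos_right _ hk) h
  have h2 : k ≤ N := le_trans (Nat.le_mul_of_pos_left _ hn1) h
  have h3 : 2 ^ (9 * l + 19) ≤ N + 1 := by omega
  have h4 : 2 ^ (10 * l + 24 + 20) ≤ 64 * (N + 1) ^ 2 := by
    calc 2 ^ (10 * l + 24 + 20) ≤ 2 ^ (6 + (9 * l + 19) * 2) :=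
          Nat.pow_le_pow_right (by norm_num) (by omega)
      _ = 64 * (2 ^ (9 * l + 19)) ^ 2 := by
          rw [pow_add, pow_mul]
          norm_num
      _ ≤ 64 * (N + 1) ^ 2 := Nat.mul_le_mul_left _ (Nat.pow_le_pow_left h3 2)
  have h5 : 1000 * (n + 1) * (k + 1) ≤ 1000 * (N + 1) ^ 2 := by
    have : (n + 1) * (k + 1) ≤ (N + 1) * (N + 1) := Nat.mul_le_mul (by omega) (by omega)
    rw [sq, mul_assoc]
    exact Nat.mul_le_mul_left _ this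
  have hC2 : 1064 ≤ C := le_trans (by norm_num) hC
  have h6 : (N + 1) ^ 2 ≤ (N + 1) ^ C := Nat.pow_le_pow_right (Nat.succ_pos N) (by omega)
  calc 2 ^ (10 * l + 24 + 20) + 1000 * (n + 1) * (k + 1)
      ≤ 64 * (N + 1) ^ 2 + 1000 * (N + 1) ^ 2 := Nat.add_le_add h4 h5
    _ = 1064 * (N + 1) ^ 2 := by rw [← add_mul]
    _ ≤ C * (N + 1) ^ C := Nat.mul_le_mul hC2 h6

lemma lang_pos (B κ n : ℕ → ℕ) (f : (ℓ : ℕ) → (Fin (n ℓ) → Bool) → Bool) (N : ℕ)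
    (h : n (lofK B κ N) * 2 ^ κ (lofK B κ N) ≤ N) :
    LangK B κ n f N = fun x => f (lofK B κ N)
      (xk fun a : Fin (n (lofK B κ N)) × Fin (2 ^ κ (lofK B κ N)) =>
        x (Fin.castLE h (finProdFinEquiv a))) := by
  funext x
  unfold LangK
  rw [dif_pos h]

lemma lang_neg (B κ n : ℕ → ℕ) (f : (ℓ : ℕ) → (Fin (n ℓ) → Bool) → Bool) (N : ℕ)
    (h : ¬ n (lofK B κ N) * 2 ^ κ (lofK B κ N) ≤ N) :
    LangK B κ n f N = fun _ => false := by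
  funext x
  unfold LangK
  rw [dif_neg h]

/-- the final estimate -/
lemma fin_le (l a b N p X C : ℕ) (hC : 2 ^ 100 ≤ C) (hX : 1 ≤ X) (hab : a ≤ b)
    (h1 : N < 2 ^ (9 * (l + 1) + 22) * 2 ^ a) (h2 : 2 ^ l < 6 * (p + 1) * (3 * X + 1)) :
    N ≤ C * 2 ^ b * ((p + 2) * X) ^ 9 := by
  have h3 : 2 ^ l ≤ 24 * ((p + 2) * X) := by
    refine le_trans h2.le ?_
    nlinarith [Nat.zero_le p, Nat.mul_le_mul (Nat.zero_le p) hX]
  have h4 : 2 ^ (9 * (l + 1) + 22) = 2 ^ 31 * (2 ^ l) ^ 9 := by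
    rw [← pow_mul, ← pow_add]
    congr 1
    ring
  have h5 : (2 ^ l) ^ 9 ≤ (24 * ((p + 2) * X)) ^ 9 := Nat.pow_le_pow_left h3 9
  have h6 : 2 ^ a ≤ 2 ^ b := Nat.pow_le_pow_right (by norm_num) hab
  have h7 : 2 ^ 31 * 24 ^ 9 ≤ C := le_trans (by norm_num) hC
  calc N ≤ 2 ^ (9 * (l + 1) + 22) * 2 ^ a := h1.le
    _ = 2 ^ 31 * (2 ^ l) ^ 9 * 2 ^ a := by rw [h4]
    _ ≤ 2 ^ 31 * (24 * ((p + 2) * X)) ^ 9 * 2 ^ b :=
        Nat.mul_le_mul (Nat.mul_le_mul_left _ h5) h6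
    _ = (2 ^ 31 * 24 ^ 9) * (2 ^ b * ((p + 2) * X) ^ 9) := by
        rw [mul_pow 24]
        ring
    _ ≤ C * (2 ^ b * ((p + 2) * X) ^ 9) := Nat.mul_le_mul_right _ h7
    _ = C * 2 ^ b * ((p + 2) * X) ^ 9 := by rw [mul_assoc]

end Q2_aux

open Q2_aux in
theorem tQ2 : sTrL → sTrU → sLoK → sM1 → sTMA → sUpS → sBas → sQ2 := by
  intro hTrL hTrU hLoK hM1 hTMA hUpS hBas κ hmon hκ
  have hb := fun ℓ => (hBas ℓ).1
  choose n f hn1 hn2 hf1 hf2 using hb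
  have hB : ∀ ℓ : ℕ, 2 ^ ℓ ≤ (fun ℓ : ℕ => 2 ^ (9 * ℓ + 22)) ℓ := fun ℓ =>
    Nat.pow_le_pow_right (by norm_num) (by omega)
  obtain ⟨C, hC⟩ : ∃ C : ℕ, 2 ^ 100 ≤ C := ⟨_, le_rfl⟩
  have hC24 : 24 ≤ C := le_trans (by norm_num) hC
  refine ⟨LangK (fun ℓ : ℕ => 2 ^ (9 * ℓ + 22)) κ n f, C, ?_, ?_⟩
  · intro N
    obtain ⟨hl, -⟩ := hLoK (fun ℓ : ℕ => 2 ^ (9 * ℓ + 22)) κ N hB
    by_cases h : n (lofK (fun ℓ : ℕ => 2 ^ (9 * ℓ + 22)) κ N) *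
        2 ^ κ (lofK (fun ℓ : ℕ => 2 ^ (9 * ℓ + 22)) κ N) ≤ N
    · rw [lang_pos _ κ n f N h]
      generalize lofK (fun ℓ : ℕ => 2 ^ (9 * ℓ + 22)) κ N = ℓ at hl h
      have hk : 1 ≤ 2 ^ κ ℓ := Nat.one_le_two_pow
      have h1 := hUpS (n ℓ) (2 ^ κ ℓ) (10 * ℓ + 24) (9 * ℓ + 24) (f ℓ) hk (hf1 ℓ)
      have h2 := (hTrU (Fin (n ℓ) × Fin (2 ^ κ ℓ)) (Fin N)
        (fun a => Fin.castLE h (finProdFinEquiv a)) (fun x => f ℓ (xk x)) _ _ _ _).2 h1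
      have h3 : 2 ^ κ ℓ ≤ 2 ^ κ (Nat.log 2 N) := Nat.pow_le_pow_right (by norm_num) (hmon hl)
      have h4 : 24 * (Nat.log 2 N + 1) ≤ C * (Nat.log 2 N + 1) := Nat.mul_le_mul_right _ hC24
      exact ⟨_, _, _, by omega, by omega,
        size ℓ (n ℓ) (2 ^ κ ℓ) N C hC hk (hn1 ℓ) h, h2⟩
    · rw [lang_neg _ κ n f N h]
      refine ⟨0, 0, 1, Nat.zero_le _, Nat.zero_le _, ?_, sbu_false 3⟩
      have : 0 < C * (N + 1) ^ C := by positivity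
      omega
  · intro N d w S hw hS hcon p H
    have hX : 1 ≤ 2 ^ d * (p + d + 4) + w := by omega
    have hκ0 : κ 0 = 0 := Nat.le_zero.1 (hκ 0)
    by_cases hN : N < 2 ^ 22
    · have h1 : 1 ≤ ((p + 2) * (2 ^ d * (p + d + 4) + w)) ^ 9 :=
        Nat.one_le_iff_ne_zero.2 (by positivity)
      have h2 : 1 ≤ 2 ^ κ (Nat.log 2 N) := Nat.one_le_two_pow
      have h3 : N ≤ C := le_trans hN.le (le_trans (by norm_num) hC)
      calc N ≤ C := h3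
        _ ≤ C * 2 ^ κ (Nat.log 2 N) := Nat.le_mul_of_pos_right _ h2
        _ ≤ _ := Nat.le_mul_of_pos_right _ h1
    obtain ⟨-, hl2⟩ := hLoK (fun ℓ : ℕ => 2 ^ (9 * ℓ + 22)) κ N hB
    obtain ⟨hl5, hl6⟩ := hl2 (by
      show 2 ^ (9 * 0 + 22) * 2 ^ κ 0 ≤ N
      rw [hκ0]
      omega)
    have h : n (lofK (fun ℓ : ℕ => 2 ^ (9 * ℓ + 22)) κ N) *
        2 ^ κ (lofK (fun ℓ : ℕ => 2 ^ (9 * ℓ + 22)) κ N) ≤ N :=
      le_trans (Nat.mul_le_mul_right _ (hn2 _)) hl5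
    rw [lang_pos _ κ n f N h] at H
    generalize lofK (fun ℓ : ℕ => 2 ^ (9 * ℓ + 22)) κ N = ℓ at h hl5 hl6 H
    have hl5' : 2 ^ (9 * ℓ + 22) * 2 ^ κ ℓ ≤ N := hl5
    have hl6' : N < 2 ^ (9 * (ℓ + 1) + 22) * 2 ^ κ (ℓ + 1) := hl6
    have hlog1 : 9 * ℓ + 22 ≤ Nat.log 2 N := by
      refine Nat.le_log_of_pow_le (by norm_num) ?_
      exact le_trans (Nat.le_mul_of_pos_right _ Nat.one_le_two_pow) hl5'
    have hlog2 : Nat.log 2 N < 10 * ℓ + 32 := by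
      have h1 := hκ (ℓ + 1)
      have h2 : N < 2 ^ (10 * ℓ + 32) := by
        refine lt_of_lt_of_le hl6' ?_
        rw [← pow_add]
        exact Nat.pow_le_pow_right (by norm_num) (by omega)
      exact Nat.log_lt_of_lt_pow' (by omega) h2
    have hinj : Function.Injective
        (fun a : Fin (n ℓ) × Fin (2 ^ κ ℓ) => Fin.castLE h (finProdFinEquiv a)) := by
      intro a b hab
      exact finProdFinEquiv.injective (Fin.castLE_injective h hab)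
    have H1 := (hTrL (Fin (n ℓ) × Fin (2 ^ κ ℓ)) (Fin N) _ hinj
      (fun x => f ℓ (xk x)) p d S).1 H
    have hcon2 : (9 * ℓ + 22 + 2) * (513 * w) ^ d ≤ 2 ^ κ ℓ := by
      refine le_trans (Nat.mul_le_mul_right _ ?_) (le_trans hcon ?_)
      · have : 2 * (Nat.log 2 N + 1) ≤ C * (Nat.log 2 N + 1) := Nat.mul_le_mul_right _ (by omega)
        omega
      · exact Nat.pow_le_pow_right (by norm_num) (hmon (by omega))
    have hb := hM1 (9 * ℓ + 22) d w (2 ^ κ ℓ) (n ℓ) hw (hn2 ℓ) hcon2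
    have H2 := hTMA (n ℓ) (2 ^ κ ℓ) p d S w (f ℓ) hw hS hb H1
    exact fin_le ℓ (κ (ℓ + 1)) (κ (Nat.log 2 N)) N p _ C hC hX (hmon (by omega)) hl6'
      (hf2 ℓ _ _ H2)

end Pool.Agent.CD
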