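import Pool.Agent.Lib.CD.SpecD

/-!
Module Q3 of theorem CD (note 5285): the language with AM verifiers which is hard for `Σ₂`
protocols, general form.
-/

set_option autoImplicit false

namespace Pool.Agent.CD

open Finset Pool.Agent.Lib.MP_ff3ed7_lc Pool.Agent.Lib.MP_ff3ed7_lc.B

namespace Q3_aux

/-- the embedding of the blocks into the word -/
def emb {n k N : ℕ} (h : n * k ≤ N) (a : Fin n × Fin k) : Fin N :=
  Fin.castLE h (finProdFinEquiv a)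

theorem emb_inj {n k N : ℕ} (h : n * k ≤ N) : Function.Injective (emb h) := by
  intro a b hab
  exact finProdFinEquiv.injective (Fin.castLE_injective h hab)

theorem ckt_false {κ : Type} (d : ℕ) : IsCkt d 1 (fun _ : κ → Bool => false) := by
  refine ⟨fun _ _ _ => false, ?_, ?_, 0, one_pos, fun x => rfl⟩
  · intro j _
    exact ⟨∅, by simp, fun x y _ => rfl⟩
  · intro i _ j _
    exact ⟨∅, fun _ => true, true, by simp, by simp⟩

theorem am_false (N : ℕ) : HasAMk (fun _ : Fin N → Bool => false) 0 0 3 1 := by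
  refine ⟨fun _ => false, ckt_false 3, ?_, ?_⟩
  · intro x hx
    exact absurd hx (by simp)
  · intro x _
    have : prob 0 (fun ρ => ∃ y : Fin 0 → Bool,
        (fun _ : Fin N ⊕ (Fin 0 ⊕ Fin 0) → Bool => false) (Sum.elim x (Sum.elim y ρ)) = true) = 0 := by
      simp [prob]
    rw [this]
    norm_num

theorem sbound (ℓ n k N : ℕ) (hn : 2 ^ (8 * ℓ + 28) ≤ n) (hk : 1 ≤ k) (h : n * k ≤ N) :
    2 ^ (9 * ℓ + 30 + (4 * ℓ + 14) + 20) + 1000 * (n + 1) * (k + 1) ≤ 4001 * (N + 1) ^ 4001 := by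
  have hnN : n ≤ N := (Nat.le_mul_of_pos_right n hk).trans h
  have h1 : 2 ^ (9 * ℓ + 30 + (4 * ℓ + 14) + 20) ≤ (N + 1) ^ 4 := by
    calc 2 ^ (9 * ℓ + 30 + (4 * ℓ + 14) + 20) ≤ 2 ^ ((8 * ℓ + 28) * 4) :=
          Nat.pow_le_pow_right (by norm_num) (by omega)
      _ = (2 ^ (8 * ℓ + 28)) ^ 4 := by rw [pow_mul]
      _ ≤ (N + 1) ^ 4 := Nat.pow_le_pow_left (by omega) 4
  have hn1 : 1 ≤ n := le_trans Nat.one_le_two_pow hn
  have h2 : (n + 1) * (k + 1) ≤ (2 * n) * (2 * k) := Nat.mul_le_mul (by omega) (by omega)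
  have h3 : 1000 * (n + 1) * (k + 1) ≤ 4000 * (N + 1) ^ 4 := by
    calc 1000 * (n + 1) * (k + 1) = 1000 * ((n + 1) * (k + 1)) := by ring
      _ ≤ 1000 * ((2 * n) * (2 * k)) := Nat.mul_le_mul_left _ h2
      _ = 4000 * (n * k) := by ring
      _ ≤ 4000 * (N + 1) ^ 4 := by
        apply Nat.mul_le_mul_left
        calc n * k ≤ N + 1 := by omega
          _ = (N + 1) ^ 1 := (pow_one _).symm
          _ ≤ (N + 1) ^ 4 := Nat.pow_le_pow_right (by omega) (by norm_num)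
  calc 2 ^ (9 * ℓ + 30 + (4 * ℓ + 14) + 20) + 1000 * (n + 1) * (k + 1)
      ≤ (N + 1) ^ 4 + 4000 * (N + 1) ^ 4 := Nat.add_le_add h1 h3
    _ = 4001 * (N + 1) ^ 4 := by ring
    _ ≤ 4001 * (N + 1) ^ 4001 :=
        Nat.mul_le_mul_left _ (Nat.pow_le_pow_right (by omega) (by norm_num))

/-- the final numerical step -/
theorem num (ℓ Y κ1 κL N C : ℕ) (hN : N < 2 ^ (9 * (ℓ + 1) + 29) * 2 ^ κ1) (hκ : κ1 ≤ κL)
    (h : 2 ^ ℓ ≤ Y) (hC : 2 ^ 38 ≤ C) : N ≤ C * 2 ^ κL * Y ^ 9 := by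
  have h1 : 2 ^ (9 * (ℓ + 1) + 29) = 2 ^ 38 * (2 ^ ℓ) ^ 9 := by
    rw [← pow_mul, ← pow_add]
    congr 1
    ring
  have h2 : (2 ^ ℓ) ^ 9 ≤ Y ^ 9 := Nat.pow_le_pow_left h 9
  have h3 : 2 ^ κ1 ≤ 2 ^ κL := Nat.pow_le_pow_right (by norm_num) hκ
  calc N ≤ 2 ^ (9 * (ℓ + 1) + 29) * 2 ^ κ1 := hN.le
    _ = 2 ^ 38 * (2 ^ ℓ) ^ 9 * 2 ^ κ1 := by rw [h1]
    _ ≤ C * Y ^ 9 * 2 ^ κL := Nat.mul_le_mul (Nat.mul_le_mul hC h2) h3
    _ = C * 2 ^ κL * Y ^ 9 := by ring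

end Q3_aux

open Q3_aux in
theorem tQ3 : sTrS → sTrU → sLoK → sM1 → sTS2 → sUpA → sBaS → sQ3 := by
  intro hTrS hTrU hLoK hM1 hTS2 hUpA hBaS κ hmono hκ
  choose n f hn1 hn2 hAM hSig using hBaS
  set B : ℕ → ℕ := fun ℓ => 2 ^ (9 * ℓ + 29) with hB
  have hB1 : ∀ ℓ, 2 ^ ℓ ≤ B ℓ := fun ℓ => Nat.pow_le_pow_right (by norm_num) (by omega)
  obtain ⟨C, hC⟩ : ∃ C : ℕ, 2 ^ 50 ≤ C := ⟨2 ^ 50, le_rfl⟩
  have hC4 : 4001 ≤ C := le_trans (by norm_num) hC
  -- the language if the word is long enough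
  have hpos : ∀ (N : ℕ) (h : n (lofK B κ N) * 2 ^ κ (lofK B κ N) ≤ N), LangK B κ n f N =
      fun x => (fun y : Fin (n (lofK B κ N)) × Fin (2 ^ κ (lofK B κ N)) → Bool =>
        f (lofK B κ N) (xk y)) fun a => x (emb h a) := by
    intro N h
    funext x
    unfold LangK
    rw [dif_pos h]
    rfl
  have hneg : ∀ (N : ℕ) (_ : ¬ n (lofK B κ N) * 2 ^ κ (lofK B κ N) ≤ N), LangK B κ n f N =
      fun _ => false := by
    intro N h
    funext x
    unfold LangK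
    rw [dif_neg h]
  refine ⟨LangK B κ n f, C, ?_, ?_⟩
  · intro N
    obtain ⟨hl1, -⟩ := hLoK B κ N hB1
    have hCN : 1 ≤ (N + 1) ^ C := Nat.one_le_pow _ _ (by omega)
    by_cases h : n (lofK B κ N) * 2 ^ κ (lofK B κ N) ≤ N
    · have hnN : n (lofK B κ N) ≤ N := (Nat.le_mul_of_pos_right _ (by positivity)).trans h
      have hlog : 8 * lofK B κ N + 28 ≤ Nat.log 2 N :=
        Nat.le_log_of_pow_le (by norm_num) ((hn1 _).trans hnN)
      refine ⟨4 * lofK B κ N + 14, 9 * lofK B κ N + 30 + 10 * 2 ^ κ (lofK B κ N),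
        2 ^ (9 * lofK B κ N + 30 + (4 * lofK B κ N + 14) + 20) +
          1000 * (n (lofK B κ N) + 1) * (2 ^ κ (lofK B κ N) + 1), by omega, ?_, ?_, ?_⟩
      · have h1 : 2 ^ κ (lofK B κ N) ≤ 2 ^ κ (Nat.log 2 N) :=
          Nat.pow_le_pow_right (by norm_num) (hmono hl1)
        have h2 : 30 * (Nat.log 2 N + 1) ≤ C * (Nat.log 2 N + 1) :=
          Nat.mul_le_mul_right _ (by omega)
        omega
      · refine (sbound _ _ _ _ (hn1 _) Nat.one_le_two_pow h).trans ?_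
        exact Nat.mul_le_mul hC4 (Nat.pow_le_pow_right (by omega) hC4)
      · rw [hpos N h]
        exact (hTrU _ _ (emb h) _ _ _ _ _).1
          (hUpA (n (lofK B κ N)) (2 ^ κ (lofK B κ N)) _ _ (f (lofK B κ N)) Nat.one_le_two_pow
            (hAM (lofK B κ N)))
    · refine ⟨0, 0, 1, by omega, Nat.zero_le _, ?_, ?_⟩
      · calc 1 ≤ C * 1 := by omega
          _ ≤ C * (N + 1) ^ C := Nat.mul_le_mul_left _ hCN
      · rw [hneg N h]
        exact am_false N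
  · intro N d w S hw hS hcond p r hx
    obtain ⟨hl1, hl2⟩ := hLoK B κ N hB1
    have h2d : 1 ≤ 2 ^ d := Nat.one_le_two_pow
    set X : ℕ := 2 ^ d * (p + r + d + 2) + w with hX
    have hpX : p ≤ X := by
      have h1 : 1 * (p + r + d + 2) ≤ 2 ^ d * (p + r + d + 2) := Nat.mul_le_mul_right _ h2d
      omega
    have hX1 : 1 ≤ X := by omega
    have hκ0 : κ 0 = 0 := Nat.le_zero.mp (hκ 0)
    have hB0 : B 0 * 2 ^ κ 0 = 2 ^ 29 := by
      simp [hB, hκ0]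
    by_cases hN : N < 2 ^ 29
    · have hNC : N ≤ C := by
        have : 2 ^ 29 ≤ 2 ^ 50 := by norm_num
        omega
      have h1 : 1 ≤ 2 ^ κ (Nat.log 2 N) := Nat.one_le_two_pow
      have h2 : 1 ≤ X ^ 9 := Nat.one_le_pow _ _ hX1
      calc N ≤ C * 1 * 1 := by omega
        _ ≤ C * 2 ^ κ (Nat.log 2 N) * X ^ 9 :=
          Nat.mul_le_mul (Nat.mul_le_mul_left _ h1) h2
    · obtain ⟨hlo, hhi⟩ := hl2 (by rw [hB0]; omega)
      set ℓ := lofK B κ N with hℓ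
      have hBl : B ℓ = 2 ^ (9 * ℓ + 29) := rfl
      have hBl1 : B (ℓ + 1) = 2 ^ (9 * (ℓ + 1) + 29) := rfl
      have hN0 : N ≠ 0 := by
        rintro rfl
        exact hN (by positivity)
      have h29 : 9 * ℓ + 29 ≤ Nat.log 2 N := by
        refine Nat.le_log_of_pow_le (by norm_num) ?_
        rw [← hBl]
        exact (Nat.le_mul_of_pos_right _ (by positivity)).trans hlo
      have hlt : Nat.log 2 N < 10 * ℓ + 39 := by
        refine Nat.log_lt_of_lt_pow hN0 ?_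
        refine lt_of_lt_of_le hhi ?_
        rw [hBl1, ← pow_add]
        refine Nat.pow_le_pow_right (by norm_num) ?_
        have := hκ (ℓ + 1)
        omega
      have hdiv : Nat.log 2 N / 10 - 4 ≤ ℓ := by omega
      have h : n ℓ * 2 ^ κ ℓ ≤ N := (Nat.mul_le_mul_right _ (hn2 ℓ)).trans hlo
      have hblk : (n ℓ : ℝ) * (1 - (1 / (512 * (w : ℝ) + 1)) ^ d) ^ (2 ^ κ ℓ) ≤ 1 / 4 := by
        refine hM1 (9 * ℓ + 29) d w (2 ^ κ ℓ) (n ℓ) hw (hn2 ℓ) ?_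
        calc (9 * ℓ + 29 + 2) * (513 * w) ^ d
            ≤ C * (Nat.log 2 N + 1) * (513 * w) ^ d := by
              refine Nat.mul_le_mul_right _ ?_
              have : 2 * (Nat.log 2 N + 1) ≤ C * (Nat.log 2 N + 1) :=
                Nat.mul_le_mul_right _ (by omega)
              omega
          _ ≤ 2 ^ κ (Nat.log 2 N / 10 - 4) := hcond
          _ ≤ 2 ^ κ ℓ := Nat.pow_le_pow_right (by norm_num) (hmono hdiv)
      have hκL : κ (ℓ + 1) ≤ κ (Nat.log 2 N) := hmono (by omega)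
      rw [hpos N h] at hx
      have hTr := hTrS _ _ (emb h) (emb_inj h)
        (fun y : Fin (n ℓ) × Fin (2 ^ κ ℓ) → Bool => f ℓ (xk y)) p r d S hx
      have e1 := hTS2 (n ℓ) (2 ^ κ ℓ) d S w p r (f ℓ) hw hS hblk hTr
      have e2 : 2 ^ ℓ ≤ X := by
        rcases hSig ℓ _ _ e1 with h3 | h3
        · exact h3.trans hpX
        · exact h3.le
      exact num ℓ X (κ (ℓ + 1)) _ N C hhi hκL e2 (le_trans (by norm_num) hC)

end Pool.Agent.CD
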