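import Pool.Agent.Lib.CD.SpecA

/-!
Module SIn of theorem CD (note 5285): a step keeps the invariant.
-/

set_option autoImplicit false

namespace Pool.Agent.CD

open Finset

theorem tSIn : sSIn := by
  intro V _ _ S w TL s s' e hI hS
  obtain ⟨T, _, hrd, _, _, rfl⟩ := hS
  have hI' : Inv (opn s e.1) := by
    cases e.1 with
    | none => exact hI
    | some j =>
      intro v
      exact ⟨(hI v).2, (hI v).2⟩
  intro v
  by_cases hv : v ∈ fre T (opn s e.1).mp
  · have hT : (T v).isSome := by
      have h := hv
      simp only [fre, mem_filter, mem_univ, true_and] at h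
      exact h.1
    have hs : v ∈ sup T := by
      simp only [sup, mem_filter, mem_univ, true_and]
      exact hT
    have h2 : (rd e.2 (pos T v)).isSome := (hrd v hs).2 hv
    obtain ⟨b, hb⟩ := Option.isSome_iff_exists.1 hT
    obtain ⟨c, hc⟩ := Option.isSome_iff_exists.1 h2
    simp only [put, if_pos hv, hb, hc, Option.map_some, reduceCtorEq, iff_self, and_self]
  · simp only [put, if_neg hv]
    exact hI' v

end Pool.Agent.CD
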