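import Pool.Agent.Lib.CD.SpecA

/-!
StE: a step of the process with arbitrary values on the block exists.
-/

set_option autoImplicit false

namespace Pool.Agent.CD

open Finset

namespace StE_aux

variable {V : Type} [Fintype V] [DecidableEq V]

/-- the code of the block `K` with the values `π`, `τ` -/
noncomputable def cde (w : ℕ) (T : Restr V) (K : Finset V) (π τ : V → Bool) : Cd w := by
  classical
  exact fun i => if h : ∃ v ∈ K, pos T v = (i : ℕ) then
    some (π h.choose, τ h.choose) else none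

theorem pos_lt {T : Restr V} {v : V} (h : v ∈ sup T) : pos T v < sz T := by
  unfold pos
  rw [dif_pos h]
  exact ((sup T).equivFin ⟨v, h⟩).2

theorem pos_inj {T : Restr V} {v u : V} (hv : v ∈ sup T) (hu : u ∈ sup T)
    (h : pos T v = pos T u) : v = u := by
  unfold pos at h
  rw [dif_pos hv, dif_pos hu] at h
  have h' := (sup T).equivFin.injective (Fin.ext h)
  exact congrArg Subtype.val h'

omit [DecidableEq V] in
theorem fre_sub (T m : Restr V) : fre T m ⊆ sup T := by
  intro v hv
  unfold fre at hv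
  unfold sup
  rw [mem_filter] at hv ⊢
  exact ⟨mem_univ _, hv.2.1⟩

theorem cde_pos {w : ℕ} {T : Restr V} {K : Finset V} (hK : K ⊆ sup T) (π τ : V → Bool)
    {v : V} (hv : v ∈ K) (i : Fin w) (hi : pos T v = (i : ℕ)) :
    cde w T K π τ i = some (π v, τ v) := by
  classical
  have hex : ∃ u ∈ K, pos T u = (i : ℕ) := ⟨v, hv, hi⟩
  have hs := hex.choose_spec
  have he : hex.choose = v := pos_inj (hK hs.1) (hK hv) (hs.2.trans hi.symm)
  unfold cde
  rw [dif_pos hex, he]

theorem cde_neg {w : ℕ} {T : Restr V} {K : Finset V} (π τ : V → Bool)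
    (i : Fin w) (hi : ¬ ∃ v ∈ K, pos T v = (i : ℕ)) :
    cde w T K π τ i = none := by
  classical
  unfold cde
  rw [dif_neg hi]

theorem cde_isSome {w : ℕ} {T : Restr V} {K : Finset V} (hK : K ⊆ sup T) (π τ : V → Bool)
    (i : Fin w) : (cde w T K π τ i).isSome ↔ ∃ v ∈ K, pos T v = (i : ℕ) := by
  constructor
  · intro h
    by_contra hn
    rw [cde_neg π τ i hn] at h
    exact absurd h (by simp)
  · rintro ⟨v, hv, hi⟩
    rw [cde_pos hK π τ hv i hi]
    rfl

theorem rd_mem {w : ℕ} {T : Restr V} {K : Finset V} (hK : K ⊆ sup T) (hw : sz T ≤ w)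
    (π τ : V → Bool) {v : V} (hv : v ∈ K) :
    rd (cde w T K π τ) (pos T v) = some (π v, τ v) := by
  have hlt : pos T v < w := lt_of_lt_of_le (pos_lt (hK hv)) hw
  unfold rd
  rw [dif_pos hlt]
  exact cde_pos hK π τ hv ⟨pos T v, hlt⟩ rfl

theorem rd_notMem {w : ℕ} {T : Restr V} {K : Finset V} (hK : K ⊆ sup T) (hw : sz T ≤ w)
    (π τ : V → Bool) {v : V} (hs : v ∈ sup T) (hv : v ∉ K) :
    rd (cde w T K π τ) (pos T v) = none := by
  have hlt : pos T v < w := lt_of_lt_of_le (pos_lt hs) hw
  unfold rd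
  rw [dif_pos hlt]
  refine cde_neg π τ ⟨pos T v, hlt⟩ ?_
  rintro ⟨u, hu, he⟩
  have : u = v := pos_inj (hK hu) hs he
  rw [this] at hu
  exact hv hu

theorem card_cde {w : ℕ} {T : Restr V} {K : Finset V} (hK : K ⊆ sup T) (hw : sz T ≤ w)
    (π τ : V → Bool) :
    (univ.filter fun i : Fin w => (cde w T K π τ i).isSome).card = K.card := by
  classical
  symm
  refine Finset.card_bij (fun v hv => (⟨pos T v, lt_of_lt_of_le (pos_lt (hK hv)) hw⟩ : Fin w))
    ?_ ?_ ?_
  · intro v hv
    rw [mem_filter]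
    exact ⟨mem_univ _, (cde_isSome hK π τ _).mpr ⟨v, hv, rfl⟩⟩
  · intro v hv u hu h
    exact pos_inj (hK hv) (hK hu) (congrArg Fin.val h)
  · intro i hi
    rw [mem_filter] at hi
    obtain ⟨v, hv, he⟩ := (cde_isSome hK π τ i).mp hi.2
    exact ⟨v, hv, Fin.ext he⟩

end StE_aux

open StE_aux in
theorem tStE : sStE := by
  intro V _ _ S w TL s o T π τ hf hw hne
  have hK := fre_sub T (opn s o).mp
  have hc : cnt (S := S) ((o, cde w T (fre T (opn s o).mp) π τ) : El S w) =
      (fre T (opn s o).mp).card := card_cde hK hw π τ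
  refine ⟨cde w T (fre T (opn s o).mp) π τ, hc, T, hf, ?_, hc, ?_, ?_⟩
  · intro v hv
    change (rd (cde w T (fre T (opn s o).mp) π τ) (pos T v)).isSome ↔ _
    by_cases hvK : v ∈ fre T (opn s o).mp
    · rw [rd_mem hK hw π τ hvK]
      exact ⟨fun _ => hvK, fun _ => rfl⟩
    · rw [rd_notMem hK hw π τ hv hvK]
      exact ⟨fun h => absurd h (by simp), fun h => absurd h hvK⟩
  · rw [hc]
    exact Finset.card_pos.mpr hne
  · have h1 : ovr (opn s o).mp (fre T (opn s o).mp) π =
        put (fre T (opn s o).mp)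
          (fun v => (rd (cde w T (fre T (opn s o).mp) π τ) (pos T v)).map Prod.fst)
          (opn s o).mp := by
      funext v
      unfold ovr put
      by_cases hvK : v ∈ fre T (opn s o).mp
      · rw [if_pos hvK, if_pos hvK]
        change some (π v) =
          (rd (cde w T (fre T (opn s o).mp) π τ) (pos T v)).map Prod.fst
        rw [rd_mem hK hw π τ hvK]
        rfl
      · rw [if_neg hvK, if_neg hvK]
    have h2 : ovr (opn s o).mt (fre T (opn s o).mp) τ =
        put (fre T (opn s o).mp)
          (fun v => (rd (cde w T (fre T (opn s o).mp) π τ) (pos T v)).map Prod.snd)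
          (opn s o).mt := by
      funext v
      unfold ovr put
      by_cases hvK : v ∈ fre T (opn s o).mp
      · rw [if_pos hvK, if_pos hvK]
        change some (τ v) =
          (rd (cde w T (fre T (opn s o).mp) π τ) (pos T v)).map Prod.snd
        rw [rd_mem hK hw π τ hvK]
        rfl
      · rw [if_neg hvK, if_neg hvK]
    rw [h1, h2]

end Pool.Agent.CD
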