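import Pool.Agent.Lib.CD.SpecB

set_option autoImplicit false

namespace Pool.Agent.CD

open Finset

theorem tSub : sSub := by
  intro κ κ' d S f σ hσ hf
  obtain ⟨G, h0, h1, j, hj, hG⟩ := hf
  refine ⟨fun i j x => G i j (σ x), ?_, ?_, j, hj, fun x => hG (σ x)⟩
  · intro j hj
    obtain ⟨A, hA, hA'⟩ := h0 j hj
    rcases Finset.eq_empty_or_nonempty A with rfl | ⟨a, ha⟩
    · exact ⟨∅, by simp, fun x y _ => hA' _ _ (by simp)⟩
    · obtain ⟨A', hc, hA''⟩ := hσ a
      refine ⟨A', hc, fun x y hxy => hA' _ _ fun i hi => ?_⟩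
      have e : i = a := Finset.card_le_one.mp hA i hi a ha
      rw [e]
      exact hA'' x y hxy
  · intro i hi j hj
    obtain ⟨A, s, t, hA, hA'⟩ := h1 i hi j hj
    exact ⟨A, s, t, hA, fun x => hA' (σ x)⟩

end Pool.Agent.CD
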