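import Pool.Agent.Lib.CD.SpecA

/-!
PROJECT CD, module Sum (helper2): measure of the restrictions with a given code.
-/

set_option autoImplicit false

namespace Pool.Agent.CD

open Finset

theorem tSum : sWgt → sInj → sSum := by
  classical
  intro hWgt hInj V _ _ S w TL l a h0 h1
  have hpos : (0 : ℝ) < (1 - a) / 2 := by linarith
  have hne : ((1 - a) / 2) ^ tot l ≠ 0 := (pow_pos hpos _).ne'
  have hq : (2 * a / (1 - a)) ^ tot l = a ^ tot l / ((1 - a) / 2) ^ tot l := by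
    rw [← div_pow]
    congr 1
    have h2 : (1 : ℝ) - a ≠ 0 := by linarith
    field_simp
  have hq0 : 0 ≤ (2 * a / (1 - a)) ^ tot l := by
    refine pow_nonneg (div_nonneg (by linarith) (by linarith)) _
  have hex : ∀ ρ : Restr V, ∃ m : Restr V, (∃ s', Run TL (ini ρ) l s') →
      ∃ s', Run TL (ini ρ) l s' ∧ s'.mg = m := by
    intro ρ
    by_cases h : ∃ s', Run TL (ini ρ) l s'
    · obtain ⟨s', hs⟩ := h
      exact ⟨s'.mg, fun _ => ⟨s', hs, rfl⟩⟩
    · exact ⟨ρ, fun h' => absurd h' h⟩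
  choose f hf using hex
  have e1 : Pm a (fun ρ : Restr V => ∃ s', Run TL (ini ρ) l s') =
      ∑ ρ ∈ univ.filter (fun ρ : Restr V => ∃ s', Run TL (ini ρ) l s'), W a ρ := by
    unfold Pm
    rw [sum_filter]
  have e2 : ∀ ρ ∈ univ.filter (fun ρ : Restr V => ∃ s', Run TL (ini ρ) l s'),
      W a ρ = (2 * a / (1 - a)) ^ tot l * W a (f ρ) := by
    intro ρ hρ
    obtain ⟨s', hs, hm⟩ := hf ρ (mem_filter.mp hρ).2
    have hI : Inv (ini ρ) := fun v => ⟨Iff.rfl, Iff.rfl⟩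
    have h3 := hWgt V S w TL a (ini ρ) s' l hI hs
    have h4 : (ini ρ).mg = ρ := rfl
    rw [h4, hm] at h3
    rw [hq, div_mul_eq_mul_div, eq_div_iff hne, h3]
  have hinj : Set.InjOn f (univ.filter (fun ρ : Restr V => ∃ s', Run TL (ini ρ) l s') :
      Finset (Restr V)) := by
    intro ρ₁ h1' ρ₂ h2' he
    obtain ⟨s₁, hs₁, hm₁⟩ := hf ρ₁ (mem_filter.mp (mem_coe.mp h1')).2
    obtain ⟨s₂, hs₂, hm₂⟩ := hf ρ₂ (mem_filter.mp (mem_coe.mp h2')).2
    exact hInj V S w TL l ρ₁ ρ₂ s₁ s₂ hs₁ hs₂ (by rw [hm₁, hm₂, he])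
  rw [e1, sum_congr rfl e2, ← mul_sum]
  have e3 : ∑ ρ ∈ univ.filter (fun ρ : Restr V => ∃ s', Run TL (ini ρ) l s'), W a (f ρ) ≤ 1 := by
    rw [← sum_image (g := f) (f := fun m => W a m) hinj, ← sum_W (V := V) a]
    exact sum_le_sum_of_subset_of_nonneg (subset_univ _)
      (fun m _ _ => W_nonneg h0 h1.le m)
  calc (2 * a / (1 - a)) ^ tot l *
        ∑ ρ ∈ univ.filter (fun ρ : Restr V => ∃ s', Run TL (ini ρ) l s'), W a (f ρ)
      ≤ (2 * a / (1 - a)) ^ tot l * 1 := mul_le_mul_of_nonneg_left e3 hq0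
    _ = (2 * a / (1 - a)) ^ tot l := mul_one _

end Pool.Agent.CD
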