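import Pool.Agent.Lib.CD.SpecD

/-!
Project CD, module TS2 (helper40): transfer of `Σ₂` protocols.
-/

set_option autoImplicit false

namespace Pool.Agent.CD

open Finset Pool.Agent.Lib.MP_ff3ed7_lc Pool.Agent.Lib.MP_ff3ed7_lc.B

/-- a numerical bound -/
private theorem TS2_num (p r d : ℕ) :
    (Fintype.card ((Fin p → Bool) × (Fin r → Bool)) : ℝ) * ((d : ℝ) / (1 / 2)) *
      (1 / 4) ^ (p + r + d + 2) < 1 / 2 := by
  have h3 : (Fintype.card ((Fin p → Bool) × (Fin r → Bool)) : ℝ) = 2 ^ (p + r) := by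
    simp [pow_add]
  have h1 : (d : ℝ) ≤ 2 ^ d := by exact_mod_cast Nat.lt_two_pow_self.le
  have h2 : ∀ m : ℕ, (2 : ℝ) ^ m * (1 / 4) ^ m ≤ 1 := by
    intro m
    rw [← mul_pow]
    exact pow_le_one₀ (by norm_num) (by norm_num)
  have h4 : (d : ℝ) * (1 / 4) ^ d ≤ 1 :=
    le_trans (mul_le_mul_of_nonneg_right h1 (by positivity)) (h2 d)
  have h5 : (0 : ℝ) ≤ (d : ℝ) * (1 / 4) ^ d := by positivity
  have h6 : (2 : ℝ) ^ (p + r) * (1 / 4) ^ (p + r) * ((d : ℝ) * (1 / 4) ^ d) ≤ 1 := by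
    calc (2 : ℝ) ^ (p + r) * (1 / 4) ^ (p + r) * ((d : ℝ) * (1 / 4) ^ d)
        ≤ 1 * 1 := mul_le_mul (h2 _) h4 h5 zero_le_one
      _ = 1 := one_mul 1
  have h7 : (2 : ℝ) ^ (p + r) * ((d : ℝ) / (1 / 2)) * (1 / 4) ^ (p + r + d + 2) =
      (2 : ℝ) ^ (p + r) * (1 / 4) ^ (p + r) * ((d : ℝ) * (1 / 4) ^ d) / 8 := by
    rw [pow_add (1 / 4 : ℝ) (p + r + d) 2, pow_add (1 / 4 : ℝ) (p + r) d]
    ring
  rw [h3, h7]
  linarith

/-- **TS2** -/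
theorem tTS2 (h : sLft) : sTS2 := by
  classical
  intro n k d S w p r f hw hS hk hF
  obtain ⟨V, hC, hiff⟩ := hF
  obtain ⟨e, T, he, hD, -, hbad⟩ := h n k 0 d S w (p + r + d + 2)
    ((Fin p → Bool) × (Fin r → Bool)) (fun y _ => V y.1 y.2) (1 / 2) (fun y _ => hC y.1 y.2)
    hw hS (by norm_num) hk (TS2_num p r d)
  have key : ∀ (y : (Fin p → Bool) × (Fin r → Bool)) (z : Fin n → Bool),
      (T y Fin.elim0).eval z = V y.1 y.2 (e z) := by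
    intro y z
    by_contra hne
    have h1 := hbad y
    unfold prob at h1
    rw [pow_zero, div_one] at h1
    have hN : Nonempty {ρ : Fin 0 → Bool // ∃ z, (T y ρ).eval z ≠ V y.1 y.2 (e z)} :=
      ⟨⟨Fin.elim0, z, hne⟩⟩
    have h2 : 0 < Nat.card {ρ : Fin 0 → Bool // ∃ z, (T y ρ).eval z ≠ V y.1 y.2 (e z)} :=
      Nat.card_pos
    have h3 : (1 : ℝ) ≤
        (Nat.card {ρ : Fin 0 → Bool // ∃ z, (T y ρ).eval z ≠ V y.1 y.2 (e z)} : ℝ) := by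
      exact_mod_cast h2
    linarith
  refine ⟨r, fun y ρ => T (y, ρ) Fin.elim0, fun y ρ => hD _ _, fun z => ?_⟩
  have h1 := hiff (e z)
  simp only [he z] at h1
  rw [h1]
  constructor
  · rintro ⟨y, hy⟩
    exact ⟨y, fun ρ => (key (y, ρ) z).trans (hy ρ)⟩
  · rintro ⟨y, hy⟩
    exact ⟨y, fun ρ => (key (y, ρ) z).symm.trans (hy ρ)⟩

end Pool.Agent.CD
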