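import Pool.Agent.Lib.CD.SpecB

/-! Theorem CD (note 5285), module TrL: protocols for the padded function. -/

set_option autoImplicit false

namespace Pool.Agent.CD

open Finset Pool.Agent.Lib.MP_ff3ed7_lc Pool.Agent.Lib.MP_ff3ed7_lc.B

namespace TrL_aux

open Classical in
/-- the input `z` written on the range of `e`, `false` elsewhere -/
noncomputable def sg {κ κ' : Type} (e : κ → κ') (z : κ → Bool) (a : κ') : Bool :=
  if h : ∃ i, e i = a then z h.choose else false

theorem sg_e {κ κ' : Type} {e : κ → κ'} (he : Function.Injective e) (z : κ → Bool) (i : κ) :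
    sg e z (e i) = z i := by
  unfold sg
  have h : ∃ j, e j = e i := ⟨i, rfl⟩
  rw [dif_pos h]
  exact congrArg z (he h.choose_spec)

theorem sg_dep {κ κ' : Type} (e : κ → κ') (a : κ') : ∃ A : Finset κ, A.card ≤ 1 ∧
    ∀ x y : κ → Bool, (∀ i ∈ A, x i = y i) → sg e x a = sg e y a := by
  by_cases h : ∃ i, e i = a
  · refine ⟨{h.choose}, by simp, fun x y hxy => ?_⟩
    unfold sg
    rw [dif_pos h, dif_pos h]
    exact hxy _ (Finset.mem_singleton_self _)
  · refine ⟨∅, by simp, fun x y _ => ?_⟩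
    unfold sg
    rw [dif_neg h, dif_neg h]

theorem F_sg {κ κ' : Type} {e : κ → κ'} (he : Function.Injective e) (F : (κ → Bool) → Bool)
    (z : κ → Bool) : F (fun i => sg e z (e i)) = F z :=
  congrArg F (funext fun i => sg_e he z i)

end TrL_aux

open TrL_aux in
theorem tTrL : sSub → sTrL := by
  intro hS κ κ' e he F p d S
  refine ⟨?_, ?_, ?_⟩
  · rintro ⟨r, V, h1, h2, h3⟩
    refine ⟨r, fun y ρ z => V y ρ (sg e z), fun y ρ => hS κ' κ d S (V y ρ) (sg e) (sg_dep e) (h1 y ρ),
      fun x hx => ?_, fun x hx y => ?_⟩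
    · exact h2 (sg e x) ((F_sg he F x).trans hx)
    · exact h3 (sg e x) ((F_sg he F x).trans hx) y
  · rintro ⟨r, V, h1, h2, h3⟩
    refine ⟨r, fun ρ z => V ρ (sg e z), fun ρ => hS κ' κ d S (V ρ) (sg e) (sg_dep e) (h1 ρ),
      fun x hx => ?_, fun x hx => ?_⟩
    · exact h2 (sg e x) ((F_sg he F x).trans hx)
    · exact h3 (sg e x) ((F_sg he F x).trans hx)
  · rintro ⟨r, V, h1, h2, h3⟩
    refine ⟨r, fun ρ z => V ρ (sg e z), fun ρ => hS κ' κ d S (V ρ) (sg e) (sg_dep e) (h1 ρ),
      fun x hx => ?_, fun x hx => ?_⟩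
    · exact h2 (sg e x) ((F_sg he F x).trans hx)
    · exact h3 (sg e x) ((F_sg he F x).trans hx)

end Pool.Agent.CD
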