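import Pool.Agent.Lib.CD.SpecB

/-!
Project CD, module TrU (helper40): protocols for a function are protocols for the padded function.
-/

set_option autoImplicit false

namespace Pool.Agent.CD

open Finset

/-- the substitution: the first part of the input is replaced by the subword `e` -/
private def TrU_sub {κ κ' β : Type} (e : κ → κ') (u : κ' ⊕ β → Bool) : κ ⊕ β → Bool :=
  Sum.elim (fun i => u (Sum.inl (e i))) (fun b => u (Sum.inr b))

private theorem TrU_one {κ κ' β : Type} (e : κ → κ') (i : κ ⊕ β) :
    ∃ A : Finset (κ' ⊕ β), A.card ≤ 1 ∧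
      ∀ x y, (∀ a ∈ A, x a = y a) → TrU_sub e x i = TrU_sub e y i := by
  cases i with
  | inl i =>
    refine ⟨{Sum.inl (e i)}, by simp, fun x y h => ?_⟩
    exact h _ (by simp)
  | inr b =>
    refine ⟨{Sum.inr b}, by simp, fun x y h => ?_⟩
    exact h _ (by simp)

private theorem TrU_elim {κ κ' β : Type} (e : κ → κ') (x : κ' → Bool) (y : β → Bool) :
    TrU_sub e (Sum.elim x y) = Sum.elim (fun i => x (e i)) y := by
  funext i
  cases i <;> rfl

theorem tTrU : sSub → sTrU := by
  intro hSub κ κ' e F r p d S
  constructor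
  · rintro ⟨V, hV, h1, h2⟩
    refine ⟨fun u => V (TrU_sub e u), hSub _ _ d S V (TrU_sub e) (TrU_one e) hV, ?_, ?_⟩
    · intro x hx
      have h := h1 (fun i => x (e i)) hx
      simp only [TrU_elim]
      exact h
    · intro x hx
      have h := h2 (fun i => x (e i)) hx
      simp only [TrU_elim]
      exact h
  · rintro ⟨V, hV, h1, h2⟩
    refine ⟨fun u => V (TrU_sub e u), hSub _ _ d S V (TrU_sub e) (TrU_one e) hV, ?_, ?_⟩
    · intro x hx
      have h := h1 (fun i => x (e i)) hx
      simp only [TrU_elim]
      exact h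
    · intro x hx
      have h := h2 (fun i => x (e i)) hx
      simp only [TrU_elim]
      exact h

end Pool.Agent.CD
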