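import Pool.Agent.Lib.CD.SLft

/-!
Section 5 of note 5285 (theorem CD): from circuits to decision trees, protocols MA, SBP, PP.
-/

set_option autoImplicit false

namespace Pool.Agent.CD

open Finset Pool.Agent.Lib.MP_ff3ed7_lc

section Trees

variable {ι σ : Type}

/-- Sequential composition: the second tree depends on the answer of the first one. -/
private def Trf_bind (k : Bool → DTree ι σ) : DTree ι σ → DTree ι σ
  | .leaf b => k b
  | .node i next => .node i fun s => Trf_bind k (next s)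

private theorem Trf_bind_eval (k : Bool → DTree ι σ) (x : ι → σ) (P : DTree ι σ) :
    (Trf_bind k P).eval x = (k (P.eval x)).eval x := by
  induction P with
  | leaf b => rfl
  | node a next ih => exact ih (x a)

private theorem Trf_leaf_cost (b : Bool) (c : ℕ) : (DTree.leaf b : DTree ι σ).DepthLE c := trivial

private theorem Trf_cost_mono (P : DTree ι σ) :
    ∀ {c c' : ℕ}, P.DepthLE c → c ≤ c' → P.DepthLE c' := by
  induction P with
  | leaf b => intros; trivial
  | node a next ih =>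
    intro c c' h hc
    exact ⟨lt_of_lt_of_le h.1 hc, fun s => ih s (h.2 s) (Nat.sub_le_sub_right hc 1)⟩

private theorem Trf_bind_cost (k : Bool → DTree ι σ) (c' : ℕ) (hk : ∀ b, (k b).DepthLE c')
    (P : DTree ι σ) : ∀ {c : ℕ}, P.DepthLE c → (Trf_bind k P).DepthLE (c + c') := by
  induction P with
  | leaf b =>
    intro c _
    exact Trf_cost_mono _ (hk b) (Nat.le_add_left _ _)
  | node a next ih =>
    intro c h
    refine ⟨Nat.add_pos_left h.1 _, fun s => ?_⟩
    have h1 := ih s (h.2 s)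
    have h2 : c - 1 + c' = c + c' - 1 := by
      have := h.1
      omega
    rw [h2] at h1
    exact h1

end Trees

section Expectation

/-- The expectation over `r` random bits. -/
private noncomputable def Trf_E (r : ℕ) (f : (Fin r → Bool) → ℝ) : ℝ := (∑ ρ, f ρ) / 2 ^ r

/-- The indicator of a bit. -/
private def Trf_i (b : Bool) : ℝ := if b = true then 1 else 0

/-- The first coins. -/
private def Trf_l {a b : ℕ} (ρ : Fin (a + b) → Bool) (i : Fin a) : Bool := ρ (Fin.castAdd b i)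

/-- The last coins. -/
private def Trf_r {a b : ℕ} (ρ : Fin (a + b) → Bool) (i : Fin b) : Bool := ρ (Fin.natAdd a i)

private theorem Trf_prob (r : ℕ) (s : (Fin r → Bool) → Bool) :
    prob r (fun ρ => s ρ = true) = Trf_E r fun ρ => Trf_i (s ρ) := by
  classical
  unfold prob Trf_E Trf_i
  rw [Nat.card_eq_fintype_card, Fintype.card_subtype, Finset.sum_boole]

private theorem Trf_E_mul (a b : ℕ) (f : (Fin a → Bool) → ℝ) (g : (Fin b → Bool) → ℝ) :
    Trf_E (a + b) (fun ρ => f (Trf_l ρ) * g (Trf_r ρ)) = Trf_E a f * Trf_E b g := by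
  unfold Trf_E
  have h : ∑ ρ : Fin (a + b) → Bool, f (Trf_l ρ) * g (Trf_r ρ) = (∑ ρ, f ρ) * ∑ ρ, g ρ := by
    rw [Finset.sum_mul_sum,
      ← Fintype.sum_prod_type' (fun (x : Fin a → Bool) (y : Fin b → Bool) => f x * g y)]
    refine (Fintype.sum_equiv (Fin.appendEquiv a b) _ _ fun x => ?_).symm
    have h1 : Trf_l (Fin.appendEquiv a b x) = x.1 := by
      funext i
      simp [Trf_l, Fin.appendEquiv]
    have h2 : Trf_r (Fin.appendEquiv a b x) = x.2 := by
      funext i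
      simp [Trf_r, Fin.appendEquiv]
    rw [h1, h2]
  rw [h, pow_add]
  field_simp

private theorem Trf_E_add (r : ℕ) (f g : (Fin r → Bool) → ℝ) :
    Trf_E r (fun ρ => f ρ + g ρ) = Trf_E r f + Trf_E r g := by
  unfold Trf_E
  rw [Finset.sum_add_distrib, add_div]

private theorem Trf_E_smul (r : ℕ) (c : ℝ) (f : (Fin r → Bool) → ℝ) :
    Trf_E r (fun ρ => c * f ρ) = c * Trf_E r f := by
  unfold Trf_E
  rw [← Finset.mul_sum, mul_div_assoc]

private theorem Trf_E_one (r : ℕ) : Trf_E r (fun _ => 1) = 1 := by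
  unfold Trf_E
  simp

private theorem Trf_E_nonneg (r : ℕ) (f : (Fin r → Bool) → ℝ) (h : ∀ ρ, 0 ≤ f ρ) :
    0 ≤ Trf_E r f :=
  div_nonneg (Finset.sum_nonneg fun ρ _ => h ρ) (by positivity)

private theorem Trf_E_le_one (r : ℕ) (f : (Fin r → Bool) → ℝ) (h : ∀ ρ, f ρ ≤ 1) :
    Trf_E r f ≤ 1 := by
  unfold Trf_E
  rw [div_le_one (by positivity)]
  calc ∑ ρ, f ρ ≤ ∑ _ρ : Fin r → Bool, (1 : ℝ) := Finset.sum_le_sum fun ρ _ => h ρ
    _ = 2 ^ r := by simp

private theorem Trf_E_mono (r : ℕ) (f g : (Fin r → Bool) → ℝ) (h : ∀ ρ, f ρ ≤ g ρ) :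
    Trf_E r f ≤ Trf_E r g := by
  unfold Trf_E
  exact div_le_div_of_nonneg_right (Finset.sum_le_sum fun ρ _ => h ρ) (by positivity)

private theorem Trf_i_nonneg (b : Bool) : 0 ≤ Trf_i b := by
  cases b <;> simp [Trf_i]

private theorem Trf_i_le_one (b : Bool) : Trf_i b ≤ 1 := by
  cases b <;> simp [Trf_i]

private theorem Trf_maj (a b c : Bool) : Trf_i ((a && b) || (a && c) || (b && c)) =
    Trf_i a * Trf_i b +
      (Trf_i a * Trf_i c + (Trf_i b * Trf_i c + -2 * (Trf_i a * (Trf_i b * Trf_i c)))) := by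
  cases a <;> cases b <;> cases c <;> norm_num [Trf_i]

private theorem Trf_and (a b : Bool) : Trf_i (a && b) = Trf_i a * Trf_i b := by
  cases a <;> cases b <;> norm_num [Trf_i]

/-- The probability that the majority of three independent runs accepts. -/
private theorem Trf_three (r : ℕ) (s : (Fin r → Bool) → Bool) :
    Trf_E (r + (r + r)) (fun ρ => Trf_i ((s (Trf_l ρ) && s (Trf_l (Trf_r ρ))) ||
      (s (Trf_l ρ) && s (Trf_r (Trf_r ρ))) || (s (Trf_l (Trf_r ρ)) && s (Trf_r (Trf_r ρ))))) =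
    3 * (Trf_E r fun ρ => Trf_i (s ρ)) ^ 2 - 2 * (Trf_E r fun ρ => Trf_i (s ρ)) ^ 3 := by
  set q := Trf_E r fun ρ => Trf_i (s ρ) with hq
  simp only [Trf_maj]
  rw [Trf_E_add, Trf_E_add, Trf_E_add, Trf_E_smul]
  have e1 : Trf_E (r + (r + r)) (fun ρ => Trf_i (s (Trf_l ρ)) * Trf_i (s (Trf_l (Trf_r ρ)))) =
      q * q := by
    have h := Trf_E_mul r (r + r) (fun ρ => Trf_i (s ρ)) (fun ρ => Trf_i (s (Trf_l ρ)) * 1)
    rw [Trf_E_mul r r (fun ρ => Trf_i (s ρ)) (fun _ => 1), Trf_E_one, ← hq] at h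
    simpa using h
  have e2 : Trf_E (r + (r + r)) (fun ρ => Trf_i (s (Trf_l ρ)) * Trf_i (s (Trf_r (Trf_r ρ)))) =
      q * q := by
    have h := Trf_E_mul r (r + r) (fun ρ => Trf_i (s ρ)) (fun ρ => 1 * Trf_i (s (Trf_r ρ)))
    rw [Trf_E_mul r r (fun _ => 1) (fun ρ => Trf_i (s ρ)), Trf_E_one, ← hq] at h
    simpa using h
  have e3 : Trf_E (r + (r + r)) (fun ρ => Trf_i (s (Trf_l (Trf_r ρ))) *
      Trf_i (s (Trf_r (Trf_r ρ)))) = q * q := by
    have h := Trf_E_mul r (r + r) (fun _ => 1)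
      (fun ρ => Trf_i (s (Trf_l ρ)) * Trf_i (s (Trf_r ρ)))
    rw [Trf_E_mul r r (fun ρ => Trf_i (s ρ)) (fun ρ => Trf_i (s ρ)), Trf_E_one, ← hq] at h
    simpa using h
  have e4 : Trf_E (r + (r + r)) (fun ρ => Trf_i (s (Trf_l ρ)) * (Trf_i (s (Trf_l (Trf_r ρ))) *
      Trf_i (s (Trf_r (Trf_r ρ))))) = q * (q * q) := by
    have h := Trf_E_mul r (r + r) (fun ρ => Trf_i (s ρ))
      (fun ρ => Trf_i (s (Trf_l ρ)) * Trf_i (s (Trf_r ρ)))
    rw [Trf_E_mul r r (fun ρ => Trf_i (s ρ)) (fun ρ => Trf_i (s ρ)), ← hq] at h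
    exact h
  rw [e1, e2, e3, e4]
  ring

/-- Monotonicity of `prob`. -/
private theorem Trf_prob_mono (r : ℕ) (A B : (Fin r → Bool) → Prop) (h : ∀ ρ, A ρ → B ρ) :
    prob r A ≤ prob r B := by
  classical
  unfold prob
  refine div_le_div_of_nonneg_right ?_ (by positivity)
  have : Nat.card {ρ // A ρ} ≤ Nat.card {ρ // B ρ} :=
    Nat.card_le_card_of_injective (fun x : {ρ // A ρ} => (⟨x.1, h _ x.2⟩ : {ρ // B ρ}))
      (fun x y hxy => Subtype.ext (congrArg (fun z : {ρ // B ρ} => z.1) hxy))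
  exact_mod_cast this

/-- Union bound. -/
private theorem Trf_prob_or (r : ℕ) (A B C : (Fin r → Bool) → Prop) (h : ∀ ρ, A ρ → B ρ ∨ C ρ) :
    prob r A ≤ prob r B + prob r C := by
  classical
  unfold prob
  rw [← add_div]
  refine div_le_div_of_nonneg_right ?_ (by positivity)
  have h1 : Nat.card {ρ // A ρ} ≤ Nat.card ({ρ // B ρ} ⊕ {ρ // C ρ}) := by
    refine Nat.card_le_card_of_injective
      (fun x : {ρ // A ρ} => if hb : B x.1 then Sum.inl (⟨x.1, hb⟩ : {ρ // B ρ})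
        else Sum.inr (⟨x.1, (h _ x.2).resolve_left hb⟩ : {ρ // C ρ})) ?_
    intro x y hxy
    apply Subtype.ext
    by_cases hx : B x.1
    · by_cases hy : B y.1
      · simp only [hx, hy, dif_pos] at hxy
        exact congrArg (fun z : {ρ // B ρ} => z.1) (Sum.inl.inj hxy)
      · simp only [hx, hy, dif_pos, dif_neg, not_false_iff] at hxy
        exact absurd hxy (by simp)
    · by_cases hy : B y.1
      · simp only [hx, hy, dif_pos, dif_neg, not_false_iff] at hxy
        exact absurd hxy (by simp)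
      · simp only [hx, hy, dif_neg, not_false_iff] at hxy
        exact congrArg (fun z : {ρ // C ρ} => z.1) (Sum.inr.inj hxy)
  rw [Nat.card_sum] at h1
  exact_mod_cast h1

end Expectation

section Lift

variable {n k : ℕ}

/-- a numerical bound: `d ≤ 2 ^ d` -/
private theorem Trf_num (a d : ℕ) (A : ℝ) (hA : 0 ≤ A) :
    A * (d : ℝ) * (1 / 4) ^ (a + d + 4) ≤ A * (1 / 4) ^ a / 256 := by
  have h1 : (d : ℝ) ≤ 2 ^ d := by exact_mod_cast Nat.lt_two_pow_self.le
  have h2 : (2 : ℝ) ^ d * (1 / 4) ^ d ≤ 1 := by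
    rw [← mul_pow]
    exact pow_le_one₀ (by norm_num) (by norm_num)
  have h3 : (d : ℝ) * (1 / 4) ^ d ≤ 1 :=
    le_trans (mul_le_mul_of_nonneg_right h1 (by positivity)) h2
  rw [pow_add, pow_add]
  have h4 : (0 : ℝ) ≤ (1 / 4) ^ a := by positivity
  have h5 : A * (d : ℝ) * ((1 / 4) ^ a * (1 / 4) ^ d * (1 / 4) ^ 4) =
      A * (1 / 4) ^ a / 256 * ((d : ℝ) * (1 / 4) ^ d) := by ring
  rw [h5]
  have h6 : 0 ≤ A * (1 / 4) ^ a / 256 := by positivity
  calc A * (1 / 4) ^ a / 256 * ((d : ℝ) * (1 / 4) ^ d) ≤ A * (1 / 4) ^ a / 256 * 1 :=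
        mul_le_mul_of_nonneg_left h3 h6
    _ = A * (1 / 4) ^ a / 256 := mul_one _

private theorem Trf_four (p : ℕ) : (2 : ℝ) ^ p * (1 / 4) ^ p ≤ 1 := by
  rw [← mul_pow]
  exact pow_le_one₀ (by norm_num) (by norm_num)

/-- the consequence of `sLft` for the acceptance probabilities -/
private theorem Trf_key {r : ℕ} {V : (Fin r → Bool) → (Fin n × Fin k → Bool) → Bool}
    {e : (Fin n → Bool) → (Fin n × Fin k → Bool)} {T : (Fin r → Bool) → DTree (Fin n) Bool}
    {θ : ℝ} (h1 : ∀ ρ z, (T ρ).eval z = true → V ρ (e z) = true)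
    (h2 : prob r (fun ρ => ∃ z, (T ρ).eval z ≠ V ρ (e z)) ≤ θ) (z : Fin n → Bool) :
    prob r (fun ρ => (T ρ).eval z = true) ≤ prob r (fun ρ => V ρ (e z) = true) ∧
    prob r (fun ρ => V ρ (e z) = true) - θ ≤ prob r (fun ρ => (T ρ).eval z = true) := by
  refine ⟨Trf_prob_mono _ _ _ fun ρ h => h1 ρ z h, ?_⟩
  have h3 := Trf_prob_or r (fun ρ => V ρ (e z) = true) (fun ρ => (T ρ).eval z = true)
    (fun ρ => ∃ z, (T ρ).eval z ≠ V ρ (e z)) (fun ρ hV => by
      by_cases h : (T ρ).eval z = true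
      · exact Or.inl h
      · refine Or.inr ⟨z, fun h' => h ?_⟩
        rw [h']
        exact hV)
  linarith

end Lift

/-- **TMA** -/
theorem tTMA (h : sLft) : sTMA := by
  intro n k p d S w f hw hS hk hF
  obtain ⟨r, V, hC, hyes, hno⟩ := hF
  have hnum : (Fintype.card (Fin p → Bool) : ℝ) * ((d : ℝ) / (1 / 100)) *
      (1 / 4) ^ (p + d + 4) < 1 / 2 := by
    have h1 := Trf_num p d (2 ^ p * 100) (by positivity)
    have h2 := Trf_four p
    have h3 : (Fintype.card (Fin p → Bool) : ℝ) = 2 ^ p := by simp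
    rw [h3]
    have h4 : (2 : ℝ) ^ p * ((d : ℝ) / (1 / 100)) * (1 / 4) ^ (p + d + 4) =
        2 ^ p * 100 * (d : ℝ) * (1 / 4) ^ (p + d + 4) := by ring
    rw [h4]
    nlinarith
  obtain ⟨e, T, he, hD, hTV, hbad⟩ := h n k r d S w (p + d + 4) (Fin p → Bool) V (1 / 100)
    hC hw hS (by norm_num) hk hnum
  have hkey := fun y z => Trf_key (hTV y) (hbad y) z
  refine ⟨r + (r + r), fun m ρ => Trf_bind (fun b1 => Trf_bind (fun b2 => Trf_bind (fun b3 =>
    .leaf ((b1 && b2) || (b1 && b3) || (b2 && b3))) (T m (Trf_r (Trf_r ρ))))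
    (T m (Trf_l (Trf_r ρ)))) (T m (Trf_l ρ)), ?_, ?_, ?_⟩
  · intro m ρ
    have h3 : ∀ b1 b2, (Trf_bind (fun b3 => DTree.leaf ((b1 && b2) || (b1 && b3) || (b2 && b3)))
        (T m (Trf_r (Trf_r ρ)))).DepthLE (2 ^ d * (p + d + 4) + w + 0) := fun b1 b2 =>
      Trf_bind_cost (fun b3 => DTree.leaf ((b1 && b2) || (b1 && b3) || (b2 && b3))) 0
        (fun _ => Trf_leaf_cost _ 0) _ (hD m _)
    have h2 := Trf_bind_cost _ (2 ^ d * (p + d + 4) + w + (2 ^ d * (p + d + 4) + w + 0))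
      (fun b1 => Trf_bind_cost _ (2 ^ d * (p + d + 4) + w + 0) (fun b2 => h3 b1 b2)
      (T m (Trf_l (Trf_r ρ))) (hD m _)) (T m (Trf_l ρ)) (hD m _)
    have e : 2 ^ d * (p + d + 4) + w + (2 ^ d * (p + d + 4) + w + (2 ^ d * (p + d + 4) + w + 0)) =
        3 * (2 ^ d * (p + d + 4) + w) := by ring
    rw [e] at h2
    exact h2
  · intro z hz
    have hz' : f (xk (e z)) = true := by rw [he z]; exact hz
    obtain ⟨m, hm⟩ := hyes (e z) hz'
    refine ⟨m, ?_⟩
    have hm' := (hkey m z).2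
    simp only [Trf_bind_eval, DTree.eval]
    have hm2 : 197 / 300 ≤ prob r (fun ρ => (T m ρ).eval z = true) := by linarith
    rw [Trf_prob] at hm2
    rw [Trf_prob (r + (r + r)), Trf_three r (fun ρ => (T m ρ).eval z)]
    have h1 : (Trf_E r fun ρ => Trf_i ((T m ρ).eval z)) ≤ 1 :=
      Trf_E_le_one _ _ fun _ => Trf_i_le_one _
    set q := Trf_E r fun ρ => Trf_i ((T m ρ).eval z)
    have h2 : 0 ≤ 3 * (q + 197 / 300) - 2 * (q ^ 2 + q * (197 / 300) + (197 / 300) ^ 2) := by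
      nlinarith
    nlinarith [mul_nonneg (sub_nonneg.2 hm2) h2]
  · intro z hz m
    have hz' : f (xk (e z)) = false := by rw [he z]; exact hz
    have hm := le_trans (hkey m z).1 (hno (e z) hz' m)
    simp only [Trf_bind_eval, DTree.eval]
    rw [Trf_prob] at hm
    rw [Trf_prob (r + (r + r)), Trf_three r (fun ρ => (T m ρ).eval z)]
    have h0 : 0 ≤ (Trf_E r fun ρ => Trf_i ((T m ρ).eval z)) :=
      Trf_E_nonneg _ _ fun _ => Trf_i_nonneg _
    set q := Trf_E r fun ρ => Trf_i ((T m ρ).eval z)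
    have h1 : 0 ≤ q ^ 3 := pow_nonneg h0 3
    nlinarith [mul_nonneg h0 (sub_nonneg.2 hm)]

/-- the lifting lemma without messages, with the number `θ = (1 / 2) ^ (s + c)` -/
private theorem Trf_one (h : sLft) {n k r s d S w : ℕ} (c : ℕ) (hc : c ≤ 2)
    {V : (Fin r → Bool) → (Fin n × Fin k → Bool) → Bool} (hC : ∀ ρ, IsCkt d S (V ρ))
    (hw : 1 ≤ w) (hS : S ≤ 2 ^ w)
    (hk : (n : ℝ) * (1 - (1 / (512 * (w : ℝ) + 1)) ^ d) ^ k ≤ 1 / 4) :
    ∃ (e : (Fin n → Bool) → (Fin n × Fin k → Bool)) (T : (Fin r → Bool) → DTree (Fin n) Bool),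
      (∀ z, xk (e z) = z) ∧ (∀ ρ, (T ρ).DepthLE (2 ^ d * (s + d + 4) + w)) ∧
      ∀ z, prob r (fun ρ => (T ρ).eval z = true) ≤ prob r (fun ρ => V ρ (e z) = true) ∧
        prob r (fun ρ => V ρ (e z) = true) - (1 / 2) ^ (s + c) ≤
          prob r (fun ρ => (T ρ).eval z = true) := by
  have hnum : (Fintype.card Unit : ℝ) * ((d : ℝ) / (1 / 2) ^ (s + c)) *
      (1 / 4) ^ (s + d + 4) < 1 / 2 := by
    have h1 := Trf_num s d (2 ^ s * 4) (by positivity)
    have h2 := Trf_four s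
    have h3 : (Fintype.card Unit : ℝ) = 1 := by simp
    rw [h3]
    have h4 : (1 : ℝ) * ((d : ℝ) / (1 / 2) ^ (s + c)) * (1 / 4) ^ (s + d + 4) =
        2 ^ s * 2 ^ c * (d : ℝ) * (1 / 4) ^ (s + d + 4) := by
      rw [one_div, inv_pow, div_inv_eq_mul, pow_add]
      ring
    rw [h4]
    have h5 : (2 : ℝ) ^ c ≤ 4 := by
      calc (2 : ℝ) ^ c ≤ 2 ^ 2 := pow_le_pow_right₀ (by norm_num) hc
        _ = 4 := by norm_num
    have h6 : (2 : ℝ) ^ s * 2 ^ c * (d : ℝ) * (1 / 4) ^ (s + d + 4) ≤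
        2 ^ s * 4 * (d : ℝ) * (1 / 4) ^ (s + d + 4) := by
      have h7 : (0 : ℝ) ≤ 2 ^ s * (d : ℝ) * (1 / 4) ^ (s + d + 4) := by positivity
      nlinarith
    nlinarith
  obtain ⟨e, T, he, hD, hTV, hbad⟩ := h n k r d S w (s + d + 4) Unit (fun _ => V)
    ((1 / 2) ^ (s + c)) (fun _ => hC) hw hS (by positivity) hk hnum
  exact ⟨e, T (), he, hD (), fun z => Trf_key (hTV ()) (hbad ()) z⟩

/-- **TSB** -/
theorem tTSB (h : sLft) : sTSB := by
  intro n k s d S w f hw hS hk hF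
  obtain ⟨r, V, hC, hyes, hno⟩ := hF
  obtain ⟨e, T, he, hD, hkey⟩ := Trf_one (s := s) h 2 le_rfl hC hw hS hk
  refine ⟨r + r, fun ρ => Trf_bind (fun b1 => Trf_bind (fun b2 => .leaf (b1 && b2)) (T (Trf_r ρ)))
    (T (Trf_l ρ)), ?_, ?_, ?_⟩
  · intro ρ
    have h2 := Trf_bind_cost (fun b1 => Trf_bind (fun b2 => DTree.leaf (b1 && b2)) (T (Trf_r ρ)))
      (2 ^ d * (s + d + 4) + w + 0) (fun b1 => Trf_bind_cost (fun b2 => DTree.leaf (b1 && b2)) 0
        (fun _ => Trf_leaf_cost _ 0) _ (hD _)) (T (Trf_l ρ)) (hD _)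
    have e : 2 ^ d * (s + d + 4) + w + (2 ^ d * (s + d + 4) + w + 0) =
        2 * (2 ^ d * (s + d + 4) + w) := by ring
    rw [e] at h2
    exact h2
  · intro z hz
    have hz' : f (xk (e z)) = true := by rw [he z]; exact hz
    have hm1 := hyes (e z) hz'
    have hm2 := (hkey z).2
    have hm : 7 / 4 * (1 / 2) ^ s ≤ prob r (fun ρ => (T ρ).eval z = true) := by
      have h3 : ((1 : ℝ) / 2) ^ (s + 2) = (1 / 2) ^ s / 4 := by
        rw [pow_add]
        ring
      rw [h3] at hm2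
      linarith
    simp only [Trf_bind_eval, DTree.eval]
    rw [Trf_prob] at hm
    rw [Trf_prob (r + r)]
    simp only [Trf_and]
    rw [Trf_E_mul r r (fun ρ => Trf_i ((T ρ).eval z)) (fun ρ => Trf_i ((T ρ).eval z))]
    set q := Trf_E r fun ρ => Trf_i ((T ρ).eval z)
    have ht : (0 : ℝ) < (1 / 2) ^ s := by positivity
    have e : ((1 : ℝ) / 2) ^ (2 * s) = (1 / 2) ^ s * (1 / 2) ^ s := by
      rw [two_mul, pow_add]
    rw [e]
    set t : ℝ := (1 / 2) ^ s
    have h1 : 0 ≤ 7 / 4 * t := by positivity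
    have h2 := mul_le_mul hm hm h1 (h1.trans hm)
    nlinarith [mul_pos ht ht]
  · intro z hz
    have hz' : f (xk (e z)) = false := by rw [he z]; exact hz
    have hm := le_trans (hkey z).1 (hno (e z) hz')
    simp only [Trf_bind_eval, DTree.eval]
    rw [Trf_prob] at hm
    rw [Trf_prob (r + r)]
    simp only [Trf_and]
    rw [Trf_E_mul r r (fun ρ => Trf_i ((T ρ).eval z)) (fun ρ => Trf_i ((T ρ).eval z))]
    have h0 : 0 ≤ (Trf_E r fun ρ => Trf_i ((T ρ).eval z)) :=
      Trf_E_nonneg _ _ fun _ => Trf_i_nonneg _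
    rw [two_mul, pow_add]
    exact mul_le_mul hm hm h0 (by positivity)

section Poly

variable {ι : Type}

/-- the polynomial of a decision tree -/
private noncomputable def Trf_pol : DTree ι Bool → MvPolynomial ι ℝ
  | .leaf b => MvPolynomial.C (Trf_i b)
  | .node i next => MvPolynomial.X i * Trf_pol (next true) +
      (1 - MvPolynomial.X i) * Trf_pol (next false)

private theorem Trf_pol_eval (T : DTree ι Bool) (x : ι → Bool) :
    (Trf_pol T).eval (fun i => if x i then (1 : ℝ) else 0) = Trf_i (T.eval x) := by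
  induction T with
  | leaf b => simp [Trf_pol, DTree.eval]
  | node i next ih =>
    simp only [Trf_pol, DTree.eval, map_add, map_mul, map_sub, map_one, MvPolynomial.eval_X, ih]
    cases h : x i <;> simp

private theorem Trf_pol_deg (T : DTree ι Bool) :
    ∀ D : ℕ, T.DepthLE D → (Trf_pol T).totalDegree ≤ D := by
  induction T with
  | leaf b =>
    intro D _
    simp [Trf_pol]
  | node i next ih =>
    intro D hD
    obtain ⟨h1, h2⟩ := hD
    have a1 := ih true (D - 1) (h2 true)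
    have a2 := ih false (D - 1) (h2 false)
    have b0 : (MvPolynomial.X i : MvPolynomial ι ℝ).totalDegree ≤ 1 := by
      simp [MvPolynomial.totalDegree_X]
    have b1 : (1 - MvPolynomial.X i : MvPolynomial ι ℝ).totalDegree ≤ 1 := by
      refine le_trans (MvPolynomial.totalDegree_sub _ _) ?_
      simp [MvPolynomial.totalDegree_X]
    simp only [Trf_pol]
    refine le_trans (MvPolynomial.totalDegree_add _ _) (max_le ?_ ?_)
    · refine le_trans (MvPolynomial.totalDegree_mul _ _) ?_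
      omega
    · refine le_trans (MvPolynomial.totalDegree_mul _ _) ?_
      omega

end Poly

/-- **TPP** -/
theorem tTPP (h : sLft) : sTPP := by
  intro n k s d S w f hw hS hk hF
  obtain ⟨r, V, hC, hyes, hno⟩ := hF
  obtain ⟨e, T, he, hD, hkey⟩ := Trf_one (s := s) h 1 (by norm_num) hC hw hS hk
  refine ⟨MvPolynomial.C (1 / 2 ^ r) * ∑ ρ, Trf_pol (T ρ) -
    MvPolynomial.C (1 / 2 + (1 / 2) ^ s / 4), ?_, ?_⟩
  · refine le_trans (MvPolynomial.totalDegree_sub _ _) (max_le ?_ ?_)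
    · refine le_trans (MvPolynomial.totalDegree_mul _ _) ?_
      rw [MvPolynomial.totalDegree_C, zero_add]
      refine le_trans (MvPolynomial.totalDegree_finsetSum _ _) ?_
      exact Finset.sup_le fun ρ _ => Trf_pol_deg _ _ (hD ρ)
    · rw [MvPolynomial.totalDegree_C]
      exact Nat.zero_le _
  · intro z
    have ht : (0 : ℝ) < (1 / 2) ^ s := by positivity
    have hev : MvPolynomial.eval (fun i => if z i then (1 : ℝ) else 0)
        (MvPolynomial.C (1 / 2 ^ r) * ∑ ρ, Trf_pol (T ρ) -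
          MvPolynomial.C (1 / 2 + (1 / 2) ^ s / 4)) =
        prob r (fun ρ => (T ρ).eval z = true) - (1 / 2 + (1 / 2) ^ s / 4) := by
      rw [map_sub, map_mul, map_sum, MvPolynomial.eval_C, MvPolynomial.eval_C]
      simp only [Trf_pol_eval]
      rw [Trf_prob]
      unfold Trf_E
      ring
    rw [hev]
    have h3 : ((1 : ℝ) / 2) ^ (s + 1) = (1 / 2) ^ s / 2 := by
      rw [pow_add]
      ring
    refine ⟨fun hz => ?_, fun hz => ?_⟩
    · have hz' : f (xk (e z)) = true := by rw [he z]; exact hz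
      have hm1 := hyes (e z) hz'
      have hm2 := (hkey z).2
      rw [h3] at hm2
      linarith
    · have hz' : f (xk (e z)) = false := by rw [he z]; exact hz
      have hm := le_trans (hkey z).1 (hno (e z) hz')
      linarith

end Pool.Agent.CD
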