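import Pool.Agent.Lib.CD.SpecA

/-! Theorem CD (MP_ff3ed7_lc), module Wgt: the weights along a run. -/

set_option autoImplicit false

namespace Pool.Agent.CD

open Finset

namespace Wgt_aux

lemma stepW {V : Type} [Fintype V] [DecidableEq V] (a : ℝ) (K : Finset V) (T m : Restr V)
    (hK : ∀ v ∈ K, m v = none ∧ (T v).isSome = true) :
    W a m * ((1 - a) / 2) ^ K.card = a ^ K.card * W a (put K T m) := by
  unfold W
  rw [← prod_mul_prod_compl K (fun v => wt a (m v)),
    ← prod_mul_prod_compl K (fun v => wt a (put K T m v))]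
  have h1 : ∏ v ∈ K, wt a (m v) = a ^ K.card := by
    rw [prod_congr rfl fun v hv => by rw [(hK v hv).1], prod_const]
    rfl
  have h2 : ∏ v ∈ K, wt a (put K T m v) = ((1 - a) / 2) ^ K.card := by
    have h : ∀ v ∈ K, wt a (put K T m v) = (1 - a) / 2 := by
      intro v hv
      unfold put
      rw [if_pos hv]
      obtain ⟨b, hb⟩ := Option.isSome_iff_exists.1 (hK v hv).2
      rw [hb]
      rfl
    rw [prod_congr rfl h, prod_const]
  have h3 : ∏ v ∈ Kᶜ, wt a (put K T m v) = ∏ v ∈ Kᶜ, wt a (m v) := by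
    refine prod_congr rfl fun v hv => ?_
    unfold put
    rw [if_neg (mem_compl.1 hv)]
  rw [h1, h2, h3]
  ring

lemma opnW {V : Type} [Fintype V] [DecidableEq V] {S : ℕ} (s : St V) (hI : Inv s)
    (o : Option (Fin S)) :
    (opn s o).mg = s.mg ∧ ∀ v, (opn s o).mp v = none → s.mg v = none := by
  cases o with
  | none => exact ⟨rfl, fun v hv => (hI v).1.1 hv⟩
  | some j => exact ⟨rfl, fun v hv => (hI v).2.1 hv⟩

end Wgt_aux

open Wgt_aux in
theorem tWgt : sSIn → sWgt := by
  intro hSIn V _ _ S w TL a s s' l hI hR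
  induction hR with
  | nil s => simp [tot]
  | @cons s s1 s2 e l hst hR ih =>
    have h2 := ih (hSIn V S w TL s s1 e hI hst)
    have key : W a s.mg * ((1 - a) / 2) ^ cnt e = a ^ cnt e * W a s1.mg := by
      obtain ⟨T, -, -, hcnt, -, hs'⟩ := hst
      obtain ⟨hmg, hmp⟩ := opnW s hI e.1
      have h3 : s1.mg = put (fre T (opn s e.1).mp) T s.mg := by
        rw [hs', hmg]
      rw [h3, hcnt]
      refine stepW a _ T s.mg fun v hv => ?_
      have hv' := (mem_filter.1 hv).2
      exact ⟨hmp v (Option.isNone_iff_eq_none.1 hv'.2), hv'.1⟩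
    have ht : tot (e :: l) = cnt e + tot l := by
      simp [tot]
    rw [ht, pow_add, pow_add]
    calc W a s.mg * (((1 - a) / 2) ^ cnt e * ((1 - a) / 2) ^ tot l)
        = (W a s.mg * ((1 - a) / 2) ^ cnt e) * ((1 - a) / 2) ^ tot l := by ring
      _ = a ^ cnt e * (W a s1.mg * ((1 - a) / 2) ^ tot l) := by rw [key]; ring
      _ = a ^ cnt e * (a ^ tot l * W a s2.mg) := by rw [h2]
      _ = a ^ cnt e * a ^ tot l * W a s2.mg := by ring

end Pool.Agent.CD
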