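import Pool.Agent.Lib.CD.B1
import Pool.Agent.Lib.CD.StE
import Pool.Agent.Lib.CD.ISt
import Pool.Agent.Lib.CD.Exi
import Pool.Agent.Lib.CD.SIn
import Pool.Agent.Lib.CD.Wgt
import Pool.Agent.Lib.CD.Inj
import Pool.Agent.Lib.CD.Sum
import Pool.Agent.Lib.CD.LSm
import Pool.Agent.Lib.CD.Blk
import Pool.Agent.Lib.CD.Cod
import Pool.Agent.Lib.CD.MS
import Pool.Agent.Lib.CD.Lev
import Pool.Agent.Lib.CD.Lft
import Pool.Agent.Lib.CD.Trf
import Pool.Agent.Lib.CD.UpT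
import Pool.Agent.Lib.CD.Sub
import Pool.Agent.Lib.CD.TrL
import Pool.Agent.Lib.CD.TrU
import Pool.Agent.Lib.CD.LoK
import Pool.Agent.Lib.CD.M1
import Pool.Agent.Lib.CD.Bas
import Pool.Agent.Lib.CD.Q1
import Pool.Agent.Lib.CD.Q2
import Pool.Agent.Lib.CD.TrS
import Pool.Agent.Lib.CD.TS2
import Pool.Agent.Lib.CD.BaS
import Pool.Agent.Lib.CD.Q3

/-!
Theorem CD (note 5285): assembly of the general forms.
-/

namespace Pool.Agent.CD

theorem aMS : sMS :=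
  tMS (tExi (tISt tB1 tStE)) (tSum (tWgt tSIn) (tInj tSIn)) (tCod tLSm tBlk)

theorem aLft : sLft :=
  tLft fun V _ _ d S w f h1 h2 h3 u => tCkt aMS V d S w f h1 h2 h3 u

theorem aTrL : sTrL := tTrL tSub

theorem aTrU : sTrU := tTrU tSub

theorem aQ1 : sQ1 :=
  tQ1 aTrL aTrU tLoK tM1 (tTMA aLft) (tTSB aLft) (tTPP aLft) tUpA tBas

theorem aQ2 : sQ2 := tQ2 aTrL aTrU tLoK tM1 (tTMA aLft) tUpS tBas

theorem aQ3 : sQ3 := tQ3 (tTrS tSub) aTrU tLoK tM1 (tTS2 aLft) tUpA tBaS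

end Pool.Agent.CD
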