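import Pool.Agent.Lib.CD.SpecE

/-!
PROJECT CD, module AmN (helper2): parameters of the amplification.
-/

set_option autoImplicit false

namespace Pool.Agent.CD

open Finset Pool.Agent.Lib.MP_ff3ed7_lc Pool.Agent.Lib.MP_ff3ed7_lc.B

private theorem AmN_four : (4 : ℝ) ≤ Real.exp 2 := by
  have h1 : (2 : ℝ) ≤ Real.exp 1 := by
    have := Real.exp_one_gt_d9
    linarith
  have h2 : Real.exp 2 = Real.exp 1 * Real.exp 1 := by
    rw [← Real.exp_add]
    norm_num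
  rw [h2]
  nlinarith

private theorem AmN_exp (T : ℕ) : (T : ℝ) * Real.exp (-(2 * (T : ℝ) + 1)) ≤ (1 / 2) ^ T := by
  have h1 : Real.exp (-(2 * (T : ℝ) + 1)) ≤ Real.exp (-(T * 2 : ℝ)) := by
    apply Real.exp_le_exp.mpr
    linarith
  have h2 : Real.exp (-(T * 2 : ℝ)) ≤ (1 / 4) ^ T := by
    rw [Real.exp_neg, Real.exp_nat_mul, one_div, inv_pow]
    exact inv_anti₀ (by positivity) (pow_le_pow_left₀ (by norm_num) AmN_four T)
  have h3 : (T : ℝ) ≤ 2 ^ T := by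
    exact_mod_cast (Nat.lt_two_pow_self (n := T)).le
  calc (T : ℝ) * Real.exp (-(2 * (T : ℝ) + 1)) ≤ 2 ^ T * (1 / 4) ^ T :=
        mul_le_mul h3 (h1.trans h2) (Real.exp_pos _).le (by positivity)
    _ = (1 / 2) ^ T := by
        rw [← mul_pow]
        norm_num

theorem tAmN : sAmN := by
  intro T hT
  set a : ℕ := Nat.log 2 (4 * T + 2) + 1 with ha
  set b : ℕ := 3 ^ a / 2 with hb
  have hlo : 4 * T + 2 < 2 ^ a := by
    rw [ha]
    exact Nat.lt_pow_succ_log_self (by norm_num) _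
  have hup : 2 ^ a ≤ 8 * T + 4 := by
    rw [ha, pow_succ]
    have := Nat.pow_log_le_self 2 (x := 4 * T + 2) (by omega)
    omega
  have ha1 : 1 ≤ a := by omega
  have h3a : 3 ≤ 3 ^ a := by
    calc 3 = 3 ^ 1 := by norm_num
      _ ≤ 3 ^ a := Nat.pow_le_pow_right (by norm_num) ha1
  have hb1 : 1 ≤ b := by omega
  have h2b : 3 ^ a ≤ 2 * b + 1 := by omega
  have hbr : (b : ℝ) ≤ 3 ^ a / 2 := by
    have h : 2 * b ≤ 3 ^ a := by omega
    have h' : (2 : ℝ) * b ≤ 3 ^ a := by exact_mod_cast h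
    linarith
  have hbr' : (3 ^ a - 1) / 2 ≤ (b : ℝ) := by
    have h' : (3 : ℝ) ^ a ≤ 2 * b + 1 := by exact_mod_cast h2b
    linarith
  refine ⟨a, b, T, ha1, hb1, hT, ?_, ?_⟩
  · have h1 : a ≤ 8 * T + 4 := (Nat.lt_two_pow_self (n := a)).le.trans hup
    have h2 : b ≤ (8 * T + 4) ^ 2 := by
      calc b ≤ 3 ^ a := Nat.div_le_self _ _
        _ ≤ 4 ^ a := Nat.pow_le_pow_left (by norm_num) a
        _ = (2 ^ a) ^ 2 := by
            rw [show (4 : ℕ) = 2 ^ 2 by norm_num, ← pow_mul, ← pow_mul, mul_comm]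
        _ ≤ (8 * T + 4) ^ 2 := Nat.pow_le_pow_left hup 2
    calc a * b * T ≤ (8 * T + 4) * (8 * T + 4) ^ 2 * T :=
          Nat.mul_le_mul_right _ (Nat.mul_le_mul h1 h2)
      _ ≤ (8 * T + 8) * (8 * T + 8) ^ 2 * (8 * T + 8) := by
          refine Nat.mul_le_mul (Nat.mul_le_mul (by omega) (Nat.pow_le_pow_left (by omega) 2))
            (by omega)
      _ = (8 * T + 8) ^ 4 := by ring
  · intro q hq0 hq1
    have hx0 : 0 ≤ q ^ a := pow_nonneg hq0 _
    have hx1 : q ^ a ≤ 1 := pow_le_one₀ hq0 hq1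
    have hy0 : 0 ≤ (1 - q ^ a) ^ b := pow_nonneg (by linarith) _
    have hy1 : (1 - q ^ a) ^ b ≤ 1 := pow_le_one₀ (by linarith) (by linarith)
    constructor
    · intro hq
      have e1 : (1 - q ^ a) ^ b ≤ Real.exp (-(2 * (T : ℝ) + 1)) := by
        have e2 : (2 / 3 : ℝ) ^ a ≤ q ^ a := pow_le_pow_left₀ (by norm_num) hq a
        have e3 : 1 - q ^ a ≤ Real.exp (-(2 / 3 : ℝ) ^ a) := by
          have := Real.one_sub_le_exp_neg ((2 / 3 : ℝ) ^ a)
          linarith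
        have e4 : (1 - q ^ a) ^ b ≤ Real.exp (-(2 / 3 : ℝ) ^ a) ^ b :=
          pow_le_pow_left₀ (by linarith) e3 b
        refine e4.trans ?_
        rw [← Real.exp_nat_mul]
        apply Real.exp_le_exp.mpr
        have e5 : (2 / 3 : ℝ) ^ a ≤ 1 := pow_le_one₀ (by norm_num) (by norm_num)
        have e6 : (0 : ℝ) < (2 / 3 : ℝ) ^ a := by positivity
        have e7 : (3 : ℝ) ^ a * (2 / 3 : ℝ) ^ a = 2 ^ a := by
          rw [← mul_pow]
          norm_num
        have e8 : (4 * (T : ℝ) + 3) ≤ 2 ^ a := by exact_mod_cast hlo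
        have e9 : (3 ^ a - 1) / 2 * (2 / 3 : ℝ) ^ a ≤ (b : ℝ) * (2 / 3 : ℝ) ^ a :=
          mul_le_mul_of_nonneg_right hbr' e6.le
        have e10 : (3 ^ a - 1) / 2 * (2 / 3 : ℝ) ^ a = (2 ^ a - (2 / 3 : ℝ) ^ a) / 2 := by
          rw [← e7]
          ring
        rw [e10] at e9
        linarith
      have e2 : (T : ℝ) * (1 - q ^ a) ^ b ≤ (1 / 2) ^ T :=
        (mul_le_mul_of_nonneg_left e1 (Nat.cast_nonneg T)).trans (AmN_exp T)
      have e3 : 1 + (T : ℝ) * (-(1 - q ^ a) ^ b) ≤ (1 + -(1 - q ^ a) ^ b) ^ T :=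
        one_add_mul_le_pow (by linarith) T
      have e4 : (1 + -(1 - q ^ a) ^ b) = (1 - (1 - q ^ a) ^ b) := by ring
      rw [e4] at e3
      linarith
    · intro hq
      have e1 : q ^ a ≤ (1 / 3 : ℝ) ^ a := pow_le_pow_left₀ hq0 hq a
      have e2 : 1 + (b : ℝ) * (-(q ^ a)) ≤ (1 + -(q ^ a)) ^ b :=
        one_add_mul_le_pow (by linarith) b
      have e3 : (1 + -(q ^ a)) = 1 - q ^ a := by ring
      rw [e3] at e2
      have e4 : (b : ℝ) * q ^ a ≤ 1 / 2 := by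
        calc (b : ℝ) * q ^ a ≤ 3 ^ a / 2 * (1 / 3 : ℝ) ^ a :=
              mul_le_mul hbr e1 hx0 (by positivity)
          _ = (3 * (1 / 3 : ℝ)) ^ a / 2 := by
              rw [mul_pow]
              ring
          _ = 1 / 2 := by norm_num
      refine pow_le_pow_left₀ (by linarith) ?_ T
      linarith

end Pool.Agent.CD
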