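import Pool.Agent.Lib.CD.SpecE

set_option autoImplicit false

namespace Pool.Agent.CD

open Finset Pool.Agent.Lib.MP_ff3ed7_lc Pool.Agent.Lib.MP_ff3ed7_lc.B

namespace Amp_aux

theorem prob_nonneg' (r : ℕ) (E : (Fin r → Bool) → Prop) : 0 ≤ prob r E := by
  unfold prob; positivity

theorem prob_le_one' (r : ℕ) (E : (Fin r → Bool) → Prop) : prob r E ≤ 1 := by
  unfold prob
  rw [div_le_one (by positivity)]
  have h1 : Nat.card {ρ : Fin r → Bool // E ρ} ≤ Nat.card (Fin r → Bool) :=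
    Nat.card_le_card_of_injective (fun ρ => ρ.1) Subtype.val_injective
  have h2 : Nat.card (Fin r → Bool) = 2 ^ r := by
    simp [Nat.card_eq_fintype_card]
  rw [h2] at h1
  exact_mod_cast h1

/-- the extension of a finite family -/
def ext {κ : Type} (K : ℕ) (f : Fin K → (κ → Bool) → Bool) (i : ℕ) : (κ → Bool) → Bool :=
  if h : i < K then f ⟨i, h⟩ else fun _ => false

theorem ext_all {κ : Type} (K : ℕ) (f : Fin K → (κ → Bool) → Bool) (x : κ → Bool) :
    (∀ i < K, ext K f i x = true) ↔ ∀ i : Fin K, f i x = true := by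
  constructor
  · intro h i
    have := h i.1 i.2
    simpa [ext, i.2] using this
  · intro h i hi
    simp only [ext, hi, dif_pos]
    exact h ⟨i, hi⟩

theorem ext_ex {κ : Type} (K : ℕ) (f : Fin K → (κ → Bool) → Bool) (x : κ → Bool) :
    (∃ i < K, ext K f i x = true) ↔ ∃ i : Fin K, f i x = true := by
  constructor
  · rintro ⟨i, hi, h⟩
    refine ⟨⟨i, hi⟩, ?_⟩
    simpa [ext, hi] using h
  · rintro ⟨i, h⟩
    refine ⟨i.1, i.2, ?_⟩
    simpa [ext, i.2] using h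

theorem ext_ckt {κ : Type} (K d S : ℕ) (f : Fin K → (κ → Bool) → Bool)
    (h : ∀ i, IsCkt d S (f i)) : ∀ i < K, IsCkt d S (ext K f i) := by
  intro i hi
  have : ext K f i = f ⟨i, hi⟩ := by
    simp [ext, hi]
  rw [this]
  exact h _

end Amp_aux

open Amp_aux

/-- **Amp.** -/
theorem tAmp : sSub → sCkA → sCkO → sPrA → sAmN → sAmp := by
  intro hSub hCkA hCkO hPrA hAmN κ F r p d S T hT hF
  obtain ⟨V, hV, h1, h2⟩ := hF
  obtain ⟨a, b, c, ha, hb, hc, habc, hq⟩ := hAmN T hT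
  -- one sample
  let V1 : Fin c → Fin b → Fin a → (κ ⊕ (Fin p ⊕ Fin (c * (b * (a * r)))) → Bool) → Bool :=
    fun i3 i2 i1 z => V (Sum.elim (fun k => z (Sum.inl k)) (Sum.elim (fun j => z (Sum.inr (Sum.inl j)))
      (sl (sl (sl (fun j => z (Sum.inr (Sum.inr j))) i3) i2) i1)))
  have hV1 : ∀ i3 i2 i1, IsCkt d S (V1 i3 i2 i1) := by
    intro i3 i2 i1
    refine hSub _ _ d S V _ ?_ hV
    intro i
    rcases i with k | j | j
    · refine ⟨{Sum.inl k}, by simp, ?_⟩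
      intro x y h
      simp only [Sum.elim_inl]
      exact h _ (mem_singleton_self _)
    · refine ⟨{Sum.inr (Sum.inl j)}, by simp, ?_⟩
      intro x y h
      simp only [Sum.elim_inl, Sum.elim_inr]
      exact h _ (mem_singleton_self _)
    · refine ⟨{Sum.inr (Sum.inr (finProdFinEquiv (i3, finProdFinEquiv (i2,
        finProdFinEquiv (i1, j)))))}, by simp, ?_⟩
      intro x y h
      simp only [Sum.elim_inr, sl]
      exact h _ (mem_singleton_self _)
  let V2 : Fin c → Fin b → (κ ⊕ (Fin p ⊕ Fin (c * (b * (a * r)))) → Bool) → Bool :=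
    fun i3 i2 z => decide (∀ i < a, ext a (V1 i3 i2) i z = true)
  have hV2 : ∀ i3 i2, IsCkt (d + 1) (a * S + 1) (V2 i3 i2) := fun i3 i2 =>
    hCkA _ a d S _ (ext_ckt a d S _ (hV1 i3 i2))
  let V3 : Fin c → (κ ⊕ (Fin p ⊕ Fin (c * (b * (a * r)))) → Bool) → Bool :=
    fun i3 z => decide (∃ i < b, ext b (V2 i3) i z = true)
  have hV3 : ∀ i3, IsCkt (d + 1 + 1) (b * (a * S + 1) + 1) (V3 i3) := fun i3 =>
    hCkO _ b (d + 1) (a * S + 1) _ (ext_ckt b _ _ _ (hV2 i3))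
  let V4 : (κ ⊕ (Fin p ⊕ Fin (c * (b * (a * r)))) → Bool) → Bool :=
    fun z => decide (∀ i < c, ext c V3 i z = true)
  have hV4 : IsCkt (d + 1 + 1 + 1) (c * (b * (a * S + 1) + 1) + 1) V4 :=
    hCkA _ c (d + 1 + 1) _ _ (ext_ckt c _ _ _ hV3)
  have hV4' : ∀ (x : κ → Bool) (y : Fin p → Bool) (ρ : Fin (c * (b * (a * r))) → Bool),
      V4 (Sum.elim x (Sum.elim y ρ)) = true ↔ ∀ i3 : Fin c, ∃ i2 : Fin b, ∀ i1 : Fin a,
        V (Sum.elim x (Sum.elim y (sl (sl (sl ρ i3) i2) i1))) = true := by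
    intro x y ρ
    simp only [V4, V3, V2, decide_eq_true_eq, ext_all, ext_ex]
    rfl
  have hprob : ∀ (x : κ → Bool) (y : Fin p → Bool),
      prob (c * (b * (a * r))) (fun ρ => V4 (Sum.elim x (Sum.elim y ρ)) = true) =
        (1 - (1 - prob r (fun ρ => V (Sum.elim x (Sum.elim y ρ)) = true) ^ a) ^ b) ^ c := by
    intro x y
    have e1 := (hPrA a r fun ρ => V (Sum.elim x (Sum.elim y ρ)) = true).1
    have e2 := (hPrA b (a * r) fun ρ => ∀ i1 : Fin a,
      V (Sum.elim x (Sum.elim y (sl ρ i1))) = true).2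
    have e3 := (hPrA c (b * (a * r)) fun ρ => ∃ i2 : Fin b, ∀ i1 : Fin a,
      V (Sum.elim x (Sum.elim y (sl (sl ρ i2) i1))) = true).1
    rw [← e1, ← e2, ← e3]
    simp only [hV4']
  refine ⟨c * (b * (a * r)), c * (b * (a * S + 1) + 1) + 1, ?_, ?_, V4, hV4, ?_, ?_⟩
  · calc c * (b * (a * r)) = a * b * c * r := by ring
      _ ≤ _ := Nat.mul_le_mul_right _ habc
  · have k1 : 1 ≤ a * b * c := Nat.mul_pos (Nat.mul_pos ha hb) hc
    have k2 : c * b ≤ a * b * c := by nlinarith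
    have k3 : c ≤ a * b * c := Nat.le_mul_of_pos_left _ (Nat.mul_pos ha hb)
    calc c * (b * (a * S + 1) + 1) + 1 = a * b * c * S + c * b + c + 1 := by ring
      _ ≤ a * b * c * (S + 3) := by nlinarith
      _ ≤ _ := Nat.mul_le_mul_right _ habc
  · intro x hx
    obtain ⟨y, hy⟩ := h1 x hx
    refine ⟨y, ?_⟩
    rw [hprob]
    exact (hq _ (prob_nonneg' _ _) (prob_le_one' _ _)).1 hy
  · intro x hx y
    rw [hprob]
    exact (hq _ (prob_nonneg' _ _) (prob_le_one' _ _)).2 (h2 x hx y)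

end Pool.Agent.CD
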