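import Pool.Agent.Lib.CD.SpecA

/-!
Project CD, module B1 (helper40): a DNF which is not constant on `m` has a first term which is not
falsified, and this term has a free variable.
-/

set_option autoImplicit false

namespace Pool.Agent.CD

open Finset

theorem tB1 : sB1 := by
  intro V _ _ TL t g m hg hnc
  cases hf : fst TL m with
  | none =>
    exfalso
    apply hnc
    have hall : ∀ T ∈ TL, fal m T := by
      intro T hT
      have h := List.find?_eq_none.1 hf T hT
      simpa using h
    have hne : ∀ x, Cons m x → g x ≠ t := by
      intro x hx h
      obtain ⟨T, hT, hC⟩ := (hg x).1 h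
      obtain ⟨v, b, h1, h2⟩ := hall T hT
      have e1 := hC v b h1
      have e2 := hx v _ h2
      rw [e1] at e2
      cases b <;> simp at e2
    intro x y hx hy
    have h1 := hne x hx
    have h2 := hne y hy
    cases hgx : g x <;> cases hgy : g y <;> cases t <;> simp_all
  | some T =>
    have hmem : T ∈ TL := List.mem_of_find?_eq_some hf
    have hnf : ¬ fal m T := by
      have h := List.find?_some hf
      simpa using h
    refine ⟨T, hmem, rfl, ?_⟩
    by_contra hemp
    rw [Finset.not_nonempty_iff_eq_empty] at hemp
    apply hnc
    have key : ∀ x, Cons m x → g x = t := by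
      intro x hx
      refine (hg x).2 ⟨T, hmem, ?_⟩
      intro v b hTv
      have hv : v ∉ fre T m := by
        rw [hemp]
        exact Finset.notMem_empty v
      have hv2 : ¬ ((T v).isSome ∧ (m v).isNone) := by
        intro h
        exact hv (Finset.mem_filter.2 ⟨Finset.mem_univ v, h⟩)
      cases hm : m v with
      | none =>
        exact absurd ⟨by rw [hTv]; rfl, by rw [hm]; rfl⟩ hv2
      | some c =>
        have hxc := hx v c hm
        by_cases hcb : c = b
        · rw [hxc, hcb]
        · exfalso
          apply hnf
          refine ⟨v, b, hTv, ?_⟩
          rw [hm]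
          cases b <;> cases c <;> simp_all
    intro x y hx hy
    rw [key x hx, key y hy]

end Pool.Agent.CD
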