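import Pool.Agent.Lib.CD.SpecE

/-!
Theorem CD (note 5285), module Cha: the strict chain of the classes (helper48).
-/

set_option autoImplicit false

namespace Pool.Agent.CD

open Finset Pool.Agent.Lib.MP_ff3ed7_lc Pool.Agent.Lib.MP_ff3ed7_lc.B

namespace Cha_aux

lemma log_le (g : ℕ) : g + 2 ≤ 2 ^ (2 * (Nat.sqrt g + 1)) := by
  have h2 : g < (Nat.sqrt g + 1) * (Nat.sqrt g + 1) := Nat.lt_succ_sqrt g
  have h4 : Nat.sqrt g + 1 ≤ 2 ^ Nat.sqrt g := Nat.lt_two_pow_self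
  have h5 : (Nat.sqrt g + 1) * (Nat.sqrt g + 1) ≤ 2 ^ Nat.sqrt g * 2 ^ Nat.sqrt g :=
    Nat.mul_le_mul h4 h4
  have h6 : 2 ^ (2 * (Nat.sqrt g + 1)) = 4 * (2 ^ Nat.sqrt g * 2 ^ Nat.sqrt g) := by
    rw [show 2 * (Nat.sqrt g + 1) = 2 + (Nat.sqrt g + Nat.sqrt g) by ring, pow_add, pow_add]
    norm_num
  have h8 : 1 ≤ 2 ^ Nat.sqrt g * 2 ^ Nat.sqrt g := Nat.one_le_iff_ne_zero.2 (by positivity)
  omega

lemma log_le' (C g : ℕ) : g + 2 ≤ 2 ^ ((C + 2) * (Nat.sqrt g + 1)) :=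
  (log_le g).trans (Nat.pow_le_pow_right (by norm_num) (Nat.mul_le_mul_right _ (by omega)))

lemma pow_le' (C g : ℕ) : 2 ^ (C * (Nat.sqrt g + 1)) ≤ 2 ^ ((C + 2) * (Nat.sqrt g + 1)) :=
  Nat.pow_le_pow_right (by norm_num) (Nat.mul_le_mul_right _ (by omega))

/-- `N` cannot be large -/
lemma contra {A B : Prop} {N s M e : ℕ} (h : N < s ^ e) (hs : s ≤ M) (hM : M ^ e ≤ N) (_ : A)
    (_ : B) : False :=
  absurd (h.trans_le ((Nat.pow_le_pow_left hs e).trans hM)) (lt_irrefl _)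

end Cha_aux

theorem tCha : sP1 → sP2 → sP3 → sSMa → sSmP → sIMS → sISA → sCha := by
  intro hP1 hP2 hP3 hSMa hSmP hIMS hISA
  obtain ⟨q1, _, q3, q4⟩ := hSmP
  obtain ⟨L1, C1, a1, b1⟩ := hP1
  obtain ⟨L2, C2, a2, b2⟩ := hP2
  obtain ⟨L3, C3, a3, b3⟩ := hP3
  have m1 : L1 ∈ AMac := by
    refine ⟨3, C1, fun N => 2 ^ ((C1 + 2) * (Nat.sqrt (Nat.log 2 N) + 1)), q1 (C1 + 2), fun N => ?_⟩
    obtain ⟨r, p, S, h1, h2, h3, h4⟩ := a1 N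
    exact ⟨r, p, S, h1.trans (Cha_aux.log_le' C1 _), h2.trans (Cha_aux.pow_le' C1 _), h3, h4⟩
  have m3 : L3 ∈ AMac := by
    refine ⟨3, C3, fun N => 2 ^ ((C3 + 2) * (Nat.sqrt (Nat.log 2 N) + 1)), q1 (C3 + 2), fun N => ?_⟩
    obtain ⟨r, p, S, h1, h2, h3, h4⟩ := a3 N
    exact ⟨r, p, S, h1.trans (Cha_aux.log_le' C3 _), h2.trans (Cha_aux.pow_le' C3 _), h3, h4⟩
  have m2 : L2 ∈ SBPac := by
    refine ⟨3, C2, fun N => 2 ^ (C2 * (Nat.sqrt (Nat.log 2 N) + 1)), q1 C2, fun N => ?_⟩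
    obtain ⟨r, s, S, h1, h2, h3, h4⟩ := a2 N
    exact ⟨r, s, S, h1, h2, h3, h4⟩
  have n2 : L2 ∉ MAac := by
    rintro ⟨d, C, m, hm, h⟩
    obtain ⟨N1, k1⟩ := b2 d 2
    obtain ⟨N2, k2⟩ := q3 m 20 hm
    obtain ⟨N3, k3⟩ := q4 C
    have e1 : N1 ≤ max N1 (max N2 N3) := le_max_left _ _
    have e2 : N2 ≤ max N1 (max N2 N3) := (le_max_left _ _).trans (le_max_right _ _)
    have e3 : N3 ≤ max N1 (max N2 N3) := (le_max_right _ _).trans (le_max_right _ _)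
    generalize max N1 (max N2 N3) = N at e1 e2 e3
    obtain ⟨r, p, S, hr, hp, hS, hh⟩ := h N
    have g1 := k1 N e1 S (hS.trans (k3 N e3)) p ((hSMa _ _ r p d S).1 hh)
    exact Cha_aux.contra g1 (by omega : p + 2 ≤ 2 * m N + 3) (k2 N e2) hr hr
  have n1 : L1 ∉ SBPac := by
    rintro ⟨d, C, m, hm, h⟩
    obtain ⟨N1, k1⟩ := b1 d 2
    obtain ⟨N2, k2⟩ := q3 m 6 hm
    obtain ⟨N3, k3⟩ := q4 C
    have e1 : N1 ≤ max N1 (max N2 N3) := le_max_left _ _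
    have e2 : N2 ≤ max N1 (max N2 N3) := (le_max_left _ _).trans (le_max_right _ _)
    have e3 : N3 ≤ max N1 (max N2 N3) := (le_max_right _ _).trans (le_max_right _ _)
    generalize max N1 (max N2 N3) = N at e1 e2 e3
    obtain ⟨r, s, S, hr, hs, hS, hh⟩ := h N
    have g1 := (k1 N e1 S (hS.trans (k3 N e3)) s).2.1 ((hSMa _ _ r s d S).2.1 hh)
    exact Cha_aux.contra g1 (by omega : s + 2 ≤ 2 * m N + 3) (k2 N e2) hr hr
  have n1' : L1 ∉ PPac := by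
    rintro ⟨d, C, m, hm, h⟩
    obtain ⟨N1, k1⟩ := b1 d 2
    obtain ⟨N2, k2⟩ := q3 m 6 hm
    obtain ⟨N3, k3⟩ := q4 C
    have e1 : N1 ≤ max N1 (max N2 N3) := le_max_left _ _
    have e2 : N2 ≤ max N1 (max N2 N3) := (le_max_left _ _).trans (le_max_right _ _)
    have e3 : N3 ≤ max N1 (max N2 N3) := (le_max_right _ _).trans (le_max_right _ _)
    generalize max N1 (max N2 N3) = N at e1 e2 e3
    obtain ⟨r, S, hr, hS, hh⟩ := h N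
    have g1 := (k1 N e1 S (hS.trans (k3 N e3)) (r + 1)).2.2 ((hSMa _ _ r 0 d S).2.2.1 hh)
    exact Cha_aux.contra g1 (by omega : r + 1 + 2 ≤ 2 * m N + 3) (k2 N e2) hr hr
  have n3 : L3 ∉ S2ac := by
    rintro ⟨d, C, m, hm, h⟩
    obtain ⟨N1, k1⟩ := b3 d 2
    obtain ⟨N2, k2⟩ := q3 m 10 hm
    obtain ⟨N3, k3⟩ := q4 C
    have e1 : N1 ≤ max N1 (max N2 N3) := le_max_left _ _
    have e2 : N2 ≤ max N1 (max N2 N3) := (le_max_left _ _).trans (le_max_right _ _)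
    have e3 : N3 ≤ max N1 (max N2 N3) := (le_max_right _ _).trans (le_max_right _ _)
    generalize max N1 (max N2 N3) = N at e1 e2 e3
    obtain ⟨p, r, S, hp, hr, hS, hh⟩ := h N
    have g1 := k1 N e1 S (hS.trans (k3 N e3)) p r ((hSMa _ _ r p d S).2.2.2 hh)
    exact Cha_aux.contra g1 (by omega : p + r + 2 ≤ 2 * m N + 3) (k2 N e2) hr hr
  exact ⟨(Set.ssubset_iff_of_subset hIMS).2 ⟨L2, m2, n2⟩,
    (Set.ssubset_iff_of_subset hISA).2 ⟨L1, m1, n1⟩, fun h => n1' (h m1), fun h => n3 (h m3)⟩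

end Pool.Agent.CD
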