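import Pool.Agent.Lib.CD.SpecE

/-!
Theorem CD (note 5285), module CkA: AND of circuits.
-/

set_option autoImplicit false

namespace Pool.Agent.CD

open Finset Pool.Agent.Lib.MP_ff3ed7_lc Pool.Agent.Lib.MP_ff3ed7_lc.B

open Classical in
/-- The joint circuit: gate `i * S + j` of the levels `0, ..., d` is gate `j` of the circuit `i`, the
gates of the level `d + 1` are the AND. -/
private noncomputable def CkA_G {κ : Type} (K d S : ℕ) (f : ℕ → (κ → Bool) → Bool)
    (G : ℕ → ℕ → ℕ → (κ → Bool) → Bool) (l n : ℕ) (x : κ → Bool) : Bool :=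
  if l ≤ d then (if n / S < K then G (n / S) l (n % S) x else false)
  else decide (∀ i < K, f i x = true)

private theorem CkA_in {κ : Type} {K d S : ℕ} {f : ℕ → (κ → Bool) → Bool}
    {G : ℕ → ℕ → ℕ → (κ → Bool) → Bool} {l n : ℕ} {x : κ → Bool} (hl : l ≤ d) (hn : n / S < K) :
    CkA_G K d S f G l n x = G (n / S) l (n % S) x := by
  unfold CkA_G
  rw [if_pos hl, if_pos hn]

private theorem CkA_out {κ : Type} {K d S : ℕ} {f : ℕ → (κ → Bool) → Bool}
    {G : ℕ → ℕ → ℕ → (κ → Bool) → Bool} {l n : ℕ} {x : κ → Bool} (hl : l ≤ d)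
    (hn : ¬ n / S < K) : CkA_G K d S f G l n x = false := by
  unfold CkA_G
  rw [if_pos hl, if_neg hn]

private theorem CkA_idx {κ : Type} {K d S : ℕ} {f : ℕ → (κ → Bool) → Bool}
    {G : ℕ → ℕ → ℕ → (κ → Bool) → Bool} {l i a : ℕ} {x : κ → Bool} (hl : l ≤ d) (hi : i < K)
    (ha : a < S) : CkA_G K d S f G l (i * S + a) x = G i l a x := by
  have h1 : (i * S + a) / S = i := by
    rw [Nat.mul_comm, Nat.mul_add_div (by omega), Nat.div_eq_of_lt ha, Nat.add_zero]
  have h2 : (i * S + a) % S = a := by
    rw [Nat.mul_comm, Nat.mul_add_mod, Nat.mod_eq_of_lt ha]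
  rw [CkA_in hl (by rw [h1]; exact hi), h1, h2]

private theorem CkA_lt {K S i a : ℕ} (hi : i < K) (ha : a < S) : i * S + a < K * S + 1 := by
  have h1 : (i + 1) * S ≤ K * S := Nat.mul_le_mul_right S hi
  have h2 : (i + 1) * S = i * S + S := by ring
  omega

theorem tCkA : sCkA := by
  classical
  intro κ K d S f hf
  simp only [IsCkt] at hf
  choose! G h0 h1 o ho hout using hf
  have hS : ∀ n, n / S < K → n % S < S := by
    intro n hn
    have h2 := ho (n / S) hn
    exact Nat.mod_lt _ (by omega)
  refine ⟨CkA_G K d S f G, ?_, ?_, 0, Nat.succ_pos _, ?_⟩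
  · intro j _
    by_cases hj : j / S < K
    · obtain ⟨A, hA, hx⟩ := h0 (j / S) hj (j % S) (hS j hj)
      refine ⟨A, hA, fun x y hxy => ?_⟩
      rw [CkA_in (Nat.zero_le d) hj, CkA_in (Nat.zero_le d) hj]
      exact hx x y hxy
    · refine ⟨∅, by simp, fun x y _ => ?_⟩
      rw [CkA_out (Nat.zero_le d) hj, CkA_out (Nat.zero_le d) hj]
  · intro i hi j _
    rcases Nat.lt_succ_iff_lt_or_eq.1 hi with hid | hid
    · by_cases hj : j / S < K
      · obtain ⟨A, s, t, hA, hx⟩ := h1 (j / S) hj i hid (j % S) (hS j hj)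
        refine ⟨A.image (fun a => j / S * S + a), fun n => s (n % S), t, ?_, fun x => ?_⟩
        · intro b hb
          obtain ⟨a, ha, rfl⟩ := mem_image.1 hb
          exact CkA_lt hj (hA a ha)
        · rw [CkA_in (by omega) hj, hx x]
          have hmod : ∀ a ∈ A, (j / S * S + a) % S = a := by
            intro a ha
            rw [Nat.mul_comm, Nat.mul_add_mod, Nat.mod_eq_of_lt (hA a ha)]
          constructor
          · rintro ⟨a, ha, hax⟩
            refine ⟨j / S * S + a, mem_image_of_mem _ ha, ?_⟩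
            simp only [CkA_idx hid.le hj (hA a ha), hmod a ha]
            exact hax
          · rintro ⟨b, hb, hbx⟩
            obtain ⟨a, ha, rfl⟩ := mem_image.1 hb
            simp only [CkA_idx hid.le hj (hA a ha), hmod a ha] at hbx
            exact ⟨a, ha, hbx⟩
      · refine ⟨∅, fun _ => true, true, by simp, fun x => ?_⟩
        rw [CkA_out (by omega) hj]
        simp
    · subst hid
      refine ⟨(range K).image (fun k => k * S + o k), fun _ => false, false, ?_, fun x => ?_⟩
      · intro b hb
        obtain ⟨k, hk, rfl⟩ := mem_image.1 hb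
        exact CkA_lt (mem_range.1 hk) (ho k (mem_range.1 hk))
      · have hg : CkA_G K i S f G (i + 1) j x = decide (∀ k < K, f k x = true) := by
          unfold CkA_G
          rw [if_neg (by omega)]
        rw [hg, decide_eq_false_iff_not]
        constructor
        · intro h
          push Not at h
          obtain ⟨k, hk, hkx⟩ := h
          refine ⟨k * S + o k, mem_image_of_mem _ (mem_range.2 hk), ?_⟩
          rw [CkA_idx le_rfl hk (ho k hk), ← hout k hk x]
          exact Bool.eq_false_iff.2 hkx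
        · rintro ⟨b, hb, hbx⟩ h
          obtain ⟨k, hk, rfl⟩ := mem_image.1 hb
          have hk' := mem_range.1 hk
          rw [CkA_idx le_rfl hk' (ho k hk'), ← hout k hk' x, h k hk'] at hbx
          exact Bool.noConfusion hbx
  · intro x
    unfold CkA_G
    rw [if_neg (by omega)]

end Pool.Agent.CD
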