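import Pool.Agent.Lib.CD.SpecE

/-!
Theorem CD (note 5285): more levels and more gates.
-/

set_option autoImplicit false

namespace Pool.Agent.CD

open Finset Pool.Agent.Lib.MP_ff3ed7_lc Pool.Agent.Lib.MP_ff3ed7_lc.B

theorem tCkM : sCkM := by
  intro κ d d' S S' f hd hS hf
  obtain ⟨G, h0, h1, j0, hj0, hf⟩ := hf
  -- the new gates
  let G' : ℕ → ℕ → (κ → Bool) → Bool := fun i j => if S ≤ j then fun _ => false else G (min i d) j
  have e1 : ∀ i j, S ≤ j → ∀ x, G' i j x = false := by
    intro i j hj x
    simp only [G', if_pos hj]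
  have e2 : ∀ i j, j < S → ∀ x, G' i j x = G (min i d) j x := by
    intro i j hj x
    simp only [G', if_neg (not_le.2 hj)]
  refine ⟨G', ?_, ?_, j0, hj0.trans_le hS, ?_⟩
  · intro j _
    rcases Nat.lt_or_ge j S with hj | hj
    · obtain ⟨A, hA, hG⟩ := h0 j hj
      refine ⟨A, hA, fun x y hxy => ?_⟩
      rw [e2 0 j hj, e2 0 j hj, Nat.zero_min]
      exact hG x y hxy
    · exact ⟨∅, by simp, fun x y _ => by rw [e1 0 j hj, e1 0 j hj]⟩
  · intro i hi j _
    rcases Nat.lt_or_ge j S with hj | hj
    · rcases Nat.lt_or_ge i d with hid | hid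
      · obtain ⟨A, s, t, hA, hG⟩ := h1 i hid j hj
        refine ⟨A, s, t, fun a ha => (hA a ha).trans_le hS, fun x => ?_⟩
        rw [e2 (i + 1) j hj, min_eq_left (by omega : i + 1 ≤ d), hG x]
        constructor
        · rintro ⟨a, ha, hax⟩
          refine ⟨a, ha, ?_⟩
          rw [e2 i a (hA a ha), min_eq_left hid.le]
          exact hax
        · rintro ⟨a, ha, hax⟩
          rw [e2 i a (hA a ha), min_eq_left hid.le] at hax
          exact ⟨a, ha, hax⟩
      · refine ⟨{j}, fun _ => true, true, fun a ha => ?_, fun x => ?_⟩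
        · rw [Finset.mem_singleton.1 ha]
          exact hj.trans_le hS
        · rw [e2 (i + 1) j hj, min_eq_right (by omega : d ≤ i + 1)]
          constructor
          · intro h
            refine ⟨j, Finset.mem_singleton_self j, ?_⟩
            rw [e2 i j hj, min_eq_right hid]
            exact h
          · rintro ⟨a, ha, hax⟩
            rw [Finset.mem_singleton.1 ha, e2 i j hj, min_eq_right hid] at hax
            exact hax
    · refine ⟨∅, fun _ => true, true, by simp, fun x => ?_⟩
      rw [e1 (i + 1) j hj]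
      simp
  · intro x
    rw [e2 d' j0 hj0, min_eq_right hd]
    exact hf x

end Pool.Agent.CD
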