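import Pool.Agent.Lib.CD.SpecE

/-!
Theorem CD (note 5285): the AND of `K` conditions which depend on at most four bits each is a
circuit of depth two.
-/

set_option autoImplicit false

namespace Pool.Agent.CD

open Finset Pool.Agent.Lib.MP_ff3ed7_lc Pool.Agent.Lib.MP_ff3ed7_lc.B

namespace CkN_aux

theorem bits : ∀ b : Fin 4 → Bool, ∃ m < 16, ∀ l : Fin 4, Nat.testBit m l.val = b l := by
  decide

theorem bits' (b : ℕ → Bool) : ∃ m < 16, ∀ l < 4, Nat.testBit m l = b l := by
  obtain ⟨m, hm, h⟩ := bits fun l => b l.val
  exact ⟨m, hm, fun l hl => h ⟨l, hl⟩⟩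

/-- the value of the variable number `l` of the list -/
def vl {κ : Type} (L : List κ) (l : ℕ) (x : κ → Bool) : Bool := ((L[l]?).map x).getD false

theorem vl_some {κ : Type} (L : List κ) (l : ℕ) (x : κ → Bool) (a : κ) (h : L[l]? = some a) :
    vl L l x = x a := by
  simp [vl, h]

/-- `x` agrees with the assignment number `m` on the list -/
def agr {κ : Type} (L : List κ) (m : ℕ) (x : κ → Bool) : Prop :=
  ∀ l < 4, (L[l]?).isSome → vl L l x = Nat.testBit m l

end CkN_aux

open CkN_aux in
/-- AND of `K` conditions which depend on at most four bits each. -/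
theorem tCkN : sCkN := by
  classical
  intro κ K f hf
  have h' : ∀ i, ∃ A : Finset κ, A.card ≤ 4 ∧ (i < K → ∀ x y, (∀ a ∈ A, x a = y a) →
      f i x = f i y) := by
    intro i
    by_cases hi : i < K
    · obtain ⟨A, hA, h⟩ := hf i hi
      exact ⟨A, hA, fun _ => h⟩
    · exact ⟨∅, by simp, fun h => absurd h hi⟩
  choose A hA hAf using h'
  -- matching assignments determine the value
  have hdet : ∀ i < K, ∀ m x y, agr (A i).toList m x → agr (A i).toList m y →
      f i x = f i y := by
    intro i hi m x y hx hy
    refine hAf i hi x y fun a ha => ?_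
    obtain ⟨l, hl, hla⟩ := List.mem_iff_getElem.1 (Finset.mem_toList.2 ha)
    have hl4 : l < 4 := by
      have := hA i
      rw [Finset.length_toList] at hl
      omega
    have hs : (A i).toList[l]? = some a := by rw [List.getElem?_eq_getElem hl, hla]
    have h1 := hx l hl4 (by rw [hs]; rfl)
    have h2 := hy l hl4 (by rw [hs]; rfl)
    rw [vl_some _ _ _ _ hs] at h1 h2
    rw [h1, h2]
  let bad : ℕ → ℕ → Prop := fun i m => i < K ∧ ∃ x, agr (A i).toList m x ∧ f i x = false
  let G0 : ℕ → (κ → Bool) → Bool := fun j x => vl (A (j / 4)).toList (j % 4) x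
  let G1 : ℕ → (κ → Bool) → Bool := fun j x =>
    decide (bad (j / 16) (j % 16) → ¬ agr (A (j / 16)).toList (j % 16) x)
  let G2 : ℕ → (κ → Bool) → Bool := fun j x =>
    if j = 0 then decide (∀ i < K, f i x = true) else true
  let G : ℕ → ℕ → (κ → Bool) → Bool := fun i =>
    match i with
    | 0 => G0
    | 1 => G1
    | _ => G2
  refine ⟨G, ?_, ?_, 0, by omega, fun x => ?_⟩
  · intro j _
    rcases h : (A (j / 4)).toList[j % 4]? with _ | a
    · refine ⟨∅, by simp, fun x y _ => ?_⟩
      show vl (A (j / 4)).toList (j % 4) x = vl (A (j / 4)).toList (j % 4) y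
      simp [vl, h]
    · refine ⟨{a}, by simp, fun x y hxy => ?_⟩
      show vl (A (j / 4)).toList (j % 4) x = vl (A (j / 4)).toList (j % 4) y
      rw [vl_some _ _ _ _ h, vl_some _ _ _ _ h]
      exact hxy a (mem_singleton_self a)
  · intro i hi j hj
    interval_cases i
    · -- clauses
      show ∃ (A' : Finset ℕ) (s : ℕ → Bool) (t : Bool), (∀ a ∈ A', a < 16 * K + 1) ∧
        ∀ x, G1 j x = t ↔ ∃ a ∈ A', G0 a x = s a
      by_cases hb : bad (j / 16) (j % 16)
      · refine ⟨((range 4).filter fun l => ((A (j / 16)).toList[l]?).isSome).image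
          (fun l => 4 * (j / 16) + l), fun a => !(Nat.testBit (j % 16) (a % 4)), true, ?_, ?_⟩
        · intro a ha
          obtain ⟨l, hl, rfl⟩ := mem_image.1 ha
          have h1 : l < 4 := mem_range.1 (mem_filter.1 hl).1
          have h2 : j / 16 < K := hb.1
          omega
        · intro x
          simp only [G1, decide_eq_true_eq]
          constructor
          · intro h
            have h1 := h hb
            unfold agr at h1
            push Not at h1
            obtain ⟨l, hl, hs, hv⟩ := h1
            refine ⟨_, mem_image.2 ⟨l, mem_filter.2 ⟨mem_range.2 hl, hs⟩, rfl⟩, ?_⟩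
            have e1 : (4 * (j / 16) + l) / 4 = j / 16 := by omega
            have e2 : (4 * (j / 16) + l) % 4 = l := by omega
            simp only [G0, e1, e2]
            exact Bool.eq_not.2 hv
          · rintro ⟨a, ha, hx⟩ _ hagr
            obtain ⟨l, hl, rfl⟩ := mem_image.1 ha
            have h1 : l < 4 := mem_range.1 (mem_filter.1 hl).1
            have e1 : (4 * (j / 16) + l) / 4 = j / 16 := by omega
            have e2 : (4 * (j / 16) + l) % 4 = l := by omega
            simp only [G0, e1, e2] at hx
            exact Bool.eq_not.1 hx (hagr l h1 (mem_filter.1 hl).2)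
      · refine ⟨∅, fun _ => true, false, by simp, fun x => ?_⟩
        simp only [G1, decide_eq_false_iff_not]
        simp [hb]
    · -- the conjunction
      show ∃ (A' : Finset ℕ) (s : ℕ → Bool) (t : Bool), (∀ a ∈ A', a < 16 * K + 1) ∧
        ∀ x, G2 j x = t ↔ ∃ a ∈ A', G1 a x = s a
      by_cases h : j = 0
      · refine ⟨range (16 * K), fun _ => false, false, fun a ha => ?_, fun x => ?_⟩
        · have := mem_range.1 ha
          omega
        · simp only [G2, if_pos h, G1, decide_eq_false_iff_not]
          constructor
          · intro hx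
            push Not at hx
            obtain ⟨i, hi, hx⟩ := hx
            have hx' : f i x = false := by simpa using hx
            obtain ⟨m, hm, hb⟩ := bits' fun l => vl (A i).toList l x
            have hagr : agr (A i).toList m x := fun l hl _ => (hb l hl).symm
            refine ⟨16 * i + m, mem_range.2 (by omega), ?_⟩
            have e1 : (16 * i + m) / 16 = i := by omega
            have e2 : (16 * i + m) % 16 = m := by omega
            rw [e1, e2]
            intro hn
            exact hn ⟨hi, x, hagr, hx'⟩ hagr
          · rintro ⟨a, ha, hn⟩ hall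
            push Not at hn
            obtain ⟨⟨hi, y, hy, hfy⟩, hx⟩ := hn
            have h1 := hdet (a / 16) hi (a % 16) x y hx hy
            rw [hall _ hi, hfy] at h1
            exact Bool.noConfusion h1
      · refine ⟨∅, fun _ => true, false, by simp, fun x => ?_⟩
        simp only [G2, if_neg h]
        simp
  · show decide (∀ i < K, f i x = true) = G2 0 x
    simp only [G2, if_true]

end Pool.Agent.CD
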