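import Pool.Agent.Lib.CD.SpecE

/-!
PROJECT CD, module CkO (helper56): the OR of `K` circuits of depth `d` is a circuit of depth `d + 1`.
-/

set_option autoImplicit false

namespace Pool.Agent.CD

open Finset Pool.Agent.Lib.MP_ff3ed7_lc Pool.Agent.Lib.MP_ff3ed7_lc.B

namespace CkO_aux

lemma div_eq {S i a : ℕ} (ha : a < S) : (i * S + a) / S = i := by
  rw [Nat.add_comm, Nat.add_mul_div_right _ _ (by omega), Nat.div_eq_of_lt ha, Nat.zero_add]

lemma mod_eq {S i a : ℕ} (ha : a < S) : (i * S + a) % S = a := by
  rw [Nat.add_comm, Nat.add_mul_mod_self_right, Nat.mod_eq_of_lt ha]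

lemma lt_of {S K i a : ℕ} (ha : a < S) (hi : i < K) : i * S + a < K * S + 1 := by
  have h : (i + 1) * S ≤ K * S := Nat.mul_le_mul_right S hi
  rw [Nat.add_mul, Nat.one_mul] at h
  omega

end CkO_aux

open CkO_aux in
theorem tCkO' : sCkO := by
  intro κ K d S f h
  unfold IsCkt at h
  choose! G h1 h2 h3 using h
  choose! o ho1 ho2 using h3
  set F : (κ → Bool) → Bool := fun x => decide (∃ i < K, f i x = true) with hF
  let G' : ℕ → ℕ → (κ → Bool) → Bool := fun l n x =>
    if l ≤ d then (if n / S < K then G (n / S) l (n % S) x else false)
    else (if n = 0 then F x else false)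
  have hS : ∀ n, n / S < K → n % S < S := by
    intro n hn
    have h4 := ho1 (n / S) hn
    exact Nat.mod_lt _ (by omega)
  have g1 : ∀ i l a x, i < K → a < S → l ≤ d → G' l (i * S + a) x = G i l a x := by
    intro i l a x hi ha hl
    simp only [G']
    rw [if_pos hl, div_eq ha, mod_eq ha, if_pos hi]
  refine ⟨G', ?_, ?_, 0, by omega, ?_⟩
  · intro j _
    by_cases hj : j / S < K
    · obtain ⟨A, hA, hA'⟩ := h1 (j / S) hj (j % S) (hS j hj)
      refine ⟨A, hA, ?_⟩
      intro x y hxy
      simp only [G', Nat.zero_le, if_true, if_pos hj]
      exact hA' x y hxy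
    · refine ⟨∅, by simp, ?_⟩
      intro x y _
      simp only [G', Nat.zero_le, if_true, if_neg hj]
  · intro i hi j _
    by_cases hid : i + 1 ≤ d
    · by_cases hj : j / S < K
      · obtain ⟨A, s, t, hA, hA'⟩ := h2 (j / S) hj i (by omega) (j % S) (hS j hj)
        refine ⟨A.image (fun a => j / S * S + a), fun n => s (n % S), t, ?_, ?_⟩
        · intro a ha
          rw [mem_image] at ha
          obtain ⟨b, hb, rfl⟩ := ha
          exact lt_of (hA b hb) hj
        · intro x
          have e1 : G' (i + 1) j x = G (j / S) (i + 1) (j % S) x := by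
            simp only [G']
            rw [if_pos hid, if_pos hj]
          rw [e1, hA' x]
          constructor
          · rintro ⟨a, ha, hax⟩
            refine ⟨j / S * S + a, mem_image_of_mem _ ha, ?_⟩
            show G' i (j / S * S + a) x = s ((j / S * S + a) % S)
            rw [g1 _ _ _ _ hj (hA a ha) (by omega), mod_eq (hA a ha)]
            exact hax
          · rintro ⟨a, ha, hax⟩
            rw [mem_image] at ha
            obtain ⟨b, hb, rfl⟩ := ha
            have hax' : G' i (j / S * S + b) x = s ((j / S * S + b) % S) := hax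
            rw [g1 _ _ _ _ hj (hA b hb) (by omega), mod_eq (hA b hb)] at hax'
            exact ⟨b, hb, hax'⟩
      · refine ⟨∅, fun _ => true, true, by simp, ?_⟩
        intro x
        have e1 : G' (i + 1) j x = false := by
          simp only [G']
          rw [if_pos hid, if_neg hj]
        rw [e1]
        simp
    · have hd : i = d := by omega
      subst hd
      by_cases hj : j = 0
      · refine ⟨(range K).image (fun a => a * S + o a), fun _ => true, true, ?_, ?_⟩
        · intro a ha
          rw [mem_image] at ha
          obtain ⟨b, hb, rfl⟩ := ha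
          exact lt_of (ho1 b (mem_range.1 hb)) (mem_range.1 hb)
        · intro x
          have e1 : G' (i + 1) j x = F x := by
            simp only [G']
            rw [if_neg hid, if_pos hj]
          rw [e1, hF]
          simp only [decide_eq_true_eq]
          constructor
          · rintro ⟨a, ha, hax⟩
            refine ⟨a * S + o a, mem_image_of_mem _ (mem_range.2 ha), ?_⟩
            rw [g1 _ _ _ _ ha (ho1 a ha) le_rfl, ← ho2 a ha x]
            exact hax
          · rintro ⟨a, ha, hax⟩
            rw [mem_image] at ha
            obtain ⟨b, hb, rfl⟩ := ha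
            have hb' := mem_range.1 hb
            rw [g1 _ _ _ _ hb' (ho1 b hb') le_rfl, ← ho2 b hb' x] at hax
            exact ⟨b, hb', hax⟩
      · refine ⟨∅, fun _ => true, true, by simp, ?_⟩
        intro x
        have e1 : G' (i + 1) j x = false := by
          simp only [G']
          rw [if_neg hid, if_neg hj]
        rw [e1]
        simp
  · intro x
    have e1 : G' (d + 1) 0 x = F x := by
      simp only [G']
      rw [if_neg (by omega), if_pos trivial]
    rw [e1]

theorem tCkO : sCkA → sCkO := fun _ => tCkO'

end Pool.Agent.CD
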