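import Pool.Agent.Lib.CD.Tree

/-!
Section 3 of note 5285 (theorem CD): the measure of random restrictions and its composition.
-/

namespace Pool.Agent.CD

open Finset

/-- star with weight `a`, each bit with weight `(1 - a) / 2`. -/
noncomputable def wt (a : ℝ) : Option Bool → ℝ
  | none => a
  | some _ => (1 - a) / 2

variable {V : Type*} [DecidableEq V] [Fintype V]

/-- weight of a restriction, star probability `a`. -/
noncomputable def W (a : ℝ) (r : Restr V) : ℝ := ∏ v, wt a (r v)

open Classical in
/-- measure of an event, star probability `a`. -/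
noncomputable def Pm (a : ℝ) (A : Restr V → Prop) : ℝ := ∑ r : Restr V, if A r then W a r else 0

theorem wt_nonneg {a : ℝ} (h0 : 0 ≤ a) (h1 : a ≤ 1) (o : Option Bool) : 0 ≤ wt a o := by
  cases o with
  | none => exact h0
  | some b => exact div_nonneg (by linarith) (by norm_num)

omit [DecidableEq V] in
theorem W_nonneg {a : ℝ} (h0 : 0 ≤ a) (h1 : a ≤ 1) (r : Restr V) : 0 ≤ W a r :=
  prod_nonneg fun _ _ => wt_nonneg h0 h1 _

theorem sum_wt (a : ℝ) : ∑ o : Option Bool, wt a o = 1 := by
  rw [Fintype.sum_option]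
  simp [wt]
  ring

theorem sum_W (a : ℝ) : ∑ r : Restr V, W a r = 1 := by
  have h := Finset.prod_univ_sum (fun _ : V => (univ : Finset (Option Bool)))
    (fun _ o => wt a o)
  rw [Fintype.piFinset_univ] at h
  unfold W
  rw [← h]
  simp only [sum_wt, prod_const_one]

open Classical in
theorem Pm_nonneg {a : ℝ} (h0 : 0 ≤ a) (h1 : a ≤ 1) (A : Restr V → Prop) : 0 ≤ Pm a A := by
  unfold Pm
  refine sum_nonneg fun r _ => ?_
  split_ifs
  · exact W_nonneg h0 h1 r
  · exact le_rfl

open Classical in
theorem Pm_mono {a : ℝ} (h0 : 0 ≤ a) (h1 : a ≤ 1) {A B : Restr V → Prop}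
    (h : ∀ r, A r → B r) : Pm a A ≤ Pm a B := by
  unfold Pm
  refine sum_le_sum fun r _ => ?_
  by_cases hA : A r
  · simp only [hA, h r hA, if_true]
    exact le_rfl
  · simp only [hA, if_false]
    split_ifs
    · exact W_nonneg h0 h1 r
    · exact le_rfl

open Classical in
theorem Pm_or_le {a : ℝ} (h0 : 0 ≤ a) (h1 : a ≤ 1) (A B : Restr V → Prop) :
    Pm a (fun r => A r ∨ B r) ≤ Pm a A + Pm a B := by
  unfold Pm
  rw [← sum_add_distrib]
  refine sum_le_sum fun r _ => ?_
  have := W_nonneg h0 h1 r
  by_cases hA : A r <;> by_cases hB : B r <;> simp [hA, hB, this]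

/-- union bound over a finite set. -/
theorem Pm_exists_le {ι : Type*} {a : ℝ} (h0 : 0 ≤ a) (h1 : a ≤ 1) (S : Finset ι)
    (A : ι → Restr V → Prop) :
    Pm a (fun r => ∃ i ∈ S, A i r) ≤ ∑ i ∈ S, Pm a (A i) := by
  classical
  induction S using Finset.induction_on with
  | empty =>
    simp [Pm]
  | insert i S hi ih =>
    rw [sum_insert hi]
    have h1' : Pm a (fun r => ∃ j ∈ insert i S, A j r) ≤
        Pm a (fun r => A i r ∨ ∃ j ∈ S, A j r) := by
      refine Pm_mono h0 h1 fun r => ?_
      rintro ⟨j, hj, hr⟩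
      rcases mem_insert.mp hj with rfl | hj
      · exact Or.inl hr
      · exact Or.inr ⟨j, hj, hr⟩
    exact (h1'.trans (Pm_or_le h0 h1 _ _)).trans (by linarith)

/-- union bound over a list. -/
theorem Pm_list_le {ι : Type*} {a : ℝ} (h0 : 0 ≤ a) (h1 : a ≤ 1) (L : List ι)
    (A : ι → Restr V → Prop) (c : ℝ) (hc : ∀ i ∈ L, Pm a (A i) ≤ c) :
    Pm a (fun r => ∃ i ∈ L, A i r) ≤ L.length * c := by
  induction L with
  | nil =>
    simp [Pm]
  | cons i L ih =>
    have h1' : Pm a (fun r => ∃ j ∈ i :: L, A j r) ≤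
        Pm a (fun r => A i r ∨ ∃ j ∈ L, A j r) := by
      refine Pm_mono h0 h1 fun r => ?_
      rintro ⟨j, hj, hr⟩
      rcases List.mem_cons.mp hj with rfl | hj
      · exact Or.inl hr
      · exact Or.inr ⟨j, hj, hr⟩
    have h2 := (h1'.trans (Pm_or_le h0 h1 _ _))
    have h3 := hc i (List.mem_cons.mpr (Or.inl rfl))
    have h4 := ih fun j hj => hc j (List.mem_cons.mpr (Or.inr hj))
    rw [List.length_cons]
    push_cast
    linarith

theorem Pm_true (a : ℝ) : Pm a (fun _ : Restr V => True) = 1 := by
  simp [Pm, sum_W]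

open Classical in
theorem Pm_compl (a : ℝ) (A : Restr V → Prop) : Pm a A + Pm a (fun r => ¬ A r) = 1 := by
  unfold Pm
  rw [← sum_add_distrib, ← sum_W (V := V) a]
  refine sum_congr rfl fun r _ => ?_
  by_cases hA : A r <;> simp [hA]

/-- an event of measure less than one is not everything. -/
theorem exists_not_of_Pm_lt {a : ℝ} {A : Restr V → Prop} (h : Pm a A < 1) : ∃ r, ¬ A r := by
  by_contra hA
  push Not at hA
  have : Pm a A = 1 := by
    rw [← Pm_true (V := V) a]
    congr 1
    funext r
    simp [hA r]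
  linarith

theorem wt_comp (a b : ℝ) (c : Option Bool) :
    (∑ p : Option Bool × Option Bool,
      if (p.1.orElse fun _ => p.2) = c then wt a p.1 * wt b p.2 else 0) = wt (a * b) c := by
  rw [Fintype.sum_prod_type]
  simp only [Fintype.sum_option, Fintype.sum_bool]
  rcases c with _ | c
  · simp [wt]
  · cases c <;> simp [wt] <;> ring

/-- composition of two random restrictions. -/
theorem comp_W (a b : ℝ) (Φ : Restr V → ℝ) :
    ∑ r : Restr V, ∑ s : Restr V, W a r * W b s * Φ (comp r s) =
      ∑ m : Restr V, W (a * b) m * Φ m := by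
  classical
  have h1 : ∀ m : Restr V, W (a * b) m =
      ∑ r : Restr V, ∑ s : Restr V, if comp r s = m then W a r * W b s else 0 := by
    intro m
    have hp := Finset.prod_univ_sum (fun _ : V => (univ : Finset (Option Bool × Option Bool)))
      (fun v p => if (p.1.orElse fun _ => p.2) = m v then wt a p.1 * wt b p.2 else 0)
    rw [Fintype.piFinset_univ] at hp
    simp only [wt_comp] at hp
    unfold W
    rw [hp]
    rw [← Fintype.sum_prod_type' (f := fun r s : Restr V =>
      if comp r s = m then (∏ v, wt a (r v)) * ∏ v, wt b (s v) else 0)]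
    refine Fintype.sum_equiv (Equiv.arrowProdEquivProdArrow V (fun _ => Option Bool)
      (fun _ => Option Bool)) _ _ fun p => ?_
    rw [← prod_mul_distrib]
    by_cases hc : comp (fun v => (p v).1) (fun v => (p v).2) = m
    · have : ∀ v, ((p v).1.orElse fun _ => (p v).2) = m v := fun v => congrFun hc v
      simp only [this, if_true]
      rw [if_pos]
      · rfl
      · exact hc
    · have : ∃ v, ¬ ((p v).1.orElse fun _ => (p v).2) = m v := by
        by_contra hcon
        push Not at hcon
        exact hc (funext hcon)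
      obtain ⟨v, hv⟩ := this
      rw [prod_eq_zero (mem_univ v) (by rw [if_neg hv])]
      rw [if_neg]
      exact hc
  have h2 : ∀ r s : Restr V, W a r * W b s * Φ (comp r s) =
      ∑ m : Restr V, (if comp r s = m then W a r * W b s else 0) * Φ m := by
    intro r s
    rw [sum_eq_single (comp r s)]
    · rw [if_pos rfl]
    · intro m _ hm
      rw [if_neg (Ne.symm hm), zero_mul]
    · intro hm
      exact absurd (mem_univ _) hm
  simp only [h2]
  simp only [h1, sum_mul]
  rw [sum_comm]
  have h3 : ∀ s : Restr V, ∑ r : Restr V, ∑ m : Restr V,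
      (if comp r s = m then W a r * W b s else 0) * Φ m =
      ∑ m : Restr V, ∑ r : Restr V, (if comp r s = m then W a r * W b s else 0) * Φ m :=
    fun s => sum_comm
  simp only [h3]
  rw [sum_comm]
  refine sum_congr rfl fun m _ => ?_
  rw [sum_comm]

open Classical in
/-- measure of an event of the composition. -/
theorem Pm_comp (a b : ℝ) (A : Restr V → Prop) :
    Pm (a * b) A = ∑ r : Restr V, W a r * Pm b (fun s => A (comp r s)) := by
  have h := comp_W (V := V) a b (fun m => if A m then 1 else 0)
  unfold Pm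
  have h1 : ∀ m : Restr V, (if A m then W (a * b) m else 0) =
      W (a * b) m * (if A m then 1 else 0) := by
    intro m
    split_ifs <;> simp
  simp only [h1]
  rw [← h]
  refine sum_congr rfl fun r _ => ?_
  rw [mul_sum]
  refine sum_congr rfl fun s _ => ?_
  split_ifs <;> simp

end Pool.Agent.CD
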