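import Pool.Agent.Lib.CD.Stm
import Pool.Agent.Lib.CD.Wt
import Pool.Agent.Lib.MP_ff3ed7_lc.B.Defs

/-!
Definitions of theorem CD (note 5285): circuits, protocols with circuits, weights of restrictions,
traces.
-/

namespace Pool.Agent.CD

open Finset Pool.Agent.Lib.MP_ff3ed7_lc Pool.Agent.Lib.MP_ff3ed7_lc.B

/-- parity -/
def par {k : ℕ} (b : Fin k → Bool) : Bool := decide (Odd (∑ j, (b j).toNat))

/-- the parities of the `n` blocks of `k` bits -/
def xk {n k : ℕ} (x : Fin n × Fin k → Bool) (i : Fin n) : Bool := par fun j => x (i, j)

variable {V : Type} [Fintype V] [DecidableEq V]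

/-! ### Traces -/

/-- the term `T` is falsified by `m` -/
def fal (m T : Restr V) : Prop := ∃ v b, T v = some b ∧ m v = some (!b)

noncomputable instance (m T : Restr V) : Decidable (fal m T) := Classical.dec _

/-- the first term of the list which is not falsified by `m` -/
noncomputable def fst (TL : List (Restr V)) (m : Restr V) : Option (Restr V) :=
  TL.find? fun T => decide (¬ fal m T)

/-- the variables of `T` -/
def sup (T : Restr V) : Finset V := univ.filter fun v => (T v).isSome

/-- the variables of `T` which are stars of `m` -/
def fre (T m : Restr V) : Finset V := univ.filter fun v => (T v).isSome ∧ (m v).isNone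

/-- a number for every variable of `T`, different numbers smaller than `sz T` for the variables
of `T` -/
noncomputable def pos (T : Restr V) (v : V) : ℕ :=
  if h : v ∈ sup T then ((sup T).equivFin ⟨v, h⟩ : ℕ) else 0

/-- codes of blocks: for each position `none` (not in the block) or `some (value of π, value of τ)` -/
abbrev Cd (w : ℕ) := Fin w → Option (Bool × Bool)

/-- an element of a code list: `some j` opens a stage of the formula `j` -/
abbrev El (S w : ℕ) := Option (Fin S) × Cd w

/-- number of variables of the block -/
def cnt {S w : ℕ} (e : El S w) : ℕ := (univ.filter fun i => (e.2 i).isSome).card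

/-- total number of variables -/
def tot {S w : ℕ} (l : List (El S w)) : ℕ := (l.map cnt).sum

/-- number of openings -/
def ops {S w : ℕ} (l : List (El S w)) : ℕ := (l.filter fun e => e.1.isSome).length

/-- the code at position `i` -/
def rd {w : ℕ} (c : Cd w) (i : ℕ) : Option (Bool × Bool) := if h : i < w then c ⟨i, h⟩ else none

/-- state of the process: formula, restriction along `π`, restriction along `τ`, restriction with
satisfied terms -/
structure St (V : Type) where
  /-- formula -/
  j : ℕ
  /-- values of `π` in the present stage -/
  mp : Restr V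
  /-- values of `τ` -/
  mt : Restr V
  /-- values of the terms -/
  mg : Restr V

/-- initial state -/
def ini (ρ : Restr V) : St V := ⟨0, ρ, ρ, ρ⟩

/-- the opening of a stage -/
def opn {S : ℕ} (s : St V) : Option (Fin S) → St V
  | none => s
  | some j => ⟨j, s.mt, s.mt, s.mg⟩

/-- on the set `K` the restriction `m` gets the values of `a` -/
def put (K : Finset V) (a m : Restr V) : Restr V := fun v => if v ∈ K then a v else m v

/-- One step of the process with the code `e`: (open a stage,) take the first term `T` which is not
falsified by the restriction along `π`; its free variables `K` (at least one) are the block; the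
code lists exactly them with their new values. -/
def Stp {S w : ℕ} (TL : ℕ → List (Restr V)) (s : St V) (e : El S w) (s' : St V) : Prop :=
  ∃ T, fst (TL (opn s e.1).j) (opn s e.1).mp = some T ∧
    (∀ v ∈ sup T, (rd e.2 (pos T v)).isSome ↔ v ∈ fre T (opn s e.1).mp) ∧
    cnt e = (fre T (opn s e.1).mp).card ∧ 1 ≤ cnt e ∧
    s' = ⟨(opn s e.1).j,
      put (fre T (opn s e.1).mp) (fun v => (rd e.2 (pos T v)).map Prod.fst) (opn s e.1).mp,
      put (fre T (opn s e.1).mp) (fun v => (rd e.2 (pos T v)).map Prod.snd) (opn s e.1).mt,
      put (fre T (opn s e.1).mp) T (opn s e.1).mg⟩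

/-- A run of the process with a code list. -/
inductive Run {S w : ℕ} (TL : ℕ → List (Restr V)) : St V → List (El S w) → St V → Prop
  | nil (s : St V) : Run TL s [] s
  | cons {s s' s'' : St V} {e : El S w} {l : List (El S w)} :
      Stp TL s e s' → Run TL s' l s'' → Run TL s (e :: l) s''

/-- the three restrictions of the state have the same stars -/
def Inv (s : St V) : Prop :=
  ∀ v, (s.mp v = none ↔ s.mg v = none) ∧ (s.mt v = none ↔ s.mg v = none)

/-- the family of formulas: `S` functions, each (or its negation) a disjunction of terms with at
most `w` variables. -/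
def Fam (S w : ℕ) (TL : ℕ → List (Restr V)) (t : ℕ → Bool) (g : ℕ → (V → Bool) → Bool) : Prop :=
  ∀ j < S, (∀ T ∈ TL j, sz T ≤ w) ∧ ∀ x, g j x = t j ↔ ∃ T ∈ TL j, Cons T x

/-- the input `x` overwritten by `lam` -/
def ovw (lam : Restr V) (x : V → Bool) : V → Bool := fun v => (lam v).getD (x v)

end Pool.Agent.CD
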