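import Pool.Agent.Lib.CD.SpecE

set_option autoImplicit false

namespace Pool.Agent.CD

open Finset Pool.Agent.Lib.MP_ff3ed7_lc Pool.Agent.Lib.MP_ff3ed7_lc.B

namespace HaC_aux

/-- `f` depends on at most `k` bits -/
def Dep {κ : Type} (k : ℕ) (f : (κ → Bool) → Bool) : Prop :=
  ∃ A : Finset κ, A.card ≤ k ∧ ∀ x y : κ → Bool, (∀ a ∈ A, x a = y a) → f x = f y

lemma dep_const {κ : Type} (b : Bool) : Dep (κ := κ) 0 (fun _ => b) :=
  ⟨∅, by simp, fun _ _ _ => rfl⟩

lemma dep_var {κ : Type} (p : κ) : Dep 1 (fun z : κ → Bool => z p) :=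
  ⟨{p}, by simp, fun _ _ h => h p (by simp)⟩

lemma dep_mono {κ : Type} {k k' : ℕ} (h : k ≤ k') {f : (κ → Bool) → Bool} (hf : Dep k f) :
    Dep k' f := by
  obtain ⟨A, hA, h2⟩ := hf
  exact ⟨A, hA.trans h, h2⟩

lemma dep_op {κ : Type} {k k' : ℕ} {f g : (κ → Bool) → Bool} (op : Bool → Bool → Bool)
    (hf : Dep k f) (hg : Dep k' g) : Dep (k + k') (fun z => op (f z) (g z)) := by
  classical
  obtain ⟨A, hA, h2⟩ := hf
  obtain ⟨A', hA', h2'⟩ := hg
  refine ⟨A ∪ A', (Finset.card_union_le _ _).trans (Nat.add_le_add hA hA'), ?_⟩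
  intro x y h
  show op (f x) (g x) = op (f y) (g y)
  rw [h2 x y (fun a ha => h a (Finset.mem_union_left _ ha)),
    h2' x y (fun a ha => h a (Finset.mem_union_right _ ha))]

/-- more gates per level -/
lemma ckt_mono {κ : Type} {d S S' : ℕ} {f : (κ → Bool) → Bool} (hS : S ≤ S') (h : IsCkt d S f) :
    IsCkt d S' f := by
  obtain ⟨G, h0, h1, j, hj, hf⟩ := h
  refine ⟨fun i j => if j < S then G i j else fun _ => false, ?_, ?_, j, hj.trans_le hS, ?_⟩
  · intro j _
    by_cases hjS : j < S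
    · obtain ⟨A, hA, h2⟩ := h0 j hjS
      refine ⟨A, hA, fun x y hxy => ?_⟩
      simp only [hjS, if_true]
      exact h2 x y hxy
    · refine ⟨∅, by simp, fun x y _ => ?_⟩
      simp only [hjS, if_false]
  · intro i hi j _
    by_cases hjS : j < S
    · obtain ⟨A, s, t, hA, h2⟩ := h1 i hi j hjS
      refine ⟨A, s, t, fun a ha => (hA a ha).trans_le hS, fun x => ?_⟩
      simp only [hjS, if_true]
      rw [h2 x]
      constructor
      · rintro ⟨a, ha, hs⟩
        refine ⟨a, ha, ?_⟩
        simp only [hA a ha, if_true]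
        exact hs
      · rintro ⟨a, ha, hs⟩
        refine ⟨a, ha, ?_⟩
        simp only [hA a ha, if_true] at hs
        exact hs
    · refine ⟨∅, fun _ => true, true, by simp, fun x => ?_⟩
      simp only [hjS, if_false]
      simp
  · intro x
    simp only [hj, if_true]
    exact hf x

variable {R j : ℕ}

/-- the partial sum before `l` -/
def prev (i : Fin j) (l : ℕ) (z : Fin R ⊕ Fin (j * R) ⊕ Fin (j * R + j) → Bool) : Bool :=
  if h : 0 < l ∧ l - 1 < R then z (Sum.inr (Sum.inl (finProdFinEquiv (i, ⟨l - 1, h.2⟩))))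
  else false

/-- the condition with number `(i, l)` -/
def cond (i : Fin j) (l : ℕ) (z : Fin R ⊕ Fin (j * R) ⊕ Fin (j * R + j) → Bool) : Bool :=
  if h : l < R then
    decide (z (Sum.inr (Sum.inl (finProdFinEquiv (i, ⟨l, h⟩)))) =
      xor (prev i l z)
        (z (Sum.inr (Sum.inr (Fin.castAdd j (finProdFinEquiv (i, ⟨l, h⟩))))) && z (Sum.inl ⟨l, h⟩)))
  else decide (prev i l z = z (Sum.inr (Sum.inr (Fin.natAdd (j * R) i))))

lemma dep_prev (i : Fin j) (l : ℕ) : Dep 1 (prev (R := R) i l) := by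
  unfold prev
  by_cases h : 0 < l ∧ l - 1 < R
  · simp only [h, and_self, dite_true]
    exact dep_var _
  · simp only [h, dite_false]
    exact dep_mono (by omega) (dep_const false)

lemma dep_cond (i : Fin j) (l : ℕ) : Dep 4 (cond (R := R) i l) := by
  unfold cond
  by_cases h : l < R
  · simp only [h, dite_true]
    exact dep_op (fun a b => decide (a = b)) (dep_var _)
      (dep_op (fun a b => xor a b) (dep_prev i l)
        (dep_op (fun a b => a && b) (dep_var _) (dep_var _)))
  · simp only [h, dite_false]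
    exact dep_mono (by omega) (dep_op (fun a b => decide (a = b)) (dep_prev i l) (dep_var _))

/-- all conditions, numbered -/
def nm (R j : ℕ) (m : ℕ) (z : Fin R ⊕ Fin (j * R) ⊕ Fin (j * R + j) → Bool) : Bool :=
  if h : m < j * (R + 1) then
    cond (finProdFinEquiv.symm (⟨m, h⟩ : Fin (j * (R + 1)))).1
      (finProdFinEquiv.symm (⟨m, h⟩ : Fin (j * (R + 1)))).2.1 z
  else true

lemma nm_iff (z : Fin R ⊕ Fin (j * R) ⊕ Fin (j * R + j) → Bool) :
    (∀ m < j * (R + 1), nm R j m z = true) ↔ ∀ (i : Fin j) (l : ℕ), l ≤ R → cond i l z = true := by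
  constructor
  · intro h i l hl
    have h1 := h (finProdFinEquiv (i, (⟨l, by omega⟩ : Fin (R + 1)))).1
      (finProdFinEquiv (i, (⟨l, by omega⟩ : Fin (R + 1)))).2
    unfold nm at h1
    rw [dif_pos (finProdFinEquiv (i, (⟨l, by omega⟩ : Fin (R + 1)))).2] at h1
    simp only [Fin.eta, Equiv.symm_apply_apply] at h1
    exact h1
  · intro h m hm
    unfold nm
    rw [dif_pos hm]
    exact h _ _ (by
      have := (finProdFinEquiv.symm (⟨m, hm⟩ : Fin (j * (R + 1)))).2.2
      omega)

/-- partial parities -/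
def PP (g : ℕ → Bool) : ℕ → Bool
  | 0 => false
  | l + 1 => xor (PP g l) (g l)

lemma PP_odd (g : ℕ → Bool) (n : ℕ) : PP g n = decide (Odd (∑ l ∈ range n, (g l).toNat)) := by
  induction n with
  | zero => simp [PP]
  | succ n ih =>
    rw [PP, ih, Finset.sum_range_succ]
    cases h : g n with
    | false => simp
    | true =>
      simp only [Bool.toNat_true, Nat.odd_add_one, Bool.xor_true]
      by_cases h2 : Odd (∑ l ∈ range n, (g l).toNat)
      · simp [h2]
      · simp [h2]

lemma PP_par (g' : Fin R → Bool) (g : ℕ → Bool) (h : ∀ l : Fin R, g l = g' l) :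
    PP g R = par g' := by
  rw [PP_odd, par]
  have : ∑ l ∈ range R, (g l).toNat = ∑ l : Fin R, (g' l).toNat := by
    rw [Finset.sum_range]
    exact Finset.sum_congr rfl (fun l _ => by rw [h l])
  rw [this]

/-- the products -/
def gg (ρ : Fin R → Bool) (c : Fin (j * R + j) → Bool) (i : Fin j) (l : ℕ) : Bool :=
  if h : l < R then c (Fin.castAdd j (finProdFinEquiv (i, ⟨l, h⟩))) && ρ ⟨l, h⟩ else false

lemma hsh_iff (ρ : Fin R → Bool) (c : Fin (j * R + j) → Bool) (i : Fin j) :
    hsh c ρ i = false ↔ PP (gg ρ c i) R = c (Fin.natAdd (j * R) i) := by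
  rw [PP_par (fun l : Fin R => c (Fin.castAdd j (finProdFinEquiv (i, l))) && ρ l) (gg ρ c i)
    (fun l => by unfold gg; rw [dif_pos l.2])]
  unfold hsh
  generalize (par fun l : Fin R => c (Fin.castAdd j (finProdFinEquiv (i, l))) && ρ l) = a
  generalize c (Fin.natAdd (j * R) i) = b
  cases a <;> cases b <;> simp

lemma prev_zero (i : Fin j) (z : Fin R ⊕ Fin (j * R) ⊕ Fin (j * R + j) → Bool) :
    prev i 0 z = false := by
  unfold prev
  rw [dif_neg (by omega)]

lemma prev_succ (i : Fin j) (l : ℕ) (hl : l < R)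
    (z : Fin R ⊕ Fin (j * R) ⊕ Fin (j * R + j) → Bool) :
    prev i (l + 1) z = z (Sum.inr (Sum.inl (finProdFinEquiv (i, ⟨l, hl⟩)))) := by
  unfold prev
  have h : 0 < l + 1 ∧ l + 1 - 1 < R := ⟨by omega, by omega⟩
  rw [dif_pos h]
  rfl

lemma only_if (ρ : Fin R → Bool) (c : Fin (j * R + j) → Bool) (Y : Fin (j * R) → Bool)
    (h : ∀ (i : Fin j) (l : ℕ), l ≤ R → cond i l (Sum.elim ρ (Sum.elim Y c)) = true)
    (i : Fin j) : hsh c ρ i = false := by
  have key : ∀ l ≤ R, prev i l (Sum.elim ρ (Sum.elim Y c)) = PP (gg ρ c i) l := by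
    intro l
    induction l with
    | zero => intro _; rw [prev_zero]; rfl
    | succ l ih =>
      intro hl
      have hl' : l < R := by omega
      have h1 := h i l (by omega)
      unfold cond at h1
      rw [dif_pos hl', decide_eq_true_iff] at h1
      rw [prev_succ i l hl', h1, ih (by omega), PP]
      unfold gg
      rw [dif_pos hl']
      rfl
  have h2 := h i R le_rfl
  unfold cond at h2
  rw [dif_neg (by omega), decide_eq_true_iff, key R le_rfl] at h2
  rw [hsh_iff, h2]
  rfl

lemma if_part (ρ : Fin R → Bool) (c : Fin (j * R + j) → Bool) (h : ∀ i : Fin j, hsh c ρ i = false) :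
    ∃ Y : Fin (j * R) → Bool,
      ∀ (i : Fin j) (l : ℕ), l ≤ R → cond i l (Sum.elim ρ (Sum.elim Y c)) = true := by
  refine ⟨fun m => PP (gg ρ c (finProdFinEquiv.symm m).1) ((finProdFinEquiv.symm m).2.1 + 1), ?_⟩
  intro i l hl
  have key : ∀ l ≤ R, prev i l (Sum.elim ρ (Sum.elim (fun m : Fin (j * R) =>
      PP (gg ρ c (finProdFinEquiv.symm m).1) ((finProdFinEquiv.symm m).2.1 + 1)) c)) =
        PP (gg ρ c i) l := by
    intro l hl
    cases l with
    | zero => rw [prev_zero]; rfl
    | succ l =>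
      rw [prev_succ i l (by omega)]
      simp only [Sum.elim_inr, Sum.elim_inl, Equiv.symm_apply_apply]
  unfold cond
  by_cases hlR : l < R
  · rw [dif_pos hlR, decide_eq_true_iff, key l hl]
    simp only [Sum.elim_inr, Sum.elim_inl, Equiv.symm_apply_apply]
    rw [PP]
    congr 1
    unfold gg
    rw [dif_pos hlR]
  · have hlR' : l = R := by omega
    subst hlR'
    rw [dif_neg hlR, decide_eq_true_iff, key l le_rfl]
    exact (hsh_iff ρ c i).1 (h i)

end HaC_aux

open HaC_aux in
theorem tHaC : sCkN → sHaC := by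
  intro hN R j
  refine ⟨fun z => decide (∀ m < j * (R + 1), nm R j m z = true), ?_, ?_⟩
  · refine ckt_mono ?_ (hN _ (j * (R + 1)) (nm R j) ?_)
    · have e : 1000 * (j + 1) * (R + 1) = 1000 * (j * (R + 1)) + 1000 * (R + 1) := by ring
      rw [e]
      omega
    · intro m hm
      unfold nm
      simp only [hm, dite_true]
      exact dep_cond _ _
  · intro ρ c
    simp only [decide_eq_true_iff]
    constructor
    · rintro ⟨Y, hY⟩ i
      exact only_if ρ c Y ((nm_iff _).1 hY) i
    · intro h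
      obtain ⟨Y, hY⟩ := if_part ρ c h
      exact ⟨Y, (nm_iff _).2 hY⟩

end Pool.Agent.CD
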