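import Pool.Agent.Lib.CD.SpecE

/-!
Project CD, module Hsh (helper24): hashing lemma over the field with two elements.
-/

set_option autoImplicit false

namespace Pool.Agent.CD

open Finset Pool.Agent.Lib.MP_ff3ed7_lc Pool.Agent.Lib.MP_ff3ed7_lc.B

namespace Hsh_aux

/-- the sign of a bit -/
def sg (b : Bool) : ℝ := if b then -1 else 1

theorem sg_sq (b : Bool) : sg b * sg b = 1 := by cases b <;> norm_num [sg]

theorem sg_par {k : ℕ} (b : Fin k → Bool) : sg (par b) = ∏ l, sg (b l) := by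
  have h1 : ∀ x : Bool, sg x = (-1 : ℝ) ^ x.toNat := fun x => by cases x <;> simp [sg]
  have h2 : ∏ l, sg (b l) = (-1 : ℝ) ^ (∑ l, (b l).toNat) := by
    rw [← prod_pow_eq_pow_sum]
    exact prod_congr rfl fun l _ => h1 _
  rw [h2]
  unfold par sg
  by_cases h : Odd (∑ j, (b j).toNat)
  · simp [h, h.neg_one_pow]
  · have h3 := Nat.not_odd_iff_even.1 h
    simp [h, h3.neg_one_pow]

/-- the character of a vector -/
noncomputable def ch {R : ℕ} (ρ m : Fin R → Bool) : ℝ := ∏ l, sg (m l && ρ l)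

theorem ch_sq {R : ℕ} (ρ m : Fin R → Bool) : ch ρ m * ch ρ m = 1 := by
  unfold ch
  rw [← prod_mul_distrib]
  exact prod_eq_one fun l _ => sg_sq _

/-- orthogonality -/
theorem ch_orth {R : ℕ} (ρ ρ' : Fin R → Bool) (h : ρ ≠ ρ') : ∑ m, ch ρ m * ch ρ' m = 0 := by
  have h1 : ∀ m : Fin R → Bool, ch ρ m * ch ρ' m = ∏ l, (sg (m l && ρ l) * sg (m l && ρ' l)) := fun m =>
    prod_mul_distrib.symm
  rw [sum_congr rfl fun m _ => h1 m]
  have h2 := Finset.prod_univ_sum (fun _ : Fin R => (univ : Finset Bool))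
    (fun l b => sg (b && ρ l) * sg (b && ρ' l))
  rw [Fintype.piFinset_univ] at h2
  rw [← h2]
  obtain ⟨l, hl⟩ := Function.ne_iff.1 h
  refine prod_eq_zero (mem_univ l) ?_
  rw [Fintype.sum_bool]
  revert hl
  cases ρ l <;> cases ρ' l <;> simp [sg]

/-- the indicator of one row -/
noncomputable def g {R : ℕ} (ρ : Fin R → Bool) (r : (Fin R → Bool) × Bool) : ℝ :=
  (1 + ch ρ r.1 * sg r.2) / 2

theorem g_eq {R : ℕ} (ρ : Fin R → Bool) (m : Fin R → Bool) (b : Bool) :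
    g ρ (m, b) = if xor (par fun l => m l && ρ l) b = false then 1 else 0 := by
  have h1 : ch ρ m = sg (par fun l => m l && ρ l) := (sg_par _).symm
  unfold g
  change (1 + ch ρ m * sg b) / 2 = _
  rw [h1]
  cases (par fun l => m l && ρ l) <;> cases b <;> norm_num [sg]

theorem g_sum {R : ℕ} (ρ : Fin R → Bool) : ∑ r, g ρ r = 2 ^ R := by
  rw [Fintype.sum_prod_type]
  have h1 : ∀ m : Fin R → Bool, ∑ b : Bool, g ρ (m, b) = 1 := by
    intro m
    rw [Fintype.sum_bool]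
    unfold g
    simp only [sg]
    norm_num
    ring
  rw [sum_congr rfl fun m _ => h1 m]
  simp

theorem g_sum2 {R : ℕ} (ρ ρ' : Fin R → Bool) (h : ρ ≠ ρ') : ∑ r, g ρ r * g ρ' r = 2 ^ R / 2 := by
  rw [Fintype.sum_prod_type]
  have h1 : ∀ m : Fin R → Bool, ∑ b : Bool, g ρ (m, b) * g ρ' (m, b) = 1 / 2 + (ch ρ m * ch ρ' m) / 2 := by
    intro m
    rw [Fintype.sum_bool]
    unfold g
    simp only [sg]
    norm_num
    ring
  have h2 : ∑ m, ch ρ m * ch ρ' m / 2 = 0 := by rw [← sum_div, ch_orth ρ ρ' h, zero_div]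
  rw [sum_congr rfl fun m _ => h1 m, sum_add_distrib, h2]
  simp
  ring

/-- the rows of the coins -/
def rows (j R : ℕ) : (Fin (j * R + j) → Bool) ≃ (Fin j → (Fin R → Bool) × Bool) where
  toFun c i := (fun l => c (Fin.castAdd j (finProdFinEquiv (i, l))), c (Fin.natAdd (j * R) i))
  invFun f x := Sum.elim (fun y : Fin (j * R) => (f (finProdFinEquiv.symm y).1).1 (finProdFinEquiv.symm y).2)
    (fun i => (f i).2) (finSumFinEquiv.symm x)
  left_inv c := by
    funext x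
    obtain ⟨s, rfl⟩ := finSumFinEquiv.surjective x
    dsimp only
    rw [Equiv.symm_apply_apply]
    rcases s with y | i
    · change c (Fin.castAdd j (finProdFinEquiv ((finProdFinEquiv.symm y).1, (finProdFinEquiv.symm y).2))) =
        c (finSumFinEquiv (Sum.inl y))
      rw [Prod.mk.eta, Equiv.apply_symm_apply, finSumFinEquiv_apply_left]
    · rw [finSumFinEquiv_apply_right]
      rfl
  right_inv f := by
    funext i
    refine Prod.ext (funext fun l => ?_) ?_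
    · dsimp only
      rw [finSumFinEquiv_symm_apply_castAdd]
      change (f (finProdFinEquiv.symm (finProdFinEquiv (i, l))).1).1
        (finProdFinEquiv.symm (finProdFinEquiv (i, l))).2 = _
      rw [Equiv.symm_apply_apply]
    · dsimp only
      rw [finSumFinEquiv_symm_apply_natAdd]
      rfl

/-- the indicator of the hash condition -/
noncomputable def In {R j : ℕ} (ρ : Fin R → Bool) (c : Fin (j * R + j) → Bool) : ℝ :=
  if ∀ i : Fin j, hsh c ρ i = false then 1 else 0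

theorem In_eq {R j : ℕ} (ρ : Fin R → Bool) (c : Fin (j * R + j) → Bool) :
    In ρ c = ∏ i, g ρ (rows j R c i) := by
  have h1 : ∀ i, g ρ (rows j R c i) = if hsh c ρ i = false then 1 else 0 := fun i => g_eq ρ _ _
  rw [prod_congr rfl fun i _ => h1 i]
  unfold In
  by_cases h : ∀ i : Fin j, hsh c ρ i = false
  · rw [if_pos h]
    exact (prod_eq_one fun i _ => if_pos (h i)).symm
  · rw [if_neg h]
    push Not at h
    obtain ⟨i, hi⟩ := h
    refine (prod_eq_zero (mem_univ i) (if_neg ?_)).symm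
    simpa using hi

theorem In_sum {R j : ℕ} (ρ : Fin R → Bool) : ∑ c : Fin (j * R + j) → Bool, In ρ c = (2 ^ R) ^ j := by
  rw [sum_congr rfl fun c _ => In_eq ρ c, Equiv.sum_comp (rows j R) (fun f => ∏ i, g ρ (f i)),
    ← Fintype.sum_pow, g_sum]

theorem In_sum2 {R j : ℕ} (ρ ρ' : Fin R → Bool) (h : ρ ≠ ρ') :
    ∑ c : Fin (j * R + j) → Bool, In ρ c * In ρ' c = (2 ^ R / 2) ^ j := by
  have h1 : ∀ c : Fin (j * R + j) → Bool, In ρ c * In ρ' c =
      ∏ i, (g ρ (rows j R c i) * g ρ' (rows j R c i)) := by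
    intro c
    rw [In_eq, In_eq, prod_mul_distrib]
  rw [sum_congr rfl fun c _ => h1 c, Equiv.sum_comp (rows j R) (fun f => ∏ i, (g ρ (f i) * g ρ' (f i))),
    ← Fintype.sum_pow (fun r => g ρ r * g ρ' r) j, g_sum2 ρ ρ' h]

theorem In_sq {R j : ℕ} (ρ : Fin R → Bool) (c : Fin (j * R + j) → Bool) : In ρ c * In ρ c = In ρ c := by
  unfold In
  split_ifs <;> norm_num

/-- probabilities as sums -/
theorem prob_sum (r : ℕ) (E : (Fin r → Bool) → Prop) [DecidablePred E] :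
    prob r E * 2 ^ r = ((univ.filter E).card : ℝ) := by
  unfold prob
  rw [div_mul_cancel₀ _ (by positivity), Nat.card_eq_fintype_card, Fintype.card_subtype]

end Hsh_aux

open Hsh_aux

theorem tHsh : sHsh := by
  classical
  intro R j A
  obtain ⟨S, hS⟩ : ∃ S, S = (univ : Finset (Fin R → Bool)).filter A := ⟨_, rfl⟩
  obtain ⟨T, hT⟩ : ∃ T, T = (univ : Finset (Fin (j * R + j) → Bool)).filter
    (fun c => ∃ ρ, A ρ ∧ ∀ i : Fin j, hsh c ρ i = false) := ⟨_, rfl⟩
  obtain ⟨n, hn⟩ : ∃ n : ℝ, n = S.card := ⟨_, rfl⟩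
  obtain ⟨t, ht⟩ : ∃ t : ℝ, t = T.card := ⟨_, rfl⟩
  have hn0 : 0 ≤ n := by rw [hn]; exact Nat.cast_nonneg _
  have ht0 : 0 ≤ t := by rw [ht]; exact Nat.cast_nonneg _
  have hA : 2 ^ R * prob R A = n := by
    rw [hn, hS, ← prob_sum, mul_comm]
  have hP : prob (j * R + j) (fun c => ∃ ρ, A ρ ∧ ∀ i : Fin j, hsh c ρ i = false) * 2 ^ (j * R + j) = t := by
    rw [ht, hT, ← prob_sum]
  have hP' : prob (j * R + j) (fun c => ∃ ρ, A ρ ∧ ∀ i : Fin j, hsh c ρ i = false) =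
      t / ((2 ^ R) ^ j * 2 ^ j) := by
    have h2 : (2 : ℝ) ^ (j * R + j) = (2 ^ R) ^ j * 2 ^ j := by
      rw [pow_add, mul_comm j R, pow_mul]
    rw [← h2, ← hP, mul_div_cancel_right₀ _ (by positivity)]
  -- the number of the good points
  obtain ⟨X, hX⟩ : ∃ X : (Fin (j * R + j) → Bool) → ℝ, X = fun c => ∑ ρ ∈ S, In ρ c := ⟨_, rfl⟩
  have hIn0 : ∀ (ρ : Fin R → Bool) (c : Fin (j * R + j) → Bool), 0 ≤ In ρ c := by
    intro ρ c
    unfold In
    split_ifs <;> norm_num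
  have hX0 : ∀ c, 0 ≤ X c := fun c => by rw [hX]; exact sum_nonneg fun ρ _ => hIn0 ρ c
  have hXT : ∀ c ∈ T, 1 ≤ X c := by
    intro c hc
    rw [hT] at hc
    obtain ⟨ρ, h1, h2⟩ := (mem_filter.1 hc).2
    rw [hX]
    have h3 : In ρ c = 1 := if_pos h2
    rw [← h3]
    exact single_le_sum (f := fun ρ => In ρ c) (fun ρ _ => hIn0 ρ c)
      (by rw [hS]; exact mem_filter.2 ⟨mem_univ _, h1⟩)
  have hXn : ∀ c, c ∉ T → X c = 0 := by
    intro c hc
    rw [hX]
    refine sum_eq_zero fun ρ hρ => ?_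
    rw [hS] at hρ
    refine if_neg fun h => hc ?_
    rw [hT]
    exact mem_filter.2 ⟨mem_univ _, ρ, (mem_filter.1 hρ).2, h⟩
  have e1 : ∑ c, X c = n * (2 ^ R) ^ j := by
    rw [hX]
    dsimp only
    rw [sum_comm, sum_congr rfl fun ρ _ => In_sum ρ, sum_const, nsmul_eq_mul, hn]
  have e2 : ∑ c, X c ^ 2 = n * (2 ^ R) ^ j + n * (n - 1) * ((2 ^ R) ^ j / 2 ^ j) := by
    have h1 : ∀ c, X c ^ 2 = ∑ ρ ∈ S, ∑ ρ' ∈ S, In ρ c * In ρ' c := by
      intro c
      rw [hX, sq, sum_mul_sum]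
    rw [sum_congr rfl fun c _ => h1 c, sum_comm]
    have h2 : ∀ ρ ∈ S, ∑ c : Fin (j * R + j) → Bool, ∑ ρ' ∈ S, In ρ c * In ρ' c =
        (2 ^ R) ^ j + (n - 1) * ((2 ^ R) ^ j / 2 ^ j) := by
      intro ρ hρ
      rw [sum_comm, ← add_sum_erase S _ hρ]
      have h3 : ∑ c : Fin (j * R + j) → Bool, In ρ c * In ρ c = (2 ^ R) ^ j := by
        rw [sum_congr rfl fun c _ => In_sq ρ c, In_sum]
      have h4 : ∀ ρ' ∈ S.erase ρ, ∑ c : Fin (j * R + j) → Bool, In ρ c * In ρ' c = (2 ^ R) ^ j / 2 ^ j := by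
        intro ρ' hρ'
        rw [In_sum2 ρ ρ' (ne_of_mem_erase hρ').symm, div_pow]
      rw [h3, sum_congr rfl h4, sum_const, nsmul_eq_mul, card_erase_of_mem hρ,
        Nat.cast_sub (card_pos.2 ⟨ρ, hρ⟩), Nat.cast_one, hn]
    rw [sum_congr rfl h2, sum_const, nsmul_eq_mul, ← hn]
    ring
  have e3 : ∑ c ∈ T, X c = ∑ c, X c := sum_subset (subset_univ _) fun c _ hc => hXn c hc
  have e4 : ∑ c ∈ T, X c ^ 2 = ∑ c, X c ^ 2 :=
    sum_subset (subset_univ _) fun c _ hc => by rw [hXn c hc]; norm_num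
  rw [hA, hP']
  have p1 : (0 : ℝ) < (2 ^ R) ^ j := by positivity
  have p2 : (0 : ℝ) < 2 ^ j := by positivity
  constructor
  · have h1 : t ≤ n * (2 ^ R) ^ j := by
      rw [← e1, ← e3, ht]
      calc (T.card : ℝ) = ∑ c ∈ T, (1 : ℝ) := by rw [sum_const, nsmul_eq_mul, mul_one]
        _ ≤ ∑ c ∈ T, X c := sum_le_sum hXT
    rw [div_le_div_iff₀ (by positivity) p2]
    calc t * 2 ^ j ≤ n * (2 ^ R) ^ j * 2 ^ j := mul_le_mul_of_nonneg_right h1 p2.le
      _ = n * ((2 ^ R) ^ j * 2 ^ j) := by ring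
  · intro hpos
    have hnp : 0 < n := by
      rw [← hA]
      positivity
    have h1 : (n * (2 ^ R) ^ j) ^ 2 ≤ t * (n * (2 ^ R) ^ j + n * (n - 1) * ((2 ^ R) ^ j / 2 ^ j)) := by
      have h2 := sum_mul_sq_le_sq_mul_sq T (fun _ => (1 : ℝ)) X
      simp only [one_mul, one_pow, sum_const, nsmul_eq_mul, mul_one] at h2
      rw [e3, e4, e1, e2, ← ht] at h2
      exact h2
    obtain ⟨a, ha⟩ : ∃ a : ℝ, a = (2 ^ R) ^ j := ⟨_, rfl⟩
    obtain ⟨b, hb⟩ : ∃ b : ℝ, b = 2 ^ j := ⟨_, rfl⟩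
    rw [← ha, ← hb] at h1
    rw [← ha, ← hb]
    rw [← ha] at p1
    rw [← hb] at p2
    -- n a b <= t (b + n - 1)
    have h3 : n * a * b ≤ t * (b + (n - 1)) := by
      have h4 : (n * a) * (n * a * b) ≤ (n * a) * (t * (b + (n - 1))) := by
        calc (n * a) * (n * a * b) = (n * a) ^ 2 * b := by ring
          _ ≤ t * (n * a + n * (n - 1) * (a / b)) * b := mul_le_mul_of_nonneg_right h1 p2.le
          _ = (n * a) * (t * (b + (n - 1))) := by
            field_simp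
      exact le_of_mul_le_mul_left h4 (by positivity)
    have h5 : n * a * b ≤ t * (b + n) := h3.trans (mul_le_mul_of_nonneg_left (by linarith) ht0)
    have h6 : n / (b + n) ≤ t / (a * b) := by
      rw [div_le_div_iff₀ (by positivity) (by positivity)]
      calc n * (a * b) = n * a * b := by ring
        _ ≤ t * (b + n) := h5
    refine le_trans ?_ h6
    have h7 : n / (b + n) = 1 - b / (b + n) := by
      field_simp
      ring
    have h8 : b / (b + n) ≤ b / n := div_le_div_of_nonneg_left p2.le hnp (by linarith)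
    rw [h7]
    linarith

end Pool.Agent.CD
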