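import Pool.Agent.Lib.CD.SpecE

/-!
Theorem CD (note 5285), module IMS: MA with verifiers of constant depth is contained in SBP
(helper55).
-/

set_option autoImplicit false

namespace Pool.Agent.CD

open Finset Pool.Agent.Lib.MP_ff3ed7_lc Pool.Agent.Lib.MP_ff3ed7_lc.B

namespace IMS_aux

theorem bound (m : ℕ → ℕ) (hm : Small m) : ∃ M0 : ℕ, ∀ N, m N ≤ N + M0 := by
  obtain ⟨N₀, hN₀⟩ := hm 1
  refine ⟨∑ N ∈ Finset.range N₀, m N, fun N => ?_⟩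
  by_cases hN : N₀ ≤ N
  · have h1 := hN₀ N hN
    rw [pow_one] at h1
    omega
  · have h1 : m N ≤ ∑ N ∈ Finset.range N₀, m N :=
      Finset.single_le_sum (f := m) (fun _ _ => Nat.zero_le _)
        (Finset.mem_range.2 (by omega))
    omega

theorem size (N M0 C p S S' : ℕ) (hp : p ≤ N + M0) (hS : S ≤ C * (N + 1) ^ C)
    (hS' : S' ≤ (8 * (p + 2) + 8) ^ 4 * (S + 3)) :
    S' ≤ ((8 * (M0 + 4)) ^ 4 * (C + 3) + (C + 4)) *
      (N + 1) ^ ((8 * (M0 + 4)) ^ 4 * (C + 3) + (C + 4)) := by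
  have h1 : 8 * (p + 2) + 8 ≤ 8 * (M0 + 4) * (N + 1) := by
    have : 8 * (M0 + 4) * (N + 1) = 8 * (M0 * N) + 8 * M0 + 32 * N + 32 := by ring
    rw [this]
    have := Nat.zero_le (M0 * N)
    omega
  have h2 : 1 ≤ (N + 1) ^ C := Nat.one_le_pow _ _ (Nat.succ_pos N)
  have h3 : S + 3 ≤ (C + 3) * (N + 1) ^ C := by
    have : (C + 3) * (N + 1) ^ C = C * (N + 1) ^ C + 3 * (N + 1) ^ C := by ring
    rw [this]
    omega
  have h4 : (8 * (p + 2) + 8) ^ 4 * (S + 3) ≤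
      (8 * (M0 + 4) * (N + 1)) ^ 4 * ((C + 3) * (N + 1) ^ C) :=
    Nat.mul_le_mul (Nat.pow_le_pow_left h1 4) h3
  have h5 : (8 * (M0 + 4) * (N + 1)) ^ 4 * ((C + 3) * (N + 1) ^ C) =
      ((8 * (M0 + 4)) ^ 4 * (C + 3)) * (N + 1) ^ (C + 4) := by ring
  refine le_trans hS' (le_trans h4 ?_)
  rw [h5]
  exact Nat.mul_le_mul (Nat.le_add_right _ _)
    (Nat.pow_le_pow_right (Nat.succ_pos N) (Nat.le_add_left _ _))

end IMS_aux

/-- **IMS.** -/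
theorem tIMS : sAmp → sMS1 → sSmP → sIMS := by
  intro hAmp hMS1 hSmP L hL
  obtain ⟨d, C, m, hm, h⟩ := hL
  obtain ⟨M0, hM0⟩ := IMS_aux.bound m hm
  refine ⟨d + 3, (8 * (M0 + 4)) ^ 4 * (C + 3) + (C + 4), fun N => 4097 * (m N + 4097) ^ 5,
    hSmP.2.1 m 4097 5 hm, fun N => ?_⟩
  obtain ⟨r, p, S, hr, hp, hS, hMA⟩ := h N
  obtain ⟨r', S', hr', hS', hE⟩ := hAmp (Fin N) (L N) r p d S (p + 2) (by omega) hMA
  refine ⟨p + r', p + 2, S', ?_, ?_, ?_, hMS1 (Fin N) (L N) r' p (d + 3) S' hE⟩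
  · show p + r' ≤ 4097 * (m N + 4097) ^ 5
    have h2 : (8 * (p + 2) + 8) ^ 4 * r ≤ (8 * (m N + 4097)) ^ 4 * (m N + 4097) :=
      Nat.mul_le_mul (Nat.pow_le_pow_left (by omega) 4) (by omega)
    have h3 : (8 * (m N + 4097)) ^ 4 * (m N + 4097) = 4096 * (m N + 4097) ^ 5 := by ring
    have h4 : m N + 4097 ≤ (m N + 4097) ^ 5 := Nat.le_self_pow (by norm_num) _
    have h6 : r' ≤ 4096 * (m N + 4097) ^ 5 := le_trans hr' (le_trans h2 h3.le)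
    omega
  · show p + 2 ≤ 4097 * (m N + 4097) ^ 5
    have h4 : m N + 4097 ≤ (m N + 4097) ^ 5 := Nat.le_self_pow (by norm_num) _
    omega
  · exact IMS_aux.size N M0 C p S S' (le_trans hp (hM0 N)) hS hS'

end Pool.Agent.CD
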