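import Pool.Agent.Lib.CD.SpecE

/-!
# `SBP ⊆ AM` (classes), from the single-length simulation and growth
-/

set_option autoImplicit false

namespace Pool.Agent.CD

open Finset Pool.Agent.Lib.MP_ff3ed7_lc Pool.Agent.Lib.MP_ff3ed7_lc.B

namespace ISA_aux

/-- a function of growth `N ^ o(1)` is at most `N + M₀` everywhere -/
theorem bnd {m : ℕ → ℕ} (hm : Small m) : ∃ M₀ : ℕ, ∀ N, m N ≤ N + M₀ := by
  obtain ⟨N₀, h⟩ := hm 1
  refine ⟨∑ n ∈ Finset.range N₀, m n, fun N => ?_⟩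
  by_cases hN : N₀ ≤ N
  · have := h N hN
    rw [pow_one] at this
    omega
  · have h1 : N ∈ Finset.range N₀ := Finset.mem_range.mpr (by omega)
    have h2 : m N ≤ ∑ n ∈ Finset.range N₀, m n :=
      Finset.single_le_sum (f := m) (fun i _ => Nat.zero_le _) h1
    omega

theorem arith (a K C M N S r : ℕ) (hS : S ≤ C * (N + 1) ^ C) (hr : r ≤ N + M) :
    ∃ E : ℕ, E = (a + 1) * C + K * (M + 1) ^ 2 + 2 ∧
      a * S + K * (r + 1) ^ 2 ≤ E * (N + 1) ^ E := by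
  obtain ⟨E, hE⟩ : ∃ E : ℕ, E = (a + 1) * C + K * (M + 1) ^ 2 + 2 := ⟨_, rfl⟩
  refine ⟨E, hE, ?_⟩
  have hpos : 0 < N + 1 := Nat.succ_pos N
  have hCE : C ≤ E := by
    have : (a + 1) * C = a * C + C := by ring
    have h0 : 0 ≤ K * (M + 1) ^ 2 := Nat.zero_le _
    omega
  have h1 : (N + 1) ^ C ≤ (N + 1) ^ E := Nat.pow_le_pow_right hpos hCE
  have h2 : (N + 1) ^ 2 ≤ (N + 1) ^ E := Nat.pow_le_pow_right hpos (by omega)
  have h3 : r + 1 ≤ (M + 1) * (N + 1) := by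
    have : (M + 1) * (N + 1) = M * N + M + N + 1 := by ring
    have h0 : 0 ≤ M * N := Nat.zero_le _
    omega
  have h4 : (r + 1) ^ 2 ≤ (M + 1) ^ 2 * (N + 1) ^ 2 := by
    have := Nat.pow_le_pow_left h3 2
    rwa [mul_pow] at this
  have h5 : a * S ≤ a * C * (N + 1) ^ E := by
    calc a * S ≤ a * (C * (N + 1) ^ C) := Nat.mul_le_mul_left _ hS
      _ = a * C * (N + 1) ^ C := by ring
      _ ≤ a * C * (N + 1) ^ E := Nat.mul_le_mul_left _ h1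
  have h6 : K * (r + 1) ^ 2 ≤ K * (M + 1) ^ 2 * (N + 1) ^ E := by
    calc K * (r + 1) ^ 2 ≤ K * ((M + 1) ^ 2 * (N + 1) ^ 2) :=
          Nat.mul_le_mul_left _ h4
      _ = K * (M + 1) ^ 2 * (N + 1) ^ 2 := by ring
      _ ≤ K * (M + 1) ^ 2 * (N + 1) ^ E := Nat.mul_le_mul_left _ h2
  have h7 : a * C + K * (M + 1) ^ 2 ≤ E := by
    have : (a + 1) * C = a * C + C := by ring
    omega
  calc a * S + K * (r + 1) ^ 2
      ≤ a * C * (N + 1) ^ E + K * (M + 1) ^ 2 * (N + 1) ^ E := Nat.add_le_add h5 h6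
    _ = (a * C + K * (M + 1) ^ 2) * (N + 1) ^ E := by ring
    _ ≤ E * (N + 1) ^ E := Nat.mul_le_mul_right _ h7

theorem arith2 (K k r m : ℕ) (hk : 1 ≤ k) (h : r ≤ m) : K * (r + 1) ^ 2 ≤ K * (m + k) ^ 2 :=
  Nat.mul_le_mul_left _ (Nat.pow_le_pow_left (by omega) 2)

/-- the class inclusion with abstract constants -/
theorem main (a K Q : ℕ) (hQ : 1 ≤ Q)
    (hA : ∀ (κ : Type) (F : (κ → Bool) → Bool) (r s d S : ℕ), HasSBu F r s d S →
      ∃ r' p' S', r' ≤ Q * (r + 1) ^ 2 ∧ p' ≤ Q * (r + 1) ^ 2 ∧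
        S' ≤ a * S + K * (r + 1) ^ 2 ∧ HasAMk F r' p' (d + 4) S')
    (hP : ∀ (m : ℕ → ℕ) (C e : ℕ), Small m → Small fun N => C * (m N + C) ^ e) :
    SBPac ⊆ AMac := by
  intro L hL
  obtain ⟨d, C, m, hm, h⟩ := hL
  obtain ⟨M, hM⟩ := bnd hm
  refine ⟨d + 4, (a + 1) * C + K * (M + 1) ^ 2 + 2, fun N => Q * (m N + Q) ^ 2,
    hP m Q 2 hm, fun N => ?_⟩
  obtain ⟨r, s, S, hr, hs, hS, hB⟩ := h N
  obtain ⟨r', p', S', hr', hp', hS', hK⟩ := hA _ (L N) r s d S hB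
  obtain ⟨E, hE, hle⟩ := arith a K C M N S r hS (hr.trans (hM N))
  rw [← hE]
  exact ⟨r', p', S', hr'.trans (arith2 Q Q r (m N) hQ hr),
    hp'.trans (arith2 Q Q r (m N) hQ hr), hS'.trans hle, hK⟩

end ISA_aux

/-- ISA: `SBP` is contained in `AM`. -/
theorem tISA : sSA1 → sSmP → sISA := fun hA hP =>
  ISA_aux.main 10 100000 1000 (by norm_num) hA hP.2.1

end Pool.Agent.CD
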