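import Pool.Agent.Lib.CD.SpecD

/-!
Theorem CD (note 5285), module K1: the condition for the square root.
-/

set_option autoImplicit false

namespace Pool.Agent.CD

open Finset Pool.Agent.Lib.MP_ff3ed7_lc Pool.Agent.Lib.MP_ff3ed7_lc.B

/-- K1: the condition for the square root. -/
theorem tK1 : sK1 := by
  intro d c C
  obtain ⟨D, hD⟩ : ∃ D : ℕ, D = c * d + 1 := ⟨_, rfl⟩
  obtain ⟨A, hA⟩ : ∃ A : ℕ, A = C * 1026 ^ d * 50 ^ D := ⟨_, rfl⟩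
  have ht := tendsto_pow_const_div_const_pow_of_one_lt (2 * D) (r := (2 : ℝ)) (by norm_num)
  have hev := ht.eventually (gt_mem_nhds (show (0 : ℝ) < 1 / (2 * ((A : ℝ) + 1)) by positivity))
  obtain ⟨m0, hm0⟩ := Filter.eventually_atTop.1 hev
  refine ⟨2 ^ (10 * (m0 ^ 2 + 4)), ?_⟩
  intro N hN w hw
  obtain ⟨a, ha⟩ : ∃ a : ℕ, a = Nat.log 2 N := ⟨_, rfl⟩
  have ha1 : 10 * (m0 ^ 2 + 4) ≤ a := by
    rw [ha, ← Nat.log_pow (b := 2) (by norm_num) (10 * (m0 ^ 2 + 4))]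
    exact Nat.log_mono_right hN
  rw [← ha] at hw ⊢
  obtain ⟨m, hm⟩ : ∃ m : ℕ, m = Nat.sqrt (a / 10 - 4) := ⟨_, rfl⟩
  rw [← hm]
  have hmm : m0 ≤ m := by
    rw [hm]
    refine Nat.le_sqrt'.2 ?_
    omega
  have hup : a / 10 - 4 < (m + 1) ^ 2 := by
    have := Nat.lt_succ_sqrt' (a / 10 - 4)
    rw [← hm] at this
    exact this
  have ham : a + 1 ≤ 50 * (m + 1) ^ 2 := by
    have : 1 ≤ (m + 1) ^ 2 := Nat.one_le_pow _ _ (by omega)
    omega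
  -- the growth
  have h1 := hm0 (m + 1) (by omega)
  have h2 : A * (m + 1) ^ (2 * D) ≤ 2 ^ m := by
    rw [div_lt_iff₀ (by positivity), pow_succ] at h1
    have h3 : ((A : ℝ) + 1) * ((m + 1 : ℕ) : ℝ) ^ (2 * D) ≤
        ((A : ℝ) + 1) * (1 / (2 * ((A : ℝ) + 1)) * (2 ^ m * 2)) :=
      mul_le_mul_of_nonneg_left h1.le (by positivity)
    have h4 : ((A : ℝ) + 1) * (1 / (2 * ((A : ℝ) + 1)) * ((2 : ℝ) ^ m * 2)) = 2 ^ m := by
      field_simp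
    have h5 : (A : ℝ) * ((m + 1 : ℕ) : ℝ) ^ (2 * D) ≤ 2 ^ m := by
      have h6 : (A : ℝ) * ((m + 1 : ℕ) : ℝ) ^ (2 * D) ≤ ((A : ℝ) + 1) * ((m + 1 : ℕ) : ℝ) ^ (2 * D) :=
        mul_le_mul_of_nonneg_right (by linarith) (by positivity)
      linarith
    exact_mod_cast h5
  have hpow : a ^ c ≤ (a + 1) ^ c := Nat.pow_le_pow_left (Nat.le_succ a) c
  have hone : 1 ≤ (a + 1) ^ c := Nat.one_le_pow _ _ (Nat.succ_pos a)
  have hw2 : 513 * w ≤ 1026 * (a + 1) ^ c := by omega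
  calc C * (a + 1) * (513 * w) ^ d ≤ C * (a + 1) * (1026 * (a + 1) ^ c) ^ d :=
        Nat.mul_le_mul_left _ (Nat.pow_le_pow_left hw2 d)
    _ = C * 1026 ^ d * (a + 1) ^ D := by
        rw [hD, mul_pow, ← pow_mul, pow_succ]
        ring
    _ ≤ C * 1026 ^ d * (50 * (m + 1) ^ 2) ^ D :=
        Nat.mul_le_mul_left _ (Nat.pow_le_pow_left ham D)
    _ = A * (m + 1) ^ (2 * D) := by
        rw [hA, mul_pow, ← pow_mul]
        ring
    _ ≤ 2 ^ m := h2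

end Pool.Agent.CD
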