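import Pool.Agent.Lib.CD.SpecD

/-!
PROJECT CD, module K3: exponents, Sigma2 against AM
-/

set_option autoImplicit false

namespace Pool.Agent.CD

open Finset Pool.Agent.Lib.MP_ff3ed7_lc Pool.Agent.Lib.MP_ff3ed7_lc.B

namespace K3_aux

/-- polynomials against exponentials -/
theorem ev (A k : ℕ) : ∃ n0 : ℕ, ∀ n ≥ n0, A * n ^ k ≤ 2 ^ n := by
  have ht := tendsto_pow_const_div_const_pow_of_one_lt k (one_lt_two : (1 : ℝ) < 2)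
  have hpos : (0 : ℝ) < 1 / ((A : ℝ) + 1) := by positivity
  obtain ⟨n0, hn0⟩ := Filter.eventually_atTop.1 (ht.eventually (gt_mem_nhds hpos))
  refine ⟨n0, fun n hn => ?_⟩
  have h := hn0 n hn
  rw [div_lt_div_iff₀ (by positivity) (by positivity)] at h
  have h2 : (A : ℝ) * (n : ℝ) ^ k ≤ 2 ^ n := by
    have : (0 : ℝ) ≤ (n : ℝ) ^ k := by positivity
    nlinarith
  exact_mod_cast h2

theorem sq (a : ℕ) (ha : 400 ≤ a) : 20 * Nat.sqrt a ≤ a := by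
  have h := Nat.sqrt_le a
  have h1 : 20 ≤ Nat.sqrt a := Nat.le_sqrt.2 (by omega)
  exact (Nat.mul_le_mul_right _ h1).trans h

/-- the main comparison -/
theorem cmp (X a : ℕ) (ha : 400 ≤ a) (hX : 4 * X ^ 2 ≤ 2 ^ (a + 1)) :
    X * 2 ^ (10 * Nat.sqrt a) < 2 ^ a := by
  have h1 : (2 ^ (10 * Nat.sqrt a)) ^ 2 ≤ 2 ^ a := by
    rw [← pow_mul]
    apply Nat.pow_le_pow_right (by norm_num)
    have := sq a ha
    omega
  have h0 : 2 * X ^ 2 ≤ 2 ^ a := by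
    have e : 2 ^ (a + 1) = 2 ^ a * 2 := pow_succ 2 a
    rw [e] at hX
    omega
  have h2 : 2 * (X * 2 ^ (10 * Nat.sqrt a)) ^ 2 ≤ (2 ^ a) ^ 2 := by
    calc 2 * (X * 2 ^ (10 * Nat.sqrt a)) ^ 2 = 2 * X ^ 2 * (2 ^ (10 * Nat.sqrt a)) ^ 2 := by ring
      _ ≤ 2 ^ a * 2 ^ a := Nat.mul_le_mul h0 h1
      _ = (2 ^ a) ^ 2 := by ring
  by_contra hc
  rw [not_lt] at hc
  have h3 : (2 ^ a) ^ 2 ≤ (X * 2 ^ (10 * Nat.sqrt a)) ^ 2 := Nat.pow_le_pow_left hc 2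
  have h4 : 0 < (2 ^ a) ^ 2 := by positivity
  omega

end K3_aux

theorem tK3 : sK3 := by
  intro d c C
  obtain ⟨A, hA⟩ : ∃ A : ℕ, A = 2 ^ d * (1 + d) + 2 := ⟨_, rfl⟩
  obtain ⟨B, hB⟩ : ∃ B : ℕ, B = C ^ 10 * A ^ 90 := ⟨_, rfl⟩
  obtain ⟨n0, hn0⟩ := K3_aux.ev (4 * B ^ 2) (2 * (90 * c))
  refine ⟨2 ^ (max n0 400), fun N hN w hw m h => ?_⟩
  by_contra hq
  rw [not_lt] at hq
  have hNpos : 0 < N := lt_of_lt_of_le (Nat.two_pow_pos _) hN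
  have ha : max n0 400 ≤ Nat.log 2 N := Nat.le_log_of_pow_le one_lt_two hN
  have h2a : 2 ^ Nat.log 2 N ≤ N := Nat.pow_log_le_self 2 hNpos.ne'
  obtain ⟨a, haa⟩ : ∃ a : ℕ, a = Nat.log 2 N := ⟨_, rfl⟩
  rw [← haa] at ha h2a hw h
  have ha1 : n0 ≤ a + 1 := ((le_max_left n0 400).trans ha).trans (Nat.le_succ a)
  have ha2 : 400 ≤ a := (le_max_right n0 400).trans ha
  have hp : 1 ≤ (a + 1) ^ c := Nat.one_le_pow _ _ (by omega)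
  have hpa : a ^ c ≤ (a + 1) ^ c := Nat.pow_le_pow_left (Nat.le_succ a) c
  have h1 : 2 ^ d * (m + d + 2) + w ≤ (m + 2) * (A * (a + 1) ^ c) := by
    have e1 : m + d + 2 ≤ (m + 2) * (1 + d) := by
      have e0 := Nat.zero_le (m * d)
      linarith
    have e2 : 2 ^ d * (m + d + 2) ≤ (m + 2) * (2 ^ d * (1 + d) * (a + 1) ^ c) := by
      calc 2 ^ d * (m + d + 2) ≤ 2 ^ d * ((m + 2) * (1 + d)) := Nat.mul_le_mul_left _ e1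
        _ = (m + 2) * (2 ^ d * (1 + d) * 1) := by ring
        _ ≤ (m + 2) * (2 ^ d * (1 + d) * (a + 1) ^ c) :=
            Nat.mul_le_mul_left _ (Nat.mul_le_mul_left _ hp)
    have e3 : w ≤ (m + 2) * (2 * (a + 1) ^ c) := by
      calc w ≤ a ^ c + 1 := hw
        _ ≤ (a + 1) ^ c + (a + 1) ^ c := Nat.add_le_add hpa hp
        _ = 1 * (2 * (a + 1) ^ c) := by ring
        _ ≤ (m + 2) * (2 * (a + 1) ^ c) := Nat.mul_le_mul_right _ (by omega)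
    calc 2 ^ d * (m + d + 2) + w ≤ (m + 2) * (2 ^ d * (1 + d) * (a + 1) ^ c) +
          (m + 2) * (2 * (a + 1) ^ c) := Nat.add_le_add e2 e3
      _ = (m + 2) * (A * (a + 1) ^ c) := by
          rw [hA]
          ring
  obtain ⟨Z, hZ⟩ : ∃ Z : ℕ, Z = A * (a + 1) ^ c := ⟨_, rfl⟩
  rw [← hZ] at h1
  obtain ⟨s, hs⟩ : ∃ s : ℕ, s = Nat.sqrt a := ⟨_, rfl⟩
  rw [← hs] at h
  have h2 : N ≤ C * 2 ^ s * ((m + 2) * Z) ^ 9 :=
    h.trans (Nat.mul_le_mul_left _ (Nat.pow_le_pow_left h1 9))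
  have h3 : N ^ 10 ≤ (C ^ 10 * 2 ^ (10 * s) * Z ^ 90) * ((m + 2) ^ 10) ^ 9 := by
    calc N ^ 10 ≤ (C * 2 ^ s * ((m + 2) * Z) ^ 9) ^ 10 := Nat.pow_le_pow_left h2 10
      _ = (C ^ 10 * 2 ^ (10 * s) * Z ^ 90) * ((m + 2) ^ 10) ^ 9 := by
          rw [mul_pow, mul_pow, ← pow_mul, ← pow_mul, ← pow_mul, mul_pow, mul_comm s 10,
            mul_comm ((m + 2) ^ (9 * 10)), ← mul_assoc]
  have h4 : N * N ^ 9 ≤ (C ^ 10 * 2 ^ (10 * s) * Z ^ 90) * N ^ 9 := by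
    calc N * N ^ 9 = N ^ 10 := by ring
      _ ≤ (C ^ 10 * 2 ^ (10 * s) * Z ^ 90) * ((m + 2) ^ 10) ^ 9 := h3
      _ ≤ (C ^ 10 * 2 ^ (10 * s) * Z ^ 90) * N ^ 9 :=
          Nat.mul_le_mul_left _ (Nat.pow_le_pow_left hq 9)
  have h5 : N ≤ C ^ 10 * 2 ^ (10 * s) * Z ^ 90 :=
    Nat.le_of_mul_le_mul_right h4 (pow_pos hNpos 9)
  have h6 : C ^ 10 * 2 ^ (10 * s) * Z ^ 90 = (B * (a + 1) ^ (90 * c)) * 2 ^ (10 * s) := by
    rw [hZ, hB, mul_pow, ← pow_mul (a + 1) c 90, mul_comm c 90, mul_assoc,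
      mul_comm (2 ^ (10 * s)), ← mul_assoc, ← mul_assoc]
  have h7 := K3_aux.cmp (B * (a + 1) ^ (90 * c)) a ha2 (by
    refine le_trans (le_of_eq ?_) (hn0 (a + 1) ha1)
    rw [mul_pow, ← pow_mul, mul_comm (90 * c) 2]
    ring)
  rw [← hs] at h7
  rw [h6] at h5
  exact absurd (h2a.trans h5) (not_le.2 h7)

end Pool.Agent.CD
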