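import Pool.Agent.Lib.CD.SpecF

set_option autoImplicit false

namespace Pool.Agent.CD

open Finset

namespace K5_aux

/-- `A * (b + 1) ≤ 2 ^ b` for all large `b`. -/
theorem big (A : ℕ) : ∃ b₀ : ℕ, ∀ b ≥ b₀, A * (b + 1) ≤ 2 ^ b := by
  refine ⟨2 * (A + 2), ?_⟩
  intro b hb
  induction b, hb using Nat.le_induction with
  | base =>
    have h1 : A + 3 ≤ 2 ^ (A + 2) := by
      have := Nat.lt_two_pow_self (n := A + 2)
      omega
    have h2 : 2 * (A + 2) + 1 ≤ 2 * (A + 3) := by omega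
    have h3 : 2 ^ (2 * (A + 2)) = 2 ^ (A + 2) * 2 ^ (A + 2) := by
      rw [← pow_add]; congr 1; omega
    have h4 : 2 * A ≤ 2 ^ (A + 2) := by
      have := Nat.lt_two_pow_self (n := A)
      have h5 : 2 ^ (A + 2) = 4 * 2 ^ A := by rw [pow_add]; ring
      omega
    rw [h3]
    calc A * (2 * (A + 2) + 1) ≤ A * (2 * (A + 3)) := Nat.mul_le_mul_left _ h2
      _ = (2 * A) * (A + 3) := by ring
      _ ≤ 2 ^ (A + 2) * 2 ^ (A + 2) := Nat.mul_le_mul h4 h1
  | succ n hn ih =>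
    have h1 : A * (n + 1 + 1) ≤ 2 * (A * (n + 1)) := by nlinarith
    calc A * (n + 1 + 1) ≤ 2 * (A * (n + 1)) := h1
      _ ≤ 2 * 2 ^ n := Nat.mul_le_mul_left _ ih
      _ = 2 ^ (n + 1) := by rw [pow_succ]; ring

end K5_aux

theorem tK5 : sK5 := by
  intro m C hm
  obtain ⟨b₀, hb₀⟩ := K5_aux.big (C * (12 * m) * 2 ^ 20)
  refine ⟨2 ^ (12 * m * b₀), ?_⟩
  intro N hN d w hw hcond
  set a := Nat.log 2 N with ha
  set b := a / (12 * m) with hb
  have hm12 : 0 < 12 * m := by omega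
  have hNpos : N ≠ 0 := by
    have : 0 < 2 ^ (12 * m * b₀) := by positivity
    omega
  have ha1 : 12 * m * b₀ ≤ a := by
    rw [ha]
    exact (Nat.le_log_iff_pow_le (by norm_num) hNpos).2 hN
  have hbb : b₀ ≤ b := by
    rw [hb, Nat.le_div_iff_mul_le hm12]
    calc b₀ * (12 * m) = 12 * m * b₀ := by ring
      _ ≤ a := ha1
  have hbig := hb₀ b hbb
  have hab : a + 1 ≤ 12 * m * (b + 1) := by
    have h1 := Nat.lt_div_mul_add (a := a) hm12
    rw [← hb] at h1
    have h2 : 12 * m * (b + 1) = b * (12 * m) + 12 * m := by ring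
    omega
  have hY : (513 * w) ^ d ≤ 2 ^ b := by
    refine le_trans ?_ hcond
    exact Nat.pow_le_pow_right (by omega) (by omega)
  -- exponents
  have hexp : 2 * b ≤ (a / 6 - 4) / m + 20 := by
    have h1 : b * (12 * m) ≤ a := Nat.div_mul_le_self a (12 * m)
    have h2 : 2 * b * m ≤ a / 6 := by
      rw [Nat.le_div_iff_mul_le (by norm_num)]
      calc 2 * b * m * 6 = b * (12 * m) := by ring
        _ ≤ a := h1
    by_cases hlt : 2 * b ≤ 20
    · exact le_trans hlt (Nat.le_add_left _ _)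
    · push Not at hlt
      have h3 : (2 * b - 20) ≤ (a / 6 - 4) / m := by
        rw [Nat.le_div_iff_mul_le (by omega)]
        have h4 : (2 * b - 20) * m = 2 * b * m - 20 * m := by
          rw [Nat.sub_mul]
        have h5 : 4 ≤ 20 * m := by omega
        omega
      omega
  have hfin : C * (a + 1) * 2 ^ 20 ≤ 2 ^ b := by
    calc C * (a + 1) * 2 ^ 20 ≤ C * (12 * m * (b + 1)) * 2 ^ 20 :=
          Nat.mul_le_mul_right _ (Nat.mul_le_mul_left _ hab)
      _ = C * (12 * m) * 2 ^ 20 * (b + 1) := by ring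
      _ ≤ 2 ^ b := hbig
  have hkey : C * (a + 1) * (513 * w) ^ d * 2 ^ 20 ≤ 2 ^ ((a / 6 - 4) / m) * 2 ^ 20 := by
    calc C * (a + 1) * (513 * w) ^ d * 2 ^ 20
        = (C * (a + 1) * 2 ^ 20) * (513 * w) ^ d := by ring
      _ ≤ 2 ^ b * 2 ^ b := Nat.mul_le_mul hfin hY
      _ = 2 ^ (2 * b) := by rw [← pow_add]; congr 1; omega
      _ ≤ 2 ^ ((a / 6 - 4) / m + 20) := Nat.pow_le_pow_right (by norm_num) hexp
      _ = 2 ^ ((a / 6 - 4) / m) * 2 ^ 20 := by rw [pow_add]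
  exact Nat.le_of_mul_le_mul_right hkey (by positivity)

end Pool.Agent.CD
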