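import Pool.Agent.Lib.CD.SpecF

/-!
# CD, module K6: exponents, MA, subexponential size
-/

set_option autoImplicit false

namespace Pool.Agent.CD

open Finset

namespace K6_aux

/-- polynomials against the exponential function -/
theorem big (A k : ℕ) : ∃ a0 : ℕ, ∀ a : ℕ, a0 ≤ a → A * (a + 4) ^ k < 8 ^ a := by
  have h := tendsto_pow_const_div_const_pow_of_one_lt k (r := (8 : ℝ)) (by norm_num)
  have hpos : (0 : ℝ) < 1 / ((A : ℝ) * 8 ^ 4 + 1) := by positivity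
  obtain ⟨a0, ha0⟩ := Filter.eventually_atTop.1 ((h.eventually (gt_mem_nhds hpos)))
  refine ⟨a0, fun a ha => ?_⟩
  have h1 := ha0 (a + 4) (by omega)
  have h8 : (0 : ℝ) < 8 ^ (a + 4) := by positivity
  have hA : (0 : ℝ) < (A : ℝ) * 8 ^ 4 + 1 := by positivity
  rw [div_lt_div_iff₀ h8 hA, one_mul] at h1
  have h2 : (0 : ℝ) ≤ (((a + 4 : ℕ) : ℝ)) ^ k := by positivity
  have h3 : (((a + 4 : ℕ) : ℝ)) ^ k * ((A : ℝ) * 8 ^ 4) < 8 ^ a * 8 ^ 4 := by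
    calc (((a + 4 : ℕ) : ℝ)) ^ k * ((A : ℝ) * 8 ^ 4)
        ≤ (((a + 4 : ℕ) : ℝ)) ^ k * ((A : ℝ) * 8 ^ 4 + 1) := by gcongr; linarith
      _ < 8 ^ (a + 4) := h1
      _ = 8 ^ a * 8 ^ 4 := pow_add _ _ _
  have h4 : (A : ℝ) * (((a + 4 : ℕ) : ℝ)) ^ k < 8 ^ a := by
    have h5 : (0 : ℝ) < 8 ^ 4 := by positivity
    refine lt_of_mul_lt_mul_right ?_ h5.le
    calc (A : ℝ) * (((a + 4 : ℕ) : ℝ)) ^ k * 8 ^ 4
        = (((a + 4 : ℕ) : ℝ)) ^ k * ((A : ℝ) * 8 ^ 4) := by ring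
      _ < 8 ^ a * 8 ^ 4 := h3
  exact_mod_cast h4

theorem alg {C u Z b q N : ℕ} (h : N ≤ C * u * (Z * b * q ^ 2) ^ 5) (hq : q ^ 12 ≤ N)
    (hN : 0 < N) : N ≤ C ^ 6 * u ^ 6 * Z ^ 30 * b ^ 30 := by
  have h1 : N ^ 6 ≤ (C * u * (Z * b * q ^ 2) ^ 5) ^ 6 := Nat.pow_le_pow_left h 6
  have h2 : (q ^ 12) ^ 5 ≤ N ^ 5 := Nat.pow_le_pow_left hq 5
  have h3 : N * N ^ 5 ≤ (C ^ 6 * u ^ 6 * Z ^ 30 * b ^ 30) * N ^ 5 := by
    calc N * N ^ 5 = N ^ 6 := by ring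
      _ ≤ (C * u * (Z * b * q ^ 2) ^ 5) ^ 6 := h1
      _ = (C ^ 6 * u ^ 6 * Z ^ 30 * b ^ 30) * (q ^ 12) ^ 5 := by ring
      _ ≤ (C ^ 6 * u ^ 6 * Z ^ 30 * b ^ 30) * N ^ 5 := Nat.mul_le_mul_left _ h2
  exact Nat.le_of_mul_le_mul_right h3 (pow_pos hN 5)

theorem fin {C a b e N : ℕ} (h2a : 2 ^ a ≤ N) (he : 20 * e ≤ 17 * a)
    (h : N ≤ C ^ 6 * 2 ^ e * b ^ 30) : 8 ^ a ≤ C ^ 120 * b ^ 600 := by
  have hea : e ≤ a := by omega
  have h1 : 2 ^ e * 2 ^ (a - e) ≤ 2 ^ e * (C ^ 6 * b ^ 30) := by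
    calc 2 ^ e * 2 ^ (a - e) = 2 ^ a := by rw [← pow_add, Nat.add_sub_cancel' hea]
      _ ≤ C ^ 6 * 2 ^ e * b ^ 30 := h2a.trans h
      _ = 2 ^ e * (C ^ 6 * b ^ 30) := by ring
  have h2 : 2 ^ (a - e) ≤ C ^ 6 * b ^ 30 := Nat.le_of_mul_le_mul_left h1 (by positivity)
  calc 8 ^ a = 2 ^ (3 * a) := by rw [pow_mul]; norm_num
    _ ≤ 2 ^ ((a - e) * 20) := Nat.pow_le_pow_right (by norm_num) (by omega)
    _ = (2 ^ (a - e)) ^ 20 := pow_mul _ _ _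
    _ ≤ (C ^ 6 * b ^ 30) ^ 20 := Nat.pow_le_pow_left h2 20
    _ = C ^ 120 * b ^ 600 := by rw [mul_pow, ← pow_mul, ← pow_mul]

end K6_aux

open K6_aux in
theorem tK6 : sK6 := by
  intro m C hm
  obtain ⟨a0, ha0⟩ := big (C ^ 120) 600
  refine ⟨2 ^ a0, fun N hN d w hw hZ p hNp => ?_⟩
  by_contra hcon
  have hq : (p + 2) ^ 12 ≤ N := not_lt.1 hcon
  have hNpos : 0 < N := lt_of_lt_of_le (by positivity) hN
  have ha : a0 ≤ Nat.log 2 N := Nat.le_log_of_pow_le (by norm_num) hN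
  have h2a : 2 ^ Nat.log 2 N ≤ N := Nat.pow_log_le_self 2 hNpos.ne'
  generalize Nat.log 2 N = a at *
  have hwZ : w ≤ 2 ^ (a / (12 * m)) := by
    calc w ≤ 513 * w := by omega
      _ = (513 * w) ^ 1 := (pow_one _).symm
      _ ≤ (513 * w) ^ (d + 1) := Nat.pow_le_pow_right (by omega) (by omega)
      _ ≤ _ := hZ
  have hdZ : 2 ^ d ≤ 2 ^ (a / (12 * m)) := by
    calc 2 ^ d ≤ (513 * w) ^ d := Nat.pow_le_pow_left (by omega) d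
      _ ≤ (513 * w) ^ (d + 1) := Nat.pow_le_pow_right (by omega) (by omega)
      _ ≤ _ := hZ
  have hda : d ≤ a := by
    have h1 : d ≤ a / (12 * m) := (Nat.pow_le_pow_iff_right (by norm_num)).1 hdZ
    exact h1.trans (Nat.div_le_self _ _)
  have h1 : (p + 2) * (2 ^ d * (p + d + 4) + w) ≤ 2 ^ (a / (12 * m)) * (a + 4) * (p + 2) ^ 2 := by
    have h2 : 2 ^ d * (p + d + 4) + w ≤ 2 ^ (a / (12 * m)) * ((p + 2) * (a + 4)) := by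
      calc 2 ^ d * (p + d + 4) + w
          ≤ 2 ^ (a / (12 * m)) * (p + a + 4) + 2 ^ (a / (12 * m)) :=
            Nat.add_le_add (Nat.mul_le_mul hdZ (by omega)) hwZ
        _ = 2 ^ (a / (12 * m)) * (p + a + 5) := by ring
        _ ≤ 2 ^ (a / (12 * m)) * ((p + 2) * (a + 4)) := Nat.mul_le_mul_left _ (by nlinarith)
    calc (p + 2) * (2 ^ d * (p + d + 4) + w)
        ≤ (p + 2) * (2 ^ (a / (12 * m)) * ((p + 2) * (a + 4))) := Nat.mul_le_mul_left _ h2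
      _ = _ := by ring
  have h3 : N ≤ C * 2 ^ (a / m) * (2 ^ (a / (12 * m)) * (a + 4) * (p + 2) ^ 2) ^ 5 :=
    hNp.trans (Nat.mul_le_mul_left _ (Nat.pow_le_pow_left h1 5))
  have h4 := alg h3 hq hNpos
  have h5 : N ≤ C ^ 6 * 2 ^ (6 * (a / m) + 30 * (a / (12 * m))) * (a + 4) ^ 30 := by
    refine h4.trans (le_of_eq ?_)
    rw [pow_add, pow_mul', pow_mul']
    ring_nf
  have he : 20 * (6 * (a / m) + 30 * (a / (12 * m))) ≤ 17 * a := by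
    have e1 : 10 * (a / m) ≤ a := (Nat.mul_le_mul_right _ hm).trans (Nat.mul_div_le a m)
    have e2 : 120 * (a / (12 * m)) ≤ a :=
      (Nat.mul_le_mul_right _ (by omega)).trans (Nat.mul_div_le a (12 * m))
    omega
  have h6 := fin h2a he h5
  exact absurd (ha0 a ha) (not_lt.2 h6)

end Pool.Agent.CD
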