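import Pool.Agent.Lib.CD.SpecB

/-!
Lof: the parameter of a length.
-/

set_option autoImplicit false

namespace Pool.Agent.CD
open Finset

theorem Lof_aux.le_of {B : ℕ → ℕ} (hB : ∀ ℓ, 2 ^ ℓ ≤ B ℓ) {N ℓ : ℕ}
    (h : B ℓ * 2 ^ Nat.sqrt ℓ ≤ N) : 2 ^ ℓ ≤ N := by
  have h1 : 1 ≤ 2 ^ Nat.sqrt ℓ := Nat.one_le_two_pow
  have h2 : B ℓ * 1 ≤ B ℓ * 2 ^ Nat.sqrt ℓ := Nat.mul_le_mul_left _ h1
  have h3 := hB ℓ
  omega

theorem tLof : sLof := by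
  intro B N hB
  have hle : ∀ ℓ, B ℓ * 2 ^ Nat.sqrt ℓ ≤ N → ℓ ≤ N := fun ℓ h =>
    (Nat.lt_two_pow_self (n := ℓ)).le.trans (Lof_aux.le_of hB h)
  refine ⟨?_, ?_, ?_⟩
  · by_cases h0 : lof B N = 0
    · rw [h0]; exact Nat.zero_le _
    · have hP : B (lof B N) * 2 ^ Nat.sqrt (lof B N) ≤ N :=
        Nat.findGreatest_of_ne_zero (P := fun ℓ => B ℓ * 2 ^ Nat.sqrt ℓ ≤ N) (n := N) rfl h0
      have h2 := Lof_aux.le_of hB hP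
      have hN : N ≠ 0 := by
        have : 0 < 2 ^ lof B N := by positivity
        omega
      exact Nat.le_log_of_pow_le (by norm_num) h2
  · intro hB0
    have h0 : B 0 * 2 ^ Nat.sqrt 0 ≤ N := by simpa using hB0
    refine ⟨Nat.findGreatest_spec (P := fun ℓ => B ℓ * 2 ^ Nat.sqrt ℓ ≤ N) (Nat.zero_le N) h0, ?_⟩
    by_contra hcon
    have h1 : B (lof B N + 1) * 2 ^ Nat.sqrt (lof B N + 1) ≤ N := not_lt.1 hcon
    have h2 : lof B N + 1 ≤ lof B N :=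
      Nat.le_findGreatest (P := fun ℓ => B ℓ * 2 ^ Nat.sqrt ℓ ≤ N) (hle _ h1) h1
    omega
  · intro ℓ₀ h
    exact Nat.le_findGreatest (P := fun ℓ => B ℓ * 2 ^ Nat.sqrt ℓ ≤ N) (hle _ h) h

end Pool.Agent.CD
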