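import Pool.Agent.Lib.CD.SpecE

/-!
PROJECT CD, module MS1: from MA (small error) to SBP
-/

set_option autoImplicit false

namespace Pool.Agent.CD

open Finset Pool.Agent.Lib.MP_ff3ed7_lc Pool.Agent.Lib.MP_ff3ed7_lc.B

namespace MS1_aux

/-- the two parts of a string -/
theorem card_split (p r : ℕ) (E : (Fin p → Bool) → (Fin r → Bool) → Prop) :
    Nat.card {τ : Fin (p + r) → Bool //
      E (fun i => τ (Fin.castAdd r i)) (fun j => τ (Fin.natAdd p j))} =
      ∑ y : Fin p → Bool, Nat.card {ρ // E y ρ} := by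
  classical
  have h1 : ∀ y : Fin p → Bool, Nat.card {ρ // E y ρ} = ∑ ρ, if E y ρ then 1 else 0 := by
    intro y
    rw [Nat.card_eq_fintype_card, Fintype.card_subtype, Finset.card_filter]
  rw [Finset.sum_congr rfl (fun y _ => h1 y), Nat.card_eq_fintype_card, Fintype.card_subtype,
    Finset.card_filter]
  rw [← Fintype.sum_prod_type (f := fun z : (Fin p → Bool) × (Fin r → Bool) =>
    if E z.1 z.2 then 1 else 0)]
  symm
  refine Fintype.sum_equiv (Fin.appendEquiv p r) _ _ ?_
  intro z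
  have e1 : (fun i => (Fin.appendEquiv p r) z (Fin.castAdd r i)) = z.1 := by
    funext i
    simp [Fin.appendEquiv]
  have e2 : (fun j => (Fin.appendEquiv p r) z (Fin.natAdd p j)) = z.2 := by
    funext j
    simp [Fin.appendEquiv]
  rw [e1, e2]

theorem prob_split (p r : ℕ) (E : (Fin p → Bool) → (Fin r → Bool) → Prop) :
    prob (p + r) (fun τ => E (fun i => τ (Fin.castAdd r i)) (fun j => τ (Fin.natAdd p j))) =
      (∑ y : Fin p → Bool, prob r (E y)) / 2 ^ p := by
  unfold prob
  rw [card_split p r E, ← Finset.sum_div, Nat.cast_sum, div_div, pow_add, mul_comm ((2 : ℝ) ^ p)]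

end MS1_aux

theorem tMS1 : sSub → sMS1 := by
  intro hsub κ F r p d S hMA
  obtain ⟨V, hV, hyes, hno⟩ := hMA
  refine ⟨fun z => V (Sum.elim (fun i => z (Sum.inl i)) (Sum.elim
    (fun i => z (Sum.inr (Fin.castAdd r i))) (fun j => z (Sum.inr (Fin.natAdd p j))))), ?_, ?_, ?_⟩
  · refine hsub _ (κ ⊕ Fin (p + r)) d S V (fun z => Sum.elim (fun i => z (Sum.inl i)) (Sum.elim
      (fun i => z (Sum.inr (Fin.castAdd r i))) (fun j => z (Sum.inr (Fin.natAdd p j))))) ?_ hV
    rintro (i | (i | j))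
    · exact ⟨{Sum.inl i}, le_of_eq (Finset.card_singleton _),
        fun x y h => h _ (Finset.mem_singleton_self _)⟩
    · exact ⟨{Sum.inr (Fin.castAdd r i)}, le_of_eq (Finset.card_singleton _),
        fun x y h => h _ (Finset.mem_singleton_self _)⟩
    · exact ⟨{Sum.inr (Fin.natAdd p j)}, le_of_eq (Finset.card_singleton _),
        fun x y h => h _ (Finset.mem_singleton_self _)⟩
  · intro x hx
    obtain ⟨y, hy⟩ := hyes x hx
    have h1 := MS1_aux.prob_split p r (fun y ρ => V (Sum.elim x (Sum.elim y ρ)) = true)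
    simp only [Sum.elim_inl, Sum.elim_inr]
    rw [h1, le_div_iff₀ (by positivity)]
    have h2 : prob r (fun ρ => V (Sum.elim x (Sum.elim y ρ)) = true) ≤
        ∑ y : Fin p → Bool, prob r (fun ρ => V (Sum.elim x (Sum.elim y ρ)) = true) := by
      refine Finset.single_le_sum (f := fun y : Fin p → Bool =>
        prob r (fun ρ => V (Sum.elim x (Sum.elim y ρ)) = true)) ?_ (Finset.mem_univ y)
      intro y' _
      unfold prob
      positivity
    have h3 : (1 / 2 : ℝ) ^ (p + 2) ≤ 1 / 4 := by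
      have h4 : (1 / 2 : ℝ) ^ p ≤ 1 := pow_le_one₀ (by norm_num) (by norm_num)
      have h5 : (1 / 2 : ℝ) ^ (p + 2) = (1 / 2) ^ p * (1 / 4) := by
        rw [pow_add]
        norm_num
      rw [h5]
      linarith
    have h6 : 2 * (1 / 2 : ℝ) ^ (p + 2) * 2 ^ p = 1 / 2 := by
      have h7 : (1 / 2 : ℝ) ^ p * 2 ^ p = 1 := by
        rw [← mul_pow]
        norm_num
      calc 2 * (1 / 2 : ℝ) ^ (p + 2) * 2 ^ p = (1 / 2) * ((1 / 2 : ℝ) ^ p * 2 ^ p) := by
            rw [pow_add]
            ring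
        _ = 1 / 2 := by rw [h7, mul_one]
    rw [h6]
    linarith
  · intro x hx
    have h1 := MS1_aux.prob_split p r (fun y ρ => V (Sum.elim x (Sum.elim y ρ)) = true)
    simp only [Sum.elim_inl, Sum.elim_inr]
    rw [h1, div_le_iff₀ (by positivity)]
    calc ∑ y : Fin p → Bool, prob r (fun ρ => V (Sum.elim x (Sum.elim y ρ)) = true) ≤
          ∑ _y : Fin p → Bool, (1 / 2 : ℝ) ^ (p + 2) := Finset.sum_le_sum (fun y _ => hno x hx y)
      _ = (1 / 2 : ℝ) ^ (p + 2) * 2 ^ p := by
          rw [Finset.sum_const, Finset.card_univ, Fintype.card_fun, Fintype.card_fin,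
            Fintype.card_bool, nsmul_eq_mul]
          push_cast
          ring

end Pool.Agent.CD
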