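import Pool.Agent.Lib.CD.SpecB

set_option autoImplicit false

namespace Pool.Agent.CD

open Finset

private theorem N1_exp (ℓ n : ℕ) (hn : n ≤ 2 ^ (9 * ℓ + 22)) : (n : ℝ) ≤ Real.exp (9 * ℓ + 22) := by
  have h7 : (2 : ℝ) ≤ Real.exp 1 := by
    have := Real.add_one_le_exp (1 : ℝ)
    linarith
  have h8 : (n : ℝ) ≤ ((2 ^ (9 * ℓ + 22) : ℕ) : ℝ) := Nat.cast_le.2 hn
  clear hn
  refine h8.trans ?_
  clear h8
  rw [Nat.cast_pow, Nat.cast_ofNat]
  refine (pow_le_pow_left₀ (by norm_num) h7 _).trans (le_of_eq ?_)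
  rw [← Real.exp_nat_mul]
  congr 1
  push_cast
  ring

/-- N1: the blocks are long enough. -/
theorem tN1 : sN1 := by
  intro d c
  obtain ⟨A, hA⟩ : ∃ A : ℝ, A = (1025 * 100 ^ c) ^ d := ⟨_, rfl⟩
  have hA0 : 0 < A := by rw [hA]; positivity
  obtain ⟨D, hD⟩ : ∃ D : ℕ, D = c * d + 1 := ⟨_, rfl⟩
  have ht := tendsto_pow_const_div_const_pow_of_one_lt (2 * D) (r := (2 : ℝ)) (by norm_num)
  have hev := ht.eventually (gt_mem_nhds (show (0 : ℝ) < 1 / (48 * A) by positivity))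
  obtain ⟨n0, hn0⟩ := Filter.eventually_atTop.1 hev
  refine ⟨n0 ^ 2, ?_⟩
  intro ℓ hℓ n hn w hw
  have hnexp := N1_exp ℓ n hn
  clear hn
  obtain ⟨m, hm⟩ : ∃ m : ℕ, m = Nat.sqrt ℓ := ⟨_, rfl⟩
  have hm0 : n0 ≤ m := by
    rw [hm]
    exact Nat.le_sqrt'.2 hℓ
  have hlm : ℓ + 1 ≤ (m + 1) ^ 2 := by
    have := Nat.lt_succ_sqrt' ℓ
    rw [← hm] at this
    exact this
  rw [← hm]
  -- the growth
  have h1 := hn0 (m + 1) (by omega)
  have h2 : 24 * A * ((m + 1 : ℕ) : ℝ) ^ (2 * D) ≤ 2 ^ m := by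
    rw [div_lt_iff₀ (by positivity), pow_succ] at h1
    have h3 : 24 * A * ((m + 1 : ℕ) : ℝ) ^ (2 * D) ≤ 24 * A * (1 / (48 * A) * (2 ^ m * 2)) :=
      mul_le_mul_of_nonneg_left h1.le (by positivity)
    have h4 : 24 * A * (1 / (48 * A) * ((2 : ℝ) ^ m * 2)) = 2 ^ m := by
      field_simp
      ring
    linarith
  obtain ⟨t, htt⟩ : ∃ t : ℝ, t = (ℓ : ℝ) + 1 := ⟨_, rfl⟩
  have ht1 : 1 ≤ t := by
    rw [htt]
    have : (0 : ℝ) ≤ ℓ := Nat.cast_nonneg ℓ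
    linarith
  have htm : t ≤ ((m + 1 : ℕ) : ℝ) ^ 2 := by
    rw [htt]
    exact_mod_cast hlm
  have h5 : t ^ D ≤ ((m + 1 : ℕ) : ℝ) ^ (2 * D) := by
    rw [pow_mul]
    exact pow_le_pow_left₀ (by linarith) htm _
  obtain ⟨M, hM⟩ : ∃ M : ℝ, M = 512 * (w : ℝ) + 1 := ⟨_, rfl⟩
  have hw' : (w : ℝ) ≤ (100 * t) ^ c + 1 := by
    rw [htt]
    exact_mod_cast hw
  have h100 : 1 ≤ (100 * t) ^ c := one_le_pow₀ (by linarith)
  have hM1 : 1 ≤ M := by
    rw [hM]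
    have : (0 : ℝ) ≤ w := Nat.cast_nonneg w
    linarith
  have hMle : M ≤ 1025 * (100 * t) ^ c := by
    rw [hM]
    linarith
  have hMd : M ^ d ≤ A * t ^ (c * d) := by
    calc M ^ d ≤ (1025 * (100 * t) ^ c) ^ d := pow_le_pow_left₀ (by linarith) hMle _
      _ = A * t ^ (c * d) := by
        rw [hA, mul_pow 100 t c, ← mul_assoc, mul_pow _ (t ^ c) d, ← pow_mul]
  have hMdpos : 0 < M ^ d := by positivity
  have hbig : M ^ d * (9 * ℓ + 24) ≤ 2 ^ m := by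
    have e1 : (9 * (ℓ : ℝ) + 24) ≤ 24 * t := by
      rw [htt]
      have : (0 : ℝ) ≤ ℓ := Nat.cast_nonneg ℓ
      linarith
    calc M ^ d * (9 * ℓ + 24) ≤ (A * t ^ (c * d)) * (24 * t) :=
          mul_le_mul hMd e1 (by positivity) (by positivity)
      _ = 24 * A * t ^ D := by
          rw [hD, pow_succ]
          ring
      _ ≤ 24 * A * ((m + 1 : ℕ) : ℝ) ^ (2 * D) := mul_le_mul_of_nonneg_left h5 (by positivity)
      _ ≤ 2 ^ m := h2
  obtain ⟨x, hx⟩ : ∃ x : ℝ, x = (1 / (512 * (w : ℝ) + 1)) ^ d := ⟨_, rfl⟩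
  have hxM : x = 1 / M ^ d := by
    rw [hx, ← hM, div_pow, one_pow]
  have hx1 : x ≤ 1 := by
    rw [hxM, div_le_one hMdpos]
    exact one_le_pow₀ hM1
  rw [← hx]
  have hxk : 9 * (ℓ : ℝ) + 24 ≤ x * 2 ^ m := by
    rw [hxM, div_mul_eq_mul_div, one_mul, le_div_iff₀ hMdpos]
    linarith
  have hk : (1 - x) ^ (2 ^ m) ≤ Real.exp (-(x * 2 ^ m)) := by
    have h6 : 1 - x ≤ Real.exp (-x) := by
      have := Real.add_one_le_exp (-x)
      linarith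
    calc (1 - x) ^ (2 ^ m) ≤ (Real.exp (-x)) ^ (2 ^ m) := pow_le_pow_left₀ (by linarith) h6 _
      _ = Real.exp (-(x * 2 ^ m)) := by
        rw [← Real.exp_nat_mul]
        congr 1
        push_cast
        ring
  calc (n : ℝ) * (1 - x) ^ (2 ^ m) ≤ Real.exp (9 * ℓ + 22) * Real.exp (-(x * 2 ^ m)) :=
        mul_le_mul hnexp hk (pow_nonneg (by linarith) _) (Real.exp_pos _).le
    _ = Real.exp (9 * ℓ + 22 + -(x * 2 ^ m)) := (Real.exp_add _ _).symm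
    _ ≤ Real.exp (-2) := Real.exp_le_exp.2 (by linarith)
    _ ≤ 1 / 4 := by
      have h8 : (2 : ℝ) ≤ Real.exp 1 := by
        have := Real.add_one_le_exp (1 : ℝ)
        linarith
      have h9 : (4 : ℝ) ≤ Real.exp 2 := by
        have e2 : Real.exp 2 = Real.exp 1 * Real.exp 1 := by
          rw [← Real.exp_add]
          norm_num
        rw [e2]
        nlinarith
      rw [Real.exp_neg, ← one_div]
      exact one_div_le_one_div_of_le (by norm_num) h9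

end Pool.Agent.CD
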