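import Pool.Agent.Lib.CD.SpecB

/-!
Module N4 of theorem CD (note 5285): exponents, MA against SBP.
-/

set_option autoImplicit false

namespace Pool.Agent.CD

open Finset

namespace N4_aux

theorem poly (A c : ℕ) : ∃ ℓ₀ : ℕ, ∀ ℓ ≥ ℓ₀,
    (A * (ℓ + 1) ^ c) ^ 10 * 2 ^ (31 + Nat.sqrt (ℓ + 1)) < 2 ^ ℓ := by
  have hK : (0 : ℝ) < (A : ℝ) ^ 20 * 2 ^ 64 + 1 := by positivity
  have h := tendsto_pow_const_div_const_pow_of_one_lt (20 * c) (one_lt_two (α := ℝ))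
  have h2 := h.eventually (gt_mem_nhds (show (0 : ℝ) < 1 / ((A : ℝ) ^ 20 * 2 ^ 64 + 1) by
    positivity))
  obtain ⟨N, hN⟩ := Filter.eventually_atTop.1 h2
  refine ⟨N + 3, fun ℓ hℓ => ?_⟩
  have h3 := hN (ℓ + 1) (by omega)
  rw [div_lt_div_iff₀ (by positivity) hK, one_mul] at h3
  have h4 : A ^ 20 * (ℓ + 1) ^ (20 * c) * 2 ^ 64 < 2 ^ (ℓ + 1) := by
    have h5 : ((A ^ 20 * (ℓ + 1) ^ (20 * c) * 2 ^ 64 : ℕ) : ℝ) < ((2 ^ (ℓ + 1) : ℕ) : ℝ) := by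
      push_cast
      push_cast at h3
      have h6 : (0 : ℝ) ≤ ((ℓ : ℝ) + 1) ^ (20 * c) := by positivity
      nlinarith
    exact_mod_cast h5
  set s := Nat.sqrt (ℓ + 1) with hs
  have hs2 : 2 * s ≤ ℓ + 1 := by
    have h5 : s * s ≤ ℓ + 1 := Nat.sqrt_le (ℓ + 1)
    have h6 : 2 ≤ s := by
      rw [hs, Nat.le_sqrt]
      omega
    nlinarith
  have h7 : ((A * (ℓ + 1) ^ c) ^ 10 * 2 ^ (31 + s)) ^ 2 < (2 ^ ℓ) ^ 2 := by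
    have e1 : ((A * (ℓ + 1) ^ c) ^ 10 * 2 ^ (31 + s)) ^ 2 =
        A ^ 20 * (ℓ + 1) ^ (20 * c) * 2 ^ 62 * 2 ^ (2 * s) := by
      rw [mul_pow, ← pow_mul, mul_pow, ← pow_mul, ← pow_mul,
        show (31 + s) * 2 = 62 + 2 * s by ring, pow_add 2 62 (2 * s),
        show c * (10 * 2) = 20 * c by ring]
      ring
    have e2 : ((2 : ℕ) ^ ℓ) ^ 2 = 2 ^ ℓ * 2 ^ ℓ := by ring
    have e3 : (2 : ℕ) ^ (2 * s) ≤ 2 ^ (ℓ + 1) := Nat.pow_le_pow_right (by norm_num) hs2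
    have e4 : (2 : ℕ) ^ (ℓ + 1) = 2 * 2 ^ ℓ := by ring
    rw [e1, e2]
    have e5 : A ^ 20 * (ℓ + 1) ^ (20 * c) * 2 ^ 62 * 2 ^ (2 * s) ≤
        A ^ 20 * (ℓ + 1) ^ (20 * c) * 2 ^ 62 * 2 ^ (ℓ + 1) := Nat.mul_le_mul_left _ e3
    refine lt_of_le_of_lt e5 ?_
    rw [e4] at h4 ⊢
    have e6 : (0 : ℕ) < 2 ^ ℓ := by positivity
    have e7 : A ^ 20 * (ℓ + 1) ^ (20 * c) * 2 ^ 62 * 2 < 2 ^ ℓ := by
      have e8 : (2 : ℕ) ^ 64 = 2 ^ 62 * 4 := by norm_num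
      rw [e8] at h4
      nlinarith
    calc A ^ 20 * (ℓ + 1) ^ (20 * c) * 2 ^ 62 * (2 * 2 ^ ℓ)
        = (A ^ 20 * (ℓ + 1) ^ (20 * c) * 2 ^ 62 * 2) * 2 ^ ℓ := by ring
      _ < 2 ^ ℓ * 2 ^ ℓ := Nat.mul_lt_mul_of_pos_right e7 e6
  exact lt_of_pow_lt_pow_left₀ 2 (by positivity) h7

theorem coef (d c ℓ w p : ℕ) (hw : w ≤ (100 * (ℓ + 1)) ^ c + 1) :
    6 * (p + 1) * (3 * (2 ^ d * (p + d + 4) + w) + 1) ≤
      (p + 2) ^ 2 * (6 * (3 * 2 ^ d * (d + 3) + 3 * 100 ^ c + 4) * (ℓ + 1) ^ c) := by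
  have hL : 1 ≤ (ℓ + 1) ^ c := Nat.one_le_pow _ _ (by omega)
  rw [mul_pow] at hw
  set L := (ℓ + 1) ^ c with hLd
  set H := 100 ^ c with hH
  set D := 2 ^ d with hD
  have h1 : p + d + 4 ≤ (p + 2) * (d + 3) := by nlinarith
  have h2 : D * (p + d + 4) ≤ (p + 2) * (D * (d + 3)) * L := by
    calc D * (p + d + 4) ≤ D * ((p + 2) * (d + 3)) := Nat.mul_le_mul_left _ h1
      _ = (p + 2) * (D * (d + 3)) * 1 := by ring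
      _ ≤ (p + 2) * (D * (d + 3)) * L := Nat.mul_le_mul_left _ hL
  have h3 : 3 * w + 1 ≤ (p + 2) * (3 * H + 4) * L := by
    have h4 : 3 * w + 1 ≤ 3 * (H * L) + 4 := by omega
    have h5 : 3 * (H * L) + 4 ≤ (3 * H + 4) * L := by nlinarith
    have h6 : (3 * H + 4) * L ≤ (p + 2) * (3 * H + 4) * L := by
      have : 1 * ((3 * H + 4) * L) ≤ (p + 2) * ((3 * H + 4) * L) :=
        Nat.mul_le_mul_right _ (by omega)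
      linarith [mul_assoc (p + 2) (3 * H + 4) L]
    omega
  have h7 : 3 * (D * (p + d + 4) + w) + 1 ≤
      (p + 2) * ((3 * D * (d + 3) + 3 * H + 4) * L) := by
    have e : (p + 2) * ((3 * D * (d + 3) + 3 * H + 4) * L) =
        3 * ((p + 2) * (D * (d + 3)) * L) + (p + 2) * (3 * H + 4) * L := by ring
    rw [e]
    omega
  calc 6 * (p + 1) * (3 * (D * (p + d + 4) + w) + 1)
      ≤ 6 * (p + 2) * ((p + 2) * ((3 * D * (d + 3) + 3 * H + 4) * L)) :=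
        Nat.mul_le_mul (by omega) h7
    _ = _ := by ring

theorem fin (ℓ p X s : ℕ) (h1 : 2 ^ ℓ < (p + 2) ^ 2 * X) (h2 : X ^ 10 * 2 ^ (31 + s) < 2 ^ ℓ)
    (hcon : (p + 2) ^ 20 < 2 ^ (9 * (ℓ + 1) + 22) * 2 ^ s) : False := by
  have h3 : (2 ^ ℓ) ^ 10 < ((p + 2) ^ 2 * X) ^ 10 := Nat.pow_lt_pow_left h1 (by norm_num)
  have h4 : ((p + 2) ^ 2 * X) ^ 10 = (p + 2) ^ 20 * X ^ 10 := by
    rw [mul_pow, ← pow_mul]
  have h5 : (p + 2) ^ 20 * X ^ 10 ≤ 2 ^ (9 * (ℓ + 1) + 22) * 2 ^ s * X ^ 10 :=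
    Nat.mul_le_mul_right _ hcon.le
  have h6 : 2 ^ (9 * (ℓ + 1) + 22) * 2 ^ s * X ^ 10 = 2 ^ (9 * ℓ) * (X ^ 10 * 2 ^ (31 + s)) := by
    rw [show 9 * (ℓ + 1) + 22 = 9 * ℓ + 31 by ring, pow_add 2 (9 * ℓ) 31, pow_add 2 31 s]
    generalize X ^ 10 = Y
    ring
  have h7 : 2 ^ (9 * ℓ) * (X ^ 10 * 2 ^ (31 + s)) < 2 ^ (9 * ℓ) * 2 ^ ℓ :=
    Nat.mul_lt_mul_of_pos_left h2 (by positivity)
  have h8 : 2 ^ (9 * ℓ) * 2 ^ ℓ = (2 ^ ℓ) ^ 10 := by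
    rw [← pow_add, ← pow_mul]
    congr 1
    ring
  rw [h8] at h7
  rw [h4] at h3
  rw [h6] at h5
  exact absurd (h3.trans_le (h5.trans h7.le)) (lt_irrefl _)

end N4_aux

theorem tN4 : sN4 := by
  intro d c
  obtain ⟨ℓ₀, h₀⟩ := N4_aux.poly (6 * (3 * 2 ^ d * (d + 3) + 3 * 100 ^ c + 4)) c
  refine ⟨ℓ₀, fun ℓ hℓ w hw p hp => ?_⟩
  by_contra hcon
  have hcon2 := not_le.1 hcon
  have h1 := lt_of_lt_of_le hp (N4_aux.coef d c ℓ w p hw)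
  have h2 := h₀ ℓ hℓ
  exact N4_aux.fin ℓ p _ _ h1 h2 hcon2

end Pool.Agent.CD
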