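import Pool.Agent.Lib.CD.SpecB
import Pool.Agent.Lib.CD.N4

/-!
Module N2 of theorem CD (note 5285): exponents, MA against AM.
-/

set_option autoImplicit false

namespace Pool.Agent.CD

open Finset

namespace N2_aux

theorem poly (A c : ℕ) : ∃ ℓ₀ : ℕ, ∀ ℓ ≥ ℓ₀,
    (A * (ℓ + 1) ^ c) ^ 11 * 2 ^ (44 + 2 * Nat.sqrt (ℓ + 1)) < 2 ^ ℓ := by
  have hK : (0 : ℝ) < (A : ℝ) ^ 22 * 2 ^ 90 + 1 := by positivity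
  have h := tendsto_pow_const_div_const_pow_of_one_lt (22 * c) (one_lt_two (α := ℝ))
  have h2 := h.eventually (gt_mem_nhds (show (0 : ℝ) < 1 / ((A : ℝ) ^ 22 * 2 ^ 90 + 1) by
    positivity))
  obtain ⟨N, hN⟩ := Filter.eventually_atTop.1 h2
  refine ⟨N + 16, fun ℓ hℓ => ?_⟩
  have h3 := hN (ℓ + 1) (by omega)
  rw [div_lt_div_iff₀ (by positivity) hK, one_mul] at h3
  have h4 : A ^ 22 * (ℓ + 1) ^ (22 * c) * 2 ^ 90 < 2 ^ (ℓ + 1) := by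
    have h5 : ((A ^ 22 * (ℓ + 1) ^ (22 * c) * 2 ^ 90 : ℕ) : ℝ) < ((2 ^ (ℓ + 1) : ℕ) : ℝ) := by
      push_cast
      push_cast at h3
      have h6 : (0 : ℝ) ≤ ((ℓ : ℝ) + 1) ^ (22 * c) := by positivity
      nlinarith
    exact_mod_cast h5
  set s := Nat.sqrt (ℓ + 1) with hs
  have hs2 : 4 * s ≤ ℓ + 1 := by
    have h5 : s * s ≤ ℓ + 1 := Nat.sqrt_le (ℓ + 1)
    have h6 : 4 ≤ s := by
      rw [hs, Nat.le_sqrt]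
      omega
    nlinarith
  have h7 : ((A * (ℓ + 1) ^ c) ^ 11 * 2 ^ (44 + 2 * s)) ^ 2 < (2 ^ ℓ) ^ 2 := by
    have e1 : ((A * (ℓ + 1) ^ c) ^ 11 * 2 ^ (44 + 2 * s)) ^ 2 =
        A ^ 22 * (ℓ + 1) ^ (22 * c) * 2 ^ 88 * 2 ^ (4 * s) := by
      rw [mul_pow, ← pow_mul, mul_pow, ← pow_mul, ← pow_mul,
        show (44 + 2 * s) * 2 = 88 + 4 * s by ring, pow_add 2 88 (4 * s),
        show c * (11 * 2) = 22 * c by ring]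
      ring
    have e2 : ((2 : ℕ) ^ ℓ) ^ 2 = 2 ^ ℓ * 2 ^ ℓ := by ring
    have e3 : (2 : ℕ) ^ (4 * s) ≤ 2 ^ (ℓ + 1) := Nat.pow_le_pow_right (by norm_num) hs2
    have e4 : (2 : ℕ) ^ (ℓ + 1) = 2 * 2 ^ ℓ := by ring
    rw [e1, e2]
    have e5 : A ^ 22 * (ℓ + 1) ^ (22 * c) * 2 ^ 88 * 2 ^ (4 * s) ≤
        A ^ 22 * (ℓ + 1) ^ (22 * c) * 2 ^ 88 * 2 ^ (ℓ + 1) := Nat.mul_le_mul_left _ e3
    refine lt_of_le_of_lt e5 ?_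
    rw [e4] at h4 ⊢
    have e6 : (0 : ℕ) < 2 ^ ℓ := by positivity
    have e7 : A ^ 22 * (ℓ + 1) ^ (22 * c) * 2 ^ 88 * 2 < 2 ^ ℓ := by
      have e8 : (2 : ℕ) ^ 90 = 2 ^ 88 * 4 := by norm_num
      rw [e8] at h4
      nlinarith
    calc A ^ 22 * (ℓ + 1) ^ (22 * c) * 2 ^ 88 * (2 * 2 ^ ℓ)
        = (A ^ 22 * (ℓ + 1) ^ (22 * c) * 2 ^ 88 * 2) * 2 ^ ℓ := by ring
      _ < 2 ^ ℓ * 2 ^ ℓ := Nat.mul_lt_mul_of_pos_right e7 e6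
  exact lt_of_pow_lt_pow_left₀ 2 (by positivity) h7

theorem fin (ℓ p X s : ℕ) (h1 : 2 ^ ℓ < (p + 2) ^ 2 * X)
    (h2 : X ^ 11 * 2 ^ (44 + 2 * s) < 2 ^ ℓ)
    (hcon : (p + 2) ^ 11 < 2 ^ (5 * (ℓ + 1) + 17) * 2 ^ s) : False := by
  have h3 : (2 ^ ℓ) ^ 11 < ((p + 2) ^ 2 * X) ^ 11 := Nat.pow_lt_pow_left h1 (by norm_num)
  have h4 : ((p + 2) ^ 2 * X) ^ 11 = ((p + 2) ^ 11) ^ 2 * X ^ 11 := by
    rw [mul_pow, ← pow_mul, ← pow_mul]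
  have h4' : ((p + 2) ^ 11) ^ 2 ≤ (2 ^ (5 * (ℓ + 1) + 17) * 2 ^ s) ^ 2 :=
    Nat.pow_le_pow_left hcon.le 2
  have h5 : ((p + 2) ^ 11) ^ 2 * X ^ 11 ≤ (2 ^ (5 * (ℓ + 1) + 17) * 2 ^ s) ^ 2 * X ^ 11 :=
    Nat.mul_le_mul_right _ h4'
  have h6 : (2 ^ (5 * (ℓ + 1) + 17) * 2 ^ s) ^ 2 * X ^ 11 =
      2 ^ (10 * ℓ) * (X ^ 11 * 2 ^ (44 + 2 * s)) := by
    rw [← pow_add, ← pow_mul, show (5 * (ℓ + 1) + 17 + s) * 2 = 10 * ℓ + (44 + 2 * s) by ring,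
      pow_add 2 (10 * ℓ) (44 + 2 * s)]
    generalize X ^ 11 = Y
    ring
  have h7 : 2 ^ (10 * ℓ) * (X ^ 11 * 2 ^ (44 + 2 * s)) < 2 ^ (10 * ℓ) * 2 ^ ℓ :=
    Nat.mul_lt_mul_of_pos_left h2 (by positivity)
  have h8 : 2 ^ (10 * ℓ) * 2 ^ ℓ = (2 ^ ℓ) ^ 11 := by
    rw [← pow_add, ← pow_mul]
    congr 1
    ring
  rw [h8] at h7
  rw [h4] at h3
  rw [h6] at h5
  exact absurd (h3.trans_le (h5.trans h7.le)) (lt_irrefl _)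

end N2_aux

theorem tN2 : sN2 := by
  intro d c
  obtain ⟨ℓ₀, h₀⟩ := N2_aux.poly (6 * (3 * 2 ^ d * (d + 3) + 3 * 100 ^ c + 4)) c
  refine ⟨ℓ₀, fun ℓ hℓ w hw p hp => ?_⟩
  by_contra hcon
  have hcon2 := not_le.1 hcon
  have hp2 : 2 ^ ℓ < 6 * (p + 1) * (3 * (2 ^ d * (p + d + 4) + w) + 1) :=
    lt_of_lt_of_le hp (Nat.mul_le_mul_right _ (by omega))
  have h1 := lt_of_lt_of_le hp2 (N4_aux.coef d c ℓ w p hw)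
  have h2 := h₀ ℓ hℓ
  exact N2_aux.fin ℓ p _ _ h1 h2 hcon2

end Pool.Agent.CD
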