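import Pool.Agent.Lib.CD.SpecB

/-!
PROJECT CD, module N3: exponents, SBP and PP against AM
-/

set_option autoImplicit false

namespace Pool.Agent.CD

open Finset Pool.Agent.Lib.MP_ff3ed7_lc Pool.Agent.Lib.MP_ff3ed7_lc.B

namespace N3_aux

/-- polynomials against exponentials -/
theorem ev (A k : ℕ) : ∃ n0 : ℕ, ∀ n ≥ n0, A * n ^ k ≤ 2 ^ n := by
  have ht := tendsto_pow_const_div_const_pow_of_one_lt k (one_lt_two : (1 : ℝ) < 2)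
  have hpos : (0 : ℝ) < 1 / ((A : ℝ) + 1) := by positivity
  obtain ⟨n0, hn0⟩ := Filter.eventually_atTop.1 (ht.eventually (gt_mem_nhds hpos))
  refine ⟨n0, fun n hn => ?_⟩
  have h := hn0 n hn
  rw [div_lt_div_iff₀ (by positivity) (by positivity)] at h
  have h2 : (A : ℝ) * (n : ℝ) ^ k ≤ 2 ^ n := by
    have : (0 : ℝ) ≤ (n : ℝ) ^ k := by positivity
    nlinarith
  exact_mod_cast h2

theorem sq (m : ℕ) (hm : 4 ≤ m) : 2 * Nat.sqrt m ≤ m := by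
  have h := Nat.sqrt_le m
  by_contra hc
  have h1 : Nat.sqrt m < 2 := by nlinarith
  omega

/-- the main comparison -/
theorem cmp (X ℓ : ℕ) (h4 : 4 ≤ ℓ + 1) (hX : 4 * X ^ 2 ≤ 2 ^ (ℓ + 1)) :
    X * 2 ^ Nat.sqrt (ℓ + 1) ≤ 2 ^ ℓ := by
  have h1 : (2 ^ Nat.sqrt (ℓ + 1)) ^ 2 ≤ 2 ^ (ℓ + 1) := by
    rw [← pow_mul, mul_comm]
    exact Nat.pow_le_pow_right (by norm_num) (sq _ h4)
  have h2 : 4 * (X * 2 ^ Nat.sqrt (ℓ + 1)) ^ 2 ≤ 4 * (2 ^ ℓ) ^ 2 := by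
    calc 4 * (X * 2 ^ Nat.sqrt (ℓ + 1)) ^ 2 = 4 * X ^ 2 * (2 ^ Nat.sqrt (ℓ + 1)) ^ 2 := by ring
      _ ≤ 2 ^ (ℓ + 1) * 2 ^ (ℓ + 1) := Nat.mul_le_mul hX h1
      _ = 4 * (2 ^ ℓ) ^ 2 := by ring
  have h3 : (X * 2 ^ Nat.sqrt (ℓ + 1)) ^ 2 ≤ (2 ^ ℓ) ^ 2 := by omega
  exact (Nat.pow_le_pow_iff_left (by norm_num)).1 h3

end N3_aux

theorem tN3 : sN3 := by
  intro d c
  obtain ⟨K, hK⟩ : ∃ K : ℕ, K = 18 * (2 ^ d * (d + 3) + 100 ^ c + 1) := ⟨_, rfl⟩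
  obtain ⟨n0, hn0⟩ := N3_aux.ev (4 * (2 ^ 22 * K ^ 6) ^ 2) (12 * c)
  refine ⟨max n0 3, fun ℓ hℓ w hw s hs => ?_⟩
  have hℓ1 : n0 ≤ ℓ + 1 := ((le_max_left n0 3).trans hℓ).trans (Nat.le_succ ℓ)
  have hℓ2 : 4 ≤ ℓ + 1 := Nat.succ_le_succ ((le_max_right n0 3).trans hℓ)
  have hp : 1 ≤ (ℓ + 1) ^ c := Nat.one_le_pow _ _ (by omega)
  have h1 : 2 ^ ℓ ≤ (s + 2) * (K * (ℓ + 1) ^ c) := by
    refine hs.le.trans ?_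
    rw [mul_pow] at hw
    have e1 : s + d + 4 ≤ (s + 2) * (d + 3) := by nlinarith
    have e2 : 2 ^ d * (s + d + 4) ≤ (s + 2) * (2 ^ d * (d + 3) * (ℓ + 1) ^ c) := by
      calc 2 ^ d * (s + d + 4) ≤ 2 ^ d * ((s + 2) * (d + 3)) := Nat.mul_le_mul_left _ e1
        _ = (s + 2) * (2 ^ d * (d + 3) * 1) := by ring
        _ ≤ (s + 2) * (2 ^ d * (d + 3) * (ℓ + 1) ^ c) :=
            Nat.mul_le_mul_left _ (Nat.mul_le_mul_left _ hp)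
    have e3 : w ≤ (s + 2) * ((100 ^ c + 1) * (ℓ + 1) ^ c) := by
      calc w ≤ 100 ^ c * (ℓ + 1) ^ c + 1 := hw
        _ ≤ 100 ^ c * (ℓ + 1) ^ c + (ℓ + 1) ^ c := Nat.add_le_add_left hp _
        _ = 1 * ((100 ^ c + 1) * (ℓ + 1) ^ c) := by ring
        _ ≤ (s + 2) * ((100 ^ c + 1) * (ℓ + 1) ^ c) := Nat.mul_le_mul_right _ (by omega)
    calc 9 * (2 * (2 ^ d * (s + d + 4) + w))
        ≤ 9 * (2 * ((s + 2) * (2 ^ d * (d + 3) * (ℓ + 1) ^ c) +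
          (s + 2) * ((100 ^ c + 1) * (ℓ + 1) ^ c))) :=
          Nat.mul_le_mul_left _ (Nat.mul_le_mul_left _ (Nat.add_le_add e2 e3))
      _ = (s + 2) * (K * (ℓ + 1) ^ c) := by
          rw [hK]
          ring
  have h2 : (2 ^ ℓ) ^ 6 ≤ ((s + 2) * (K * (ℓ + 1) ^ c)) ^ 6 := Nat.pow_le_pow_left h1 6
  have h4 : 2 ^ 22 * K ^ 6 * (ℓ + 1) ^ (6 * c) * 2 ^ Nat.sqrt (ℓ + 1) ≤ 2 ^ ℓ := by
    refine N3_aux.cmp _ ℓ hℓ2 ?_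
    refine le_trans (le_of_eq ?_) (hn0 (ℓ + 1) hℓ1)
    rw [show 12 * c = 6 * c * 2 by ring, pow_mul (ℓ + 1) (6 * c) 2]
    ring
  have h3 : 2 ^ (5 * (ℓ + 1) + 17) * 2 ^ Nat.sqrt (ℓ + 1) * (K * (ℓ + 1) ^ c) ^ 6 ≤
      (2 ^ ℓ) ^ 6 := by
    calc 2 ^ (5 * (ℓ + 1) + 17) * 2 ^ Nat.sqrt (ℓ + 1) * (K * (ℓ + 1) ^ c) ^ 6
        = 2 ^ (5 * ℓ) * (2 ^ 22 * K ^ 6 * (ℓ + 1) ^ (6 * c) * 2 ^ Nat.sqrt (ℓ + 1)) := by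
          rw [show 5 * (ℓ + 1) + 17 = 5 * ℓ + 22 by ring, pow_add, mul_pow, ← pow_mul (ℓ + 1) c 6,
            mul_comm c 6]
          ring
      _ ≤ 2 ^ (5 * ℓ) * 2 ^ ℓ := Nat.mul_le_mul_left _ h4
      _ = (2 ^ ℓ) ^ 6 := by ring
  have hK0 : 0 < K := by
    rw [hK]
    positivity
  have hpos : 0 < (K * (ℓ + 1) ^ c) ^ 6 := by positivity
  refine Nat.le_of_mul_le_mul_right (h3.trans (h2.trans_eq ?_)) hpos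
  exact mul_pow _ _ _

end Pool.Agent.CD
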