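import Pool.Agent.Lib.CD.SpecB

/-!
CD, section 7, module P2: a language with SBP verifiers and without MA verifiers.
-/

set_option autoImplicit false

namespace Pool.Agent.CD

open Finset Pool.Agent.Lib.MP_ff3ed7_lc Pool.Agent.Lib.MP_ff3ed7_lc.B

namespace P2_aux

lemma ckt_false {κ : Type} (d : ℕ) : IsCkt d 1 (fun _ : κ → Bool => false) := by
  refine ⟨fun _ _ _ => false, ?_, ?_, 0, Nat.one_pos, fun _ => rfl⟩
  · intro j _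
    exact ⟨∅, by simp, fun _ _ _ => rfl⟩
  · intro i _ j _
    exact ⟨∅, fun _ => true, true, by simp, by simp⟩

lemma sbu_false {κ : Type} (d : ℕ) : HasSBu (fun _ : κ → Bool => false) 0 0 d 1 := by
  refine ⟨fun _ => false, ckt_false d, ?_, ?_⟩
  · intro x hx
    exact absurd hx (by simp)
  · intro x _
    simp [prob]

/-- bound of the number of coins -/
lemma small (l g : ℕ) (h : l ≤ g) :
    10 * l + 24 + 10 * 2 ^ Nat.sqrt l ≤ 2 ^ (1064 * (Nat.sqrt g + 1)) := by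
  have h1 : Nat.sqrt l ≤ Nat.sqrt g := Nat.sqrt_le_sqrt h
  have h2 : l < (Nat.sqrt l + 1) * (Nat.sqrt l + 1) := Nat.lt_succ_sqrt l
  have h3 : (Nat.sqrt l + 1) * (Nat.sqrt l + 1) ≤ (Nat.sqrt g + 1) * (Nat.sqrt g + 1) :=
    Nat.mul_le_mul (by omega) (by omega)
  have h4 : Nat.sqrt g + 1 ≤ 2 ^ Nat.sqrt g := Nat.lt_two_pow_self
  have h5 : (Nat.sqrt g + 1) * (Nat.sqrt g + 1) ≤ 2 ^ Nat.sqrt g * 2 ^ Nat.sqrt g :=
    Nat.mul_le_mul h4 h4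
  have h6 : 2 ^ Nat.sqrt l ≤ 2 ^ Nat.sqrt g := Nat.pow_le_pow_right (by norm_num) h1
  have h7 : 2 ^ Nat.sqrt g ≤ 2 ^ Nat.sqrt g * 2 ^ Nat.sqrt g :=
    Nat.le_mul_of_pos_left _ (by positivity)
  have h8 : 1 ≤ 2 ^ Nat.sqrt g * 2 ^ Nat.sqrt g := Nat.one_le_iff_ne_zero.2 (by positivity)
  have h9 : 10 * l + 24 + 10 * 2 ^ Nat.sqrt l ≤ 64 * (2 ^ Nat.sqrt g * 2 ^ Nat.sqrt g) := by
    omega
  have h10 : 64 * (2 ^ Nat.sqrt g * 2 ^ Nat.sqrt g) = 2 ^ (6 + 2 * Nat.sqrt g) := by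
    rw [pow_add, two_mul, pow_add]
    norm_num
  rw [h10] at h9
  refine h9.trans (Nat.pow_le_pow_right (by norm_num) ?_)
  omega

/-- bound of the size -/
lemma size (l n k N : ℕ) (hk : 1 ≤ k) (hn : 2 ^ (9 * l + 19) ≤ n) (h : n * k ≤ N) :
    2 ^ (10 * l + 24 + 20) + 1000 * (n + 1) * (k + 1) ≤ 1064 * (N + 1) ^ 1064 := by
  have hn1 : 1 ≤ n := le_trans Nat.one_le_two_pow hn
  have h1 : n ≤ N := le_trans (Nat.le_mul_of_pos_right _ hk) h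
  have h2 : k ≤ N := le_trans (Nat.le_mul_of_pos_left _ hn1) h
  have h3 : 2 ^ (9 * l + 19) ≤ N + 1 := by omega
  have h4 : 2 ^ (10 * l + 24 + 20) ≤ 64 * (N + 1) ^ 2 := by
    calc 2 ^ (10 * l + 24 + 20) ≤ 2 ^ (6 + (9 * l + 19) * 2) :=
          Nat.pow_le_pow_right (by norm_num) (by omega)
      _ = 64 * (2 ^ (9 * l + 19)) ^ 2 := by
          rw [pow_add, pow_mul]
          norm_num
      _ ≤ 64 * (N + 1) ^ 2 := Nat.mul_le_mul_left _ (Nat.pow_le_pow_left h3 2)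
  have h5 : 1000 * (n + 1) * (k + 1) ≤ 1000 * (N + 1) ^ 2 := by
    have : (n + 1) * (k + 1) ≤ (N + 1) * (N + 1) := Nat.mul_le_mul (by omega) (by omega)
    rw [sq, mul_assoc]
    exact Nat.mul_le_mul_left _ this
  have h6 : (N + 1) ^ 2 ≤ (N + 1) ^ 1064 := Nat.pow_le_pow_right (Nat.succ_pos N) (by norm_num)
  calc 2 ^ (10 * l + 24 + 20) + 1000 * (n + 1) * (k + 1)
      ≤ 64 * (N + 1) ^ 2 + 1000 * (N + 1) ^ 2 := Nat.add_le_add h4 h5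
    _ = 1064 * (N + 1) ^ 2 := by rw [← add_mul]
    _ ≤ 1064 * (N + 1) ^ 1064 := Nat.mul_le_mul_left _ h6

lemma lang_pos (B n : ℕ → ℕ) (f : (ℓ : ℕ) → (Fin (n ℓ) → Bool) → Bool) (N : ℕ)
    (h : n (lof B N) * 2 ^ Nat.sqrt (lof B N) ≤ N) :
    Lang B n f N = fun x => f (lof B N)
      (xk fun a : Fin (n (lof B N)) × Fin (2 ^ Nat.sqrt (lof B N)) =>
        x (Fin.castLE h (finProdFinEquiv a))) := by
  funext x
  unfold Lang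
  rw [dif_pos h]

lemma lang_neg (B n : ℕ → ℕ) (f : (ℓ : ℕ) → (Fin (n ℓ) → Bool) → Bool) (N : ℕ)
    (h : ¬ n (lof B N) * 2 ^ Nat.sqrt (lof B N) ≤ N) :
    Lang B n f N = fun _ => false := by
  funext x
  unfold Lang
  rw [dif_neg h]

lemma log_le (l N : ℕ) (h : N < 2 ^ (9 * (l + 1) + 22) * 2 ^ Nat.sqrt (l + 1)) :
    Nat.log 2 N ≤ 100 * (l + 1) := by
  rw [← pow_add] at h
  have h1 : Nat.log 2 N < 9 * (l + 1) + 22 + Nat.sqrt (l + 1) :=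
    Nat.log_lt_of_lt_pow' (by omega) h
  have h2 : Nat.sqrt (l + 1) ≤ l + 1 := Nat.sqrt_le_self _
  omega

end P2_aux

open P2_aux in
theorem tP2 : sSub → sTrL → sTrU → sLof → sN1 → sN4 → sTMA → sUpS → sBas → sP2 := by
  intro _ hTrL hTrU hLof hN1 hN4 hTMA hUpS hBas
  have hb := fun ℓ => (hBas ℓ).1
  choose n f hn1 hn2 hf1 hf2 using hb
  have hB : ∀ ℓ : ℕ, 2 ^ ℓ ≤ (fun ℓ : ℕ => 2 ^ (9 * ℓ + 22)) ℓ := fun ℓ =>
    Nat.pow_le_pow_right (by norm_num) (by omega)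
  refine ⟨Lang (fun ℓ : ℕ => 2 ^ (9 * ℓ + 22)) n f, 1064, ?_, ?_⟩
  · intro N
    obtain ⟨hl, -, -⟩ := hLof (fun ℓ : ℕ => 2 ^ (9 * ℓ + 22)) N hB
    by_cases h : n (lof (fun ℓ : ℕ => 2 ^ (9 * ℓ + 22)) N) *
        2 ^ Nat.sqrt (lof (fun ℓ : ℕ => 2 ^ (9 * ℓ + 22)) N) ≤ N
    · rw [lang_pos _ n f N h]
      generalize lof (fun ℓ : ℕ => 2 ^ (9 * ℓ + 22)) N = ℓ at hl h
      have hk : 1 ≤ 2 ^ Nat.sqrt ℓ := Nat.one_le_two_pow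
      have h1 := hUpS (n ℓ) (2 ^ Nat.sqrt ℓ) (10 * ℓ + 24) (9 * ℓ + 24) (f ℓ) hk (hf1 ℓ)
      have h2 := (hTrU (Fin (n ℓ) × Fin (2 ^ Nat.sqrt ℓ)) (Fin N)
        (fun a => Fin.castLE h (finProdFinEquiv a)) (fun x => f ℓ (xk x)) _ _ _ _).2 h1
      have h3 := small ℓ (Nat.log 2 N) hl
      exact ⟨_, _, _, h3, le_trans (by omega) h3,
        size ℓ (n ℓ) (2 ^ Nat.sqrt ℓ) N hk (hn1 ℓ) h, h2⟩
    · rw [lang_neg _ n f N h]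
      refine ⟨0, 0, 1, Nat.zero_le _, Nat.zero_le _, ?_, sbu_false 3⟩
      exact Nat.one_le_iff_ne_zero.2 (by positivity)
  · intro d c
    obtain ⟨ℓ₁, h1⟩ := hN1 d c
    obtain ⟨ℓ₂, h2⟩ := hN4 d c
    refine ⟨max (2 ^ 22) (2 ^ (9 * max ℓ₁ ℓ₂ + 22) * 2 ^ Nat.sqrt (max ℓ₁ ℓ₂)), ?_⟩
    intro N hN S hS p H
    obtain ⟨-, hl2, hl3⟩ := hLof (fun ℓ : ℕ => 2 ^ (9 * ℓ + 22)) N hB
    have hl4 := hl3 (max ℓ₁ ℓ₂) (le_trans (le_max_right _ _) hN)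
    obtain ⟨hl5, hl6⟩ := hl2 (le_trans (le_max_left _ _) hN)
    have h : n (lof (fun ℓ : ℕ => 2 ^ (9 * ℓ + 22)) N) *
        2 ^ Nat.sqrt (lof (fun ℓ : ℕ => 2 ^ (9 * ℓ + 22)) N) ≤ N :=
      le_trans (Nat.mul_le_mul_right _ (hn2 _)) hl5
    rw [lang_pos _ n f N h] at H
    generalize lof (fun ℓ : ℕ => 2 ^ (9 * ℓ + 22)) N = ℓ at h hl4 hl5 hl6 H
    have hinj : Function.Injective
        (fun a : Fin (n ℓ) × Fin (2 ^ Nat.sqrt ℓ) => Fin.castLE h (finProdFinEquiv a)) := by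
      intro a b hab
      exact finProdFinEquiv.injective (Fin.castLE_injective h hab)
    have H1 := (hTrL (Fin (n ℓ) × Fin (2 ^ Nat.sqrt ℓ)) (Fin N) _ hinj
      (fun x => f ℓ (xk x)) p d S).1 H
    have hlog : Nat.log 2 N ≤ 100 * (ℓ + 1) := log_le ℓ N hl6
    have hw : Nat.log 2 N ^ c + 1 ≤ (100 * (ℓ + 1)) ^ c + 1 :=
      Nat.add_le_add_right (Nat.pow_le_pow_left hlog c) 1
    have hS2 : S ≤ 2 ^ (Nat.log 2 N ^ c + 1) :=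
      le_trans hS (Nat.pow_le_pow_right (by norm_num) (Nat.le_succ _))
    have hb := h1 ℓ (le_trans (le_max_left _ _) hl4) (n ℓ) (hn2 ℓ) (Nat.log 2 N ^ c + 1) hw
    have H2 := hTMA (n ℓ) (2 ^ Nat.sqrt ℓ) p d S (Nat.log 2 N ^ c + 1) (f ℓ)
      (Nat.le_add_left 1 _) hS2 hb H1
    have H3 := h2 ℓ (le_trans (le_max_right _ _) hl4) (Nat.log 2 N ^ c + 1) hw p (hf2 ℓ _ _ H2)
    exact lt_of_lt_of_le hl6 H3

end Pool.Agent.CD
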