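import Pool.Agent.Lib.CD.SpecD

/-!
P3: the language with AM verifiers which is hard for `Σ₂` (constant depth verifiers).
-/

set_option autoImplicit false

namespace Pool.Agent.CD

open Finset Pool.Agent.Lib.MP_ff3ed7_lc Pool.Agent.Lib.MP_ff3ed7_lc.B

namespace P3_aux

theorem mess_le (C a : ℕ) :
    C * (a + 1) + 10 * 2 ^ Nat.sqrt a ≤ 2 ^ ((C + 20) * (Nat.sqrt a + 1)) := by
  obtain ⟨s, hs⟩ : ∃ s, s = Nat.sqrt a + 1 := ⟨_, rfl⟩
  have h1 : a + 1 ≤ s * s := by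
    have := Nat.lt_succ_sqrt a
    rw [hs]
    exact this
  have h2 : s ≤ 2 ^ s := Nat.lt_two_pow_self.le
  have h3 : C ≤ 2 ^ C := Nat.lt_two_pow_self.le
  have h4 : a + 1 ≤ 2 ^ s * 2 ^ s := h1.trans (Nat.mul_le_mul h2 h2)
  have h5 : C * (a + 1) ≤ 2 ^ (C + 2 * s) := by
    calc C * (a + 1) ≤ 2 ^ C * (2 ^ s * 2 ^ s) := Nat.mul_le_mul h3 h4
      _ = 2 ^ (C + 2 * s) := by rw [pow_add, two_mul, pow_add]
  have h6 : 10 * 2 ^ Nat.sqrt a ≤ 2 ^ (4 + s) := by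
    calc 10 * 2 ^ Nat.sqrt a ≤ 2 ^ 4 * 2 ^ s :=
          Nat.mul_le_mul (by norm_num) (Nat.pow_le_pow_right (by norm_num) (by omega))
      _ = 2 ^ (4 + s) := by rw [pow_add]
  have h7 : C + 2 * s + 5 ≤ (C + 20) * s := by
    have : C ≤ C * s := Nat.le_mul_of_pos_right C (by omega)
    rw [add_mul]
    omega
  have h8 : 2 ^ (C + 2 * s) ≤ 2 ^ (C + 2 * s + 4) := Nat.pow_le_pow_right (by norm_num) (by omega)
  have h9 : 2 ^ (4 + s) ≤ 2 ^ (C + 2 * s + 4) := Nat.pow_le_pow_right (by norm_num) (by omega)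
  have h10 : 2 ^ (C + 2 * s + 5) = 2 ^ (C + 2 * s + 4) * 2 := pow_succ 2 (C + 2 * s + 4)
  have h11 : 2 ^ (C + 2 * s + 5) ≤ 2 ^ ((C + 20) * s) := Nat.pow_le_pow_right (by norm_num) h7
  rw [← hs]
  omega

end P3_aux

open P3_aux in
theorem tP3 : sQ3 → sK1 → sK3 → sP3 := by
  intro hQ hK1 hK3
  obtain ⟨L, C, hup, hlow⟩ := hQ Nat.sqrt (fun _ _ h => Nat.sqrt_le_sqrt h) Nat.sqrt_le_self
  refine ⟨L, C + 20, ?_, ?_⟩
  · intro N
    obtain ⟨r, p, S, hr, hp, hS, hA⟩ := hup N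
    refine ⟨r, p, S, hr, hp.trans (mess_le C _), hS.trans ?_, hA⟩
    exact Nat.mul_le_mul (by omega) (Nat.pow_le_pow_right (by omega) (by omega))
  · intro d c
    obtain ⟨N₁, h1⟩ := hK1 d c C
    obtain ⟨N₂, h2⟩ := hK3 d c C
    refine ⟨max N₁ N₂, ?_⟩
    intro N hN S hS p r h
    have hN1 : N₁ ≤ N := le_trans (le_max_left _ _) hN
    have hN2 : N₂ ≤ N := le_trans (le_max_right _ _) hN
    have hS' : S ≤ 2 ^ (Nat.log 2 N ^ c + 1) :=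
      hS.trans (Nat.pow_le_pow_right (by norm_num) (by omega))
    have hres := hlow N d (Nat.log 2 N ^ c + 1) S (by omega) hS' (h1 N hN1 _ le_rfl) p r h
    exact h2 N hN2 _ le_rfl (p + r) hres

end Pool.Agent.CD
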