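import Pool.Agent.Lib.CD.SpecF

/-!
Module P5 of theorem CD (note 5285): the language with AM verifiers, circuits of
subexponential size (helper77).
-/

set_option autoImplicit false

namespace Pool.Agent.CD

open Finset

namespace P5_aux

theorem lin_le (m a : ℕ) (hm : 1 ≤ m) : a + 1 ≤ m * 2 ^ (a / m) := by
  have h1 : a < m * (a / m + 1) := by
    have := Nat.lt_mul_div_succ a (show 0 < m by omega)
    simpa using this
  have h2 : a / m + 1 ≤ 2 ^ (a / m) := Nat.lt_two_pow_self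
  calc a + 1 ≤ m * (a / m + 1) := h1
    _ ≤ m * 2 ^ (a / m) := Nat.mul_le_mul_left _ h2

end P5_aux

open P5_aux in
theorem tP5 : sQ1 → sK5 → sK6 → sK7 → sP5 := by
  intro hQ hK5 hK6 hK7 m hm
  obtain ⟨L, C, hU, hL⟩ := hQ (fun ℓ => ℓ / m) (fun a b h => Nat.div_le_div_right h)
    (fun ℓ => Nat.div_le_self ℓ m)
  obtain ⟨N₁, h1⟩ := hK5 m C (by omega)
  obtain ⟨N₂, h2⟩ := hK6 m C hm
  obtain ⟨N₃, h3⟩ := hK7 m C hm
  refine ⟨L, C * m + 10 + C, fun N => ?_, max N₁ (max N₂ N₃), fun N hN d w S hw hS hc p => ?_⟩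
  · obtain ⟨r, p, S, hr, hp, hS, hA⟩ := hU N
    refine ⟨r, p, S, hr, hp.trans ?_, hS.trans ?_, hA⟩
    · have e1 := lin_le m (Nat.log 2 N) (by omega)
      calc C * (Nat.log 2 N + 1) + 10 * 2 ^ (Nat.log 2 N / m)
          ≤ C * (m * 2 ^ (Nat.log 2 N / m)) + 10 * 2 ^ (Nat.log 2 N / m) :=
            Nat.add_le_add_right (Nat.mul_le_mul_left _ e1) _
        _ = (C * m + 10) * 2 ^ (Nat.log 2 N / m) := by ring
        _ ≤ (C * m + 10 + C) * 2 ^ (Nat.log 2 N / m) := Nat.mul_le_mul_right _ (by omega)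
    · have e2 : C ≤ C * m + 10 + C := by omega
      exact Nat.mul_le_mul e2 (Nat.pow_le_pow_right (by omega) e2)
  · have g1 : N₁ ≤ N := le_trans (le_max_left _ _) hN
    have g2 : N₂ ≤ N := le_trans ((le_max_left _ _).trans (le_max_right _ _)) hN
    have g3 : N₃ ≤ N := le_trans ((le_max_right _ _).trans (le_max_right _ _)) hN
    obtain ⟨k1, k2, k3⟩ := hL N d w S hw hS (h1 N g1 d w hw hc) p
    exact ⟨fun h => h2 N g2 d w hw hc p (k1 h), fun h => h3 N g3 d w hw hc p (k2 h),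
      fun h => h3 N g3 d w hw hc p (k3 h)⟩

end Pool.Agent.CD
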