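import Pool.Agent.Lib.CD.SpecE

/-!
Theorem CD (note 5285): independent blocks of coins.
-/

set_option autoImplicit false

namespace Pool.Agent.CD

open Finset Pool.Agent.Lib.MP_ff3ed7_lc Pool.Agent.Lib.MP_ff3ed7_lc.B

/-- the blocks -/
private def PrA_e (K r : ℕ) : (Fin (K * r) → Bool) ≃ (Fin K → Fin r → Bool) :=
  (Equiv.arrowCongr finProdFinEquiv.symm (Equiv.refl Bool)).trans (Equiv.curry (Fin K) (Fin r) Bool)

private lemma PrA_e_apply (K r : ℕ) (ρ : Fin (K * r) → Bool) (i : Fin K) :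
    PrA_e K r ρ i = sl ρ i := rfl

private lemma PrA_all (K r : ℕ) (E : (Fin r → Bool) → Prop) :
    prob (K * r) (fun ρ => ∀ i : Fin K, E (sl ρ i)) = prob r E ^ K := by
  unfold prob
  have h1 : Nat.card {ρ : Fin (K * r) → Bool // ∀ i : Fin K, E (sl ρ i)} =
      Nat.card {ρ : Fin r → Bool // E ρ} ^ K := by
    have h2 : Nat.card {ρ : Fin (K * r) → Bool // ∀ i : Fin K, E (sl ρ i)} =
        Nat.card (Fin K → {ρ : Fin r → Bool // E ρ}) := by
      refine Nat.card_congr ?_
      refine ((PrA_e K r).subtypeEquiv (q := fun F : Fin K → Fin r → Bool => ∀ i, E (F i))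
        fun ρ => ?_).trans Equiv.subtypePiEquivPi
      simp only [PrA_e_apply]
    rw [h2, Nat.card_fun, Nat.card_fin]
  rw [h1, pow_mul', div_pow]
  push_cast
  rfl

private lemma PrA_not (r : ℕ) (E : (Fin r → Bool) → Prop) :
    prob r (fun ρ => ¬ E ρ) = 1 - prob r E := by
  classical
  unfold prob
  rw [Nat.card_eq_fintype_card, Nat.card_eq_fintype_card, Fintype.card_subtype_compl]
  have h1 : Fintype.card (Fin r → Bool) = 2 ^ r := by simp
  have h2 : Fintype.card {ρ : Fin r → Bool // E ρ} ≤ Fintype.card (Fin r → Bool) :=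
    Fintype.card_subtype_le E
  rw [Nat.cast_sub h2, h1]
  push_cast
  have h3 : (2 : ℝ) ^ r ≠ 0 := by positivity
  field_simp

/-- PrA: independent blocks. -/
theorem tPrA : sPrA := by
  intro K r E
  refine ⟨PrA_all K r E, ?_⟩
  have h1 := PrA_all K r fun ρ => ¬ E ρ
  rw [PrA_not] at h1
  have h2 := PrA_not (K * r) fun ρ => ∃ i : Fin K, E (sl ρ i)
  have h3 : (fun ρ : Fin (K * r) → Bool => ¬ ∃ i : Fin K, E (sl ρ i)) =
      fun ρ => ∀ i : Fin K, ¬ E (sl ρ i) := by
    funext ρ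
    simp only [not_exists]
  rw [h3, h1] at h2
  linarith

end Pool.Agent.CD
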