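import Pool.Agent.Lib.CD.SpecE

/-!
Theorem CD (note 5285), module SA1: from SBP to AM.
-/

set_option autoImplicit false

namespace Pool.Agent.CD

open Finset Pool.Agent.Lib.MP_ff3ed7_lc Pool.Agent.Lib.MP_ff3ed7_lc.B

private theorem SA1_prob_nonneg (r : ℕ) (E : (Fin r → Bool) → Prop) : 0 ≤ prob r E := by
  unfold prob
  positivity

private theorem SA1_prob_one (r : ℕ) (E : (Fin r → Bool) → Prop) (h : ∀ ρ, E ρ) : prob r E = 1 := by
  unfold prob
  have h1 : Nat.card {ρ // E ρ} = 2 ^ r := by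
    rw [Nat.card_congr (Equiv.subtypeUnivEquiv h), Nat.card_eq_fintype_card]
    simp
  rw [h1]
  push_cast
  exact div_self (by positivity)

private theorem SA1_prob_pos (r : ℕ) (E : (Fin r → Bool) → Prop) (h : 0 < prob r E) : ∃ ρ, E ρ := by
  by_contra hcon
  push Not at hcon
  have h1 : Nat.card {ρ // E ρ} = 0 := by
    have : IsEmpty {ρ // E ρ} := ⟨fun ρ => hcon ρ.1 ρ.2⟩
    exact Nat.card_of_isEmpty
  unfold prob at h
  rw [h1] at h
  simp at h

private theorem SA1_prob_congr (r : ℕ) (E E' : (Fin r → Bool) → Prop) (h : ∀ ρ, E ρ ↔ E' ρ) :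
    prob r E = prob r E' := by
  have : E = E' := funext fun ρ => propext (h ρ)
  rw [this]

/-- the input of the copy number `i` of the verifier -/
private def SA1_s {κ : Type} (r j : ℕ) (i : Fin 5)
    (z : κ ⊕ (Fin (5 * r + j * (5 * r)) ⊕ Fin (j * (5 * r) + j)) → Bool) : κ ⊕ Fin r → Bool :=
  Sum.elim (fun k => z (Sum.inl k))
    (fun l => z (Sum.inr (Sum.inl (Fin.castAdd (j * (5 * r)) (finProdFinEquiv (i, l))))))

/-- the input of the hash circuit -/
private def SA1_t {κ : Type} (r j : ℕ)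
    (z : κ ⊕ (Fin (5 * r + j * (5 * r)) ⊕ Fin (j * (5 * r) + j)) → Bool) :
    Fin (5 * r) ⊕ Fin (j * (5 * r)) ⊕ Fin (j * (5 * r) + j) → Bool :=
  Sum.elim (fun l => z (Sum.inr (Sum.inl (Fin.castAdd (j * (5 * r)) l))))
    (Sum.elim (fun l => z (Sum.inr (Sum.inl (Fin.natAdd (5 * r) l))))
      (fun l => z (Sum.inr (Sum.inr l))))

/-- the two parts of the verifier -/
private def SA1_f {κ : Type} (r j : ℕ) (V : (κ ⊕ Fin r → Bool) → Bool)
    (K : (Fin (5 * r) ⊕ Fin (j * (5 * r)) ⊕ Fin (j * (5 * r) + j) → Bool) → Bool) (b : ℕ)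
    (z : κ ⊕ (Fin (5 * r + j * (5 * r)) ⊕ Fin (j * (5 * r) + j)) → Bool) : Bool :=
  if b = 0 then decide (∀ i : ℕ, i < 5 → V (SA1_s r j (Fin.ofNat 5 i) z) = true) else K (SA1_t r j z)

private theorem SA1_ckt (h1 : sSub) (h2 : sCkM) (h3 : sCkA) {κ : Type} (r j d S T : ℕ)
    (V : (κ ⊕ Fin r → Bool) → Bool)
    (K : (Fin (5 * r) ⊕ Fin (j * (5 * r)) ⊕ Fin (j * (5 * r) + j) → Bool) → Bool)
    (hV : IsCkt d S V) (hK : IsCkt 2 T K) :
    IsCkt (d + 4) (2 * (5 * S + 1 + T) + 1)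
      (fun z => decide (∀ b : ℕ, b < 2 → SA1_f r j V K b z = true)) := by
  have hs : ∀ i : Fin 5, IsCkt d S (fun z => V (SA1_s r j i z)) := by
    intro i
    refine h1 _ _ d S V (SA1_s r j i) (fun a => ?_) hV
    rcases a with k | l
    · exact ⟨{Sum.inl k}, by simp, fun x y hxy => hxy _ (Finset.mem_singleton_self _)⟩
    · exact ⟨{Sum.inr (Sum.inl (Fin.castAdd (j * (5 * r)) (finProdFinEquiv (i, l))))}, by simp,
        fun x y hxy => hxy _ (Finset.mem_singleton_self _)⟩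
  have ht : IsCkt 2 T (fun z : κ ⊕ (Fin (5 * r + j * (5 * r)) ⊕ Fin (j * (5 * r) + j)) → Bool =>
      K (SA1_t r j z)) := by
    refine h1 _ _ 2 T K (SA1_t r j) (fun a => ?_) hK
    rcases a with l | l | l
    · exact ⟨{Sum.inr (Sum.inl (Fin.castAdd (j * (5 * r)) l))}, by simp,
        fun x y hxy => hxy _ (Finset.mem_singleton_self _)⟩
    · exact ⟨{Sum.inr (Sum.inl (Fin.natAdd (5 * r) l))}, by simp,
        fun x y hxy => hxy _ (Finset.mem_singleton_self _)⟩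
    · exact ⟨{Sum.inr (Sum.inr l)}, by simp,
        fun x y hxy => hxy _ (Finset.mem_singleton_self _)⟩
  have h0 := h3 _ 5 d S (fun i z => V (SA1_s r j (Fin.ofNat 5 i) z)) (fun i _ => hs _)
  refine h3 _ 2 (d + 3) (5 * S + 1 + T) (fun b z => SA1_f r j V K b z) (fun b hb => ?_)
  interval_cases b
  · have e : (fun z => SA1_f r j V K 0 z) =
        fun z => decide (∀ i : ℕ, i < 5 → V (SA1_s r j (Fin.ofNat 5 i) z) = true) := by
      funext z
      simp only [SA1_f, if_true]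
    show IsCkt (d + 3) (5 * S + 1 + T) (fun z => SA1_f r j V K 0 z)
    rw [e]
    exact h2 _ (d + 1) (d + 3) (5 * S + 1) (5 * S + 1 + T) _ (by omega) (by omega) h0
  · have e : (fun z => SA1_f r j V K 1 z) = fun z => K (SA1_t r j z) := by
      funext z
      simp only [SA1_f, if_neg (one_ne_zero)]
    show IsCkt (d + 3) (5 * S + 1 + T) (fun z => SA1_f r j V K 1 z)
    rw [e]
    exact h2 _ 2 (d + 3) T (5 * S + 1 + T) _ (by omega) (by omega) ht

private theorem SA1_s_elim {κ : Type} (r j : ℕ) (i : Fin 5) (x : κ → Bool)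
    (y : Fin (5 * r + j * (5 * r)) → Bool) (c : Fin (j * (5 * r) + j) → Bool) :
    SA1_s r j i (Sum.elim x (Sum.elim y c)) =
      Sum.elim x (sl (K := 5) (r := r) (fun l => y (Fin.castAdd (j * (5 * r)) l)) i) := by
  funext a
  rcases a with k | l
  · rfl
  · rfl

private theorem SA1_t_elim {κ : Type} (r j : ℕ) (x : κ → Bool)
    (y : Fin (5 * r + j * (5 * r)) → Bool) (c : Fin (j * (5 * r) + j) → Bool) :
    SA1_t r j (Sum.elim x (Sum.elim y c)) =
      Sum.elim (fun l => y (Fin.castAdd (j * (5 * r)) l))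
        (Sum.elim (fun l => y (Fin.natAdd (5 * r) l)) c) := by
  funext a
  rcases a with l | l | l
  · rfl
  · rfl
  · rfl

private theorem SA1_event {κ : Type} (r j : ℕ) (V : (κ ⊕ Fin r → Bool) → Bool)
    (K : (Fin (5 * r) ⊕ Fin (j * (5 * r)) ⊕ Fin (j * (5 * r) + j) → Bool) → Bool)
    (hK : ∀ (ρ : Fin (5 * r) → Bool) (c : Fin (j * (5 * r) + j) → Bool),
      (∃ Y : Fin (j * (5 * r)) → Bool, K (Sum.elim ρ (Sum.elim Y c)) = true) ↔
        ∀ i : Fin j, hsh c ρ i = false) (x : κ → Bool) (c : Fin (j * (5 * r) + j) → Bool) :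
    (∃ y : Fin (5 * r + j * (5 * r)) → Bool,
      decide (∀ b : ℕ, b < 2 → SA1_f r j V K b (Sum.elim x (Sum.elim y c)) = true) = true) ↔
      ∃ ρ : Fin (5 * r) → Bool, (∀ i : Fin 5, V (Sum.elim x (sl ρ i)) = true) ∧
        ∀ i : Fin j, hsh c ρ i = false := by
  have key : ∀ y : Fin (5 * r + j * (5 * r)) → Bool,
      decide (∀ b : ℕ, b < 2 → SA1_f r j V K b (Sum.elim x (Sum.elim y c)) = true) = true ↔
      (∀ i : Fin 5, V (Sum.elim x (sl (K := 5) (r := r)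
        (fun l => y (Fin.castAdd (j * (5 * r)) l)) i)) = true) ∧
        K (Sum.elim (fun l => y (Fin.castAdd (j * (5 * r)) l))
          (Sum.elim (fun l => y (Fin.natAdd (5 * r) l)) c)) = true := by
    intro y
    rw [decide_eq_true_eq]
    constructor
    · intro h
      have h0 := h 0 (by norm_num)
      have h1 := h 1 (by norm_num)
      simp only [SA1_f, if_true, decide_eq_true_eq] at h0
      simp only [SA1_f, if_neg (one_ne_zero)] at h1
      refine ⟨fun i => ?_, ?_⟩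
      · have h2 := h0 i.1 i.2
        rw [SA1_s_elim] at h2
        have h3 : Fin.ofNat 5 i.1 = i := by
          apply Fin.ext
          simp [Fin.ofNat, Nat.mod_eq_of_lt i.2]
        rw [h3] at h2
        exact h2
      · rw [SA1_t_elim] at h1
        exact h1
    · rintro ⟨h0, h1⟩ b hb
      interval_cases b
      · simp only [SA1_f, if_true, decide_eq_true_eq]
        intro i hi
        rw [SA1_s_elim]
        exact h0 _
      · simp only [SA1_f, if_neg (one_ne_zero)]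
        rw [SA1_t_elim]
        exact h1
  constructor
  · rintro ⟨y, hy⟩
    obtain ⟨h0, h1⟩ := (key y).1 hy
    exact ⟨_, h0, (hK _ c).1 ⟨_, h1⟩⟩
  · rintro ⟨ρ, h0, h1⟩
    obtain ⟨Y, hY⟩ := (hK ρ c).2 h1
    refine ⟨Fin.append ρ Y, (key _).2 ?_⟩
    have e1 : (fun l => Fin.append ρ Y (Fin.castAdd (j * (5 * r)) l)) = ρ := by
      funext l
      exact Fin.append_left ρ Y l
    have e2 : (fun l => Fin.append ρ Y (Fin.natAdd (5 * r) l)) = Y := by
      funext l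
      exact Fin.append_right ρ Y l
    rw [e1, e2]
    exact ⟨h0, hY⟩

/-- SA1: from SBP to AM. -/
theorem tSA1 (h1 : sSub) (h2 : sCkM) (h3 : sCkA) (h4 : sPrA) (h5 : sHsh) (h6 : sHaC) : sSA1 := by
  intro κ F r s d S hF
  obtain ⟨V, hV, hyes, hno⟩ := hF
  obtain ⟨j, hj⟩ : ∃ j : ℕ, j = 5 * r + 2 - 5 * s := ⟨_, rfl⟩
  obtain ⟨K, hKc, hK⟩ := h6 (5 * r) j
  refine ⟨j * (5 * r) + j, 5 * r + j * (5 * r),
    2 * (5 * S + 1 + 1000 * (j + 1) * (5 * r + 1)) + 1, ?_, ?_, ?_,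
    fun z => decide (∀ b : ℕ, b < 2 → SA1_f r j V K b z = true), SA1_ckt h1 h2 h3 r j d S _ V K hV hKc, ?_, ?_⟩
  · have hj2 : j ≤ 5 * r + 2 := by omega
    calc j * (5 * r) + j = j * (5 * r + 1) := by ring
      _ ≤ (5 * r + 2) * (5 * r + 1) := Nat.mul_le_mul_right _ hj2
      _ ≤ 1000 * (r + 1) ^ 2 := by nlinarith
  · have hj2 : j ≤ 5 * r + 2 := by omega
    calc 5 * r + j * (5 * r) ≤ 5 * r + (5 * r + 2) * (5 * r) :=
          Nat.add_le_add_left (Nat.mul_le_mul_right _ hj2) _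
      _ ≤ 1000 * (r + 1) ^ 2 := by nlinarith
  · have hj2 : j + 1 ≤ 5 * r + 3 := by omega
    have h7 : 1000 * (j + 1) * (5 * r + 1) ≤ 1000 * (5 * r + 3) * (5 * r + 1) :=
      Nat.mul_le_mul_right _ (Nat.mul_le_mul_left _ hj2)
    nlinarith
  · intro x hx
    have hq := hyes x hx
    obtain ⟨q, hqe⟩ : ∃ q : ℝ, q = prob r (fun ρ => V (Sum.elim x ρ) = true) := ⟨_, rfl⟩
    rw [← hqe] at hq
    have hA : prob (5 * r) (fun ρ => ∀ i : Fin 5, V (Sum.elim x (sl ρ i)) = true) = q ^ 5 := by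
      rw [hqe]
      exact (h4 5 r (fun ρ => V (Sum.elim x ρ) = true)).1
    rw [SA1_prob_congr _ _ _ (SA1_event r j V K hK x)]
    have hs0 : (0 : ℝ) < (1 / 2) ^ s := by positivity
    have hq0 : 0 < q := by linarith
    have hApos : 0 < prob (5 * r) (fun ρ => ∀ i : Fin 5, V (Sum.elim x (sl ρ i)) = true) := by
      rw [hA]
      positivity
    rcases Nat.eq_zero_or_pos j with hj0 | hj0
    · obtain ⟨ρ, hρ⟩ := SA1_prob_pos _ _ hApos
      rw [SA1_prob_one]
      · norm_num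
      · intro c
        refine ⟨ρ, hρ, fun i => ?_⟩
        have := i.2
        omega
    · have h7 := (h5 (5 * r) j (fun ρ => ∀ i : Fin 5, V (Sum.elim x (sl ρ i)) = true)).2 hApos
      refine le_trans ?_ h7
      rw [hA]
      have hq5 : (2 * (1 / 2) ^ s) ^ 5 ≤ q ^ 5 := pow_le_pow_left₀ (by positivity) hq 5
      have h8 : (2 : ℝ) ^ j * 2 ^ (5 * s) = 4 * 2 ^ (5 * r) := by
        rw [← pow_add, show j + 5 * s = 5 * r + 2 by omega, pow_add]
        norm_num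
        ring
      have h9 : ((2 : ℝ) * (1 / 2) ^ s) ^ 5 * 2 ^ (5 * s) = 32 := by
        rw [mul_pow, ← pow_mul, mul_comm s 5, mul_assoc, ← mul_pow]
        norm_num
      have h2s : (0 : ℝ) < 2 ^ (5 * s) := by positivity
      have h10 : 8 * (2 : ℝ) ^ j ≤ 2 ^ (5 * r) * q ^ 5 := by
        have h11 : 8 * (2 : ℝ) ^ j * 2 ^ (5 * s) ≤ 2 ^ (5 * r) * q ^ 5 * 2 ^ (5 * s) := by
          calc 8 * (2 : ℝ) ^ j * 2 ^ (5 * s) = 2 ^ (5 * r) * 32 := by rw [mul_assoc, h8]; ring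
            _ = 2 ^ (5 * r) * (((2 : ℝ) * (1 / 2) ^ s) ^ 5 * 2 ^ (5 * s)) := by rw [h9]
            _ ≤ 2 ^ (5 * r) * (q ^ 5 * 2 ^ (5 * s)) :=
                mul_le_mul_of_nonneg_left (mul_le_mul_of_nonneg_right hq5 h2s.le) (by positivity)
            _ = 2 ^ (5 * r) * q ^ 5 * 2 ^ (5 * s) := by ring
        exact le_of_mul_le_mul_right h11 h2s
      have h12 : (0 : ℝ) < 2 ^ j := by positivity
      have h13 : (2 : ℝ) ^ j / (2 ^ (5 * r) * q ^ 5) ≤ 1 / 3 := by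
        rw [div_le_iff₀ (by positivity)]
        linarith
      linarith
  · intro x hx
    have hq := hno x hx
    obtain ⟨q, hqe⟩ : ∃ q : ℝ, q = prob r (fun ρ => V (Sum.elim x ρ) = true) := ⟨_, rfl⟩
    rw [← hqe] at hq
    have hq0 : 0 ≤ q := by
      rw [hqe]
      exact SA1_prob_nonneg _ _
    have hA : prob (5 * r) (fun ρ => ∀ i : Fin 5, V (Sum.elim x (sl ρ i)) = true) = q ^ 5 := by
      rw [hqe]
      exact (h4 5 r (fun ρ => V (Sum.elim x ρ) = true)).1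
    rw [SA1_prob_congr _ _ _ (SA1_event r j V K hK x)]
    have h7 := (h5 (5 * r) j (fun ρ => ∀ i : Fin 5, V (Sum.elim x (sl ρ i)) = true)).1
    refine h7.trans ?_
    rw [hA]
    have hq5 : q ^ 5 ≤ ((1 / 2) ^ s) ^ 5 := pow_le_pow_left₀ hq0 hq 5
    have h8 : 4 * (2 : ℝ) ^ (5 * r) ≤ 2 ^ j * 2 ^ (5 * s) := by
      have h9 : (2 : ℝ) ^ (5 * r + 2) ≤ 2 ^ (j + 5 * s) :=
        pow_le_pow_right₀ (by norm_num) (by omega)
      rw [pow_add, pow_add] at h9
      linarith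
    have h9 : (((1 : ℝ) / 2) ^ s) ^ 5 * 2 ^ (5 * s) = 1 := by
      rw [← pow_mul, mul_comm s 5, ← mul_pow]
      norm_num
    have h2s : (0 : ℝ) < 2 ^ (5 * s) := by positivity
    have h12 : (0 : ℝ) < 2 ^ j := by positivity
    rw [div_le_iff₀ h12]
    have h11 : 2 ^ (5 * r) * q ^ 5 * 2 ^ (5 * s) ≤ 1 / 3 * 2 ^ j * 2 ^ (5 * s) := by
      calc 2 ^ (5 * r) * q ^ 5 * 2 ^ (5 * s) = 2 ^ (5 * r) * (q ^ 5 * 2 ^ (5 * s)) := by ring
        _ ≤ 2 ^ (5 * r) * ((((1 : ℝ) / 2) ^ s) ^ 5 * 2 ^ (5 * s)) :=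
            mul_le_mul_of_nonneg_left (mul_le_mul_of_nonneg_right hq5 h2s.le) (by positivity)
        _ = 2 ^ (5 * r) := by rw [h9, mul_one]
        _ ≤ 1 / 3 * 2 ^ j * 2 ^ (5 * s) := by
            have : (0 : ℝ) < 2 ^ (5 * r) := by positivity
            linarith
    exact le_of_mul_le_mul_right h11 h2s

end Pool.Agent.CD
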