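import Pool.Agent.Lib.CD.SpecE

/-!
Theorem CD, module SMa: joint verifiers as families of verifiers.
-/

set_option autoImplicit false

namespace Pool.Agent.CD

open Finset Pool.Agent.Lib.MP_ff3ed7_lc Pool.Agent.Lib.MP_ff3ed7_lc.B

namespace SMa_aux

/-- The substitution of constants for the second part of the variables. -/
theorem sub_const (h : sSub) {κ μ : Type} {d S : ℕ} {V : (κ ⊕ μ → Bool) → Bool} (hV : IsCkt d S V)
    (c : μ → Bool) : IsCkt d S fun x : κ → Bool => V (Sum.elim x c) := by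
  refine h (κ ⊕ μ) κ d S V (fun x => Sum.elim x c) ?_ hV
  rintro (i | i)
  · refine ⟨{i}, by simp, fun x y hxy => ?_⟩
    exact hxy i (mem_singleton_self i)
  · exact ⟨∅, by simp, fun x y _ => rfl⟩

/-- A probability larger than one half is larger by at least `2 ^ (-(r + 1))`. -/
theorem gap {r : ℕ} {E : (Fin r → Bool) → Prop} (h : 1 / 2 < prob r E) :
    1 / 2 + (1 / 2) ^ (r + 1) ≤ prob r E := by
  unfold prob at h ⊢
  have h2 : (0 : ℝ) < 2 ^ r := by positivity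
  rw [lt_div_iff₀ h2] at h
  rw [le_div_iff₀ h2]
  have h3 : ((2 ^ r : ℕ) : ℝ) < ((2 * Nat.card {ρ // E ρ} : ℕ) : ℝ) := by
    push_cast
    linarith
  have h4 : 2 ^ r < 2 * Nat.card {ρ // E ρ} := by exact_mod_cast h3
  have h5 : ((2 ^ r + 1 : ℕ) : ℝ) ≤ ((2 * Nat.card {ρ // E ρ} : ℕ) : ℝ) := by exact_mod_cast h4
  push_cast at h5
  have h6 : (1 / 2 + (1 / 2 : ℝ) ^ (r + 1)) * 2 ^ r = (2 ^ r + 1) / 2 := by
    rw [pow_succ, add_mul, one_div, inv_pow]
    field_simp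
  rw [h6]
  linarith

end SMa_aux

/-- Joint verifiers are families of verifiers. -/
theorem tSMa : sSub → sSMa := by
  intro h κ F r p d S
  refine ⟨?_, ?_, ?_, ?_⟩
  · rintro ⟨V, hV, h1, h2⟩
    exact ⟨r, fun y ρ x => V (Sum.elim x (Sum.elim y ρ)), fun y ρ => SMa_aux.sub_const h hV _,
      h1, h2⟩
  · rintro ⟨V, hV, h1, h2⟩
    exact ⟨r, fun ρ x => V (Sum.elim x ρ), fun ρ => SMa_aux.sub_const h hV _, h1, h2⟩
  · rintro ⟨V, hV, h1, h2⟩
    exact ⟨r, fun ρ x => V (Sum.elim x ρ), fun ρ => SMa_aux.sub_const h hV _,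
      fun x hx => SMa_aux.gap (h1 x hx), h2⟩
  · rintro ⟨V, hV, h1⟩
    exact ⟨fun y ρ x => V (Sum.elim x (Sum.elim y ρ)), fun y ρ => SMa_aux.sub_const h hV _, h1⟩

end Pool.Agent.CD
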