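import Pool.Agent.Lib.CD.SpecE

/-!
# CD, SmP: growth of the functions of size N^o(1)
-/

set_option autoImplicit false

namespace Pool.Agent.CD

open Finset Pool.Agent.Lib.MP_ff3ed7_lc Pool.Agent.Lib.MP_ff3ed7_lc.B

namespace SmP_aux

theorem log_ge {T N : ℕ} (h : 2 ^ T ≤ N) : T ≤ Nat.log 2 N :=
  Nat.le_log_of_pow_le (by norm_num) h

theorem pow_log {N : ℕ} (h : 1 ≤ N) : 2 ^ Nat.log 2 N ≤ N :=
  Nat.pow_log_le_self 2 (by omega)

theorem one (C : ℕ) : Small fun N => 2 ^ (C * (Nat.sqrt (Nat.log 2 N) + 1)) := by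
  intro e
  set T : ℕ := 2 * (C * e) + 1 with hT
  refine ⟨2 ^ (T * T), fun N hN => ?_⟩
  have h1 : 1 ≤ N := le_trans Nat.one_le_two_pow hN
  have h2 : T * T ≤ Nat.log 2 N := log_ge hN
  have h3 : T ≤ Nat.sqrt (Nat.log 2 N) := Nat.le_sqrt.2 h2
  have h4 : Nat.sqrt (Nat.log 2 N) * Nat.sqrt (Nat.log 2 N) ≤ Nat.log 2 N := Nat.sqrt_le _
  set s := Nat.sqrt (Nat.log 2 N) with hs
  show (2 ^ (C * (s + 1))) ^ e ≤ N
  rw [← pow_mul]
  refine le_trans (Nat.pow_le_pow_right (by norm_num) ?_) (pow_log h1)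
  refine le_trans ?_ h4
  have h5 : C * (s + 1) * e = C * e * (s + 1) := by ring
  rw [h5]
  have h6 : 1 ≤ s := by omega
  calc C * e * (s + 1) ≤ C * e * (2 * s) := Nat.mul_le_mul_left _ (by omega)
    _ = 2 * (C * e) * s := by ring
    _ ≤ s * s := Nat.mul_le_mul_right _ (by omega)

theorem add_pow_le_two (x C E : ℕ) : (x + C) ^ E ≤ 2 ^ E * (x ^ E + C ^ E) := by
  rcases le_total x C with h | h
  · calc (x + C) ^ E ≤ (2 * C) ^ E := Nat.pow_le_pow_left (by omega) _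
      _ = 2 ^ E * C ^ E := mul_pow _ _ _
      _ ≤ _ := Nat.mul_le_mul_left _ (Nat.le_add_left _ _)
  · calc (x + C) ^ E ≤ (2 * x) ^ E := Nat.pow_le_pow_left (by omega) _
      _ = 2 ^ E * x ^ E := mul_pow _ _ _
      _ ≤ _ := Nat.mul_le_mul_left _ (Nat.le_add_right _ _)

theorem two (m : ℕ → ℕ) (C e : ℕ) (hm : Small m) : Small fun N => C * (m N + C) ^ e := by
  intro e'
  obtain ⟨N₁, h1⟩ := hm (2 * (e * e'))
  set D : ℕ := C ^ e' * 2 ^ (e * e') with hD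
  set Q : ℕ := D * C ^ (e * e') with hQ
  refine ⟨N₁ + 4 * (D * D) + 2 * Q, fun N hN => ?_⟩
  have h2 := h1 N (by omega)
  have h3 : 4 * (D * D) ≤ N := by omega
  have h4 : 2 * Q ≤ N := by omega
  show (C * (m N + C) ^ e) ^ e' ≤ N
  set x : ℕ := m N ^ (e * e') with hx
  have h5 : x * x ≤ N := by
    have h6 : m N ^ (2 * (e * e')) = x * x := by
      rw [hx, two_mul, pow_add]
    rwa [h6] at h2
  have h6 : 2 * (D * x) ≤ N := by
    rcases le_total (2 * D) x with h | h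
    · calc 2 * (D * x) = 2 * D * x := by ring
        _ ≤ x * x := Nat.mul_le_mul_right _ h
        _ ≤ N := h5
    · calc 2 * (D * x) ≤ 2 * (D * (2 * D)) := by gcongr
        _ = 4 * (D * D) := by ring
        _ ≤ N := h3
  have h7 : (C * (m N + C) ^ e) ^ e' ≤ D * x + Q := by
    calc (C * (m N + C) ^ e) ^ e' = C ^ e' * (m N + C) ^ (e * e') := by
          rw [mul_pow, ← pow_mul]
      _ ≤ C ^ e' * (2 ^ (e * e') * (m N ^ (e * e') + C ^ (e * e'))) :=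
          Nat.mul_le_mul_left _ (add_pow_le_two _ _ _)
      _ = D * x + Q := by
          rw [hQ, hD, hx]
          ring
  omega

theorem three (m : ℕ → ℕ) (e : ℕ) (hm : Small m) : ∃ N₀ : ℕ, ∀ N ≥ N₀, (2 * m N + 3) ^ e ≤ N := by
  obtain ⟨N₀, h⟩ := two m 3 1 hm e
  refine ⟨N₀, fun N hN => le_trans ?_ (h N hN)⟩
  refine Nat.pow_le_pow_left ?_ _
  show 2 * m N + 3 ≤ 3 * (m N + 3) ^ 1
  rw [pow_one]
  omega

theorem four (C : ℕ) : ∃ N₀ : ℕ, ∀ N ≥ N₀, C * (N + 1) ^ C ≤ 2 ^ (Nat.log 2 N) ^ 2 := by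
  refine ⟨2 ^ (2 * C + 2), fun N hN => ?_⟩
  have h1 : 2 * C + 2 ≤ Nat.log 2 N := log_ge hN
  set a := Nat.log 2 N with ha
  have h2 : N + 1 ≤ 2 ^ (a + 1) := Nat.lt_pow_succ_log_self (by norm_num) N
  calc C * (N + 1) ^ C ≤ 2 ^ C * (2 ^ (a + 1)) ^ C :=
        Nat.mul_le_mul (Nat.lt_two_pow_self).le (Nat.pow_le_pow_left h2 _)
    _ = 2 ^ (C + (a + 1) * C) := by rw [← pow_mul, ← pow_add]
    _ ≤ 2 ^ a ^ 2 := Nat.pow_le_pow_right (by norm_num) (by nlinarith)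

end SmP_aux

theorem tSmP : sSmP :=
  ⟨SmP_aux.one, SmP_aux.two, SmP_aux.three, SmP_aux.four⟩

end Pool.Agent.CD
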