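import Pool.Agent.Lib.CD.All
import Pool.Agent.Lib.CD.Lof
import Pool.Agent.Lib.CD.N1
import Pool.Agent.Lib.CD.N2
import Pool.Agent.Lib.CD.N3
import Pool.Agent.Lib.CD.N4
import Pool.Agent.Lib.CD.P1
import Pool.Agent.Lib.CD.P2
import Pool.Agent.Lib.CD.P3
import Pool.Agent.Lib.CD.P5
import Pool.Agent.Lib.CD.K1
import Pool.Agent.Lib.CD.K3
import Pool.Agent.Lib.CD.K5
import Pool.Agent.Lib.CD.K6
import Pool.Agent.Lib.CD.K7
import Pool.Agent.Lib.CD.CkM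
import Pool.Agent.Lib.CD.CkA
import Pool.Agent.Lib.CD.CkO
import Pool.Agent.Lib.CD.CkN
import Pool.Agent.Lib.CD.PrA
import Pool.Agent.Lib.CD.AmN
import Pool.Agent.Lib.CD.Amp
import Pool.Agent.Lib.CD.MS1
import Pool.Agent.Lib.CD.Hsh
import Pool.Agent.Lib.CD.HaC
import Pool.Agent.Lib.CD.SA1
import Pool.Agent.Lib.CD.SMa
import Pool.Agent.Lib.CD.SmP
import Pool.Agent.Lib.CD.IMS
import Pool.Agent.Lib.CD.ISA
import Pool.Agent.Lib.CD.Cha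

/-!
Theorem CD (note 5285): final assembly.
-/

namespace Pool.Agent.CD

theorem aP1 : sP1 :=
  tP1 aTrL aTrU tLof tN1 tN2 tN3 (tTMA aLft) (tTSB aLft) (tTPP aLft) tUpA tBas

theorem aP2 : sP2 := tP2 tSub aTrL aTrU tLof tN1 tN4 (tTMA aLft) tUpS tBas

theorem aP3 : sP3 := tP3 aQ3 tK1 tK3

theorem aP5 : sP5 := tP5 aQ1 tK5 tK6 tK7

theorem aAmp : sAmp := tAmp tSub tCkA (tCkO tCkA) tPrA tAmN

theorem aIMS : sIMS := tIMS aAmp (tMS1 tSub) tSmP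

theorem aSA1 : sSA1 := tSA1 tSub tCkM tCkA tPrA tHsh (tHaC tCkN)

theorem aISA : sISA := tISA aSA1 tSmP

theorem aCha : sCha := tCha aP1 aP2 aP3 (tSMa tSub) tSmP aIMS aISA

end Pool.Agent.CD
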