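import Pool.Agent.Lib.CD.Def

/-!
The statement of section 5a-c of note 5285 (theorem CD): lifting, used by Trf.lean.
-/

namespace Pool.Agent.CD

open Pool.Agent.Lib.MP_ff3ed7_lc

/-- Lft: after a restriction of the inputs (an embedding `e` with `xk (e z) = z`) the circuits
`V y ρ` become decision trees of depth `2 ^ d * u + w`, except for a small part of the `ρ`, for
which the tree rejects. -/
def sLft : Prop :=
  ∀ (n k R d S w u : ℕ) (Y : Type) [Fintype Y]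
    (V : Y → (Fin R → Bool) → (Fin n × Fin k → Bool) → Bool) (θ : ℝ),
    (∀ y ρ, IsCkt d S (V y ρ)) → 1 ≤ w → S ≤ 2 ^ w → 0 < θ →
    (n : ℝ) * (1 - (1 / (512 * (w : ℝ) + 1)) ^ d) ^ k ≤ 1 / 4 →
    (Fintype.card Y : ℝ) * ((d : ℝ) / θ) * (1 / 4) ^ u < 1 / 2 →
    ∃ (e : (Fin n → Bool) → (Fin n × Fin k → Bool)) (T : Y → (Fin R → Bool) → DTree (Fin n) Bool),
      (∀ z, xk (e z) = z) ∧ (∀ y ρ, (T y ρ).DepthLE (2 ^ d * u + w)) ∧
      (∀ y ρ z, (T y ρ).eval z = true → V y ρ (e z) = true) ∧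
      ∀ y, prob R (fun ρ => ∃ z, (T y ρ).eval z ≠ V y ρ (e z)) ≤ θ

/-- TMA: MA protocols. -/
def sTMA : Prop :=
  ∀ (n k p d S w : ℕ) (f : (Fin n → Bool) → Bool), 1 ≤ w → S ≤ 2 ^ w →
    (n : ℝ) * (1 - (1 / (512 * (w : ℝ) + 1)) ^ d) ^ k ≤ 1 / 4 →
    HasMAk (fun x : Fin n × Fin k → Bool => f (xk x)) p d S →
    HasMA f p (3 * (2 ^ d * (p + d + 4) + w))

/-- TSB: SBP protocols. -/
def sTSB : Prop :=
  ∀ (n k s d S w : ℕ) (f : (Fin n → Bool) → Bool), 1 ≤ w → S ≤ 2 ^ w →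
    (n : ℝ) * (1 - (1 / (512 * (w : ℝ) + 1)) ^ d) ^ k ≤ 1 / 4 →
    HasSBk (fun x : Fin n × Fin k → Bool => f (xk x)) s d S →
    ∃ r, B.HasSBP f r (2 * s) (2 * (2 ^ d * (s + d + 4) + w))

/-- TPP: PP protocols. -/
def sTPP : Prop :=
  ∀ (n k s d S w : ℕ) (f : (Fin n → Bool) → Bool), 1 ≤ w → S ≤ 2 ^ w →
    (n : ℝ) * (1 - (1 / (512 * (w : ℝ) + 1)) ^ d) ^ k ≤ 1 / 4 →
    HasPPk (fun x : Fin n × Fin k → Bool => f (xk x)) s d S →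
    ThrDegLE f (2 ^ d * (s + d + 4) + w)

end Pool.Agent.CD
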