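import Pool.Agent.Lib.CD.Def

/-!
Statements of section 2 (multi switching lemma) of theorem CD (note 5285).
Every module proves `theorem tX : sX` (with the other statements it needs as hypotheses).
-/

namespace Pool.Agent.CD

open Finset

/-- B1: a DNF which is not constant on `m` has a first term which is not falsified, and this term
has a free variable. -/
def sB1 : Prop :=
  ∀ (V : Type) [Fintype V] [DecidableEq V] (TL : List (Restr V)) (t : Bool)
    (g : (V → Bool) → Bool) (m : Restr V),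
    (∀ x, g x = t ↔ ∃ T ∈ TL, Cons T x) → ¬ Const g m →
    ∃ T ∈ TL, fst TL m = some T ∧ (fre T m).Nonempty

/-- StE: a step with arbitrary values `π`, `τ` on the block exists. -/
def sStE : Prop :=
  ∀ (V : Type) [Fintype V] [DecidableEq V] (S w : ℕ) (TL : ℕ → List (Restr V)) (s : St V)
    (o : Option (Fin S)) (T : Restr V) (π τ : V → Bool),
    fst (TL (opn s o).j) (opn s o).mp = some T → sz T ≤ w → (fre T (opn s o).mp).Nonempty →
    ∃ c : Cd w, cnt (S := S) (o, c) = (fre T (opn s o).mp).card ∧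
      Stp TL s ((o, c) : El S w) ⟨(opn s o).j, ovr (opn s o).mp (fre T (opn s o).mp) π,
        ovr (opn s o).mt (fre T (opn s o).mp) τ, put (fre T (opn s o).mp) T (opn s o).mg⟩

/-- ISt: the path inside a stage. -/
def sISt : Prop :=
  ∀ (V : Type) [Fintype V] [DecidableEq V] (S w : ℕ) (TL : ℕ → List (Restr V)) (j : ℕ) (t : Bool)
    (g : (V → Bool) → Bool),
    (∀ T ∈ TL j, sz T ≤ w) → (∀ x, g x = t ↔ ∃ T ∈ TL j, Cons T x) →
    ∀ (m : ℕ) (μ : Restr V), ¬ Dt g m μ →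
    ∃ K : Finset V, m < K.card ∧ (∀ v ∈ K, μ v = none) ∧
      ∀ (τ : V → Bool) (mt mg : Restr V), ∃ (l : List (El S w)) (s' : St V),
        Run TL ⟨j, μ, mt, mg⟩ l s' ∧ tot l = K.card ∧ ops l = 0 ∧ s'.j = j ∧ s'.mt = ovr mt K τ

/-- Exi: the whole trace. -/
def sExi : Prop :=
  ∀ (V : Type) [Fintype V] [DecidableEq V] (S w : ℕ) (TL : ℕ → List (Restr V)) (tt : ℕ → Bool)
    (g : ℕ → (V → Bool) → Bool), Fam S w TL tt g →
    ∀ (t : ℕ) (s : St V), ¬ Tr (fun r => ∀ j < S, Dt (g j) w r) t s.mt →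
    ∃ (l : List (El S w)) (s' : St V), Run TL s l s' ∧ t < tot l ∧ ops l * w ≤ tot l

/-- SIn: a step keeps the invariant. -/
def sSIn : Prop :=
  ∀ (V : Type) [Fintype V] [DecidableEq V] (S w : ℕ) (TL : ℕ → List (Restr V)) (s s' : St V)
    (e : El S w), Inv s → Stp TL s e s' → Inv s'

/-- Wgt: the weights along a run. -/
def sWgt : Prop :=
  ∀ (V : Type) [Fintype V] [DecidableEq V] (S w : ℕ) (TL : ℕ → List (Restr V)) (a : ℝ)
    (s s' : St V) (l : List (El S w)), Inv s → Run TL s l s' →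
    W a s.mg * ((1 - a) / 2) ^ tot l = a ^ tot l * W a s'.mg

/-- Inj: the final restriction and the code determine the initial restriction. -/
def sInj : Prop :=
  ∀ (V : Type) [Fintype V] [DecidableEq V] (S w : ℕ) (TL : ℕ → List (Restr V))
    (l : List (El S w)) (ρ₁ ρ₂ : Restr V) (s₁ s₂ : St V),
    Run TL (ini ρ₁) l s₁ → Run TL (ini ρ₂) l s₂ → s₁.mg = s₂.mg → ρ₁ = ρ₂

/-- Sum: measure of the restrictions with a given code. -/
def sSum : Prop :=
  ∀ (V : Type) [Fintype V] [DecidableEq V] (S w : ℕ) (TL : ℕ → List (Restr V))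
    (l : List (El S w)) (a : ℝ), 0 ≤ a → a < 1 →
    Pm a (fun ρ : Restr V => ∃ s', Run TL (ini ρ) l s') ≤ (2 * a / (1 - a)) ^ tot l

/-- LSm: sum over nonempty lists. -/
def sLSm : Prop :=
  ∀ (α : Type) [DecidableEq α] (E : Finset α) (v : α → ℝ) (β : ℝ), (∀ e ∈ E, 0 ≤ v e) →
    ∑ e ∈ E, v e ≤ β → β ≤ 1 / 2 →
    ∀ F : Finset (List α), (∀ l ∈ F, l ≠ [] ∧ ∀ e ∈ l, e ∈ E) →
    ∑ l ∈ F, (l.map v).prod ≤ β / (1 - β)

/-- Blk: the sum over the codes of one block. -/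
def sBlk : Prop :=
  ∀ (S w : ℕ), 1 ≤ w →
    ∑ e ∈ (univ : Finset (El S w)).filter (fun e => 1 ≤ cnt e),
      (if e.1.isSome then (1 / (S : ℝ)) else 1) * (1 / (32 * (w : ℝ))) ^ cnt e ≤ 2 / 7

/-- Cod: the sum over all codes. -/
def sCod : Prop :=
  ∀ (S w : ℕ), 1 ≤ w → S ≤ 2 ^ w → ∀ (t : ℕ) (F : Finset (List (El S w))),
    (∀ l ∈ F, t < tot l ∧ ops l * w ≤ tot l ∧ ∀ e ∈ l, 1 ≤ cnt e) →
    ∑ l ∈ F, (1 / (256 * (w : ℝ))) ^ tot l ≤ (1 / 4) ^ t

/-- MS: the multi switching lemma. -/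
def sMS : Prop :=
  ∀ (V : Type) [Fintype V] [DecidableEq V] (S w : ℕ) (TL : ℕ → List (Restr V)) (tt : ℕ → Bool)
    (g : ℕ → (V → Bool) → Bool), 1 ≤ w → S ≤ 2 ^ w → Fam S w TL tt g →
    ∀ t : ℕ, Pm (1 / (512 * (w : ℝ) + 1))
      (fun r : Restr V => ¬ Tr (fun r' => ∀ j < S, Dt (g j) w r') t r) ≤ (1 / 4) ^ t

end Pool.Agent.CD
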