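import Pool.Agent.Lib.CD.SpecA
import Pool.Agent.Lib.CD.SLft

/-!
Statements of sections 4, 6, 7 of theorem CD (note 5285); section 5 is in SLft.lean.
-/

namespace Pool.Agent.CD

open Finset Pool.Agent.Lib.MP_ff3ed7_lc Pool.Agent.Lib.MP_ff3ed7_lc.B

/-- Ckt: a circuit becomes a shallow tree under a random restriction. -/
def sCkt : Prop :=
  ∀ (V : Type) [Fintype V] [DecidableEq V] (d S w : ℕ) (f : (V → Bool) → Bool),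
    1 ≤ w → S ≤ 2 ^ w → IsCkt d S f → ∀ u : ℕ,
    Pm ((1 / (512 * (w : ℝ) + 1)) ^ d) (fun m : Restr V => ¬ Dt f (2 ^ d * u + w) m) ≤
      (d : ℝ) * (1 / 4) ^ u

/-- UpA: the AM verifier as a circuit of depth 3. -/
def sUpA : Prop :=
  ∀ (n k r p : ℕ) (f : (Fin n → Bool) → Bool), 1 ≤ k → HasAM f r p 10 →
    HasAMk (fun x : Fin n × Fin k → Bool => f (xk x)) r (p + 10 * k) 3
      (2 ^ (p + r + 20) + 1000 * (n + 1) * (k + 1))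

/-- UpS: the SBP verifier as a circuit of depth 3. -/
def sUpS : Prop :=
  ∀ (n k r s : ℕ) (f : (Fin n → Bool) → Bool), 1 ≤ k → HasSBP f r s 10 →
    HasSBu (fun x : Fin n × Fin k → Bool => f (xk x)) (r + 10 * k) (s + 10 * k) 3
      (2 ^ (r + 20) + 1000 * (n + 1) * (k + 1))

/-- Sub: substitution of (functions of one) variables in a circuit. -/
def sSub : Prop :=
  ∀ (κ κ' : Type) (d S : ℕ) (f : (κ → Bool) → Bool) (σ : (κ' → Bool) → (κ → Bool)),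
    (∀ i, ∃ A : Finset κ', A.card ≤ 1 ∧ ∀ x y, (∀ a ∈ A, x a = y a) → σ x i = σ y i) →
    IsCkt d S f → IsCkt d S fun x => f (σ x)

/-- TrL: protocols for a padded function are protocols for the function. -/
def sTrL : Prop :=
  ∀ (κ κ' : Type) (e : κ → κ'), Function.Injective e → ∀ (F : (κ → Bool) → Bool) (p d S : ℕ),
    (HasMAk (fun x : κ' → Bool => F fun i => x (e i)) p d S → HasMAk F p d S) ∧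
    (HasSBk (fun x : κ' → Bool => F fun i => x (e i)) p d S → HasSBk F p d S) ∧
    (HasPPk (fun x : κ' → Bool => F fun i => x (e i)) p d S → HasPPk F p d S)

/-- TrU: protocols for a function are protocols for the padded function. -/
def sTrU : Prop :=
  ∀ (κ κ' : Type) (e : κ → κ') (F : (κ → Bool) → Bool) (r p d S : ℕ),
    (HasAMk F r p d S → HasAMk (fun x : κ' → Bool => F fun i => x (e i)) r p d S) ∧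
    (HasSBu F r p d S → HasSBu (fun x : κ' → Bool => F fun i => x (e i)) r p d S)

/-- the parameter `ℓ` for the length `N`: the largest `ℓ` with `B ℓ * 2 ^ √ℓ ≤ N` -/
def lof (B : ℕ → ℕ) (N : ℕ) : ℕ := Nat.findGreatest (fun ℓ => B ℓ * 2 ^ Nat.sqrt ℓ ≤ N) N

/-- The language: the word `x` of length `N` is cut to the first `n * 2 ^ √ℓ` bits, the parities of
the `n` blocks of `2 ^ √ℓ` bits are the input of `f ℓ`. -/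
def Lang (B n : ℕ → ℕ) (f : (ℓ : ℕ) → (Fin (n ℓ) → Bool) → Bool) (N : ℕ) (x : Fin N → Bool) :
    Bool :=
  if h : n (lof B N) * 2 ^ Nat.sqrt (lof B N) ≤ N then
    f (lof B N) (xk fun a : Fin (n (lof B N)) × Fin (2 ^ Nat.sqrt (lof B N)) =>
      x (Fin.castLE h (finProdFinEquiv a)))
  else false

/-- Lof -/
def sLof : Prop :=
  ∀ (B : ℕ → ℕ) (N : ℕ), (∀ ℓ, 2 ^ ℓ ≤ B ℓ) → lof B N ≤ Nat.log 2 N ∧
    (B 0 ≤ N → B (lof B N) * 2 ^ Nat.sqrt (lof B N) ≤ N ∧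
      N < B (lof B N + 1) * 2 ^ Nat.sqrt (lof B N + 1)) ∧
    ∀ ℓ₀, B ℓ₀ * 2 ^ Nat.sqrt ℓ₀ ≤ N → ℓ₀ ≤ lof B N

/-- N1: the blocks are long enough. -/
def sN1 : Prop :=
  ∀ d c : ℕ, ∃ ℓ₀ : ℕ, ∀ ℓ ≥ ℓ₀, ∀ n : ℕ, n ≤ 2 ^ (9 * ℓ + 22) →
    ∀ w : ℕ, w ≤ (100 * (ℓ + 1)) ^ c + 1 →
    (n : ℝ) * (1 - (1 / (512 * (w : ℝ) + 1)) ^ d) ^ (2 ^ Nat.sqrt ℓ) ≤ 1 / 4

/-- N2: exponents, MA against AM. -/
def sN2 : Prop :=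
  ∀ d c : ℕ, ∃ ℓ₀ : ℕ, ∀ ℓ ≥ ℓ₀, ∀ w : ℕ, w ≤ (100 * (ℓ + 1)) ^ c + 1 → ∀ p : ℕ,
    2 ^ ℓ < (p + 2) * (3 * (2 ^ d * (p + d + 4) + w) + 1) →
    2 ^ (5 * (ℓ + 1) + 17) * 2 ^ Nat.sqrt (ℓ + 1) ≤ (p + 2) ^ 11

/-- N3: exponents, SBP and PP against AM. -/
def sN3 : Prop :=
  ∀ d c : ℕ, ∃ ℓ₀ : ℕ, ∀ ℓ ≥ ℓ₀, ∀ w : ℕ, w ≤ (100 * (ℓ + 1)) ^ c + 1 → ∀ s : ℕ,
    2 ^ ℓ < 9 * (2 * (2 ^ d * (s + d + 4) + w)) →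
    2 ^ (5 * (ℓ + 1) + 17) * 2 ^ Nat.sqrt (ℓ + 1) ≤ (s + 2) ^ 6

/-- N4: exponents, MA against SBP. -/
def sN4 : Prop :=
  ∀ d c : ℕ, ∃ ℓ₀ : ℕ, ∀ ℓ ≥ ℓ₀, ∀ w : ℕ, w ≤ (100 * (ℓ + 1)) ^ c + 1 → ∀ p : ℕ,
    2 ^ ℓ < 6 * (p + 1) * (3 * (2 ^ d * (p + d + 4) + w) + 1) →
    2 ^ (9 * (ℓ + 1) + 22) * 2 ^ Nat.sqrt (ℓ + 1) ≤ (p + 2) ^ 20

/-- P1: a language with AM verifiers. -/
def sP1 : Prop :=
  ∃ (L : (N : ℕ) → (Fin N → Bool) → Bool) (C : ℕ),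
    (∀ N, ∃ r p S, r ≤ Nat.log 2 N + 2 ∧ p ≤ 2 ^ (C * (Nat.sqrt (Nat.log 2 N) + 1)) ∧
      S ≤ C * (N + 1) ^ C ∧ HasAMk (L N) r p 3 S) ∧
    ∀ d c : ℕ, ∃ N₀ : ℕ, ∀ N ≥ N₀, ∀ S : ℕ, S ≤ 2 ^ (Nat.log 2 N) ^ c → ∀ p : ℕ,
      (HasMAk (L N) p d S → N < (p + 2) ^ 11) ∧
      (HasSBk (L N) p d S → N < (p + 2) ^ 6) ∧
      (HasPPk (L N) p d S → N < (p + 2) ^ 6)

/-- P2: a language with SBP verifiers. -/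
def sP2 : Prop :=
  ∃ (L : (N : ℕ) → (Fin N → Bool) → Bool) (C : ℕ),
    (∀ N, ∃ r s S, r ≤ 2 ^ (C * (Nat.sqrt (Nat.log 2 N) + 1)) ∧
      s ≤ 2 ^ (C * (Nat.sqrt (Nat.log 2 N) + 1)) ∧
      S ≤ C * (N + 1) ^ C ∧ HasSBu (L N) r s 3 S) ∧
    ∀ d c : ℕ, ∃ N₀ : ℕ, ∀ N ≥ N₀, ∀ S : ℕ, S ≤ 2 ^ (Nat.log 2 N) ^ c → ∀ p : ℕ,
      HasMAk (L N) p d S → N < (p + 2) ^ 20

/-- Base: the query functions (from `OldTotalChain.result`). -/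
def sBas : Prop :=
  ∀ ℓ : ℕ,
    (∃ (N : ℕ) (f : (Fin N → Bool) → Bool), 2 ^ (9 * ℓ + 19) ≤ N ∧ N ≤ 2 ^ (9 * ℓ + 22) ∧
      HasSBP f (10 * ℓ + 24) (9 * ℓ + 24) 10 ∧
      ∀ p q, HasMA f p q → 2 ^ ℓ < 6 * (p + 1) * (q + 1)) ∧
    ∃ (N : ℕ) (f : (Fin N → Bool) → Bool), 2 ^ (5 * ℓ + 12) ≤ N ∧ N ≤ 2 ^ (5 * ℓ + 17) ∧
      HasAM f (ℓ + 2) (5 * ℓ + 17) 10 ∧ (∀ r s q, HasSBP f r s q → 2 ^ ℓ < 9 * q) ∧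
      (∀ D, ThrDegLE f D → 2 ^ ℓ < 9 * D) ∧
      ∀ p q, HasMA f p q → 2 ^ ℓ < (p + 2) * (q + 1)

end Pool.Agent.CD
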