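import Pool.Agent.Lib.CD.SpecB

/-!
The general form of theorem CD (note 5285): blocks of length `2 ^ κ ℓ` for an arbitrary
nondecreasing function `κ`.
-/

namespace Pool.Agent.CD

open Finset Pool.Agent.Lib.MP_ff3ed7_lc Pool.Agent.Lib.MP_ff3ed7_lc.B

/-- the parameter `ℓ` for the length `N`: the largest `ℓ` with `B ℓ * 2 ^ κ ℓ ≤ N` -/
def lofK (B κ : ℕ → ℕ) (N : ℕ) : ℕ := Nat.findGreatest (fun ℓ => B ℓ * 2 ^ κ ℓ ≤ N) N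

/-- The language: the word `x` of length `N` is cut to the first `n * 2 ^ κ ℓ` bits, the parities of
the `n` blocks of `2 ^ κ ℓ` bits are the input of `f ℓ`. -/
def LangK (B κ n : ℕ → ℕ) (f : (ℓ : ℕ) → (Fin (n ℓ) → Bool) → Bool) (N : ℕ) (x : Fin N → Bool) :
    Bool :=
  if h : n (lofK B κ N) * 2 ^ κ (lofK B κ N) ≤ N then
    f (lofK B κ N) (xk fun a : Fin (n (lofK B κ N)) × Fin (2 ^ κ (lofK B κ N)) =>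
      x (Fin.castLE h (finProdFinEquiv a)))
  else false

/-- LoK -/
def sLoK : Prop :=
  ∀ (B κ : ℕ → ℕ) (N : ℕ), (∀ ℓ, 2 ^ ℓ ≤ B ℓ) → lofK B κ N ≤ Nat.log 2 N ∧
    (B 0 * 2 ^ κ 0 ≤ N → B (lofK B κ N) * 2 ^ κ (lofK B κ N) ≤ N ∧
      N < B (lofK B κ N + 1) * 2 ^ κ (lofK B κ N + 1))

/-- M1: the block condition. -/
def sM1 : Prop :=
  ∀ m d w k n : ℕ, 1 ≤ w → n ≤ 2 ^ m → (m + 2) * (513 * w) ^ d ≤ k →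
    (n : ℝ) * (1 - (1 / (512 * (w : ℝ) + 1)) ^ d) ^ k ≤ 1 / 4

/-- Q1: a language with AM verifiers, general form. -/
def sQ1 : Prop :=
  ∀ κ : ℕ → ℕ, Monotone κ → (∀ ℓ, κ ℓ ≤ ℓ) →
  ∃ (L : (N : ℕ) → (Fin N → Bool) → Bool) (C : ℕ),
    (∀ N, ∃ r p S, r ≤ Nat.log 2 N + 2 ∧
      p ≤ C * (Nat.log 2 N + 1) + 10 * 2 ^ κ (Nat.log 2 N) ∧
      S ≤ C * (N + 1) ^ C ∧ HasAMk (L N) r p 3 S) ∧
    ∀ N d w S : ℕ, 1 ≤ w → S ≤ 2 ^ w →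
      C * (Nat.log 2 N + 1) * (513 * w) ^ d ≤ 2 ^ κ (Nat.log 2 N / 6 - 4) → ∀ p : ℕ,
      (HasMAk (L N) p d S →
        N ≤ C * 2 ^ κ (Nat.log 2 N) * ((p + 2) * (2 ^ d * (p + d + 4) + w)) ^ 5) ∧
      (HasSBk (L N) p d S → N ≤ C * 2 ^ κ (Nat.log 2 N) * (2 ^ d * (p + d + 4) + w) ^ 5) ∧
      (HasPPk (L N) p d S → N ≤ C * 2 ^ κ (Nat.log 2 N) * (2 ^ d * (p + d + 4) + w) ^ 5)

/-- Q2: a language with SBP verifiers, general form. -/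
def sQ2 : Prop :=
  ∀ κ : ℕ → ℕ, Monotone κ → (∀ ℓ, κ ℓ ≤ ℓ) →
  ∃ (L : (N : ℕ) → (Fin N → Bool) → Bool) (C : ℕ),
    (∀ N, ∃ r s S, r ≤ C * (Nat.log 2 N + 1) + 10 * 2 ^ κ (Nat.log 2 N) ∧
      s ≤ C * (Nat.log 2 N + 1) + 10 * 2 ^ κ (Nat.log 2 N) ∧
      S ≤ C * (N + 1) ^ C ∧ HasSBu (L N) r s 3 S) ∧
    ∀ N d w S : ℕ, 1 ≤ w → S ≤ 2 ^ w →
      C * (Nat.log 2 N + 1) * (513 * w) ^ d ≤ 2 ^ κ (Nat.log 2 N / 10 - 4) → ∀ p : ℕ,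
      HasMAk (L N) p d S →
        N ≤ C * 2 ^ κ (Nat.log 2 N) * ((p + 2) * (2 ^ d * (p + d + 4) + w)) ^ 9

end Pool.Agent.CD
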