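import Pool.Agent.Lib.CD.SpecC
import Pool.Agent.Lib.MP_ff3ed7_lc.DefsSig

/-!
Theorem CD (note 5285): `Σ₂` protocols with constant depth verifiers.
-/

namespace Pool.Agent.CD

open Finset Pool.Agent.Lib.MP_ff3ed7_lc Pool.Agent.Lib.MP_ff3ed7_lc.B

/-- TS2: transfer of `Σ₂` protocols. -/
def sTS2 : Prop :=
  ∀ (n k d S w p r : ℕ) (f : (Fin n → Bool) → Bool), 1 ≤ w → S ≤ 2 ^ w →
    (n : ℝ) * (1 - (1 / (512 * (w : ℝ) + 1)) ^ d) ^ k ≤ 1 / 4 →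
    HasS2k (fun x : Fin n × Fin k → Bool => f (xk x)) p r d S →
    HasSigma2 f p (2 ^ d * (p + r + d + 2) + w)

/-- TrS: a `Σ₂` protocol for a padded function is one for the function. -/
def sTrS : Prop :=
  ∀ (κ κ' : Type) (e : κ → κ'), Function.Injective e → ∀ (F : (κ → Bool) → Bool) (p r d S : ℕ),
    HasS2k (fun x : κ' → Bool => F fun i => x (e i)) p r d S → HasS2k F p r d S

/-- BaS: the query functions which are hard for `Σ₂` (from `OldTotalSigma2.result`). -/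
def sBaS : Prop :=
  ∀ ℓ : ℕ, ∃ (N : ℕ) (f : (Fin N → Bool) → Bool), 2 ^ (8 * ℓ + 28) ≤ N ∧ N ≤ 2 ^ (9 * ℓ + 29) ∧
    HasAM f (4 * ℓ + 14) (9 * ℓ + 30) 10 ∧ ∀ p q, HasSigma2 f p q → 2 ^ ℓ ≤ p ∨ 2 ^ ℓ < q

/-- Q3: a language with AM verifiers, hard for `Σ₂`, general form. -/
def sQ3 : Prop :=
  ∀ κ : ℕ → ℕ, Monotone κ → (∀ ℓ, κ ℓ ≤ ℓ) →
  ∃ (L : (N : ℕ) → (Fin N → Bool) → Bool) (C : ℕ),
    (∀ N, ∃ r p S, r ≤ Nat.log 2 N + 2 ∧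
      p ≤ C * (Nat.log 2 N + 1) + 10 * 2 ^ κ (Nat.log 2 N) ∧
      S ≤ C * (N + 1) ^ C ∧ HasAMk (L N) r p 3 S) ∧
    ∀ N d w S : ℕ, 1 ≤ w → S ≤ 2 ^ w →
      C * (Nat.log 2 N + 1) * (513 * w) ^ d ≤ 2 ^ κ (Nat.log 2 N / 10 - 4) → ∀ p r : ℕ,
      HasS2k (L N) p r d S →
        N ≤ C * 2 ^ κ (Nat.log 2 N) * (2 ^ d * (p + r + d + 2) + w) ^ 9

/-- K1: the condition for `κ = Nat.sqrt`. -/
def sK1 : Prop :=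
  ∀ d c C : ℕ, ∃ N₀ : ℕ, ∀ N ≥ N₀, ∀ w : ℕ, w ≤ Nat.log 2 N ^ c + 1 →
    C * (Nat.log 2 N + 1) * (513 * w) ^ d ≤ 2 ^ Nat.sqrt (Nat.log 2 N / 10 - 4)

/-- K3: exponents, `Σ₂` against AM. -/
def sK3 : Prop :=
  ∀ d c C : ℕ, ∃ N₀ : ℕ, ∀ N ≥ N₀, ∀ w : ℕ, w ≤ Nat.log 2 N ^ c + 1 → ∀ m : ℕ,
    N ≤ C * 2 ^ Nat.sqrt (Nat.log 2 N) * (2 ^ d * (m + d + 2) + w) ^ 9 → N < (m + 2) ^ 10

/-- P3: a language with AM verifiers, hard for `Σ₂`. -/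
def sP3 : Prop :=
  ∃ (L : (N : ℕ) → (Fin N → Bool) → Bool) (C : ℕ),
    (∀ N, ∃ r p S, r ≤ Nat.log 2 N + 2 ∧ p ≤ 2 ^ (C * (Nat.sqrt (Nat.log 2 N) + 1)) ∧
      S ≤ C * (N + 1) ^ C ∧ HasAMk (L N) r p 3 S) ∧
    ∀ d c : ℕ, ∃ N₀ : ℕ, ∀ N ≥ N₀, ∀ S : ℕ, S ≤ 2 ^ (Nat.log 2 N) ^ c → ∀ p r : ℕ,
      HasS2k (L N) p r d S → N < (p + r + 2) ^ 10

end Pool.Agent.CD
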