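import Pool.Agent.Lib.CD.SpecD

/-!
Theorem CD (note 5285): the classes with constant depth verifiers and short messages.
-/

namespace Pool.Agent.CD

open Finset Pool.Agent.Lib.MP_ff3ed7_lc Pool.Agent.Lib.MP_ff3ed7_lc.B

/-! ### Protocols whose verifier is one circuit -/

/-- Merlin-Arthur protocol with error `e`: message of `p` bits, then `r` coins, and one circuit of
depth `d` with at most `S` gates per level which reads the input, the message and the coins. -/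
def HasMAe {κ : Type} (F : (κ → Bool) → Bool) (r p d S : ℕ) (e : ℝ) : Prop :=
  ∃ V : (κ ⊕ (Fin p ⊕ Fin r) → Bool) → Bool, IsCkt d S V ∧
    (∀ x, F x = true → ∃ y, 1 - e ≤ prob r fun ρ => V (Sum.elim x (Sum.elim y ρ)) = true) ∧
    (∀ x, F x = false → ∀ y, prob r (fun ρ => V (Sum.elim x (Sum.elim y ρ)) = true) ≤ e)

/-! ### Circuits -/

/-- CkM: more levels and more gates. -/
def sCkM : Prop :=
  ∀ (κ : Type) (d d' S S' : ℕ) (f : (κ → Bool) → Bool), d ≤ d' → S ≤ S' → IsCkt d S f →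
    IsCkt d' S' f

/-- CkA: AND of `K` circuits. -/
def sCkA : Prop :=
  ∀ (κ : Type) (K d S : ℕ) (f : ℕ → (κ → Bool) → Bool), (∀ i < K, IsCkt d S (f i)) →
    IsCkt (d + 1) (K * S + 1) fun x => decide (∀ i < K, f i x = true)

/-- CkO: OR of `K` circuits. -/
def sCkO : Prop :=
  ∀ (κ : Type) (K d S : ℕ) (f : ℕ → (κ → Bool) → Bool), (∀ i < K, IsCkt d S (f i)) →
    IsCkt (d + 1) (K * S + 1) fun x => decide (∃ i < K, f i x = true)

/-- CkN: AND of `K` conditions which depend on at most four bits each. -/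
def sCkN : Prop :=
  ∀ (κ : Type) (K : ℕ) (f : ℕ → (κ → Bool) → Bool),
    (∀ i < K, ∃ A : Finset κ, A.card ≤ 4 ∧ ∀ x y, (∀ a ∈ A, x a = y a) → f i x = f i y) →
    IsCkt 2 (16 * K + 1) fun x => decide (∀ i < K, f i x = true)

/-! ### Probabilities -/

/-- the block number `i` of `r` bits -/
def sl {K r : ℕ} (ρ : Fin (K * r) → Bool) (i : Fin K) (j : Fin r) : Bool :=
  ρ (finProdFinEquiv (i, j))

/-- PrA: independent blocks. -/
def sPrA : Prop :=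
  ∀ (K r : ℕ) (E : (Fin r → Bool) → Prop),
    prob (K * r) (fun ρ => ∀ i : Fin K, E (sl ρ i)) = prob r E ^ K ∧
    prob (K * r) (fun ρ => ∃ i : Fin K, E (sl ρ i)) = 1 - (1 - prob r E) ^ K

/-- AmN: parameters of the amplification. -/
def sAmN : Prop :=
  ∀ T : ℕ, 1 ≤ T → ∃ a b c : ℕ, 1 ≤ a ∧ 1 ≤ b ∧ 1 ≤ c ∧ a * b * c ≤ (8 * T + 8) ^ 4 ∧
    ∀ q : ℝ, 0 ≤ q → q ≤ 1 →
      (2 / 3 ≤ q → 1 - (1 / 2) ^ T ≤ (1 - (1 - q ^ a) ^ b) ^ c) ∧
      (q ≤ 1 / 3 → (1 - (1 - q ^ a) ^ b) ^ c ≤ (1 / 2) ^ T)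

/-- Amp: amplification of MA protocols. -/
def sAmp : Prop :=
  ∀ (κ : Type) (F : (κ → Bool) → Bool) (r p d S T : ℕ), 1 ≤ T → HasMAu F r p d S →
    ∃ r' S', r' ≤ (8 * T + 8) ^ 4 * r ∧ S' ≤ (8 * T + 8) ^ 4 * (S + 3) ∧
      HasMAe F r' p (d + 3) S' ((1 / 2) ^ T)

/-- MS1: from MA to SBP. -/
def sMS1 : Prop :=
  ∀ (κ : Type) (F : (κ → Bool) → Bool) (r p d S : ℕ), HasMAe F r p d S ((1 / 2) ^ (p + 2)) →
    HasSBu F (p + r) (p + 2) d S

/-- the value of the affine map with the coins `c` (matrix and vector) at `ρ`, coordinate `i` -/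
def hsh {R j : ℕ} (c : Fin (j * R + j) → Bool) (ρ : Fin R → Bool) (i : Fin j) : Bool :=
  xor (par fun l : Fin R => c (Fin.castAdd j (finProdFinEquiv (i, l))) && ρ l)
    (c (Fin.natAdd (j * R) i))

/-- Hsh: hashing. -/
def sHsh : Prop :=
  ∀ (R j : ℕ) (A : (Fin R → Bool) → Prop),
    prob (j * R + j) (fun c => ∃ ρ, A ρ ∧ ∀ i : Fin j, hsh c ρ i = false) ≤
      2 ^ R * prob R A / 2 ^ j ∧
    (0 < prob R A → 1 - 2 ^ j / (2 ^ R * prob R A) ≤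
      prob (j * R + j) (fun c => ∃ ρ, A ρ ∧ ∀ i : Fin j, hsh c ρ i = false))

/-- HaC: the hash condition can be checked in depth `2` with the help of partial sums. -/
def sHaC : Prop :=
  ∀ (R j : ℕ), ∃ K : (Fin R ⊕ Fin (j * R) ⊕ Fin (j * R + j) → Bool) → Bool,
    IsCkt 2 (1000 * (j + 1) * (R + 1)) K ∧
    ∀ (ρ : Fin R → Bool) (c : Fin (j * R + j) → Bool),
      (∃ Y : Fin (j * R) → Bool, K (Sum.elim ρ (Sum.elim Y c)) = true) ↔
        ∀ i : Fin j, hsh c ρ i = false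

/-- SA1: from SBP to AM. -/
def sSA1 : Prop :=
  ∀ (κ : Type) (F : (κ → Bool) → Bool) (r s d S : ℕ), HasSBu F r s d S →
    ∃ r' p' S', r' ≤ 1000 * (r + 1) ^ 2 ∧ p' ≤ 1000 * (r + 1) ^ 2 ∧
      S' ≤ 10 * S + 100000 * (r + 1) ^ 2 ∧ HasAMk F r' p' (d + 4) S'

/-! ### The chain -/

/-- IMS -/
def sIMS : Prop := MAac ⊆ SBPac

/-- ISA -/
def sISA : Prop := SBPac ⊆ AMac

/-- SMa: the constants and messages of a joint verifier are substituted. -/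
def sSMa : Prop :=
  ∀ (κ : Type) (F : (κ → Bool) → Bool) (r p d S : ℕ),
    (HasMAu F r p d S → HasMAk F p d S) ∧ (HasSBu F r p d S → HasSBk F p d S) ∧
    (HasPPu F r d S → HasPPk F (r + 1) d S) ∧ (HasS2u F p r d S → HasS2k F p r d S)

/-- SmP: growth -/
def sSmP : Prop :=
  (∀ C : ℕ, Small fun N => 2 ^ (C * (Nat.sqrt (Nat.log 2 N) + 1))) ∧
  (∀ (m : ℕ → ℕ) (C e : ℕ), Small m → Small fun N => C * (m N + C) ^ e) ∧
  (∀ (m : ℕ → ℕ) (e : ℕ), Small m → ∃ N₀ : ℕ, ∀ N ≥ N₀, (2 * m N + 3) ^ e ≤ N) ∧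
  ∀ C : ℕ, ∃ N₀ : ℕ, ∀ N ≥ N₀, C * (N + 1) ^ C ≤ 2 ^ (Nat.log 2 N) ^ 2

/-- Cha: the strict chain. -/
def sCha : Prop :=
  MAac ⊂ SBPac ∧ SBPac ⊂ AMac ∧ ¬ AMac ⊆ PPac ∧ ¬ AMac ⊆ S2ac

end Pool.Agent.CD
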