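import Pool.Agent.Lib.CD.SpecC

/-!
Theorem CD (note 5285): circuits of subexponential size, and of depth up to
`δ log N / log log N`.
-/

namespace Pool.Agent.CD

open Finset Pool.Agent.Lib.MP_ff3ed7_lc Pool.Agent.Lib.MP_ff3ed7_lc.B

/-- K5: the condition. -/
def sK5 : Prop :=
  ∀ m C : ℕ, 1 ≤ m → ∃ N₀ : ℕ, ∀ N ≥ N₀, ∀ d w : ℕ, 1 ≤ w →
    (513 * w) ^ (d + 1) ≤ 2 ^ (Nat.log 2 N / (12 * m)) →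
    C * (Nat.log 2 N + 1) * (513 * w) ^ d ≤ 2 ^ ((Nat.log 2 N / 6 - 4) / m)

/-- K6: exponents, MA. -/
def sK6 : Prop :=
  ∀ m C : ℕ, 10 ≤ m → ∃ N₀ : ℕ, ∀ N ≥ N₀, ∀ d w : ℕ, 1 ≤ w →
    (513 * w) ^ (d + 1) ≤ 2 ^ (Nat.log 2 N / (12 * m)) → ∀ p : ℕ,
    N ≤ C * 2 ^ (Nat.log 2 N / m) * ((p + 2) * (2 ^ d * (p + d + 4) + w)) ^ 5 →
    N < (p + 2) ^ 12

/-- K7: exponents, SBP and PP. -/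
def sK7 : Prop :=
  ∀ m C : ℕ, 10 ≤ m → ∃ N₀ : ℕ, ∀ N ≥ N₀, ∀ d w : ℕ, 1 ≤ w →
    (513 * w) ^ (d + 1) ≤ 2 ^ (Nat.log 2 N / (12 * m)) → ∀ p : ℕ,
    N ≤ C * 2 ^ (Nat.log 2 N / m) * (2 ^ d * (p + d + 4) + w) ^ 5 →
    N < (p + 2) ^ 6

/-- P5: a language with AM verifiers with messages of `N ^ (1 / m)` bits. -/
def sP5 : Prop :=
  ∀ m : ℕ, 10 ≤ m →
  ∃ (L : (N : ℕ) → (Fin N → Bool) → Bool) (C : ℕ),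
    (∀ N, ∃ r p S, r ≤ Nat.log 2 N + 2 ∧ p ≤ C * 2 ^ (Nat.log 2 N / m) ∧
      S ≤ C * (N + 1) ^ C ∧ HasAMk (L N) r p 3 S) ∧
    ∃ N₀ : ℕ, ∀ N ≥ N₀, ∀ d w S : ℕ, 1 ≤ w → S ≤ 2 ^ w →
      (513 * w) ^ (d + 1) ≤ 2 ^ (Nat.log 2 N / (12 * m)) → ∀ p : ℕ,
      (HasMAk (L N) p d S → N < (p + 2) ^ 12) ∧
      (HasSBk (L N) p d S → N < (p + 2) ^ 6) ∧
      (HasPPk (L N) p d S → N < (p + 2) ^ 6)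

end Pool.Agent.CD
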