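import Pool.Agent.Lib.MP_ff3ed7_lc.Defs

/-!
Definitions of the statement of theorem CD (note 5285): circuits, protocols with circuits, classes
of languages with verifiers of constant depth.
-/

namespace Pool.Agent.CD

open Pool.Agent.Lib.MP_ff3ed7_lc

/-! ### Circuits -/

/-- `f` is computed by a circuit of depth `d` with at most `S` gates on each of the levels
`0, ..., d`. A gate of level `0` depends on at most one input bit. A gate `g` of level `i + 1` is
given by a set `A` of gates of level `i`, signs `s` and a sign `t`: `g = t` iff some gate `a` of `A`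
has the value `s a` (so `g` is an `OR` or an `AND`, of unbounded fan-in, of gates of level `i` or
their negations). -/
def IsCkt {κ : Type} (d S : ℕ) (f : (κ → Bool) → Bool) : Prop :=
  ∃ G : ℕ → ℕ → (κ → Bool) → Bool,
    (∀ j < S, ∃ A : Finset κ, A.card ≤ 1 ∧ ∀ x y, (∀ i ∈ A, x i = y i) → G 0 j x = G 0 j y) ∧
    (∀ i < d, ∀ j < S, ∃ (A : Finset ℕ) (s : ℕ → Bool) (t : Bool), (∀ a ∈ A, a < S) ∧
      ∀ x, G (i + 1) j x = t ↔ ∃ a ∈ A, G i a x = s a) ∧
    ∃ j < S, ∀ x, f x = G d j x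

/-- Merlin-Arthur protocol: message of `p` bits, any number of coins; for each message and each
outcome of the coins the verifier is a circuit (any circuit) of depth `d` with at most `S` gates
per level. -/
def HasMAk {κ : Type} (F : (κ → Bool) → Bool) (p d S : ℕ) : Prop :=
  ∃ (r : ℕ) (V : (Fin p → Bool) → (Fin r → Bool) → (κ → Bool) → Bool),
    (∀ y ρ, IsCkt d S (V y ρ)) ∧
    (∀ x, F x = true → ∃ y, 2 / 3 ≤ prob r fun ρ => V y ρ x = true) ∧
    (∀ x, F x = false → ∀ y, prob r (fun ρ => V y ρ x = true) ≤ 1 / 3)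

/-- SBP protocol: any number of coins, threshold `2 ^ (-s)`; for each outcome of the coins the
verifier is a circuit of depth `d` with at most `S` gates per level. -/
def HasSBk {κ : Type} (F : (κ → Bool) → Bool) (s d S : ℕ) : Prop :=
  ∃ (r : ℕ) (V : (Fin r → Bool) → (κ → Bool) → Bool),
    (∀ ρ, IsCkt d S (V ρ)) ∧
    (∀ x, F x = true → 2 * (1 / 2) ^ s ≤ prob r fun ρ => V ρ x = true) ∧
    (∀ x, F x = false → prob r (fun ρ => V ρ x = true) ≤ (1 / 2) ^ s)

/-- PP protocol: any number of coins, gap `2 ^ (-s)`; for each outcome of the coins the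
verifier is a circuit of depth `d` with at most `S` gates per level. -/
def HasPPk {κ : Type} (F : (κ → Bool) → Bool) (s d S : ℕ) : Prop :=
  ∃ (r : ℕ) (V : (Fin r → Bool) → (κ → Bool) → Bool),
    (∀ ρ, IsCkt d S (V ρ)) ∧
    (∀ x, F x = true → 1 / 2 + (1 / 2) ^ s ≤ prob r fun ρ => V ρ x = true) ∧
    (∀ x, F x = false → prob r (fun ρ => V ρ x = true) ≤ 1 / 2)

/-- Arthur-Merlin protocol: `r` coins, reply of `p` bits, and one circuit of depth `d` with at most
`S` gates per level which reads the input, the reply and the coins. -/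
def HasAMk {κ : Type} (F : (κ → Bool) → Bool) (r p d S : ℕ) : Prop :=
  ∃ V : (κ ⊕ (Fin p ⊕ Fin r) → Bool) → Bool, IsCkt d S V ∧
    (∀ x, F x = true → 2 / 3 ≤ prob r fun ρ => ∃ y, V (Sum.elim x (Sum.elim y ρ)) = true) ∧
    (∀ x, F x = false → prob r (fun ρ => ∃ y, V (Sum.elim x (Sum.elim y ρ)) = true) ≤ 1 / 3)

/-- SBP protocol with `r` coins and threshold `2 ^ (-s)`, and one circuit of depth `d` with at most
`S` gates per level which reads the input and the coins. -/
def HasSBu {κ : Type} (F : (κ → Bool) → Bool) (r s d S : ℕ) : Prop :=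
  ∃ V : (κ ⊕ Fin r → Bool) → Bool, IsCkt d S V ∧
    (∀ x, F x = true → 2 * (1 / 2) ^ s ≤ prob r fun ρ => V (Sum.elim x ρ) = true) ∧
    (∀ x, F x = false → prob r (fun ρ => V (Sum.elim x ρ) = true) ≤ (1 / 2) ^ s)

/-- `Σ₂` protocol: `p` existential bits `y`, then `r` universal bits `ρ`; for each `y` and `ρ` the
verifier is a circuit (any circuit) of depth `d` with at most `S` gates per level. -/
def HasS2k {κ : Type} (F : (κ → Bool) → Bool) (p r d S : ℕ) : Prop :=
  ∃ V : (Fin p → Bool) → (Fin r → Bool) → (κ → Bool) → Bool,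
    (∀ y ρ, IsCkt d S (V y ρ)) ∧ ∀ x, F x = true ↔ ∃ y, ∀ ρ, V y ρ x = true

/-! ### Protocols whose verifier is one circuit -/

/-- Merlin-Arthur protocol (error `1 / 3`). -/
def HasMAu {κ : Type} (F : (κ → Bool) → Bool) (r p d S : ℕ) : Prop :=
  ∃ V : (κ ⊕ (Fin p ⊕ Fin r) → Bool) → Bool, IsCkt d S V ∧
    (∀ x, F x = true → ∃ y, 2 / 3 ≤ prob r fun ρ => V (Sum.elim x (Sum.elim y ρ)) = true) ∧
    (∀ x, F x = false → ∀ y, prob r (fun ρ => V (Sum.elim x (Sum.elim y ρ)) = true) ≤ 1 / 3)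

/-- PP protocol: `r` coins, the circuit accepts with probability larger than `1 / 2` if and only
if the answer is yes. -/
def HasPPu {κ : Type} (F : (κ → Bool) → Bool) (r d S : ℕ) : Prop :=
  ∃ V : (κ ⊕ Fin r → Bool) → Bool, IsCkt d S V ∧
    (∀ x, F x = true → 1 / 2 < prob r fun ρ => V (Sum.elim x ρ) = true) ∧
    (∀ x, F x = false → prob r (fun ρ => V (Sum.elim x ρ) = true) ≤ 1 / 2)

/-- `Σ₂` protocol: `p` existential bits, then `r` universal bits. -/
def HasS2u {κ : Type} (F : (κ → Bool) → Bool) (p r d S : ℕ) : Prop :=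
  ∃ V : (κ ⊕ (Fin p ⊕ Fin r) → Bool) → Bool, IsCkt d S V ∧
    ∀ x, F x = true ↔ ∃ y, ∀ ρ, V (Sum.elim x (Sum.elim y ρ)) = true

/-! ### Classes -/

/-- Languages, given by their restrictions to the words of length `N`. -/
abbrev Lng : Type := (N : ℕ) → (Fin N → Bool) → Bool

/-- `m N = N ^ o(1)` -/
def Small (m : ℕ → ℕ) : Prop := ∀ e : ℕ, ∃ N₀ : ℕ, ∀ N ≥ N₀, m N ^ e ≤ N

/-- MA with verifiers of constant depth and polynomial size, `N ^ o(1)` message bits and coins. -/
def MAac : Set Lng :=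
  {L | ∃ (d C : ℕ) (m : ℕ → ℕ), Small m ∧ ∀ N, ∃ r p S, r ≤ m N ∧ p ≤ m N ∧
    S ≤ C * (N + 1) ^ C ∧ HasMAu (L N) r p d S}

/-- SBP with verifiers of constant depth and polynomial size, `N ^ o(1)` coins, threshold
`2 ^ (-N ^ o(1))`. -/
def SBPac : Set Lng :=
  {L | ∃ (d C : ℕ) (m : ℕ → ℕ), Small m ∧ ∀ N, ∃ r s S, r ≤ m N ∧ s ≤ m N ∧
    S ≤ C * (N + 1) ^ C ∧ HasSBu (L N) r s d S}

/-- AM with verifiers of constant depth and polynomial size, `N ^ o(1)` message bits and coins. -/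
def AMac : Set Lng :=
  {L | ∃ (d C : ℕ) (m : ℕ → ℕ), Small m ∧ ∀ N, ∃ r p S, r ≤ m N ∧ p ≤ m N ∧
    S ≤ C * (N + 1) ^ C ∧ HasAMk (L N) r p d S}

/-- PP with verifiers of constant depth and polynomial size, `N ^ o(1)` coins. -/
def PPac : Set Lng :=
  {L | ∃ (d C : ℕ) (m : ℕ → ℕ), Small m ∧ ∀ N, ∃ r S, r ≤ m N ∧
    S ≤ C * (N + 1) ^ C ∧ HasPPu (L N) r d S}

/-- `Σ₂` with verifiers of constant depth and polynomial size, `N ^ o(1)` bits for each of the two
quantifiers. -/
def S2ac : Set Lng :=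
  {L | ∃ (d C : ℕ) (m : ℕ → ℕ), Small m ∧ ∀ N, ∃ p r S, p ≤ m N ∧ r ≤ m N ∧
    S ≤ C * (N + 1) ^ C ∧ HasS2u (L N) p r d S}

end Pool.Agent.CD
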