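import Mathlib

/-!
Section 1 of note 5285 (theorem CD): restrictions, common partial decision trees, (T1) - (T7).
-/

namespace Pool.Agent.CD

open Finset

/-- A restriction: `none` is a star. -/
abbrev Restr (V : Type*) := V → Option Bool

variable {V : Type*} [DecidableEq V]

/-- `s` extends `r`. -/
def RLe (r s : Restr V) : Prop := ∀ v b, r v = some b → s v = some b

/-- the value of the star `v` is fixed to `b`. -/
def upd (r : Restr V) (v : V) (b : Bool) : Restr V := Function.update r v (some b)

/-- first `r`, then `s` on the stars of `r`. -/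
def comp (r s : Restr V) : Restr V := fun v => (r v).orElse (fun _ => s v)

/-- all variables of `K` are fixed by `τ`. -/
def ovr (r : Restr V) (K : Finset V) (τ : V → Bool) : Restr V :=
  fun v => if v ∈ K then some (τ v) else r v

/-- the input `x` is consistent with `r` (a term `T` is satisfied by `x` iff `Cons T x`). -/
def Cons (r : Restr V) (x : V → Bool) : Prop := ∀ v b, r v = some b → x v = b

/-- `g` is constant on the inputs which are consistent with `r`. -/
def Const {β : Type*} (g : (V → Bool) → β) (r : Restr V) : Prop :=
  ∀ x y, Cons r x → Cons r y → g x = g y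

/-- There is a decision tree of depth at most `t` which queries stars of `r` and whose leaves
satisfy `P`. -/
inductive Tr (P : Restr V → Prop) : ℕ → Restr V → Prop
  | leaf (t : ℕ) (r : Restr V) : P r → Tr P t r
  | node (t : ℕ) (r : Restr V) (v : V) : r v = none → (∀ b, Tr P t (upd r v b)) → Tr P (t + 1) r

/-- decision tree depth of `g` on the subcube `r` at most `t`. -/
def Dt {β : Type*} (g : (V → Bool) → β) (t : ℕ) (r : Restr V) : Prop := Tr (Const g) t r

/-- `P` is closed under extension. -/
def Up (P : Restr V → Prop) : Prop := ∀ r s, RLe r s → P r → P s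

omit [DecidableEq V] in
theorem RLe.refl (r : Restr V) : RLe r r := fun _ _ h => h

omit [DecidableEq V] in
theorem RLe.trans {r s t : Restr V} (h : RLe r s) (h' : RLe s t) : RLe r t :=
  fun v b e => h' v b (h v b e)

@[simp] theorem upd_same (r : Restr V) (v : V) (b : Bool) : upd r v b v = some b := by
  simp [upd]

theorem upd_ne (r : Restr V) {v w : V} (b : Bool) (h : w ≠ v) : upd r v b w = r w := by
  simp [upd, Function.update_of_ne h]

theorem rle_upd {r : Restr V} {v : V} (h : r v = none) (b : Bool) : RLe r (upd r v b) := by
  intro w c hw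
  have : w ≠ v := by
    rintro rfl
    rw [h] at hw
    exact absurd hw (by simp)
  rw [upd_ne r b this]
  exact hw

theorem upd_rle_upd {r s : Restr V} (h : RLe r s) (v : V) (b : Bool) :
    RLe (upd r v b) (upd s v b) := by
  intro w c hw
  by_cases e : w = v
  · subst e
    rw [upd_same] at hw ⊢
    exact hw
  · rw [upd_ne _ _ e] at hw ⊢
    exact h w c hw

theorem upd_rle {r s : Restr V} (h : RLe r s) {v : V} {b : Bool} (hs : s v = some b) :
    RLe (upd r v b) s := by
  intro w c hw
  by_cases e : w = v
  · subst e
    rw [upd_same] at hw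
    rw [hs]
    exact hw
  · rw [upd_ne _ _ e] at hw
    exact h w c hw

omit [DecidableEq V] in
theorem comp_of_some {r s : Restr V} {v : V} {b : Bool} (h : r v = some b) :
    comp r s v = some b := by
  simp [comp, h]

omit [DecidableEq V] in
theorem comp_of_none {r s : Restr V} {v : V} (h : r v = none) : comp r s v = s v := by
  simp [comp, h]

omit [DecidableEq V] in
theorem rle_comp (r s : Restr V) : RLe r (comp r s) := fun _ _ h => comp_of_some h

omit [DecidableEq V] in
theorem comp_none_iff {r s : Restr V} {v : V} : comp r s v = none ↔ r v = none ∧ s v = none := by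
  cases h : r v with
  | none => simp [comp, h]
  | some b => simp [comp, h]

omit [DecidableEq V] in
theorem comp_assoc (r s t : Restr V) : comp (comp r s) t = comp r (comp s t) := by
  funext v
  cases h : r v with
  | none => simp [comp, h]
  | some b => simp [comp, h]

/-- a star of both: the two updates agree. -/
theorem comp_upd_right {r s : Restr V} {v : V} (h : r v = none) (b : Bool) :
    comp r (upd s v b) = upd (comp r s) v b := by
  funext w
  by_cases e : w = v
  · subst e
    rw [comp_of_none h, upd_same, upd_same]
  · rw [upd_ne _ _ e]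
    cases hw : r w with
    | none => rw [comp_of_none hw, comp_of_none hw, upd_ne _ _ e]
    | some c => rw [comp_of_some hw, comp_of_some hw]

/-- a query in the domain of `r` is skipped. -/
theorem comp_upd_skip {r s : Restr V} {v : V} {c : Bool} (h : r v = some c) (b : Bool) :
    comp r (upd s v b) = comp r s := by
  funext w
  by_cases e : w = v
  · subst e
    rw [comp_of_some h, comp_of_some h]
  · cases hw : r w with
    | none => rw [comp_of_none hw, comp_of_none hw, upd_ne _ _ e]
    | some c => rw [comp_of_some hw, comp_of_some hw]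

theorem comp_upd_left {r s : Restr V} {v : V} (b : Bool) :
    comp (upd r v b) s = upd (comp r s) v b := by
  funext w
  by_cases e : w = v
  · subst e
    rw [comp_of_some (upd_same r w b), upd_same]
  · rw [upd_ne _ _ e]
    cases hw : r w with
    | none =>
      rw [comp_of_none hw]
      have : upd r v b w = none := by rw [upd_ne _ _ e]; exact hw
      rw [comp_of_none this]
    | some c =>
      rw [comp_of_some hw]
      have : upd r v b w = some c := by rw [upd_ne _ _ e]; exact hw
      rw [comp_of_some this]

theorem comp_upd_left_eq {r s : Restr V} {v : V} {b : Bool} (h : r v = none)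
    (hs : s v = some b) : comp (upd r v b) s = comp r s := by
  rw [comp_upd_left]
  funext w
  by_cases e : w = v
  · subst e
    rw [upd_same, comp_of_none h, hs]
  · rw [upd_ne _ _ e]

/-- (T1) monotonicity. -/
theorem Tr.mono {P Q : Restr V → Prop} (hQ : Up Q) (hPQ : ∀ r, P r → Q r) {t : ℕ}
    {r : Restr V} (h : Tr P t r) : ∀ {t' : ℕ} {s : Restr V}, t ≤ t' → RLe r s → Tr Q t' s := by
  induction h with
  | leaf t r hr => exact fun _ hrs => Tr.leaf _ _ (hQ _ _ hrs (hPQ _ hr))
  | node t r v hv _ ih =>
    intro t' s ht hrs
    cases hs : s v with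
    | none =>
      obtain ⟨k, rfl⟩ : ∃ k, t' = k + 1 := ⟨t' - 1, by omega⟩
      exact Tr.node _ _ v hs fun b => ih b (by omega) (upd_rle_upd hrs v b)
    | some b => exact ih b (by omega) (upd_rle hrs hs)

theorem Tr.mono_depth {P : Restr V → Prop} {t : ℕ} {r : Restr V} (h : Tr P t r) :
    ∀ {t' : ℕ}, t ≤ t' → Tr P t' r := by
  induction h with
  | leaf t r hr => exact fun _ => Tr.leaf _ _ hr
  | node t r v hv _ ih =>
    intro t' ht
    obtain ⟨k, rfl⟩ : ∃ k, t' = k + 1 := ⟨t' - 1, by omega⟩
    exact Tr.node _ _ v hv fun b => ih b (by omega)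

theorem Tr.imp {P Q : Restr V → Prop} (hPQ : ∀ r, P r → Q r) {t : ℕ} {r : Restr V}
    (h : Tr P t r) : Tr Q t r := by
  induction h with
  | leaf t r hr => exact Tr.leaf _ _ (hPQ _ hr)
  | node t r v hv _ ih => exact Tr.node _ _ v hv ih

/-- the leaves may be assumed to extend the root. -/
theorem Tr.imp_ext {P Q : Restr V → Prop} {t : ℕ} {r : Restr V} (h : Tr P t r) :
    (∀ s, RLe r s → P s → Q s) → Tr Q t r := by
  induction h with
  | leaf t r hr => exact fun hPQ => Tr.leaf _ _ (hPQ _ (RLe.refl _) hr)
  | node t r v hv _ ih =>
    exact fun hPQ => Tr.node _ _ v hv fun b => ih b fun s hs =>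
      hPQ s ((rle_upd hv b).trans hs)

theorem Tr.up {P : Restr V → Prop} (hP : Up P) (t : ℕ) : Up (Tr P t) :=
  fun _ _ h h' => h'.mono hP (fun _ => id) le_rfl h

omit [DecidableEq V] in
theorem Cons.mono {r s : Restr V} (h : RLe r s) {x : V → Bool} (hx : Cons s x) : Cons r x :=
  fun v b e => hx v b (h v b e)

omit [DecidableEq V] in
theorem const_up {β : Type*} (g : (V → Bool) → β) : Up (Const g) :=
  fun _ _ h hg x y hx hy => hg x y (hx.mono h) (hy.mono h)

theorem dt_up {β : Type*} (g : (V → Bool) → β) (t : ℕ) : Up (Dt g t) := Tr.up (const_up g) t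

/-- (T3) -/
theorem Tr.of_over {P : Restr V → Prop} {t : ℕ} (K : Finset V) :
    ∀ (r : Restr V), (∀ v ∈ K, r v = none) → (∀ τ : V → Bool, Tr P t (ovr r K τ)) →
      Tr P (t + K.card) r := by
  induction K using Finset.induction_on with
  | empty =>
    intro r _ h
    have := h (fun _ => true)
    have e : ovr r ∅ (fun _ => true) = r := by
      funext v
      simp [ovr]
    rw [e] at this
    simpa using this
  | insert v K hv ih =>
    intro r hr h
    rw [card_insert_of_notMem hv, ← add_assoc]
    refine Tr.node _ _ v (hr v (mem_insert_self _ _)) fun b => ih _ ?_ ?_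
    · intro w hw
      rw [upd_ne]
      · exact hr w (mem_insert_of_mem hw)
      · rintro rfl
        exact hv hw
    · intro τ
      have := h (Function.update τ v b)
      have e : ovr r (insert v K) (Function.update τ v b) = ovr (upd r v b) K τ := by
        funext w
        by_cases e : w = v
        · subst e
          simp [ovr, hv]
        · simp [ovr, e, upd_ne r b e]
      rw [e] at this
      exact this

/-- (T4) -/
theorem Tr.bind {P : Restr V → Prop} {k t : ℕ} {r : Restr V} (h : Tr (Tr P k) t r) :
    Tr P (t + k) r := by
  induction h with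
  | leaf t r hr => exact hr.mono_depth (by omega)
  | node t r v hv _ ih =>
    have : t + 1 + k = (t + k) + 1 := by omega
    rw [this]
    exact Tr.node _ _ v hv ih

/-- (T5) -/
theorem Tr.comp_left {P' P : Restr V → Prop} {t : ℕ} {r : Restr V} (lam : Restr V)
    (h : Tr P' t r) (hP : ∀ s, P' s → P (comp lam s)) : Tr P t (comp lam r) := by
  induction h with
  | leaf t r hr => exact Tr.leaf _ _ (hP _ hr)
  | node t r v hv _ ih =>
    cases hl : lam v with
    | none =>
      refine Tr.node _ _ v ?_ fun b => ?_
      · rw [comp_of_none hl]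
        exact hv
      · rw [← comp_upd_right hl]
        exact ih b
    | some c =>
      have := ih true
      rw [comp_upd_skip hl] at this
      exact this.mono_depth (by omega)

/-- (T6) -/
theorem Tr.leaves {P : Restr V → Prop} {t : ℕ} {r : Restr V} (h : Tr P t r) :
    ∃ Lam : List (Restr V), Lam.length ≤ 2 ^ t ∧ (∀ l ∈ Lam, P l ∧ RLe r l) ∧
      ∀ (s : Restr V) (Q : Restr V → Prop) (k : ℕ), (∀ l ∈ Lam, Tr Q k (comp l s)) →
        Tr Q (t + k) (comp r s) := by
  induction h with
  | leaf t r hr =>
    refine ⟨[r], by simpa using Nat.one_le_two_pow, ?_, ?_⟩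
    · intro l hl
      rw [List.mem_singleton] at hl
      subst hl
      exact ⟨hr, RLe.refl _⟩
    · intro s Q k hQ
      exact (hQ r (by simp)).mono_depth (by omega)
  | node t r v hv _ ih =>
    obtain ⟨L0, h0, h0', h0''⟩ := ih false
    obtain ⟨L1, h1, h1', h1''⟩ := ih true
    refine ⟨L0 ++ L1, ?_, ?_, ?_⟩
    · rw [List.length_append, pow_succ]
      omega
    · intro l hl
      rcases List.mem_append.mp hl with hl | hl
      · exact ⟨(h0' l hl).1, (rle_upd hv _).trans (h0' l hl).2⟩
      · exact ⟨(h1' l hl).1, (rle_upd hv _).trans (h1' l hl).2⟩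
    · intro s Q k hQ
      have a0 := h0'' s Q k fun l hl => hQ l (List.mem_append.mpr (Or.inl hl))
      have a1 := h1'' s Q k fun l hl => hQ l (List.mem_append.mpr (Or.inr hl))
      cases hs : s v with
      | none =>
        have : t + 1 + k = (t + k) + 1 := by omega
        rw [this]
        refine Tr.node _ _ v ?_ fun b => ?_
        · rw [comp_of_none hv]
          exact hs
        · rw [← comp_upd_left]
          cases b
          · exact a0
          · exact a1
      | some b =>
        cases b
        · rw [comp_upd_left_eq hv hs] at a0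
          exact a0.mono_depth (by omega)
        · rw [comp_upd_left_eq hv hs] at a1
          exact a1.mono_depth (by omega)

/-- number of fixed variables. -/
def sz [Fintype V] (T : Restr V) : ℕ := (univ.filter fun v => (T v).isSome).card

theorem cons_upd {r : Restr V} {v : V} {b : Bool} {x : V → Bool} :
    Cons r x → x v = b → Cons (upd r v b) x := by
  intro h hb w c hw
  by_cases e : w = v
  · subst e
    rw [upd_same] at hw
    rw [hb]
    exact Option.some.inj hw
  · rw [upd_ne _ _ e] at hw
    exact h w c hw

theorem sz_upd [Fintype V] (T : Restr V) (v : V) (b : Bool) : sz (upd T v b) ≤ sz T + 1 := by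
  have : (univ.filter fun w => (upd T v b w).isSome) ⊆
      insert v (univ.filter fun w => (T w).isSome) := by
    intro w hw
    rw [mem_filter] at hw
    by_cases e : w = v
    · subst e
      exact mem_insert_self _ _
    · rw [upd_ne _ _ e] at hw
      exact mem_insert_of_mem (mem_filter.mpr ⟨mem_univ _, hw.2⟩)
  exact (card_le_card this).trans (card_insert_le _ _)

/-- (T7) on the subcube `r` a function of depth `w` is a disjunction of terms of width `w`
in the stars of `r`, for each of its values. -/
theorem Dt.terms [Fintype V] {β : Type*} {g : (V → Bool) → β} {w : ℕ} {r : Restr V}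
    (h : Dt g w r) (s : β) :
    ∃ TL : List (Restr V), (∀ T ∈ TL, sz T ≤ w ∧ ∀ v, T v ≠ none → r v = none) ∧
      ∀ x, Cons r x → (g x = s ↔ ∃ T ∈ TL, Cons T x) := by
  induction h with
  | leaf t r hr =>
    by_cases hx : ∃ x, Cons r x ∧ g x = s
    · obtain ⟨x, hx, hgx⟩ := hx
      refine ⟨[fun _ => none], ?_, ?_⟩
      · intro T hT
        rw [List.mem_singleton] at hT
        subst hT
        refine ⟨by simp [sz], fun v hv => absurd rfl hv⟩
      · intro y hy
        refine ⟨fun _ => ⟨_, List.mem_singleton.mpr rfl, fun v b hv => by simp at hv⟩, fun _ => ?_⟩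
        rw [← hgx]
        exact hr y x hy hx
    · refine ⟨[], by simp, ?_⟩
      intro y hy
      constructor
      · intro hgy
        exact absurd ⟨y, hy, hgy⟩ hx
      · rintro ⟨T, hT, _⟩
        exact absurd hT (by simp)
  | node t r v hv _ ih =>
    obtain ⟨L0, h0, h0'⟩ := ih false
    obtain ⟨L1, h1, h1'⟩ := ih true
    refine ⟨L0.map (fun T => upd T v false) ++ L1.map (fun T => upd T v true), ?_, ?_⟩
    · intro T hT
      have key : ∀ (b : Bool) (L : List (Restr V)),
          (∀ T ∈ L, sz T ≤ t ∧ ∀ w, T w ≠ none → upd r v b w = none) →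
          T ∈ L.map (fun T => upd T v b) → sz T ≤ t + 1 ∧ ∀ w, T w ≠ none → r w = none := by
        intro b L hL hT
        obtain ⟨T', hT', rfl⟩ := List.mem_map.mp hT
        refine ⟨(sz_upd T' v b).trans (by have := (hL T' hT').1; omega), ?_⟩
        intro w hw
        by_cases e : w = v
        · subst e
          exact hv
        · rw [upd_ne _ _ e] at hw
          have := (hL T' hT').2 w hw
          rw [upd_ne _ _ e] at this
          exact this
      rcases List.mem_append.mp hT with hT | hT
      · exact key false L0 h0 hT
      · exact key true L1 h1 hT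
    · intro x hx
      have key : ∀ (b : Bool) (L : List (Restr V)), x v = b →
          (∀ T ∈ L, sz T ≤ t ∧ ∀ w, T w ≠ none → upd r v b w = none) →
          ((∃ T ∈ L, Cons T x) ↔ ∃ T ∈ L.map (fun T => upd T v b), Cons T x) := by
        intro b L hb hL
        constructor
        · rintro ⟨T, hT, hTx⟩
          exact ⟨_, List.mem_map.mpr ⟨T, hT, rfl⟩, cons_upd hTx hb⟩
        · rintro ⟨T, hT, hTx⟩
          obtain ⟨T', hT', rfl⟩ := List.mem_map.mp hT
          refine ⟨T', hT', fun w c hw => ?_⟩
          by_cases e : w = v
          · subst e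
            have := (hL T' hT').2 w (by rw [hw]; simp)
            rw [upd_same] at this
            exact absurd this (by simp)
          · exact hTx w c (by rw [upd_ne _ _ e]; exact hw)
      have no : ∀ (b : Bool) (L : List (Restr V)), x v ≠ b →
          ¬ ∃ T ∈ L.map (fun T => upd T v b), Cons T x := by
        rintro b L hb ⟨T, hT, hTx⟩
        obtain ⟨T', hT', rfl⟩ := List.mem_map.mp hT
        exact hb (hTx v b (upd_same _ _ _))
      cases hb : x v with
      | false =>
        rw [h0' x (cons_upd hx hb), key false L0 hb h0]
        constructor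
        · rintro ⟨T, hT, hTx⟩
          exact ⟨T, List.mem_append.mpr (Or.inl hT), hTx⟩
        · rintro ⟨T, hT, hTx⟩
          rcases List.mem_append.mp hT with hT | hT
          · exact ⟨T, hT, hTx⟩
          · exact absurd ⟨T, hT, hTx⟩ (no true L1 (by rw [hb]; simp))
      | true =>
        rw [h1' x (cons_upd hx hb), key true L1 hb h1]
        constructor
        · rintro ⟨T, hT, hTx⟩
          exact ⟨T, List.mem_append.mpr (Or.inr hT), hTx⟩
        · rintro ⟨T, hT, hTx⟩
          rcases List.mem_append.mp hT with hT | hT
          · exact absurd ⟨T, hT, hTx⟩ (no false L0 (by rw [hb]; simp))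
          · exact ⟨T, hT, hTx⟩

end Pool.Agent.CD
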