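import Pool.Agent.Lib.CD.Def

/-!
Section 6 of note 5285 (theorem CD): the upper bounds. A protocol whose verifier is a decision tree
with ten queries to the parities of the blocks becomes a protocol whose verifier is a circuit of
depth three: the partial parities of the queried blocks are written in the message (or in the
coins).
-/

set_option autoImplicit false

namespace Pool.Agent.CD

open Finset Pool.Agent.Lib.MP_ff3ed7_lc Pool.Agent.Lib.MP_ff3ed7_lc.B

/-- substitution of variables -/
theorem Up_sub {κ κ' : Type} {d S : ℕ} {f : (κ → Bool) → Bool} (h : IsCkt d S f) (e : κ → κ') :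
    IsCkt d S (fun x : κ' → Bool => f (fun i => x (e i))) := by
  classical
  obtain ⟨G, h0, h1, j, hj, hf⟩ := h
  refine ⟨fun i j x => G i j (fun a => x (e a)), ?_, ?_, j, hj, fun x => hf _⟩
  · intro j hj
    obtain ⟨A, hA, hx⟩ := h0 j hj
    refine ⟨A.image e, le_trans card_image_le hA, fun x y hxy => hx _ _ fun i hi => ?_⟩
    exact hxy _ (mem_image_of_mem e hi)
  · intro i hi j hj
    obtain ⟨A, s, t, hA, hx⟩ := h1 i hi j hj
    exact ⟨A, s, t, hA, fun x => hx _⟩

/-- the clause `c` is satisfied -/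
def Up_sat {κ : Type} (c : κ → Option Bool) (x : κ → Bool) : Prop :=
  ∃ v b, c v = some b ∧ x v = b

/-- a disjunction of conjunctions of clauses is a circuit of depth three -/
theorem Up_ckt {κ Cl Q : Type} [Fintype κ] [Fintype Cl] [Fintype Q] (S : ℕ)
    (hκ : Fintype.card κ ≤ S) (hC : Fintype.card Cl ≤ S) (hQ : Fintype.card Q ≤ S) (hS : 1 ≤ S)
    (cl : Cl → κ → Option Bool) (cs : Q → Cl → Prop) (f : (κ → Bool) → Bool)
    (hf : ∀ x, f x = true ↔ ∃ q, ∀ c, cs q c → Up_sat (cl c) x) : IsCkt 3 S f := by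
  classical
  let e0 := Fintype.equivFin κ
  let e1 := Fintype.equivFin Cl
  let e2 := Fintype.equivFin Q
  let G0 : ℕ → (κ → Bool) → Bool := fun j x =>
    if h : j < Fintype.card κ then x (e0.symm ⟨j, h⟩) else false
  let G1 : ℕ → (κ → Bool) → Bool := fun j x =>
    if h : j < Fintype.card Cl then decide (Up_sat (cl (e1.symm ⟨j, h⟩)) x) else false
  let G2 : ℕ → (κ → Bool) → Bool := fun j x =>
    if h : j < Fintype.card Q then
      decide (∀ c, cs (e2.symm ⟨j, h⟩) c → Up_sat (cl c) x) else false
  let G3 : ℕ → (κ → Bool) → Bool := fun j x => if j = 0 then f x else false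
  let G : ℕ → ℕ → (κ → Bool) → Bool := fun i =>
    match i with
    | 0 => G0
    | 1 => G1
    | 2 => G2
    | _ => G3
  refine ⟨G, ?_, ?_, 0, hS, fun x => ?_⟩
  · intro j hj
    by_cases h : j < Fintype.card κ
    · refine ⟨{e0.symm ⟨j, h⟩}, by simp, fun x y hxy => ?_⟩
      show G0 j x = G0 j y
      simp only [G0, dif_pos h]
      exact hxy _ (mem_singleton_self _)
    · refine ⟨∅, by simp, fun x y _ => ?_⟩
      show G0 j x = G0 j y
      simp only [G0, dif_neg h]
  · intro i hi j hj
    interval_cases i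
    · -- clauses
      show ∃ (A : Finset ℕ) (s : ℕ → Bool) (t : Bool), (∀ a ∈ A, a < S) ∧
        ∀ x, G1 j x = t ↔ ∃ a ∈ A, G0 a x = s a
      by_cases h : j < Fintype.card Cl
      · refine ⟨(univ.filter fun v : κ => (cl (e1.symm ⟨j, h⟩) v).isSome).image
          (fun v => ((e0 v : Fin _) : ℕ)),
          fun a => if h' : a < Fintype.card κ then
            ((cl (e1.symm ⟨j, h⟩)) (e0.symm ⟨a, h'⟩)).getD false else false, true, ?_, ?_⟩
        · intro a ha
          obtain ⟨v, _, rfl⟩ := mem_image.1 ha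
          exact lt_of_lt_of_le (e0 v).2 hκ
        · intro x
          simp only [G1, dif_pos h, decide_eq_true_eq]
          constructor
          · rintro ⟨v, b, hv, hx⟩
            refine ⟨_, mem_image.2 ⟨v, mem_filter.2 ⟨mem_univ _, by rw [hv]; rfl⟩, rfl⟩, ?_⟩
            simp only [G0, dif_pos (e0 v).2, Fin.eta, Equiv.symm_apply_apply, hv,
              Option.getD_some]
            exact hx
          · rintro ⟨a, ha, hx⟩
            obtain ⟨v, hv, rfl⟩ := mem_image.1 ha
            obtain ⟨b, hb⟩ := Option.isSome_iff_exists.1 (mem_filter.1 hv).2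
            refine ⟨v, b, hb, ?_⟩
            simpa only [G0, dif_pos (e0 v).2, Fin.eta, Equiv.symm_apply_apply, hb,
              Option.getD_some] using hx
      · refine ⟨∅, fun _ => true, true, by simp, fun x => ?_⟩
        simp only [G1, dif_neg h]
        simp
    · -- conjunctions
      show ∃ (A : Finset ℕ) (s : ℕ → Bool) (t : Bool), (∀ a ∈ A, a < S) ∧
        ∀ x, G2 j x = t ↔ ∃ a ∈ A, G1 a x = s a
      by_cases h : j < Fintype.card Q
      · refine ⟨(univ.filter fun c : Cl => cs (e2.symm ⟨j, h⟩) c).image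
          (fun c => ((e1 c : Fin _) : ℕ)), fun _ => false, false, ?_, ?_⟩
        · intro a ha
          obtain ⟨v, _, rfl⟩ := mem_image.1 ha
          exact lt_of_lt_of_le (e1 v).2 hC
        · intro x
          simp only [G2, dif_pos h, decide_eq_false_iff_not]
          constructor
          · intro hx
            push Not at hx
            obtain ⟨c, hc, hx⟩ := hx
            refine ⟨_, mem_image.2 ⟨c, mem_filter.2 ⟨mem_univ _, hc⟩, rfl⟩, ?_⟩
            simp only [G1, dif_pos (e1 c).2, Fin.eta, Equiv.symm_apply_apply,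
              decide_eq_false_iff_not]
            exact hx
          · rintro ⟨a, ha, hx⟩ hall
            obtain ⟨c, hc, rfl⟩ := mem_image.1 ha
            simp only [G1, dif_pos (e1 c).2, Fin.eta, Equiv.symm_apply_apply,
              decide_eq_false_iff_not] at hx
            exact hx (hall c (mem_filter.1 hc).2)
      · refine ⟨∅, fun _ => true, true, by simp, fun x => ?_⟩
        simp only [G2, dif_neg h]
        simp
    · -- the disjunction
      show ∃ (A : Finset ℕ) (s : ℕ → Bool) (t : Bool), (∀ a ∈ A, a < S) ∧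
        ∀ x, G3 j x = t ↔ ∃ a ∈ A, G2 a x = s a
      by_cases h : j = 0
      · refine ⟨(univ : Finset Q).image (fun q => ((e2 q : Fin _) : ℕ)), fun _ => true, true,
          ?_, ?_⟩
        · intro a ha
          obtain ⟨v, _, rfl⟩ := mem_image.1 ha
          exact lt_of_lt_of_le (e2 v).2 hQ
        · intro x
          simp only [G3, if_pos h]
          rw [hf]
          constructor
          · rintro ⟨q, hq⟩
            refine ⟨_, mem_image.2 ⟨q, mem_univ _, rfl⟩, ?_⟩
            simp only [G2, dif_pos (e2 q).2, Fin.eta, Equiv.symm_apply_apply,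
              decide_eq_true_eq]
            exact hq
          · rintro ⟨a, ha, hx⟩
            obtain ⟨q, _, rfl⟩ := mem_image.1 ha
            simp only [G2, dif_pos (e2 q).2, Fin.eta, Equiv.symm_apply_apply,
              decide_eq_true_eq] at hx
            exact ⟨q, hx⟩
      · refine ⟨∅, fun _ => true, true, by simp, fun x => ?_⟩
        simp only [G3, if_neg h]
        simp
  · show f x = G3 0 x
    simp only [G3, if_true]

/-! ### Paths in trees -/

/-- the query at time `t` if the answers are `a` -/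
def Up_path {n : ℕ} : DTree (Fin n) Bool → (ℕ → Bool) → ℕ → Option (Fin n)
  | .leaf _, _, _ => none
  | .node i _, _, 0 => some i
  | .node _ next, a, t + 1 => Up_path (next (a 0)) (fun u => a (u + 1)) t

/-- the output if the answers are `a` -/
def Up_out {n : ℕ} : DTree (Fin n) Bool → (ℕ → Bool) → Bool
  | .leaf b, _ => b
  | .node _ next, a => Up_out (next (a 0)) (fun u => a (u + 1))

/-- the answers on the input `z` -/
def Up_ans {n : ℕ} (z : Fin n → Bool) : DTree (Fin n) Bool → ℕ → Bool
  | .leaf _, _ => false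
  | .node i _, 0 => z i
  | .node i next, t + 1 => Up_ans z (next (z i)) t

/-- the value at a possible query -/
def Up_val {n : ℕ} (z : Fin n → Bool) : Option (Fin n) → Bool
  | none => false
  | some i => z i

theorem Up_path_none {n : ℕ} (T : DTree (Fin n) Bool) :
    ∀ (d : ℕ) (a : ℕ → Bool) (t : ℕ), T.DepthLE d → d ≤ t → Up_path T a t = none := by
  induction T with
  | leaf b => intro d a t _ _; rfl
  | node i next ih =>
    intro d a t hd ht
    obtain ⟨h0, h1⟩ := hd
    cases t with
    | zero => omega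
    | succ t => exact ih (a 0) (d - 1) _ t (h1 _) (by omega)

theorem Up_ans_fix {n : ℕ} (z : Fin n → Bool) (T : DTree (Fin n) Bool) :
    ∀ t, Up_ans z T t = Up_val z (Up_path T (Up_ans z T) t) := by
  induction T with
  | leaf b => intro t; rfl
  | node i next ih =>
    intro t
    cases t with
    | zero => rfl
    | succ t => exact ih (z i) t

theorem Up_ans_unique {n : ℕ} (z : Fin n → Bool) (T : DTree (Fin n) Bool) :
    ∀ (a : ℕ → Bool), (∀ t, a t = Up_val z (Up_path T a t)) → ∀ t, a t = Up_ans z T t := by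
  induction T with
  | leaf b => intro a h t; rw [h t]; rfl
  | node i next ih =>
    intro a h t
    have h0 : a 0 = z i := h 0
    cases t with
    | zero => exact h0
    | succ t =>
      have h1 := ih (a 0) (fun u => a (u + 1)) (fun u => h (u + 1)) t
      rw [h0] at h1
      exact h1

theorem Up_out_ans {n : ℕ} (z : Fin n → Bool) (T : DTree (Fin n) Bool) :
    Up_out T (Up_ans z T) = T.eval z := by
  induction T with
  | leaf b => rfl
  | node i next ih => exact ih (z i)

theorem Up_ans_none {n : ℕ} (z : Fin n → Bool) (T : DTree (Fin n) Bool) (d t : ℕ)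
    (hd : T.DepthLE d) (ht : d ≤ t) : Up_ans z T t = false := by
  rw [Up_ans_fix, Up_path_none T d _ t hd ht]
  rfl

/-! ### Partial parities -/

/-- extension by `false` -/
def Up_ext {k : ℕ} (b : Fin k → Bool) (i : ℕ) : Bool := if h : i < k then b ⟨i, h⟩ else false

/-- partial parities -/
def Up_pp {k : ℕ} (b : Fin k → Bool) (j : ℕ) : Bool :=
  decide (Odd (∑ i ∈ range j, (Up_ext b i).toNat))

theorem Up_pp_zero {k : ℕ} (b : Fin k → Bool) : Up_pp b 0 = false := by
  simp [Up_pp]

theorem Up_pp_succ {k : ℕ} (b : Fin k → Bool) (j : ℕ) :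
    Up_pp b (j + 1) = xor (Up_pp b j) (Up_ext b j) := by
  unfold Up_pp
  rw [sum_range_succ]
  rcases h : Up_ext b j with _ | _
  · simp
  · by_cases ho : Odd (∑ i ∈ range j, (Up_ext b i).toNat)
    · simp [Nat.odd_add_one, ho]
    · simp [Nat.odd_add_one, ho]

theorem Up_pp_par {k : ℕ} (b : Fin k → Bool) : Up_pp b k = par b := by
  have h : (∑ i ∈ range k, (Up_ext b i).toNat) = ∑ j, (b j).toNat := by
    rw [Finset.sum_range]
    refine Finset.sum_congr rfl fun j _ => ?_
    simp [Up_ext]
  simp only [Up_pp, par, h]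

theorem Up_pp_false {k : ℕ} (j : ℕ) : Up_pp (fun _ : Fin k => false) j = false := by
  induction j with
  | zero => exact Up_pp_zero _
  | succ j ih => rw [Up_pp_succ, ih]; simp [Up_ext]

/-! ### The circuit -/

section main

variable {n k : ℕ} {W : Type} [Fintype W]

/-- input bits, bits of the old message and coins, partial parities -/
abbrev Up_K (n k : ℕ) (W : Type) : Type := (Fin n × Fin k) ⊕ (W ⊕ (Fin 10 × Fin k))

/-- clauses -/
abbrev Up_C (n k : ℕ) (W : Type) : Type :=
  (W × Bool) ⊕ (((Fin 10 × Fin k × Option (Fin n)) × (Bool × Bool × Bool)) ⊕ (Fin 10 × Bool))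

/-- ten answers as a sequence -/
def Up_seq (a : Fin 10 → Bool) (t : ℕ) : Bool := if h : t < 10 then a ⟨t, h⟩ else false

/-- the bits of a possible block -/
def Up_blk (x : Fin n × Fin k → Bool) (o : Option (Fin n)) (j : Fin k) : Bool :=
  match o with
  | none => false
  | some i => x (i, j)

/-- the right partial parities -/
def Up_Y (T : (W → Bool) → DTree (Fin n) Bool) (x : Fin n × Fin k → Bool) (w : W → Bool)
    (q : Fin 10 × Fin k) : Bool :=
  Up_pp (Up_blk x (Up_path (T w) (Up_ans (xk x) (T w)) q.1)) (q.2.val + 1)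

open Classical in
/-- the function of the circuit -/
noncomputable def Up_V (T : (W → Bool) → DTree (Fin n) Bool) (y : Up_K n k W → Bool) : Bool :=
  decide ((T (fun i => y (Sum.inr (Sum.inl i)))).eval (xk fun q => y (Sum.inl q)) = true ∧
    ∀ q, y (Sum.inr (Sum.inr q)) =
      Up_Y T (fun q => y (Sum.inl q)) (fun i => y (Sum.inr (Sum.inl i))) q)

open Classical in
/-- the clauses -/
noncomputable def Up_cl (c : Up_C n k W) (v : Up_K n k W) : Option Bool :=
  match c, v with
  | Sum.inl (i, b), Sum.inr (Sum.inl i') => if i' = i then some b else none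
  | Sum.inr (Sum.inl ((t, j, _), (b1, b2, _))), Sum.inr (Sum.inr (t', j')) =>
      if t' = t ∧ j' = j then some b1 else if t' = t ∧ j'.val + 1 = j.val then some b2 else none
  | Sum.inr (Sum.inl ((_, j, o), (_, _, b3))), Sum.inl (i', j') =>
      if o = some i' ∧ j' = j then some b3 else none
  | Sum.inr (Sum.inr (t, b)), Sum.inr (Sum.inr (t', j')) =>
      if t' = t ∧ j'.val + 1 = k then some b else none
  | _, _ => none

/-- the guesses -/
abbrev Up_Q (T : (W → Bool) → DTree (Fin n) Bool) : Type :=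
  {q : (W → Bool) × (Fin 10 → Bool) // Up_out (T q.1) (Up_seq q.2) = true}

/-- the clauses of a guess -/
def Up_cs (T : (W → Bool) → DTree (Fin n) Bool) (q : Up_Q T) (c : Up_C n k W) : Prop :=
  match c with
  | Sum.inl (i, b) => q.1.1 i = b
  | Sum.inr (Sum.inl ((t, j, o), (b1, b2, b3))) =>
      o = Up_path (T q.1.1) (Up_seq q.1.2) t ∧ (j.val = 0 → b2 = true) ∧ (o = none → b3 = true) ∧
        xor (!b1) (xor (!b2) (!b3)) = true
  | Sum.inr (Sum.inr (t, b)) => q.1.2 t = b

/-- the bit before `(t, j)` -/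
def Up_prev (y : Up_K n k W → Bool) (t : Fin 10) (j : Fin k) : Bool :=
  if h : 0 < j.val then y (Sum.inr (Sum.inr (t, ⟨j.val - 1, by omega⟩))) else false

omit [Fintype W] in
theorem Up_one (T : (W → Bool) → DTree (Fin n) Bool) (q : Up_Q T) (y : Up_K n k W → Bool)
    (hk : 1 ≤ k) :
    (∀ c, Up_cs T q c → Up_sat (Up_cl c) y) ↔
      (∀ i, y (Sum.inr (Sum.inl i)) = q.1.1 i) ∧
      (∀ (t : Fin 10) (j : Fin k), y (Sum.inr (Sum.inr (t, j))) =
        xor (Up_prev y t j)
          (Up_blk (fun q => y (Sum.inl q)) (Up_path (T q.1.1) (Up_seq q.1.2) t) j)) ∧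
      (∀ t : Fin 10, y (Sum.inr (Sum.inr (t, ⟨k - 1, by omega⟩))) = q.1.2 t) := by
  constructor
  · intro h
    refine ⟨fun i => ?_, fun t j => ?_, fun t => ?_⟩
    · obtain ⟨v, b, hv, hy⟩ := h (Sum.inl (i, q.1.1 i)) rfl
      rcases v with v | v | v
      · simp [Up_cl] at hv
      · simp only [Up_cl] at hv
        split_ifs at hv with h1
        · rw [h1] at hy
          rw [hy]
          exact (Option.some.inj hv).symm
      · simp [Up_cl] at hv
    · by_contra hne
      obtain ⟨o, ho⟩ : ∃ o, o = Up_path (T q.1.1) (Up_seq q.1.2) t := ⟨_, rfl⟩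
      rw [← ho] at hne
      have hcs : Up_cs T q (Sum.inr (Sum.inl ((t, j, o), (!(y (Sum.inr (Sum.inr (t, j)))),
          !(Up_prev y t j), !(Up_blk (fun q => y (Sum.inl q)) o j))))) := by
        refine ⟨ho, fun hj => ?_, fun ho' => ?_, ?_⟩
        · simp [Up_prev, hj]
        · rw [ho']; rfl
        · revert hne
          cases y (Sum.inr (Sum.inr (t, j))) <;> cases Up_prev y t j <;>
            cases Up_blk (fun q => y (Sum.inl q)) o j <;> simp
      obtain ⟨v, b, hv, hy⟩ := h _ hcs
      rcases v with ⟨i', j'⟩ | v | ⟨t', j'⟩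
      · simp only [Up_cl] at hv
        split_ifs at hv with h1
        · obtain ⟨h1, rfl⟩ := h1
          rw [h1] at hv
          have h3 := Option.some.inj hv
          rw [← h3] at hy
          simp only [Up_blk] at hy
          revert hy
          cases y (Sum.inl (i', j')) <;> simp
      · simp [Up_cl] at hv
      · simp only [Up_cl] at hv
        split_ifs at hv with h1 h2
        · obtain ⟨rfl, rfl⟩ := h1
          have h3 := Option.some.inj hv
          rw [← h3] at hy
          revert hy
          cases y (Sum.inr (Sum.inr (t', j'))) <;> simp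
        · obtain ⟨rfl, h2⟩ := h2
          have h3 := Option.some.inj hv
          rw [← h3] at hy
          have h4 : Up_prev y t' j = y (Sum.inr (Sum.inr (t', j'))) := by
            unfold Up_prev
            rw [dif_pos (by omega)]
            congr 4
            apply Fin.ext
            show j.val - 1 = j'.val
            omega
          rw [h4] at hy
          revert hy
          cases y (Sum.inr (Sum.inr (t', j'))) <;> simp
    · obtain ⟨v, b, hv, hy⟩ := h (Sum.inr (Sum.inr (t, q.1.2 t))) rfl
      rcases v with v | v | ⟨t', j'⟩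
      · simp [Up_cl] at hv
      · simp [Up_cl] at hv
      · simp only [Up_cl] at hv
        split_ifs at hv with h1
        · obtain ⟨rfl, h1⟩ := h1
          have h3 : j' = ⟨k - 1, by omega⟩ := Fin.ext (by show j'.val = k - 1; omega)
          rw [← h3, hy]
          exact (Option.some.inj hv).symm
  · rintro ⟨h1, h2, h3⟩ c hc
    rcases c with ⟨i, b⟩ | ⟨⟨t, j, o⟩, b1, b2, b3⟩ | ⟨t, b⟩
    · have hc' : q.1.1 i = b := hc
      exact ⟨Sum.inr (Sum.inl i), b, by simp [Up_cl], by rw [h1, hc']⟩
    · obtain ⟨ho, hj, ho3, hx⟩ := hc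
      by_cases e1 : y (Sum.inr (Sum.inr (t, j))) = b1
      · exact ⟨Sum.inr (Sum.inr (t, j)), b1, by simp [Up_cl], e1⟩
      by_cases e2 : 0 < j.val ∧ Up_prev y t j = b2
      · refine ⟨Sum.inr (Sum.inr (t, ⟨j.val - 1, by omega⟩)), b2, ?_, ?_⟩
        · have hne : ¬ ((⟨j.val - 1, by omega⟩ : Fin k) = j) := by
            intro h
            have := congrArg Fin.val h
            have h4 : j.val - 1 = j.val := this
            omega
          have h5 : j.val - 1 + 1 = j.val := by omega
          simp only [Up_cl]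
          rw [if_neg (fun h => hne h.2), if_pos ⟨trivial, h5⟩]
        · have h6 := e2.2
          unfold Up_prev at h6
          rw [dif_pos e2.1] at h6
          exact h6
      by_cases e3 : ∃ i, o = some i ∧ y (Sum.inl (i, j)) = b3
      · obtain ⟨i, hi, hy⟩ := e3
        refine ⟨Sum.inl (i, j), b3, ?_, hy⟩
        simp only [Up_cl]
        rw [if_pos ⟨hi, trivial⟩]
      exfalso
      have p2 : Up_prev y t j = !b2 := by
        by_cases hj0 : 0 < j.val
        · have : Up_prev y t j ≠ b2 := fun h => e2 ⟨hj0, h⟩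
          revert this
          cases Up_prev y t j <;> cases b2 <;> simp
        · rw [hj (by omega)]
          simp [Up_prev, hj0]
      have p3 : Up_blk (fun q => y (Sum.inl q)) o j = !b3 := by
        cases o with
        | none => rw [ho3 rfl]; rfl
        | some i =>
          have : y (Sum.inl (i, j)) ≠ b3 := fun h => e3 ⟨i, rfl, h⟩
          show y (Sum.inl (i, j)) = !b3
          revert this
          cases y (Sum.inl (i, j)) <;> cases b3 <;> simp
      have p1 := h2 t j
      rw [← ho, p2, p3] at p1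
      revert e1 hx
      rw [p1]
      cases b1 <;> cases b2 <;> cases b3 <;> simp
    · have hc' : q.1.2 t = b := hc
      refine ⟨Sum.inr (Sum.inr (t, ⟨k - 1, by omega⟩)), b, ?_, by rw [h3, hc']⟩
      simp only [Up_cl]
      rw [if_pos ⟨trivial, by omega⟩]

omit [Fintype W] in
theorem Up_blk_par (x : Fin n × Fin k → Bool) (o : Option (Fin n)) :
    Up_pp (Up_blk x o) k = Up_val (xk x) o := by
  rw [Up_pp_par]
  cases o with
  | none =>
    have h := Up_pp_par (fun _ : Fin k => false)
    rw [Up_pp_false] at h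
    exact h.symm
  | some i => rfl

omit [Fintype W] in
theorem Up_seq_ans (z : Fin n → Bool) (T : DTree (Fin n) Bool) (hT : T.DepthLE 10) :
    Up_seq (fun t : Fin 10 => Up_ans z T t) = Up_ans z T := by
  funext t
  unfold Up_seq
  split_ifs with h
  · rfl
  · exact (Up_ans_none z T 10 t hT (by omega)).symm

omit [Fintype W] in
theorem Up_main (T : (W → Bool) → DTree (Fin n) Bool) (hT : ∀ w, (T w).DepthLE 10)
    (hk : 1 ≤ k) (y : Up_K n k W → Bool) :
    Up_V T y = true ↔ ∃ q : Up_Q T, ∀ c, Up_cs T q c → Up_sat (Up_cl c) y := by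
  unfold Up_V
  rw [decide_eq_true_eq]
  constructor
  · rintro ⟨h1, h2⟩
    obtain ⟨w, hw⟩ : ∃ w : W → Bool, w = fun i => y (Sum.inr (Sum.inl i)) := ⟨_, rfl⟩
    obtain ⟨x, hx⟩ : ∃ x : Fin n × Fin k → Bool, x = fun q => y (Sum.inl q) := ⟨_, rfl⟩
    rw [← hw, ← hx] at h1
    rw [← hw, ← hx] at h2
    have hs := Up_seq_ans (xk x) (T w) (hT w)
    have hout : Up_out (T w) (Up_seq fun t : Fin 10 => Up_ans (xk x) (T w) t) = true := by
      rw [hs, Up_out_ans]
      exact h1
    refine ⟨⟨(w, fun t : Fin 10 => Up_ans (xk x) (T w) t), hout⟩, ?_⟩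
    rw [Up_one T _ y hk, ← hx]
    refine ⟨fun i => ?_, fun t j => ?_, fun t => ?_⟩
    · show y (Sum.inr (Sum.inl i)) = w i
      rw [hw]
    · show y (Sum.inr (Sum.inr (t, j))) = xor (Up_prev y t j)
        (Up_blk x (Up_path (T w) (Up_seq fun t : Fin 10 => Up_ans (xk x) (T w) t) t) j)
      rw [hs, h2]
      unfold Up_Y
      show Up_pp (Up_blk x (Up_path (T w) (Up_ans (xk x) (T w)) t)) (j.val + 1) = _
      rw [Up_pp_succ]
      have e1 : Up_ext (Up_blk x (Up_path (T w) (Up_ans (xk x) (T w)) t)) j.val =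
          Up_blk x (Up_path (T w) (Up_ans (xk x) (T w)) t) j := by
        unfold Up_ext
        rw [dif_pos j.2]
      rw [e1]
      congr 1
      unfold Up_prev
      split_ifs with hj
      · rw [h2]
        unfold Up_Y
        show _ = Up_pp _ (j.val - 1 + 1)
        rw [Nat.sub_add_cancel hj]
      · have : j.val = 0 := by omega
        rw [this, Up_pp_zero]
    · show y (Sum.inr (Sum.inr (t, ⟨k - 1, by omega⟩))) = Up_ans (xk x) (T w) t
      rw [h2, Up_ans_fix, ← Up_blk_par]
      unfold Up_Y
      show Up_pp _ (k - 1 + 1) = _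
      rw [Nat.sub_add_cancel hk]
  · rintro ⟨q, hq⟩
    rw [Up_one T q y hk] at hq
    obtain ⟨h1, h2, h3⟩ := hq
    have hw : (fun i => y (Sum.inr (Sum.inl i))) = q.1.1 := funext h1
    rw [hw]
    -- the bits are partial parities
    have hp : ∀ (t : Fin 10) (m : ℕ) (hm : m < k), y (Sum.inr (Sum.inr (t, ⟨m, hm⟩))) =
        Up_pp (Up_blk (fun q => y (Sum.inl q)) (Up_path (T q.1.1) (Up_seq q.1.2) t)) (m + 1) := by
      intro t m
      induction m with
      | zero =>
        intro hm
        rw [h2, Up_pp_succ, Up_pp_zero]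
        unfold Up_prev Up_ext
        rw [dif_neg (by simp), dif_pos hm]
      | succ m ih =>
        intro hm
        rw [h2, Up_pp_succ, ← ih (by omega)]
        unfold Up_prev Up_ext
        rw [dif_pos (by simp), dif_pos hm]
        rfl
    have ha : ∀ t, Up_seq q.1.2 t = Up_val (xk fun q => y (Sum.inl q))
        (Up_path (T q.1.1) (Up_seq q.1.2) t) := by
      intro t
      by_cases ht : t < 10
      · rw [← Up_blk_par]
        have e := hp ⟨t, ht⟩ (k - 1) (by omega)
        rw [h3, Nat.sub_add_cancel hk] at e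
        rw [← e]
        unfold Up_seq
        rw [dif_pos ht]
      · rw [Up_path_none _ 10 _ t (hT _) (by omega)]
        unfold Up_seq
        rw [dif_neg ht]
        rfl
    have hs : Up_seq q.1.2 = Up_ans (xk fun q => y (Sum.inl q)) (T q.1.1) :=
      funext (Up_ans_unique _ _ _ ha)
    refine ⟨?_, ?_⟩
    · rw [← Up_out_ans, ← hs]
      exact q.2
    · rintro ⟨t, j⟩
      rw [hp t j.val j.2]
      unfold Up_Y
      rw [hs]

theorem Up_isCkt (T : (W → Bool) → DTree (Fin n) Bool) (hT : ∀ w, (T w).DepthLE 10)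
    (hk : 1 ≤ k) (S : ℕ) (hS : 2 ^ (Fintype.card W + 11) + 100 * (n + 1) * (k + 1) ≤ S) :
    IsCkt 3 S (Up_V (k := k) T) := by
  classical
  have hw : Fintype.card W < 2 ^ Fintype.card W := Nat.lt_two_pow_self
  have e11 : 2 ^ (Fintype.card W + 11) = 2048 * 2 ^ Fintype.card W := by
    rw [pow_add]; ring
  have hpos : 1 ≤ 2 ^ Fintype.card W := Nat.one_le_two_pow
  have hnk : 100 * (n + 1) * (k + 1) = 100 * (n * k) + 100 * n + 100 * k + 100 := by ring
  refine Up_ckt S ?_ ?_ ?_ ?_ Up_cl (Up_cs T) _ (Up_main T hT hk)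
  · simp only [Fintype.card_sum, Fintype.card_prod, Fintype.card_fin]
    nlinarith
  · simp only [Fintype.card_sum, Fintype.card_prod, Fintype.card_fin, Fintype.card_bool,
      Fintype.card_option]
    have : 10 * (k * (n + 1)) * (2 * (2 * 2)) = 80 * (n * k) + 80 * k := by ring
    nlinarith
  · refine le_trans (Fintype.card_subtype_le _) ?_
    simp only [Fintype.card_prod, Fintype.card_fun, Fintype.card_bool, Fintype.card_fin]
    nlinarith
  · nlinarith

end main

/-- where the bits are read, Arthur-Merlin protocol -/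
def Up_e1 {n k r p : ℕ} :
    Up_K n k (Fin p ⊕ Fin r) → (Fin n × Fin k) ⊕ (Fin (p + 10 * k) ⊕ Fin r)
  | Sum.inl q => Sum.inl q
  | Sum.inr (Sum.inl (Sum.inl i)) => Sum.inr (Sum.inl (Fin.castAdd (10 * k) i))
  | Sum.inr (Sum.inl (Sum.inr i)) => Sum.inr (Sum.inr i)
  | Sum.inr (Sum.inr q) => Sum.inr (Sum.inl (Fin.natAdd p (finProdFinEquiv q)))

/-- where the bits are read, SBP protocol -/
def Up_e2 {n k r : ℕ} : Up_K n k (Fin r) → (Fin n × Fin k) ⊕ Fin (r + 10 * k)
  | Sum.inl q => Sum.inl q
  | Sum.inr (Sum.inl i) => Sum.inr (Fin.castAdd (10 * k) i)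
  | Sum.inr (Sum.inr q) => Sum.inr (Fin.natAdd r (finProdFinEquiv q))

theorem Up_AM {n k r p : ℕ} {f : (Fin n → Bool) → Bool} (h : HasAM f r p 10) (hk : 1 ≤ k)
    (S : ℕ) (hS : 2 ^ (p + r + 11) + 100 * (n + 1) * (k + 1) ≤ S) :
    HasAMk (fun x : Fin n × Fin k → Bool => f (xk x)) r (p + 10 * k) 3 S := by
  obtain ⟨T, hT, hyes, hno⟩ := h
  let T' : (Fin p ⊕ Fin r → Bool) → DTree (Fin n) Bool := fun w =>
    T (fun i => w (Sum.inl i)) (fun i => w (Sum.inr i))
  have hckt : IsCkt 3 S (Up_V (k := k) T') := by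
    refine Up_isCkt T' (fun w => hT _ _) hk S ?_
    rw [Fintype.card_sum, Fintype.card_fin, Fintype.card_fin]
    exact hS
  have key : ∀ (x : Fin n × Fin k → Bool) (ρ : Fin r → Bool),
      (∃ y : Fin (p + 10 * k) → Bool,
        Up_V T' (fun i => (Sum.elim x (Sum.elim y ρ)) (Up_e1 i)) = true) ↔
      ∃ y : Fin p → Bool, (T y ρ).eval (xk x) = true := by
    intro x ρ
    constructor
    · rintro ⟨y, hy⟩
      unfold Up_V at hy
      rw [decide_eq_true_eq] at hy
      exact ⟨fun i => y (Fin.castAdd (10 * k) i), hy.1⟩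
    · rintro ⟨y, hy⟩
      obtain ⟨Y, hY⟩ : ∃ Y : Fin (10 * k) → Bool,
          Y = fun m => Up_Y T' x (Sum.elim y ρ) (finProdFinEquiv.symm m) := ⟨_, rfl⟩
      refine ⟨Fin.append y Y, ?_⟩
      unfold Up_V
      rw [decide_eq_true_eq]
      have e1 : (fun i : Fin p ⊕ Fin r => (Sum.elim x (Sum.elim (Fin.append y Y) ρ))
          (Up_e1 (k := k) (n := n) (Sum.inr (Sum.inl i)))) = Sum.elim y ρ := by
        funext i
        rcases i with i | i
        · exact Fin.append_left y Y i
        · rfl
      rw [e1]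
      refine ⟨hy, fun q => ?_⟩
      have e2 : Fin.append y Y (Fin.natAdd p (finProdFinEquiv q)) = Y (finProdFinEquiv q) :=
        Fin.append_right y Y _
      have e3 : Y (finProdFinEquiv q) = Up_Y T' x (Sum.elim y ρ) q := by
        rw [hY]
        show Up_Y T' x (Sum.elim y ρ) (finProdFinEquiv.symm (finProdFinEquiv q)) = _
        rw [Equiv.symm_apply_apply]
      exact e2.trans e3
  refine ⟨fun X => Up_V T' (fun i => X (Up_e1 i)), Up_sub hckt Up_e1, ?_, ?_⟩
  · intro x hx
    have e : (fun ρ : Fin r → Bool => ∃ y : Fin (p + 10 * k) → Bool,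
        Up_V T' (fun i => (Sum.elim x (Sum.elim y ρ)) (Up_e1 i)) = true) =
        fun ρ => ∃ y, (T y ρ).eval (xk x) = true := funext fun ρ => propext (key x ρ)
    rw [e]
    exact hyes _ hx
  · intro x hx
    have e : (fun ρ : Fin r → Bool => ∃ y : Fin (p + 10 * k) → Bool,
        Up_V T' (fun i => (Sum.elim x (Sum.elim y ρ)) (Up_e1 i)) = true) =
        fun ρ => ∃ y, (T y ρ).eval (xk x) = true := funext fun ρ => propext (key x ρ)
    rw [e]
    exact hno _ hx

theorem Up_SB {n k r s : ℕ} {f : (Fin n → Bool) → Bool} (h : HasSBP f r s 10) (hk : 1 ≤ k)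
    (S : ℕ) (hS : 2 ^ (r + 11) + 100 * (n + 1) * (k + 1) ≤ S) :
    HasSBu (fun x : Fin n × Fin k → Bool => f (xk x)) (r + 10 * k) (s + 10 * k) 3 S := by
  obtain ⟨T, hT, hyes, hno⟩ := h
  have hckt : IsCkt 3 S (Up_V (k := k) T) := by
    refine Up_isCkt T hT hk S ?_
    rw [Fintype.card_fin]
    exact hS
  have hV : ∀ (x : Fin n × Fin k → Bool) (ρ : Fin (r + 10 * k) → Bool),
      Up_V T (fun i => (Sum.elim x ρ) (Up_e2 i)) = true ↔
      (T fun i => ρ (Fin.castAdd (10 * k) i)).eval (xk x) = true ∧
        ∀ q, ρ (Fin.natAdd r (finProdFinEquiv q)) =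
          Up_Y T x (fun i => ρ (Fin.castAdd (10 * k) i)) q := by
    intro x ρ
    unfold Up_V
    rw [decide_eq_true_eq]
    rfl
  have key : ∀ x : Fin n × Fin k → Bool,
      prob (r + 10 * k) (fun ρ => Up_V T (fun i => (Sum.elim x ρ) (Up_e2 i)) = true) =
      prob r (fun ρ => (T ρ).eval (xk x) = true) * (1 / 2) ^ (10 * k) := by
    intro x
    have hc : Nat.card {ρ : Fin (r + 10 * k) → Bool //
        Up_V T (fun i => (Sum.elim x ρ) (Up_e2 i)) = true} =
        Nat.card {ρ : Fin r → Bool // (T ρ).eval (xk x) = true} := by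
      obtain ⟨Y, hY⟩ : ∃ Y : (Fin r → Bool) → Fin (10 * k) → Bool,
          Y = fun ρ m => Up_Y T x ρ (finProdFinEquiv.symm m) := ⟨_, rfl⟩
      have hl : ∀ ρ : Fin r → Bool,
          (fun i => Fin.append ρ (Y ρ) (Fin.castAdd (10 * k) i)) = ρ :=
        fun ρ => funext fun i => Fin.append_left ρ (Y ρ) i
      have h1 : ∀ ρ : Fin r → Bool, (T ρ).eval (xk x) = true →
          Up_V T (fun i => (Sum.elim x (Fin.append ρ (Y ρ))) (Up_e2 i)) = true := by
        intro ρ h
        rw [hV, hl]
        refine ⟨h, fun q => ?_⟩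
        rw [Fin.append_right, hY]
        show Up_Y T x ρ (finProdFinEquiv.symm (finProdFinEquiv q)) = _
        rw [Equiv.symm_apply_apply]
      have h2 : ∀ ρ : Fin (r + 10 * k) → Bool,
          Up_V T (fun i => (Sum.elim x ρ) (Up_e2 i)) = true →
          Fin.append (fun i => ρ (Fin.castAdd (10 * k) i))
            (Y fun i => ρ (Fin.castAdd (10 * k) i)) = ρ := by
        intro ρ h
        rw [hV] at h
        funext m
        refine Fin.addCases (fun i => ?_) (fun i => ?_) m
        · rw [Fin.append_left]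
        · rw [Fin.append_right, hY]
          show Up_Y T x _ (finProdFinEquiv.symm i) = _
          rw [← h.2, Equiv.apply_symm_apply]
      exact Nat.card_congr
        { toFun := fun ρ => ⟨fun i => ρ.1 (Fin.castAdd (10 * k) i), ((hV x ρ.1).1 ρ.2).1⟩
          invFun := fun ρ => ⟨Fin.append ρ.1 (Y ρ.1), h1 ρ.1 ρ.2⟩
          left_inv := fun ρ => Subtype.ext (h2 ρ.1 ρ.2)
          right_inv := fun ρ => Subtype.ext (hl ρ.1) }
    unfold prob
    rw [hc, pow_add, one_div, inv_pow]
    rw [div_mul_eq_div_div, ← div_eq_mul_inv]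
  refine ⟨fun X => Up_V T (fun i => X (Up_e2 i)), Up_sub hckt Up_e2, ?_, ?_⟩
  · intro x hx
    rw [key, pow_add, ← mul_assoc]
    exact mul_le_mul_of_nonneg_right (hyes _ hx) (by positivity)
  · intro x hx
    rw [key, pow_add]
    exact mul_le_mul_of_nonneg_right (hno _ hx) (by positivity)

end Pool.Agent.CD
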