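import Pool.Agent.Lib.CD.SpecB
import Pool.Agent.Lib.CD.Up

/-!
Theorem CD (note 5285), section 6: the statements `sUpA`, `sUpS` of `SpecB.lean`, from `Up.lean`.
-/

namespace Pool.Agent.CD

theorem tUpA : sUpA := by
  intro n k r p f hk h
  refine Up_AM h hk _ ?_
  have h1 : 2 ^ (p + r + 11) ≤ 2 ^ (p + r + 20) := Nat.pow_le_pow_right (by norm_num) (by omega)
  have h2 : 100 * (n + 1) * (k + 1) ≤ 1000 * (n + 1) * (k + 1) := by gcongr; norm_num
  omega

theorem tUpS : sUpS := by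
  intro n k r s f hk h
  refine Up_SB h hk _ ?_
  have h1 : 2 ^ (r + 11) ≤ 2 ^ (r + 20) := Nat.pow_le_pow_right (by norm_num) (by omega)
  have h2 : 100 * (n + 1) * (k + 1) ≤ 1000 * (n + 1) * (k + 1) := by gcongr; norm_num
  omega

end Pool.Agent.CD
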